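import Pool.Agent.Lib.H8SR.D8

/-!
# H8SR, assembly 1: the matching points
-/

namespace H8SR

open MeasureTheory Set Filter Topology

noncomputable section

/-- Three linear equations in four unknowns. -/
theorem exists_weights (u v w : Fin 4 → ℝ) : ∃ α : Fin 4 → ℝ, α ≠ 0 ∧
    ∑ j, α j * u j = 0 ∧ ∑ j, α j * v j = 0 ∧ ∑ j, α j * w j = 0 := by
  let φ : (Fin 4 → ℝ) →ₗ[ℝ] (Fin 3 → ℝ) :=
    { toFun := fun α => ![∑ j, α j * u j, ∑ j, α j * v j, ∑ j, α j * w j]
      map_add' := by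
        intro x y
        ext k
        fin_cases k <;> simp [Fin.sum_univ_four] <;> ring
      map_smul' := by
        intro r x
        ext k
        fin_cases k <;> simp [Fin.sum_univ_four] <;> ring }
  have hk : LinearMap.ker φ ≠ ⊥ := by
    apply LinearMap.ker_ne_bot_of_finrank_lt
    simp
  obtain ⟨α, hα, hne⟩ := (Submodule.ne_bot_iff _).1 hk
  have h := LinearMap.mem_ker.1 hα
  refine ⟨α, hne, ?_, ?_, ?_⟩
  · exact congrFun h 0
  · exact congrFun h 1
  · exact congrFun h 2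

/-- The starting point of the matching: position `s` in the direction `i`, positions `x0` in the family
`a`, moments `N`, node value of the chains. -/
def g0f (a : Fin 6) (i : Fin 3) (s : ℝ) (x0 : Fin 4 → Fin 4 → ℝ) (N : Fin 4 → Fin 4 → Fin 4 → ℝ) :
    SRG := fun k => match k with
  | .q i' => if i' = i then s else 0
  | .x β => if β.1 = a then x0 β.2.1 β.2.2 else 0
  | .m β i' k => if β.1 = a ∧ i' = 2 then N β.2.1 β.2.2 k.succ else 0
  | .z c j n => if c = a ∧ n = 0 then ndz (N j) else 0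
  | _ => 0

variable {a : Fin 6} {i : Fin 3} {s : ℝ} {x0 : Fin 4 → Fin 4 → ℝ} {N : Fin 4 → Fin 4 → Fin 4 → ℝ}

theorem g0f_sf (hi : lv a i = 1) : sf a (g0f a i s x0 N) = s := by
  have : sf a (g0f a i s x0 N) = ∑ i', lv a i' * (if i' = i then s else 0) := rfl
  rw [this]
  simp [hi]

theorem g0f_x (j e : Fin 4) : g0f a i s x0 N (.x (a, j, e)) = x0 j e := by
  show (if a = a then x0 j e else 0) = x0 j e
  rw [if_pos rfl]

theorem g0f_z (j : Fin 4) : g0f a i s x0 N (.z a j 0) = ndz (N j) := by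
  show (if a = a ∧ (0 : Fin 5) = 0 then ndz (N j) else 0) = _
  rw [if_pos ⟨rfl, rfl⟩]

theorem g0f_z1 (j : Fin 4) : g0f a i s x0 N (.z a j 1) = 0 := by
  show (if a = a ∧ (1 : Fin 5) = 0 then ndz (N j) else 0) = _
  rw [if_neg (by simp)]

theorem g0f_mat2 (hN : ∀ j e, N j e 0 = 0) (j e : Fin 4) : mat (a, j, e) (g0f a i s x0 N) 2 = N j e := by
  funext k
  refine Fin.cases ?_ (fun k => ?_) k
  · show (0:ℝ) = _
    rw [hN]
  · show (if a = a ∧ (2 : Fin 3) = 2 then N j e k.succ else 0) = _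
    rw [if_pos ⟨rfl, rfl⟩]

theorem g0f_mat1 (j e : Fin 4) : mat (a, j, e) (g0f a i s x0 N) 1 = 0 := by
  funext k
  refine Fin.cases ?_ (fun k => ?_) k
  · show ∑ i', lv a i' * (0:ℝ) = 0
    simp
  · show (if a = a ∧ (1 : Fin 3) = 2 then N j e k.succ else 0) = _
    rw [if_neg (by simp)]
    rfl

theorem g0f_psi (j : Fin 4) : psi a j (g0f a i s x0 N) = 0 := by
  unfold psi
  rw [g0f_z1]
  simp only [g0f_mat1]
  simp [kr]

theorem g0_isNd {α : Fin 4 → ℝ} {A0 p : Fin 4 → Fin 4 → ℝ}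
    (h : ∀ j e, N j e = nd (gg e) (A0 j e) 0 (p j e)) : IsNd a α A0 0 p (g0f a i s x0 N) where
  mom := fun j e => by
    rw [g0f_mat2 (fun j e => by rw [h j e]; rfl), h j e]
  zz := fun j => by
    rw [g0f_z]
    congr 1
    funext e
    exact h j e
  ps := by
    simp [g0f_psi]

theorem g01_isNd {α : Fin 4 → ℝ} {A0 A1 p : Fin 4 → Fin 4 → ℝ} {τ : ℝ} (hi : lv a i = 1)
    (h : ∀ j e, N j e = nd (gg e) (A0 j e) 0 (p j e)) {g : SRG}
    (h1 : ∀ j e, nd (gg e) (A1 j e) τ (p j e) = nd (gg e) (A0 j e) 0 (p j e) +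
      tx (x0 j e) (ts s (mat (a, j, e) g) 2))
    (h2 : ∀ j, ndz (fun e => nd (gg e) (A1 j e) τ (p j e)) =
      ndz (fun e => nd (gg e) (A0 j e) 0 (p j e)) + zs s (fun n => g (.z a j n)) 0 +
        ∑ e, ep e * (p4 (x0 j e) (ts s (mat (a, j, e) g) 2) +
          gg e / 6 * kr (tx (x0 j e) (ts s (mat (a, j, e) g) 2)) (nd (gg e) (A0 j e) 0 (p j e))))
    (h3 : ∑ j, α j * psi a j (g0f a i s x0 N * g) = 0) :
    IsNd a α A1 τ p (g0f a i s x0 N * g) where
  mom := fun j e => by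
    rw [mat_mul]
    show mat (a, j, e) (g0f a i s x0 N) 2 + tb (sf a (g0f a i s x0 N)) (g0f a i s x0 N (.x (a, j, e)))
      (mat (a, j, e) g) 2 = _
    rw [g0f_mat2 (fun j e => by rw [h j e]; rfl), g0f_sf hi, g0f_x, h1 j e, h j e]
    rfl
  zz := fun j => by
    rw [mul_z, g0f_z, g0f_sf hi, h2 j]
    have e1 : ndz (N j) = ndz (fun e => nd (gg e) (A0 j e) 0 (p j e)) := by
      congr 1
      funext e
      exact h j e
    rw [e1, add_assoc]
    congr 2
    refine Finset.sum_congr rfl fun e _ => ?_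
    congr 2
    · show p4 _ _ = _
      rw [g0f_x]
    · rw [g0f_x]
      congr 1
      show kr _ _ = _
      rw [g0f_mat2 (fun j e => by rw [h j e]; rfl), h j e]
      rfl
  ps := h3

end

end H8SR
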