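import Pool.Agent.Lib.H8SR.B3aux

/-!
# Chunk B3: `Zs a α ⊆ crit (lamS a α)`

`mem_crit_of_ad` with the following `v` (`M = mat β g`; all verified with exact arithmetic):
* `k = t` or `k = lq i`: `v = Ls g (ev k) - (the element with coordinates z c j n equal to
  ∑ e, ep e * gg e / 6 * kap (mat (c,j,e) g) (mat (c,j,e) w) n)`, `w = Ls g (ev k)` without `z`
  (positions `0`).  Then `v (z a j 0) = sf a g ^ 2 * Fp a j g (xs a j g)` for `k = t` and
  `2 * sf a g * lv a i * Fp a j g (xs a j g)` for `k = lq i`.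
* `k = x β`: `v = ev (x β) - (level 1 part of BB (ev (x β)) g) - (z-part)`, where `v1 = ev (x β) - level 1`
  and the z-part is that of `BB v1 g`; `v (z a j 0) = - ep e * chi β g` if `β = (a,j,e)` and `0` if
  `β.1 ≠ a` or the sector is not `j`.
* `k = q i`: in the same way; `v (z a j 0) = - lv a i * psi a j g`.
In all cases `v` has the form `v0 + v1 + v2` (levels 0, 1, 2) with `v0 + v1 = ev k + ...` and
`BB v g = BB (v0 + v1) g` because `BB v g` does not depend on the `z`-coordinates of `v`; so solve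
level by level: `v1 = (Ls g (ev k))_1 - (BB v0 g)_1`, `v2 = (Ls g (ev k))_2 - (BB (v0+v1) g)_2`.
Then `lamS a α v = 0` for `g ∈ Zs a α`.
-/

namespace H8SR

open MeasureTheory Set Filter Topology
open scoped Manifold ContDiff

noncomputable section

theorem b3_ev (k l : Idx) : ev k l = if l = k then 1 else 0 := by
  unfold ev
  rw [Pi.single_apply]

theorem b3_mat_t (β : Blk) : mat β (ev .t) =
    fun i k => (![1, 0, 0] : Fin 3 → ℝ) i * (![1, 0, 0, 0] : Fin 4 → ℝ) k := by
  funext i k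
  refine Fin.cases ?_ (fun k => ?_) k
  · have h0 : mat β (ev .t) i 0 = qm β.1 (ev .t) i := rfl
    rw [h0]
    fin_cases i <;> simp [qm, b3_ev]
  · have h0 : mat β (ev .t) i k.succ = ev .t (.m β i k) := rfl
    rw [h0, b3_ev]
    fin_cases k <;> simp

theorem b3_mat_lq (β : Blk) (l : Fin 3) : mat β (ev (.lq l)) =
    fun i k => (![0, lv β.1 l, 0] : Fin 3 → ℝ) i * (![1, 0, 0, 0] : Fin 4 → ℝ) k := by
  funext i k
  refine Fin.cases ?_ (fun k => ?_) k
  · have h0 : mat β (ev (.lq l)) i 0 = qm β.1 (ev (.lq l)) i := rfl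
    rw [h0]
    fin_cases i <;> simp [qm, b3_ev]
  · have h0 : mat β (ev (.lq l)) i k.succ = ev (.lq l) (.m β i k) := rfl
    rw [h0, b3_ev]
    fin_cases k <;> simp

theorem b3_mat_x (β β' : Blk) : mat β (ev (.x β')) = 0 := by
  funext i k
  refine Fin.cases ?_ (fun k => ?_) k
  · have h0 : mat β (ev (.x β')) i 0 = qm β.1 (ev (.x β')) i := rfl
    rw [h0]
    fin_cases i <;> simp [qm, b3_ev]
  · have h0 : mat β (ev (.x β')) i k.succ = ev (.x β') (.m β i k) := rfl
    rw [h0, b3_ev]
    simp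

theorem b3_mat_q (β : Blk) (l : Fin 3) : mat β (ev (.q l)) = 0 := by
  funext i k
  refine Fin.cases ?_ (fun k => ?_) k
  · have h0 : mat β (ev (.q l)) i 0 = qm β.1 (ev (.q l)) i := rfl
    rw [h0]
    fin_cases i <;> simp [qm, b3_ev]
  · have h0 : mat β (ev (.q l)) i k.succ = ev (.q l) (.m β i k) := rfl
    rw [h0, b3_ev]
    simp

/-- the coordinate `z a j 0` of `Ls g h` -/
theorem b3_LL_z (g h : SRG) (a : Fin 6) (j : Fin 4) (hz : ∀ n, h (.z a j n) = 0) :
    Ls g h (.z a j 0) = ∑ e : Fin 4, ep e * (p4 (g (.x (a, j, e)))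
      (ts (sf a g) (mat (a, j, e) h) 2) + gg e / 6 *
        kr (tb (sf a g) (g (.x (a, j, e))) (mat (a, j, e) h) 2) (mat (a, j, e) g 2)) := by
  have h1 : Ls g h (.z a j 0) = zs (sf a g) (fun n => h (.z a j n)) 0
      + ∑ e : Fin 4, ep e * (st (sf a g) (g (.x (a, j, e))) (mat (a, j, e) h) 0
        + gg e / 6 * kap (tb (sf a g) (g (.x (a, j, e))) (mat (a, j, e) h)) (mat (a, j, e) g) 0) :=
    rfl
  rw [h1]
  have h2 : (fun n => h (.z a j n)) = 0 := funext hz
  rw [h2, zs_zero_right]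
  simp [st, kap]

theorem b3_kr_swap (f f' : Fin 4 → ℝ) : kr f f' = - kr f' f := by
  unfold kr
  ring

/-- the case of a horizontal vector of level one with coordinates `t`, `lq` -/
theorem b3_case1 (g h : SRG) (a : Fin 6) (j : Fin 4) (c : ℝ) (hq : ∀ i, h (.q i) = 0)
    (hx : ∀ β, h (.x β) = 0) (hz : ∀ n, h (.z a j n) = 0)
    (hm : ∀ e, ts (sf a g) (mat (a, j, e) h) 2 = ![c, 0, 0, 0]) :
    b3_sol (Ls g h) g (.z a j 0) = c * Fp a j g (xs a j g) := by
  have hs : sf a (Ls g h) = 0 := by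
    show sf a (LL g h) = 0
    rw [sf_LL]
    simp [sf, hq]
  have hx' : ∀ β, Ls g h (.x β) = 0 := hx
  rw [b3_sol_z, b3_LL_z g h a j hz, hs, zero_mul, sub_zero, ← Finset.sum_sub_distrib]
  unfold Fp
  rw [Finset.mul_sum]
  refine Finset.sum_congr rfl fun e _ => ?_
  have hrow : tb (sf a g) (g (.x (a, j, e))) (mat (a, j, e) h) 2 =
      ![c, g (.x (a, j, e)) * c, g (.x (a, j, e)) ^ 2 * c, g (.x (a, j, e)) ^ 3 * c] := by
    funext k
    rw [tb_apply, hm e]
    fin_cases k <;> simp [tx]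
  have hrow2 : mat (a, j, e) (b3_s1 (Ls g h) g) 2 =
      ![c, g (.x (a, j, e)) * c, g (.x (a, j, e)) ^ 2 * c, g (.x (a, j, e)) ^ 3 * c] := by
    funext k
    rw [b3_mat_s1]
    have h1 : mat (a, j, e) (Ls g h) = tb (sf a g) (g (.x (a, j, e))) (mat (a, j, e) h) :=
      mat_LL (a, j, e) g h
    have h2 : tbD (sf (a, j, e).1 (Ls g h)) (Ls g h (.x (a, j, e))) (mat (a, j, e) g) 2 k = 0 := by
      have h3 : sf (a, j, e).1 (Ls g h) = 0 := hs
      rw [h3, hx']
      simp only [tbD]
      fin_cases k <;> simp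
    rw [h2, h1, hrow, sub_zero]
  rw [hrow, hrow2, hm e, hx']
  simp only [kr, p4, fb, xs]
  simp
  ring

/-- the case of a position -/
theorem b3_case0 (g h : SRG) (a : Fin 6) (j : Fin 4) (hm : ∀ β, mat β h = 0)
    (hz : ∀ n, h (.z a j n) = 0) :
    b3_sol (Ls g h) g (.z a j 0) = - (sf a h * psi a j g) -
      ∑ e, ep e * (h (.x (a, j, e)) * chi (a, j, e) g) := by
  have hs : sf a (Ls g h) = sf a h := sf_LL a g h
  have hx' : ∀ β, Ls g h (.x β) = h (.x β) := fun β => rfl
  rw [b3_sol_z, b3_LL_z g h a j hz, hs]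
  unfold psi
  rw [mul_add, Finset.mul_sum, neg_add, ← Finset.sum_neg_distrib]
  have h1 : ∀ e : Fin 4, ep e * (p4 (g (.x (a, j, e))) (ts (sf a g) (mat (a, j, e) h) 2) + gg e / 6 *
        kr (tb (sf a g) (g (.x (a, j, e))) (mat (a, j, e) h) 2) (mat (a, j, e) g 2)) = 0 := by
    intro e
    rw [hm, tb_zero]
    simp [kr, p4, ts]
  rw [Finset.sum_eq_zero fun e _ => h1 e, zero_sub, sub_eq_add_neg, sub_eq_add_neg, add_assoc,
    ← Finset.sum_neg_distrib, ← Finset.sum_neg_distrib, ← Finset.sum_add_distrib]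
  congr 1
  refine Finset.sum_congr rfl fun e _ => ?_
  have hrow2 : mat (a, j, e) (b3_s1 (Ls g h) g) 2 = fun k =>
      - tbD (sf a h) (h (.x (a, j, e))) (mat (a, j, e) g) 2 k := by
    funext k
    rw [b3_mat_s1]
    have h1 : mat (a, j, e) (Ls g h) = 0 := by
      have h2 : mat (a, j, e) (Ls g h) = tb (sf a g) (g (.x (a, j, e))) (mat (a, j, e) h) :=
        mat_LL (a, j, e) g h
      rw [h2, hm, tb_zero]
    rw [h1]
    show (0 : ℝ) - _ = _
    rw [zero_sub]
    rfl
  rw [hrow2, hx']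
  simp only [kr, chi, tbD]
  simp
  ring

/-- `lamS` as a linear map -/
def b3_lam (a : Fin 6) (α : Fin 4 → ℝ) : SRG →ₗ[ℝ] ℝ where
  toFun := lamS a α
  map_add' g h := by
    unfold lamS
    rw [← Finset.sum_add_distrib]
    refine Finset.sum_congr rfl fun j _ => ?_
    rw [add_apply]
    ring
  map_smul' r g := by
    unfold lamS
    rw [RingHom.id_apply, smul_eq_mul, Finset.mul_sum]
    refine Finset.sum_congr rfl fun j _ => ?_
    rw [smul_apply]
    ring

theorem Zs_sub_crit (a : Fin 6) (α : Fin 4 → ℝ) : Zs a α ⊆ SRP.crit (lamS a α) := by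
  intro g hg
  obtain ⟨h1, h2, h3⟩ := hg
  have key : g ∈ SRP.crit (b3_lam a α) := by
    apply mem_crit_of_ad
    intro k hk
    refine ⟨b3_sol (Ls g (ev k)) g, b3_sol_spec _ _, ?_⟩
    show lamS a α (b3_sol (Ls g (ev k)) g) = 0
    unfold lamS
    cases k with
    | q l =>
      have h4 : ∀ j, b3_sol (Ls g (ev (.q l))) g (.z a j 0) = - (lv a l * psi a j g) := by
        intro j
        rw [b3_case0 g (ev (.q l)) a j (fun β => b3_mat_q β l) (fun n => by simp [b3_ev])]
        have e1 : sf a (ev (.q l)) = lv a l := by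
          simp [sf, b3_ev]
        rw [e1]
        simp [b3_ev]
      simp only [h4]
      calc ∑ j, α j * - (lv a l * psi a j g) = - (lv a l) * ∑ j, α j * psi a j g := by
            rw [Finset.mul_sum]
            exact Finset.sum_congr rfl fun j _ => by ring
        _ = 0 := by rw [h3, mul_zero]
    | x β =>
      refine Finset.sum_eq_zero fun j _ => ?_
      rw [b3_case0 g (ev (.x β)) a j (fun β' => b3_mat_x β' β) (fun n => by simp [b3_ev])]
      have e1 : sf a (ev (.x β)) = 0 := by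
        simp [sf, b3_ev]
      rw [e1, Finset.sum_eq_zero fun e _ => by rw [h2 j e]; ring]
      simp
    | t =>
      have h4 : ∀ j, b3_sol (Ls g (ev .t)) g (.z a j 0) =
          sf a g ^ 2 * Fp a j g (xs a j g) := by
        intro j
        refine b3_case1 g (ev .t) a j _ (fun i => by simp [b3_ev]) (fun β => by simp [b3_ev])
          (fun n => by simp [b3_ev]) (fun e => ?_)
        rw [b3_mat_t]
        funext k
        fin_cases k <;> simp [ts]
      simp only [h4]
      calc ∑ j, α j * (sf a g ^ 2 * Fp a j g (xs a j g)) =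
          sf a g * (sf a g * ∑ j, α j * Fp a j g (xs a j g)) := by
            rw [Finset.mul_sum, Finset.mul_sum]
            exact Finset.sum_congr rfl fun j _ => by ring
        _ = 0 := by rw [h1, mul_zero]
    | lq l =>
      have h4 : ∀ j, b3_sol (Ls g (ev (.lq l))) g (.z a j 0) =
          (2 * sf a g * lv a l) * Fp a j g (xs a j g) := by
        intro j
        refine b3_case1 g (ev (.lq l)) a j _ (fun i => by simp [b3_ev]) (fun β => by simp [b3_ev])
          (fun n => by simp [b3_ev]) (fun e => ?_)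
        rw [b3_mat_lq]
        funext k
        fin_cases k <;> simp [ts]
      simp only [h4]
      calc ∑ j, α j * (2 * sf a g * lv a l * Fp a j g (xs a j g)) =
          2 * lv a l * (sf a g * ∑ j, α j * Fp a j g (xs a j g)) := by
            rw [Finset.mul_sum, Finset.mul_sum]
            exact Finset.sum_congr rfl fun j _ => by ring
        _ = 0 := by rw [h1, mul_zero]
    | sq c => simp [isHor] at hk
    | m β i k => simp [isHor] at hk
    | z c j n => simp [isHor] at hk
  exact key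

theorem contDiff_lamS (a : Fin 6) (α : Fin 4 → ℝ) : ContDiff ℝ ∞ (lamS a α) :=
  (LinearMap.toContinuousLinearMap (b3_lam a α)).contDiff

theorem fderiv_lamS_ne (a : Fin 6) {α : Fin 4 → ℝ} (hα : α ≠ 0) : fderiv ℝ (lamS a α) 1 ≠ 0 := by
  have h1 : fderiv ℝ (lamS a α) 1 = LinearMap.toContinuousLinearMap (b3_lam a α) :=
    (LinearMap.toContinuousLinearMap (b3_lam a α)).fderiv
  rw [h1]
  intro h2
  apply hα
  funext j
  have h3 := congrArg (fun T : SRG →L[ℝ] ℝ => T (ev (.z a j 0))) h2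
  have h4 : lamS a α (ev (.z a j 0)) = 0 := h3
  unfold lamS at h4
  simpa [b3_ev] using h4

end

end H8SR
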