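import Pool.Agent.Lib.H8SR.B2
import Pool.Agent.Lib.H8SR.B3

/-!
# Chunk B4: `Zq l ⊆ crit (lamQ l)`

`∑ c, cq l c * (∑ i, lv c i * q i) * (∑ i, lv c i * r i) = (∑ i, l i * q i) * (∑ i, l i * r i)` (`ring`).
`mem_crit_of_ad` with (only the coordinates `sq c` of `v` matter, the `z`-coordinates are chosen as in
chunk B3): `k = t`: `lamQ l v = l(q_g)^2`; `k = lq i`: `2 l(q_g) l i`; `k = q i`: `-2 l i * L_g(l)`;
`k = x β`: `0`.
-/

namespace H8SR

open MeasureTheory Set Filter Topology
open scoped Manifold ContDiff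

noncomputable section

theorem cq_spec (l q r : Fin 3 → ℝ) :
    ∑ c, cq l c * ((∑ i, lv c i * q i) * (∑ i, lv c i * r i)) =
      (∑ i, l i * q i) * (∑ i, l i * r i) := by
  simp [Fin.sum_univ_succ, cq, lv]
  ring

/-- `lamQ` as a linear map -/
def b4_lam (l : Fin 3 → ℝ) : SRG →ₗ[ℝ] ℝ where
  toFun := lamQ l
  map_add' g h := by
    unfold lamQ
    rw [← Finset.sum_add_distrib]
    refine Finset.sum_congr rfl fun j _ => ?_
    rw [add_apply]
    ring
  map_smul' r g := by
    unfold lamQ
    rw [RingHom.id_apply, smul_eq_mul, Finset.mul_sum]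
    refine Finset.sum_congr rfl fun j _ => ?_
    rw [smul_apply]
    ring

/-- the coordinate `sq c` of the solution -/
theorem b4_sq (g h : SRG) (c : Fin 6) : b3_sol (Ls g h) g (.sq c) =
    h (.sq c) + 2 * sf c g * qm c h 1 + sf c g ^ 2 * h .t - 2 * sf c h * qm c g 1 := by
  have h1 : b3_sol (Ls g h) g (.sq c) = Ls g h (.sq c) - 2 * sf c (Ls g h) * qm c g 1 := rfl
  have h2 : sf c (Ls g h) = sf c h := sf_LL c g h
  rw [h1, h2]
  rfl

theorem Zq_sub_crit (l : Fin 3 → ℝ) : Zq l ⊆ SRP.crit (lamQ l) := by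
  intro g hg
  obtain ⟨h1, h2⟩ := hg
  have key : g ∈ SRP.crit (b4_lam l) := by
    apply mem_crit_of_ad
    intro k hk
    refine ⟨b3_sol (Ls g (ev k)) g, b3_sol_spec _ _, ?_⟩
    show lamQ l (b3_sol (Ls g (ev k)) g) = 0
    unfold lamQ
    simp only [b4_sq]
    cases k with
    | q i =>
      have h3 := cq_spec l (fun j => if j = i then 1 else 0) (fun j => g (.lq j))
      rw [h2, mul_zero] at h3
      have h4 : ∀ c, cq l c * (ev (.q i) (.sq c) + 2 * sf c g * qm c (ev (.q i)) 1 +
          sf c g ^ 2 * ev (.q i) .t - 2 * sf c (ev (.q i)) * qm c g 1) =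
          (-2) * (cq l c * ((∑ j, lv c j * (if j = i then 1 else 0)) *
            (∑ j, lv c j * g (.lq j)))) := by
        intro c
        have e1 : sf c (ev (.q i)) = ∑ j, lv c j * (if j = i then 1 else 0) := by
          unfold sf
          refine Finset.sum_congr rfl fun j _ => ?_
          rw [b3_ev]
          simp
        have e2 : qm c g 1 = ∑ j, lv c j * g (.lq j) := rfl
        have e3 : qm c (ev (.q i)) 1 = 0 := by simp [qm, b3_ev]
        rw [e1, e2, e3, b3_ev, b3_ev]
        simp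
        ring
      rw [Finset.sum_congr rfl fun c _ => h4 c, ← Finset.mul_sum, h3, mul_zero]
    | x β =>
      refine Finset.sum_eq_zero fun c _ => ?_
      have e1 : sf c (ev (.x β)) = 0 := by simp [sf, b3_ev]
      have e3 : qm c (ev (.x β)) 1 = 0 := by simp [qm, b3_ev]
      rw [e1, e3, b3_ev, b3_ev]
      simp
    | t =>
      have h3 := cq_spec l (fun j => g (.q j)) (fun j => g (.q j))
      rw [h1, mul_zero] at h3
      have h4 : ∀ c, cq l c * (ev .t (.sq c) + 2 * sf c g * qm c (ev .t) 1 +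
          sf c g ^ 2 * ev .t .t - 2 * sf c (ev .t) * qm c g 1) =
          cq l c * ((∑ j, lv c j * g (.q j)) * (∑ j, lv c j * g (.q j))) := by
        intro c
        have e1 : sf c (ev .t) = 0 := by simp [sf, b3_ev]
        have e3 : qm c (ev .t) 1 = 0 := by simp [qm, b3_ev]
        have e4 : sf c g = ∑ j, lv c j * g (.q j) := rfl
        rw [e1, e3, b3_ev, b3_ev, ← e4, if_neg (by simp), if_pos rfl]
        ring
      rw [Finset.sum_congr rfl fun c _ => h4 c, h3]
    | lq i =>
      have h3 := cq_spec l (fun j => g (.q j)) (fun j => if j = i then 1 else 0)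
      rw [h1, zero_mul] at h3
      have h4 : ∀ c, cq l c * (ev (.lq i) (.sq c) + 2 * sf c g * qm c (ev (.lq i)) 1 +
          sf c g ^ 2 * ev (.lq i) .t - 2 * sf c (ev (.lq i)) * qm c g 1) =
          2 * (cq l c * ((∑ j, lv c j * g (.q j)) *
            (∑ j, lv c j * (if j = i then 1 else 0)))) := by
        intro c
        have e1 : sf c (ev (.lq i)) = 0 := by simp [sf, b3_ev]
        have e3 : qm c (ev (.lq i)) 1 = ∑ j, lv c j * (if j = i then 1 else 0) := by
          show ∑ j, lv c j * ev (.lq i) (.lq j) = _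
          refine Finset.sum_congr rfl fun j _ => ?_
          rw [b3_ev]
          simp
        have e4 : sf c g = ∑ j, lv c j * g (.q j) := rfl
        rw [e1, e3, b3_ev, b3_ev, ← e4]
        simp
        ring
      rw [Finset.sum_congr rfl fun c _ => h4 c, ← Finset.mul_sum, h3, mul_zero]
    | sq c => simp [isHor] at hk
    | m β i k => simp [isHor] at hk
    | z c j n => simp [isHor] at hk
  exact key

theorem contDiff_lamQ (l : Fin 3 → ℝ) : ContDiff ℝ ∞ (lamQ l) :=
  (LinearMap.toContinuousLinearMap (b4_lam l)).contDiff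

theorem fderiv_lamQ_ne {l : Fin 3 → ℝ} (hl : l ≠ 0) : fderiv ℝ (lamQ l) 1 ≠ 0 := by
  have h1 : fderiv ℝ (lamQ l) 1 = LinearMap.toContinuousLinearMap (b4_lam l) :=
    (LinearMap.toContinuousLinearMap (b4_lam l)).fderiv
  rw [h1]
  intro h2
  have h3 : ∀ c, cq l c = 0 := by
    intro c
    have h3 := congrArg (fun T : SRG →L[ℝ] ℝ => T (ev (.sq c))) h2
    have h4 : lamQ l (ev (.sq c)) = 0 := h3
    unfold lamQ at h4
    simpa [b3_ev] using h4
  apply hl
  have h5 := cq_spec l l l
  rw [Finset.sum_eq_zero fun c _ => by rw [h3 c, zero_mul]] at h5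
  have h6 : ∑ i, l i * l i = 0 := mul_self_eq_zero.1 h5.symm
  funext i
  have h7 := (Finset.sum_eq_zero_iff_of_nonneg fun i _ => mul_self_nonneg (l i)).1 h6 i
    (Finset.mem_univ i)
  exact mul_self_eq_zero.1 h7

end

end H8SR
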