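import Pool.Agent.Lib.H8SR.B2
import Pool.Agent.Lib.H80A.PG8

/-!
# Chunk B5: bracket generation

`bracket_BB`: `H80A.bracket_eq`, `fderiv (fun h => g * h) 0 w = Ls g w` (the map is affine) and
`fderiv_Ls`.  With `[v, w] = BB v w - BB w v` and `e_k = ev k`:
* `[e_{q i}, e_{lq k}] = 2 ∑ c, lv c i * lv c k • e_{sq c}`; the six of them span all `e_{sq c}`;
* `[e_{x β}, e_t] = e_{m β 0 0}`, `[e_{x β}, e_{m β 0 0}] = 2 e_{m β 0 1}`,
  `[e_{x β}, e_{m β 0 1}] = 3 e_{m β 0 2}`;
* `[e_{q i}, e_{m β 0 k}] = lv β.1 i e_{m β 1 k}`, `[e_{q i}, e_{m β 1 k}] = 2 lv β.1 i e_{m β 2 k}`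
  (choose `i` with `lv β.1 i = 1`);
* for `β = (c, j, e)`: `[e_{x β}, e_{m β 2 2}] = ep e e_{z c j 0}`, `[e_{x β}, e_{m β 1 2}] = 2 ep e e_{z c j 1}`,
  `[e_{x β}, e_{m β 0 2}] = ep e e_{z c j 2}` ;
* `[e_{m β 0 1}, e_{m β 1 0}] = 2 ep e gg e e_{z c j 3}`, `[e_{m β 0 1}, e_{m β 0 0}] = ep e gg e e_{z c j 4}`.
(Check the constants; only their being nonzero matters.)  Then every vector is the sum of its
coordinates.  Compare `Lib/SRSard/FA.lean` (end) and
`Results/MP_525deb_gt/AbnormalInterior.lean` (`bracketGenerating_bas`).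
-/

namespace H8SR

open MeasureTheory Set Filter Topology
open scoped Manifold ContDiff

noncomputable section

theorem B5_ev (k l : Idx) : (ev k : SRG) l = if l = k then 1 else 0 := by
  change (Pi.single k 1 : Idx → ℝ) l = _
  rw [Pi.single_apply]

theorem B5_sf_q (c : Fin 6) (i : Fin 3) : sf c (ev (.q i)) = lv c i := by
  simp [sf, B5_ev]

theorem B5_sf_x (c : Fin 6) (β : Blk) : sf c (ev (.x β)) = 0 := by
  simp [sf, B5_ev]

theorem B5_sf_t (c : Fin 6) : sf c (ev .t) = 0 := by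
  simp [sf, B5_ev]

theorem B5_sf_lq (c : Fin 6) (i : Fin 3) : sf c (ev (.lq i)) = 0 := by
  simp [sf, B5_ev]

theorem B5_sf_m (c : Fin 6) (β : Blk) (i k : Fin 3) : sf c (ev (.m β i k)) = 0 := by
  simp [sf, B5_ev]

theorem B5_qm_q (c : Fin 6) (i : Fin 3) : qm c (ev (.q i)) = 0 := by
  funext n; fin_cases n <;> simp [qm, B5_ev]

theorem B5_qm_x (c : Fin 6) (β : Blk) : qm c (ev (.x β)) = 0 := by
  funext n; fin_cases n <;> simp [qm, B5_ev]

theorem B5_qm_m (c : Fin 6) (β : Blk) (i k : Fin 3) : qm c (ev (.m β i k)) = 0 := by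
  funext n; fin_cases n <;> simp [qm, B5_ev]

theorem B5_qm_t (c : Fin 6) : qm c (ev .t) = ![1, 0, 0] := by
  funext n; fin_cases n <;> simp [qm, B5_ev]

theorem B5_qm_lq (c : Fin 6) (i : Fin 3) : qm c (ev (.lq i)) = ![0, lv c i, 0] := by
  funext n; fin_cases n <;> simp [qm, B5_ev]

theorem B5_mat_q (β : Blk) (i : Fin 3) : mat β (ev (.q i)) = 0 := by
  funext n k
  refine Fin.cases ?_ (fun k => ?_) k
  · simp only [mat, Fin.cons_zero, B5_qm_q, Pi.zero_apply]
  · simp [mat, B5_ev]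

theorem B5_mat_x (β γ : Blk) : mat β (ev (.x γ)) = 0 := by
  funext n k
  refine Fin.cases ?_ (fun k => ?_) k
  · simp only [mat, Fin.cons_zero, B5_qm_x, Pi.zero_apply]
  · simp [mat, B5_ev]

theorem B5_mat_t (β : Blk) : mat β (ev .t) = ![![1, 0, 0, 0], ![0, 0, 0, 0], ![0, 0, 0, 0]] := by
  funext n k
  refine Fin.cases ?_ (fun k => ?_) k
  · simp only [mat, Fin.cons_zero, B5_qm_t]
    fin_cases n <;> rfl
  · simp only [mat, Fin.cons_succ, B5_ev]
    fin_cases n <;> fin_cases k <;> simp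

theorem B5_mat_lq (β : Blk) (i : Fin 3) :
    mat β (ev (.lq i)) = ![![0, 0, 0, 0], ![lv β.1 i, 0, 0, 0], ![0, 0, 0, 0]] := by
  funext n k
  refine Fin.cases ?_ (fun k => ?_) k
  · simp only [mat, Fin.cons_zero, B5_qm_lq]
    fin_cases n <;> rfl
  · simp only [mat, Fin.cons_succ, B5_ev]
    fin_cases n <;> fin_cases k <;> simp

theorem B5_mat_m (β : Blk) (i k : Fin 3) (n : Fin 3) (l : Fin 4) :
    mat β (ev (.m β i k)) n l = if n = i ∧ l = k.succ then 1 else 0 := by
  refine Fin.cases ?_ (fun l => ?_) l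
  · simp only [mat, Fin.cons_zero, B5_qm_m, Pi.zero_apply]
    simp [(Fin.succ_ne_zero k).symm]
  · simp only [mat, Fin.cons_succ, B5_ev]
    simp [Fin.succ_inj]

theorem B5_mat_m' {β γ : Blk} (h : β ≠ γ) (i k : Fin 3) : mat β (ev (.m γ i k)) = 0 := by
  funext n l
  refine Fin.cases ?_ (fun l => ?_) l
  · simp only [mat, Fin.cons_zero, B5_qm_m, Pi.zero_apply]
  · simp only [mat, Fin.cons_succ, B5_ev]
    simp [h]

theorem B5_tbD_zero (s x : ℝ) : tbD s x 0 = 0 := by
  funext i k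
  fin_cases i <;> fin_cases k <;> simp [tbD]

theorem B5_tbD_zz (M : Fin 3 → Fin 4 → ℝ) : tbD 0 0 M = 0 := by
  funext i k
  fin_cases i <;> fin_cases k <;> simp [tbD]

theorem B5_zsD_zero (s : ℝ) : zsD s (fun _ => 0) = 0 := by
  funext n; fin_cases n <;> simp [zsD]

theorem B5_zsD_z (Z : Fin 5 → ℝ) : zsD 0 Z = 0 := by
  funext n; fin_cases n <;> simp [zsD]

theorem B5_stD_zero (x : ℝ) : stD x 0 = 0 := by
  funext n; fin_cases n <;> simp [stD]

theorem B5_stD_z (M : Fin 3 → Fin 4 → ℝ) : stD 0 M = 0 := by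
  funext n; fin_cases n <;> simp [stD]

/-- the second argument is a position -/
theorem B5_BB_pos (v : SRG) {g : SRG} (ht : g .t = 0) (hq : ∀ c, qm c g = 0)
    (hm : ∀ β, mat β g = 0) (hz : ∀ c j n, g (.z c j n) = 0) : BB v g = 0 := by
  refine SRG.ext fun k => ?_
  cases k with
  | q i => rfl
  | x β => rfl
  | t => rfl
  | lq i =>
    change v (.q i) * g .t = 0
    rw [ht, mul_zero]
  | sq c =>
    change 2 * sf c v * qm c g 1 = 0
    rw [hq]; simp
  | m β i k =>
    change tbD (sf β.1 v) (v (.x β)) (mat β g) i k.succ = 0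
    rw [hm, B5_tbD_zero]; rfl
  | z c j n =>
    change zsD (sf c v) (fun n => g (.z c j n)) n
      + ∑ e : Fin 4, ep e * (stD (v (.x (c, j, e))) (mat (c, j, e) g) n
        + gg e / 6 * kap (mat (c, j, e) g) (mat (c, j, e) v) n) = 0
    simp only [hz, hm, B5_zsD_zero, B5_stD_zero, kap_zero_left, Pi.zero_apply]
    simp

theorem B5_BB_q (v : SRG) (i : Fin 3) : BB v (ev (.q i)) = 0 :=
  B5_BB_pos v (by simp [B5_ev]) (fun c => B5_qm_q c i) (fun β => B5_mat_q β i)
    (fun c j n => by simp [B5_ev])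

theorem B5_BB_x (v : SRG) (γ : Blk) : BB v (ev (.x γ)) = 0 :=
  B5_BB_pos v (by simp [B5_ev]) (fun c => B5_qm_x c γ) (fun β => B5_mat_x β γ)
    (fun c j n => by simp [B5_ev])

/-- `[x β, g]` -/
theorem B5_xg (β : Blk) (g : SRG) : BB (ev (.x β)) g = fun k => match k with
    | .m γ i k => if γ = β then (![0, mat β g i 0, 2 * mat β g i 1, 3 * mat β g i 2] : Fin 4 → ℝ) k.succ
        else 0
    | .z c j n => if c = β.1 ∧ j = β.2.1 then ep β.2.2 * stD 1 (mat β g) n else 0
    | _ => 0 := by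
  refine SRG.ext fun k => ?_
  cases k with
  | q i => rfl
  | x β => rfl
  | t => rfl
  | lq i =>
    change (ev (.x β) : SRG) (.q i) * g .t = 0
    simp [B5_ev]
  | sq c =>
    change 2 * sf c (ev (.x β)) * qm c g 1 = 0
    rw [B5_sf_x]; simp
  | m γ i k =>
    change tbD (sf γ.1 (ev (.x β))) ((ev (.x β) : SRG) (.x γ)) (mat γ g) i k.succ =
      if γ = β then (![0, mat β g i 0, 2 * mat β g i 1, 3 * mat β g i 2] : Fin 4 → ℝ) k.succ else 0
    rw [B5_sf_x, B5_ev]
    by_cases h : γ = β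
    · subst h
      rw [if_pos rfl, if_pos rfl]
      fin_cases i <;> fin_cases k <;> simp [tbD]
    · rw [if_neg (by simpa using h), if_neg h, B5_tbD_zz]; rfl
  | z c j n =>
    change zsD (sf c (ev (.x β))) (fun n => g (.z c j n)) n
      + ∑ e : Fin 4, ep e * (stD ((ev (.x β) : SRG) (.x (c, j, e))) (mat (c, j, e) g) n
        + gg e / 6 * kap (mat (c, j, e) g) (mat (c, j, e) (ev (.x β))) n) =
      if c = β.1 ∧ j = β.2.1 then ep β.2.2 * stD 1 (mat β g) n else 0
    rw [B5_sf_x, B5_zsD_z]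
    simp only [B5_mat_x, kap_zero_right, Pi.zero_apply, mul_zero, add_zero, zero_add, B5_ev]
    obtain ⟨c', j', e'⟩ := β
    by_cases h : c = c' ∧ j = j'
    · obtain ⟨rfl, rfl⟩ := h
      rw [Finset.sum_eq_single e']
      · simp
      · intro e _ he
        rw [if_neg (by simpa using he), B5_stD_z]; simp
      · intro h; exact absurd (Finset.mem_univ _) h
    · rw [if_neg h]
      refine Finset.sum_eq_zero fun e _ => ?_
      rw [if_neg (by
        intro he
        simp only [Idx.x.injEq, Prod.mk.injEq] at he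
        exact h ⟨he.1, he.2.1⟩), B5_stD_z]
      simp

/-- `[q i, g]` -/
theorem B5_qg (i : Fin 3) (g : SRG) : BB (ev (.q i)) g = fun k => match k with
    | .lq l => if l = i then g .t else 0
    | .sq c => 2 * lv c i * qm c g 1
    | .m γ l k => (![0, lv γ.1 i * mat γ g 0 k.succ, 2 * lv γ.1 i * mat γ g 1 k.succ] : Fin 3 → ℝ) l
    | .z c j n => zsD (lv c i) (fun n => g (.z c j n)) n
    | _ => 0 := by
  refine SRG.ext fun k => ?_
  cases k with
  | q i => rfl
  | x β => rfl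
  | t => rfl
  | lq l =>
    change (ev (.q i) : SRG) (.q l) * g .t = if l = i then g .t else 0
    rw [B5_ev]
    by_cases h : l = i
    · simp [h]
    · simp [h]
  | sq c =>
    change 2 * sf c (ev (.q i)) * qm c g 1 = _
    rw [B5_sf_q]
  | m γ l k =>
    change tbD (sf γ.1 (ev (.q i))) ((ev (.q i) : SRG) (.x γ)) (mat γ g) l k.succ =
      (![0, lv γ.1 i * mat γ g 0 k.succ, 2 * lv γ.1 i * mat γ g 1 k.succ] : Fin 3 → ℝ) l
    rw [B5_sf_q, B5_ev, if_neg (by simp)]
    fin_cases l <;> fin_cases k <;> simp [tbD]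
  | z c j n =>
    change zsD (sf c (ev (.q i))) (fun n => g (.z c j n)) n
      + ∑ e : Fin 4, ep e * (stD ((ev (.q i) : SRG) (.x (c, j, e))) (mat (c, j, e) g) n
        + gg e / 6 * kap (mat (c, j, e) g) (mat (c, j, e) (ev (.q i))) n) =
      zsD (lv c i) (fun n => g (.z c j n)) n
    rw [B5_sf_q]
    simp only [B5_mat_q, kap_zero_right, Pi.zero_apply, mul_zero, add_zero, B5_ev]
    simp [B5_stD_z]

theorem B5_b1 (β : Blk) : BB (ev (.x β)) (ev .t) = ev (.m β 0 0) := by
  rw [B5_xg]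
  refine SRG.ext fun k => ?_
  cases k with
  | q i => simp [B5_ev]
  | x γ => simp [B5_ev]
  | t => simp [B5_ev]
  | lq i => simp [B5_ev]
  | sq c => simp [B5_ev]
  | m γ i k =>
    simp only [B5_mat_t, B5_ev]
    by_cases h : γ = β
    · subst h
      fin_cases i <;> fin_cases k <;> simp
    · simp [h]
  | z c j n =>
    simp only [B5_mat_t, B5_ev]
    fin_cases n <;> simp [stD]

theorem B5_xm (β : Blk) (i k : Fin 3) (n l : Fin 3) : (BB (ev (.x β)) (ev (.m β i k)) : SRG) (.m β n l) =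
    if n = i ∧ l.castSucc = k.succ then ((l : ℕ) + 1 : ℝ) else 0 := by
  rw [B5_xg]
  simp only [B5_mat_m, if_true]
  fin_cases i <;> fin_cases k <;> fin_cases n <;> fin_cases l <;> simp [Fin.ext_iff] <;> norm_num

theorem B5_b2 (β : Blk) : BB (ev (.x β)) (ev (.m β 0 0)) = (2 : ℝ) • ev (.m β 0 1) := by
  refine SRG.ext fun k => ?_
  rw [smul_apply, B5_ev]
  cases k with
  | m γ i k =>
    by_cases h : γ = β
    · subst h
      rw [B5_xm]
      fin_cases i <;> fin_cases k <;> simp [Fin.ext_iff] <;> norm_num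
    · rw [B5_xg]; simp [h]
  | z c j n =>
    rw [B5_xg]
    simp only
    fin_cases n <;> simp [stD, B5_mat_m]
  | _ => rw [B5_xg]; simp

theorem B5_b3 (β : Blk) : BB (ev (.x β)) (ev (.m β 0 1)) = (3 : ℝ) • ev (.m β 0 2) := by
  refine SRG.ext fun k => ?_
  rw [smul_apply, B5_ev]
  cases k with
  | m γ i k =>
    by_cases h : γ = β
    · subst h
      rw [B5_xm]
      fin_cases i <;> fin_cases k <;> simp [Fin.ext_iff] <;> norm_num
    · rw [B5_xg]; simp [h]
  | z c j n =>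
    rw [B5_xg]
    simp only
    fin_cases n <;> simp [stD, B5_mat_m]
  | _ => rw [B5_xg]; simp

theorem B5_b6 (β : Blk) : BB (ev (.x β)) (ev (.m β 2 2)) = ep β.2.2 • ev (.z β.1 β.2.1 0) := by
  refine SRG.ext fun k => ?_
  rw [smul_apply, B5_ev]
  cases k with
  | m γ i k =>
    by_cases h : γ = β
    · subst h
      rw [B5_xm]
      fin_cases i <;> fin_cases k <;> simp [Fin.ext_iff]
    · rw [B5_xg]; simp [h]
  | z c j n =>
    rw [B5_xg]
    simp only
    by_cases h : c = β.1 ∧ j = β.2.1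
    · obtain ⟨rfl, rfl⟩ := h
      fin_cases n <;> simp [stD, B5_mat_m]
    · rw [if_neg h, if_neg (by
        intro h2
        simp only [Idx.z.injEq] at h2
        exact h ⟨h2.1, h2.2.1⟩), mul_zero]
  | _ => rw [B5_xg]; simp

theorem B5_b7 (β : Blk) : BB (ev (.x β)) (ev (.m β 1 2)) = (2 * ep β.2.2) • ev (.z β.1 β.2.1 1) := by
  refine SRG.ext fun k => ?_
  rw [smul_apply, B5_ev]
  cases k with
  | m γ i k =>
    by_cases h : γ = β
    · subst h
      rw [B5_xm]
      fin_cases i <;> fin_cases k <;> simp [Fin.ext_iff]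
    · rw [B5_xg]; simp [h]
  | z c j n =>
    rw [B5_xg]
    simp only
    by_cases h : c = β.1 ∧ j = β.2.1
    · obtain ⟨rfl, rfl⟩ := h
      fin_cases n <;> simp [stD, B5_mat_m, mul_comm]
    · rw [if_neg h, if_neg (by
        intro h2
        simp only [Idx.z.injEq] at h2
        exact h ⟨h2.1, h2.2.1⟩), mul_zero]
  | _ => rw [B5_xg]; simp

theorem B5_b8 (β : Blk) : BB (ev (.x β)) (ev (.m β 0 2)) = ep β.2.2 • ev (.z β.1 β.2.1 2) := by
  refine SRG.ext fun k => ?_
  rw [smul_apply, B5_ev]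
  cases k with
  | m γ i k =>
    by_cases h : γ = β
    · subst h
      rw [B5_xm]
      fin_cases i <;> fin_cases k <;> simp [Fin.ext_iff]
    · rw [B5_xg]; simp [h]
  | z c j n =>
    rw [B5_xg]
    simp only
    by_cases h : c = β.1 ∧ j = β.2.1
    · obtain ⟨rfl, rfl⟩ := h
      fin_cases n <;> simp [stD, B5_mat_m]
    · rw [if_neg h, if_neg (by
        intro h2
        simp only [Idx.z.injEq] at h2
        exact h ⟨h2.1, h2.2.1⟩), mul_zero]
  | _ => rw [B5_xg]; simp

theorem B5_b4 (i : Fin 3) (β : Blk) (k : Fin 3) :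
    BB (ev (.q i)) (ev (.m β 0 k)) = lv β.1 i • ev (.m β 1 k) := by
  refine SRG.ext fun l => ?_
  rw [smul_apply, B5_ev, B5_qg]
  cases l with
  | m γ n l =>
    simp only
    by_cases h : γ = β
    · subst h
      simp only [B5_mat_m]
      fin_cases n <;> simp
    · rw [B5_mat_m' h]
      fin_cases n <;> simp [h]
  | z c j n =>
    simp only [B5_ev]
    fin_cases n <;> simp [zsD]
  | sq c => simp [B5_qm_m]
  | lq l => simp [B5_ev]
  | _ => simp

theorem B5_b5 (i : Fin 3) (β : Blk) (k : Fin 3) :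
    BB (ev (.q i)) (ev (.m β 1 k)) = (2 * lv β.1 i) • ev (.m β 2 k) := by
  refine SRG.ext fun l => ?_
  rw [smul_apply, B5_ev, B5_qg]
  cases l with
  | m γ n l =>
    simp only
    by_cases h : γ = β
    · subst h
      simp only [B5_mat_m]
      fin_cases n <;> simp
    · rw [B5_mat_m' h]
      fin_cases n <;> simp [h]
  | z c j n =>
    simp only [B5_ev]
    fin_cases n <;> simp [zsD]
  | sq c => simp [B5_qm_m]
  | lq l => simp [B5_ev]
  | _ => simp

theorem B5_b11 (i k : Fin 3) (l : Idx) : (BB (ev (.q i)) (ev (.lq k)) : SRG) l =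
    match l with
    | .sq c => 2 * lv c i * lv c k
    | _ => 0 := by
  rw [B5_qg]
  cases l with
  | m γ n l =>
    simp only
    rw [B5_mat_lq]
    fin_cases n <;> fin_cases l <;> simp
  | z c j n =>
    simp only [B5_ev]
    fin_cases n <;> simp [zsD]
  | sq c => simp [B5_qm_lq]
  | lq l => simp [B5_ev]
  | _ => simp

/-- the first argument is a charge -/
theorem B5_cc {v : SRG} (hq : ∀ i, v (.q i) = 0) (hx : ∀ β, v (.x β) = 0) (g : SRG) :
    BB v g = fun k => match k with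
    | .z c j n => ∑ e : Fin 4, ep e * (gg e / 6 * kap (mat (c, j, e) g) (mat (c, j, e) v) n)
    | _ => 0 := by
  have hsf : ∀ c, sf c v = 0 := fun c => by simp [sf, hq]
  refine SRG.ext fun k => ?_
  cases k with
  | q i => rfl
  | x β => rfl
  | t => rfl
  | lq i =>
    change v (.q i) * g .t = 0
    rw [hq, zero_mul]
  | sq c =>
    change 2 * sf c v * qm c g 1 = 0
    rw [hsf]; simp
  | m γ i k =>
    change tbD (sf γ.1 v) (v (.x γ)) (mat γ g) i k.succ = 0
    rw [hsf, hx, B5_tbD_zz]; rfl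
  | z c j n =>
    change zsD (sf c v) (fun n => g (.z c j n)) n
      + ∑ e : Fin 4, ep e * (stD (v (.x (c, j, e))) (mat (c, j, e) g) n
        + gg e / 6 * kap (mat (c, j, e) g) (mat (c, j, e) v) n) =
      ∑ e : Fin 4, ep e * (gg e / 6 * kap (mat (c, j, e) g) (mat (c, j, e) v) n)
    rw [hsf, B5_zsD_z]
    simp only [hx, B5_stD_z, Pi.zero_apply, zero_add]

theorem B5_mm (β : Blk) (i k i' k' : Fin 3) (l : Idx) :
    (BB (ev (.m β i k)) (ev (.m β i' k')) : SRG) l = match l with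
    | .z c j n => if c = β.1 ∧ j = β.2.1 then ep β.2.2 * (gg β.2.2 / 6 *
        kap (mat β (ev (.m β i' k'))) (mat β (ev (.m β i k))) n) else 0
    | _ => 0 := by
  rw [B5_cc (v := ev (.m β i k)) (fun i => by simp [B5_ev]) (fun γ => by simp [B5_ev])]
  cases l with
  | z c j n =>
    simp only
    obtain ⟨c', j', e'⟩ := β
    by_cases h : c = c' ∧ j = j'
    · obtain ⟨rfl, rfl⟩ := h
      rw [if_pos ⟨rfl, rfl⟩, Finset.sum_eq_single e']
      · intro e _ he
        rw [B5_mat_m' (by simpa using he), kap_zero_left]; simp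
      · intro h; exact absurd (Finset.mem_univ _) h
    · rw [if_neg h]
      refine Finset.sum_eq_zero fun e _ => ?_
      rw [B5_mat_m' (by
        intro he
        simp only [Prod.mk.injEq] at he
        exact h ⟨he.1, he.2.1⟩), kap_zero_left]
      simp
  | _ => rfl

theorem B5_b9 (β : Blk) : BB (ev (.m β 0 1)) (ev (.m β 1 0)) - BB (ev (.m β 1 0)) (ev (.m β 0 1)) =
    (2 * ep β.2.2 * gg β.2.2) • ev (.z β.1 β.2.1 3) := by
  refine SRG.ext fun k => ?_
  change (BB (ev (.m β 0 1)) (ev (.m β 1 0)) : SRG) k - (BB (ev (.m β 1 0)) (ev (.m β 0 1)) : SRG) k =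
    (2 * ep β.2.2 * gg β.2.2) * (ev (.z β.1 β.2.1 3) : SRG) k
  rw [B5_mm, B5_mm, B5_ev]
  cases k with
  | z c j n =>
    simp only
    by_cases h : c = β.1 ∧ j = β.2.1
    · obtain ⟨rfl, rfl⟩ := h
      fin_cases n <;> simp [kap, kr, B5_mat_m] <;> ring
    · rw [if_neg h, if_neg h, if_neg (by
        intro h2
        simp only [Idx.z.injEq] at h2
        exact h ⟨h2.1, h2.2.1⟩)]
      ring
  | _ => simp

theorem B5_b10 (β : Blk) : BB (ev (.m β 0 1)) (ev (.m β 0 0)) - BB (ev (.m β 0 0)) (ev (.m β 0 1)) =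
    (ep β.2.2 * gg β.2.2) • ev (.z β.1 β.2.1 4) := by
  refine SRG.ext fun k => ?_
  change (BB (ev (.m β 0 1)) (ev (.m β 0 0)) : SRG) k - (BB (ev (.m β 0 0)) (ev (.m β 0 1)) : SRG) k =
    (ep β.2.2 * gg β.2.2) * (ev (.z β.1 β.2.1 4) : SRG) k
  rw [B5_mm, B5_mm, B5_ev]
  cases k with
  | z c j n =>
    simp only
    by_cases h : c = β.1 ∧ j = β.2.1
    · obtain ⟨rfl, rfl⟩ := h
      fin_cases n <;> simp [kap, kr, B5_mat_m] <;> ring
    · rw [if_neg h, if_neg h, if_neg (by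
        intro h2
        simp only [Idx.z.injEq] at h2
        exact h ⟨h2.1, h2.2.1⟩)]
      ring
  | _ => simp

/-- the left multiplication is affine -/
theorem B5_left (g w : SRG) : fderiv ℝ (fun h : SRG => g * h) 0 w = Ls g w := by
  let l : SRG →ₗ[ℝ] SRG :=
    { toFun := fun h => Ls g h
      map_add' := fun a b => LL_add g a b
      map_smul' := fun r a => LL_smul g r a }
  have h1 : HasFDerivAt (fun h : SRG => g + l.toContinuousLinearMap h) l.toContinuousLinearMap 0 :=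
    (l.toContinuousLinearMap.hasFDerivAt).const_add g
  have h2 : (fun h : SRG => g * h) = fun h : SRG => g + l.toContinuousLinearMap h := rfl
  rw [h2, h1.fderiv]
  rfl

theorem bracket_BB (v w : GroupLieAlgebra 𝓘(ℝ, SRG) SRG) :
    (⁅v, w⁆ : GroupLieAlgebra 𝓘(ℝ, SRG) SRG) = (BB v w - BB w v : SRG) := by
  have e : ∀ v w : SRG, fderiv ℝ (fun g : SRG => fderiv ℝ (fun h : SRG => g * h) 0 w) 0 v =
      BB v w := by
    intro v w
    have h1 : (fun g : SRG => fderiv ℝ (fun h : SRG => g * h) 0 w) = fun g => Ls g w :=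
      funext fun g => B5_left g w
    rw [h1, fderiv_Ls]
  exact (H80A.bracket_eq SRP v w).trans (congrArg₂ (fun a b : SRG => a - b) (e v w) (e w v))

theorem B5_hI (k : Idx) (hk : isHor k = true) : ∃ j : Fin mH, hI j = k :=
  ⟨Fintype.equivFin HIdx ⟨k, hk⟩, by simp [hI]⟩

theorem B5_lv (c : Fin 6) : ∃ i, lv c i = 1 := by
  fin_cases c
  · exact ⟨0, by simp [lv]⟩
  · exact ⟨1, by simp [lv]⟩
  · exact ⟨2, by simp [lv]⟩
  · exact ⟨0, by simp [lv]⟩
  · exact ⟨0, by simp [lv]⟩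
  · exact ⟨1, by simp [lv]⟩

theorem B5_ep (e : Fin 4) : ep e ≠ 0 := by
  fin_cases e <;> simp [ep]

theorem B5_gg (e : Fin 4) : gg e ≠ 0 := by
  fin_cases e <;> simp [gg]

theorem B5_main (W : Set SRG) (hadd : ∀ x ∈ W, ∀ y ∈ W, x + y ∈ W)
    (hsmul : ∀ r : ℝ, ∀ x ∈ W, r • x ∈ W) (hbr : ∀ x ∈ W, ∀ y ∈ W, BB x y - BB y x ∈ W)
    (hh : ∀ k, isHor k = true → ev k ∈ W) : ∀ g, g ∈ W := by
  have hdiv : ∀ (r : ℝ) (x : SRG), r ≠ 0 → r • x ∈ W → x ∈ W := by
    intro r x hr hx
    have := hsmul r⁻¹ _ hx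
    rwa [smul_smul, inv_mul_cancel₀ hr, one_smul] at this
  have hx : ∀ β, ev (.x β) ∈ W := fun β => hh _ rfl
  have hq : ∀ i, ev (.q i) ∈ W := fun i => hh _ rfl
  have ht : ev .t ∈ W := hh _ rfl
  have hlq : ∀ i, ev (.lq i) ∈ W := fun i => hh _ rfl
  have hbx : ∀ β g, g ∈ W → BB (ev (.x β)) g ∈ W := by
    intro β g hg
    have := hbr _ (hx β) _ hg
    rwa [B5_BB_x, sub_zero] at this
  have hbq : ∀ i g, g ∈ W → BB (ev (.q i)) g ∈ W := by
    intro i g hg
    have := hbr _ (hq i) _ hg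
    rwa [B5_BB_q, sub_zero] at this
  have hm00 : ∀ β, ev (.m β 0 0) ∈ W := by
    intro β
    have := hbx β _ ht
    rwa [B5_b1] at this
  have hm01 : ∀ β, ev (.m β 0 1) ∈ W := by
    intro β
    have := hbx β _ (hm00 β)
    rw [B5_b2] at this
    exact hdiv _ _ (by norm_num) this
  have hm02 : ∀ β, ev (.m β 0 2) ∈ W := by
    intro β
    have := hbx β _ (hm01 β)
    rw [B5_b3] at this
    exact hdiv _ _ (by norm_num) this
  have hm0 : ∀ β k, ev (.m β 0 k) ∈ W := by
    intro β k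
    fin_cases k
    · exact hm00 β
    · exact hm01 β
    · exact hm02 β
  have hm1 : ∀ β k, ev (.m β 1 k) ∈ W := by
    intro β k
    obtain ⟨i, hi⟩ := B5_lv β.1
    have := hbq i _ (hm0 β k)
    rwa [B5_b4, hi, one_smul] at this
  have hm2 : ∀ β k, ev (.m β 2 k) ∈ W := by
    intro β k
    obtain ⟨i, hi⟩ := B5_lv β.1
    have := hbq i _ (hm1 β k)
    rw [B5_b5, hi] at this
    exact hdiv _ _ (by norm_num) this
  have hm : ∀ β i k, ev (.m β i k) ∈ W := by
    intro β i k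
    fin_cases i
    · exact hm0 β k
    · exact hm1 β k
    · exact hm2 β k
  have hz : ∀ c j n, ev (.z c j n) ∈ W := by
    intro c j n
    have h0 := hbx (c, j, 0) _ (hm (c, j, 0) 2 2)
    have h1 := hbx (c, j, 0) _ (hm (c, j, 0) 1 2)
    have h2 := hbx (c, j, 0) _ (hm (c, j, 0) 0 2)
    have h3 := hbr _ (hm (c, j, 0) 0 1) _ (hm (c, j, 0) 1 0)
    have h4 := hbr _ (hm (c, j, 0) 0 1) _ (hm (c, j, 0) 0 0)
    rw [B5_b6] at h0
    rw [B5_b7] at h1
    rw [B5_b8] at h2
    rw [B5_b9] at h3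
    rw [B5_b10] at h4
    fin_cases n
    · exact hdiv _ _ (B5_ep _) h0
    · exact hdiv _ _ (mul_ne_zero two_ne_zero (B5_ep _)) h1
    · exact hdiv _ _ (B5_ep _) h2
    · exact hdiv _ _ (mul_ne_zero (mul_ne_zero two_ne_zero (B5_ep _)) (B5_gg _)) h3
    · exact hdiv _ _ (mul_ne_zero (B5_ep _) (B5_gg _)) h4
  have hqq : ∀ i k, BB (ev (.q i)) (ev (.lq k)) ∈ W := fun i k => hbq i _ (hlq k)
  have h3 : ev (.sq 3) ∈ W := by
    refine hdiv 2 _ two_ne_zero ?_
    have e : (2 : ℝ) • ev (.sq 3) = BB (ev (.q 0)) (ev (.lq 1)) := by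
      refine SRG.ext fun l => ?_
      rw [smul_apply, B5_ev, B5_b11]
      cases l with
      | sq c => fin_cases c <;> simp [lv]
      | _ => simp
    rw [e]; exact hqq 0 1
  have h4 : ev (.sq 4) ∈ W := by
    refine hdiv 2 _ two_ne_zero ?_
    have e : (2 : ℝ) • ev (.sq 4) = BB (ev (.q 0)) (ev (.lq 2)) := by
      refine SRG.ext fun l => ?_
      rw [smul_apply, B5_ev, B5_b11]
      cases l with
      | sq c => fin_cases c <;> simp [lv]
      | _ => simp
    rw [e]; exact hqq 0 2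
  have h5 : ev (.sq 5) ∈ W := by
    refine hdiv 2 _ two_ne_zero ?_
    have e : (2 : ℝ) • ev (.sq 5) = BB (ev (.q 1)) (ev (.lq 2)) := by
      refine SRG.ext fun l => ?_
      rw [smul_apply, B5_ev, B5_b11]
      cases l with
      | sq c => fin_cases c <;> simp [lv]
      | _ => simp
    rw [e]; exact hqq 1 2
  have hneg : ∀ x ∈ W, (-2 : ℝ) • x ∈ W := fun x hx => hsmul _ _ hx
  have h0 : ev (.sq 0) ∈ W := by
    refine hdiv 2 _ two_ne_zero ?_
    have e : (2 : ℝ) • ev (.sq 0) = BB (ev (.q 0)) (ev (.lq 0)) + (-2 : ℝ) • ev (.sq 3) +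
        (-2 : ℝ) • ev (.sq 4) := by
      refine SRG.ext fun l => ?_
      rw [add_apply, add_apply, smul_apply, smul_apply, smul_apply, B5_ev, B5_ev, B5_ev, B5_b11]
      cases l with
      | sq c => fin_cases c <;> simp [lv]
      | _ => simp
    rw [e]; exact hadd _ (hadd _ (hqq 0 0) _ (hneg _ h3)) _ (hneg _ h4)
  have h1 : ev (.sq 1) ∈ W := by
    refine hdiv 2 _ two_ne_zero ?_
    have e : (2 : ℝ) • ev (.sq 1) = BB (ev (.q 1)) (ev (.lq 1)) + (-2 : ℝ) • ev (.sq 3) +
        (-2 : ℝ) • ev (.sq 5) := by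
      refine SRG.ext fun l => ?_
      rw [add_apply, add_apply, smul_apply, smul_apply, smul_apply, B5_ev, B5_ev, B5_ev, B5_b11]
      cases l with
      | sq c => fin_cases c <;> simp [lv]
      | _ => simp
    rw [e]; exact hadd _ (hadd _ (hqq 1 1) _ (hneg _ h3)) _ (hneg _ h5)
  have h2 : ev (.sq 2) ∈ W := by
    refine hdiv 2 _ two_ne_zero ?_
    have e : (2 : ℝ) • ev (.sq 2) = BB (ev (.q 2)) (ev (.lq 2)) + (-2 : ℝ) • ev (.sq 4) +
        (-2 : ℝ) • ev (.sq 5) := by
      refine SRG.ext fun l => ?_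
      rw [add_apply, add_apply, smul_apply, smul_apply, smul_apply, B5_ev, B5_ev, B5_ev, B5_b11]
      cases l with
      | sq c => fin_cases c <;> simp [lv]
      | _ => simp
    rw [e]; exact hadd _ (hadd _ (hqq 2 2) _ (hneg _ h4)) _ (hneg _ h5)
  have hall : ∀ k, ev k ∈ W := by
    intro k
    cases k with
    | q i => exact hq i
    | x β => exact hx β
    | t => exact ht
    | lq i => exact hlq i
    | sq c =>
      fin_cases c
      · exact h0
      · exact h1
      · exact h2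
      · exact h3
      · exact h4
      · exact h5
    | m β i k => exact hm β i k
    | z c j n => exact hz c j n
  have hzero : (0 : SRG) ∈ W := by
    have := hsmul 0 _ ht
    rwa [zero_smul] at this
  intro g
  have hsum : ∀ s : Finset Idx, ∑ k ∈ s, g k • (ev k : SRG) ∈ W := by
    intro s
    induction s using Finset.induction_on with
    | empty => rw [Finset.sum_empty]; exact hzero
    | insert a s ha ih =>
      rw [Finset.sum_insert ha]
      exact hadd _ (hsmul _ _ (hall a)) _ ih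
  have hg : g = ∑ k, g k • (ev k : SRG) := by
    have h := (Finset.univ_sum_single (g : Idx → ℝ)).symm
    refine h.trans (Finset.sum_congr rfl fun k _ => ?_)
    funext l
    change (Pi.single k (g k) : Idx → ℝ) l = g k * (Pi.single k (1 : ℝ) : Idx → ℝ) l
    by_cases hl : l = k
    · subst hl; simp
    · simp [hl]
  rw [hg]
  exact hsum _

theorem bracketGen : SRS.BracketGenerating (E := SRG) (G := SRG) SRP.bas := by
  intro W hadd hsmul hbr hb x
  refine B5_main W (fun x hx y hy => hadd x hx y hy) (fun r x hx => hsmul r x hx) ?_ ?_ x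
  · intro x hx y hy
    exact Eq.mp (congrArg (fun z : GroupLieAlgebra 𝓘(ℝ, SRG) SRG => z ∈ W) (bracket_BB x y))
      (hbr x hx y hy)
  · intro k hk
    obtain ⟨j, hj⟩ := B5_hI k hk
    have h2 : SRP.bas j = ev (hI j) := bas_eq j
    rw [← hj, ← h2]
    exact hb j

end

end H8SR
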