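import Pool.Agent.Lib.H8SR.ZDefs

/-!
# Chunk B6: the constraint sets are closed; left invariance under `Ks`, `Kq`

Continuity: all functions are polynomials in the coordinates (`continuous_apply`).

`Ks_mul_Zs`: for `P0 h` (positions `0`): `mat β (h * g) = mat β h + mat β g` (`mat_mul`, `tb_zero_left`),
so row `2` of the blocks of the family `a` does not change if `h ∈ Ks a α` (row `2` of `mat (a,j,e) h`
is `0`), the positions do not change, and
`(h * g) (z a j 1) = h (z a j 1) + g (z a j 1) + ∑ e, ep e * (gg e / 6 * kap (mat g) (mat h) 1)`,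
`kap (mat g) (mat h) 1 = 2 kr (g 2) (h 1) + 2 kr (g 1) (h 2) = 2 kr (g 2) (h 1) = - 2 kr (h 1) (g 2)`,
while `kr ((h+g) 1) ((h+g) 2) = kr (h 1) (g 2) + kr (g 1) (g 2)`: so
`psi a j (h * g) = h (z a j 1) + psi a j g`.
-/

namespace H8SR

open MeasureTheory Set Filter Topology
open scoped Manifold ContDiff

noncomputable section

theorem b6_coord (k : Idx) : Continuous (fun g : SRG => g k) :=
  continuous_apply (A := fun _ : Idx => ℝ) k

theorem b6_sf (a : Fin 6) : Continuous (fun g : SRG => sf a g) := by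
  have h : (fun g : SRG => sf a g) = fun g : SRG => ∑ i, lv a i * g (.q i) := rfl
  rw [h]
  exact continuous_finset_sum _ fun i _ => continuous_const.mul (b6_coord _)

theorem b6_qm (a : Fin 6) (i : Fin 3) : Continuous (fun g : SRG => qm a g i) := by
  fin_cases i
  · exact b6_coord .t
  · have h : (fun g : SRG => qm a g 1) = fun g : SRG => ∑ i, lv a i * g (.lq i) := rfl
    change Continuous (fun g : SRG => qm a g 1)
    rw [h]
    exact continuous_finset_sum _ fun i _ => continuous_const.mul (b6_coord _)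
  · exact b6_coord (.sq a)

theorem b6_mat (β : Blk) (i : Fin 3) (k : Fin 4) : Continuous (fun g : SRG => mat β g i k) := by
  refine Fin.cases ?_ (fun k => ?_) k
  · exact b6_qm β.1 i
  · exact b6_coord (.m β i k)

theorem b6_kr {f f' : SRG → Fin 4 → ℝ} (hf : ∀ k, Continuous (fun g => f g k))
    (hf' : ∀ k, Continuous (fun g => f' g k)) : Continuous (fun g => kr (f g) (f' g)) := by
  have h : (fun g => kr (f g) (f' g)) = fun g => f g 3 * f' g 0 - 3 * f g 2 * f' g 1
      + 3 * f g 1 * f' g 2 - f g 0 * f' g 3 := rfl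
  rw [h]
  exact ((((hf 3).mul (hf' 0)).sub ((continuous_const.mul (hf 2)).mul (hf' 1))).add
    ((continuous_const.mul (hf 1)).mul (hf' 2))).sub ((hf 0).mul (hf' 3))

theorem b6_Fp (a : Fin 6) (j : Fin 4) : Continuous (fun g : SRG => Fp a j g (xs a j g)) := by
  have h : (fun g : SRG => Fp a j g (xs a j g)) = fun g : SRG =>
      ∑ e, ep e * (g (.x (a, j, e)) ^ 4 / 4 + gg e / 3 * (g (.x (a, j, e)) ^ 3 * mat (a, j, e) g 2 0
        - 3 * g (.x (a, j, e)) ^ 2 * mat (a, j, e) g 2 1 + 3 * g (.x (a, j, e)) * mat (a, j, e) g 2 2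
        - mat (a, j, e) g 2 3)) := rfl
  rw [h]
  refine continuous_finset_sum _ fun e _ => continuous_const.mul ?_
  have hx := b6_coord (.x (a, j, e))
  have hm : ∀ k, Continuous (fun g : SRG => mat (a, j, e) g 2 k) := b6_mat (a, j, e) 2
  exact ((hx.pow 4).div_const 4).add (continuous_const.mul (((((hx.pow 3).mul (hm 0)).sub
    ((continuous_const.mul (hx.pow 2)).mul (hm 1))).add ((continuous_const.mul hx).mul (hm 2))).sub
    (hm 3)))

theorem b6_chi (β : Blk) : Continuous (fun g : SRG => chi β g) := by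
  have h : (fun g : SRG => chi β g) = fun g : SRG => mat β g 2 3
      + gg β.2.2 * (mat β g 2 0 * mat β g 2 2 - mat β g 2 1 ^ 2) := rfl
  rw [h]
  have hm : ∀ k, Continuous (fun g : SRG => mat β g 2 k) := b6_mat β 2
  exact (hm 3).add (continuous_const.mul (((hm 0).mul (hm 2)).sub ((hm 1).pow 2)))

theorem b6_psi (a : Fin 6) (j : Fin 4) : Continuous (fun g : SRG => psi a j g) := by
  have h : (fun g : SRG => psi a j g) = fun g : SRG => g (.z a j 1)
      + ∑ e, ep e * (gg e / 3 * kr (mat (a, j, e) g 1) (mat (a, j, e) g 2)) := rfl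
  rw [h]
  exact (b6_coord _).add (continuous_finset_sum _ fun e _ => continuous_const.mul
    (continuous_const.mul (b6_kr (f := fun g => mat (a, j, e) g 1) (f' := fun g => mat (a, j, e) g 2)
      (fun k => b6_mat _ 1 k) (fun k => b6_mat _ 2 k))))

theorem isClosed_Zs (a : Fin 6) (α : Fin 4 → ℝ) : IsClosed (Zs a α) := by
  have h1 : IsClosed {g : SRG | sf a g * ∑ j, α j * Fp a j g (xs a j g) = 0} :=
    isClosed_eq ((b6_sf a).mul (continuous_finset_sum _ fun j _ => continuous_const.mul (b6_Fp a j)))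
      continuous_const
  have h2 : IsClosed {g : SRG | ∀ j e, chi (a, j, e) g = 0} := by
    have e : {g : SRG | ∀ j e, chi (a, j, e) g = 0} = ⋂ (j : Fin 4), ⋂ (e : Fin 4),
        {g : SRG | chi (a, j, e) g = 0} := by
      ext g; simp
    rw [e]
    exact isClosed_iInter fun j => isClosed_iInter fun e => isClosed_eq (b6_chi _) continuous_const
  have h3 : IsClosed {g : SRG | ∑ j, α j * psi a j g = 0} :=
    isClosed_eq (continuous_finset_sum _ fun j _ => continuous_const.mul (b6_psi a j))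
      continuous_const
  exact h1.inter (h2.inter h3)

theorem isClosed_Zq (l : Fin 3 → ℝ) : IsClosed (Zq l) := by
  have h1 : IsClosed {g : SRG | ∑ i, l i * g (.q i) = 0} :=
    isClosed_eq (continuous_finset_sum _ fun i _ => continuous_const.mul (b6_coord _))
      continuous_const
  have h2 : IsClosed {g : SRG | ∑ i, l i * g (.lq i) = 0} :=
    isClosed_eq (continuous_finset_sum _ fun i _ => continuous_const.mul (b6_coord _))
      continuous_const
  exact h1.inter h2

theorem b6_sf0 {h : SRG} (hh : P0 h) (c : Fin 6) : sf c h = 0 := by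
  have h1 : sf c h = ∑ i, lv c i * h (.q i) := rfl
  rw [h1]
  exact Finset.sum_eq_zero fun i _ => by rw [hh.1 i, mul_zero]

theorem b6_mat_mul {h : SRG} (hh : P0 h) (β : Blk) (g : SRG) :
    mat β (h * g) = mat β h + mat β g := by
  rw [mat_mul, b6_sf0 hh, hh.2, tb_zero_left]

theorem b6_row {a : Fin 6} {α : Fin 4 → ℝ} {h : SRG} (hh : h ∈ Ks a α) (j e : Fin 4) :
    mat (a, j, e) h 2 = 0 := by
  funext k
  refine Fin.cases ?_ (fun k => ?_) k
  · exact hh.2.1
  · exact hh.2.2.1 j e k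

theorem b6_row_mul {a : Fin 6} {α : Fin 4 → ℝ} {h : SRG} (hh : h ∈ Ks a α) (j e : Fin 4) (g : SRG) :
    mat (a, j, e) (h * g) 2 = mat (a, j, e) g 2 := by
  rw [b6_mat_mul hh.1, Pi.add_apply, b6_row hh, zero_add]

theorem psi_mul {a : Fin 6} {α : Fin 4 → ℝ} {h : SRG} (hh : h ∈ Ks a α) (j : Fin 4) (g : SRG) :
    psi a j (h * g) = h (.z a j 1) + psi a j g := by
  have h1 : psi a j (h * g) = (h * g) (.z a j 1)
      + ∑ e, ep e * (gg e / 3 * kr (mat (a, j, e) (h * g) 1) (mat (a, j, e) (h * g) 2)) := rfl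
  have h2 : psi a j g = g (.z a j 1)
      + ∑ e, ep e * (gg e / 3 * kr (mat (a, j, e) g 1) (mat (a, j, e) g 2)) := rfl
  have h3 : ∀ e, kap (mat (a, j, e) g) (mat (a, j, e) h) 1 =
      2 * kr (mat (a, j, e) g 2) (mat (a, j, e) h 1) := by
    intro e
    have : kap (mat (a, j, e) g) (mat (a, j, e) h) 1 =
      2 * kr (mat (a, j, e) g 2) (mat (a, j, e) h 1)
        + 2 * kr (mat (a, j, e) g 1) (mat (a, j, e) h 2) := rfl
    rw [this, b6_row hh]
    simp [kr]
  have h4 : (h * g) (.z a j 1) = h (.z a j 1) + (g (.z a j 1)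
      + ∑ e : Fin 4, ep e * (gg e / 6 * (2 * kr (mat (a, j, e) g 2) (mat (a, j, e) h 1)))) := by
    rw [mul_z, b6_sf0 hh.1, zs_zero_left]
    congr 2
    refine Finset.sum_congr rfl fun e _ => ?_
    rw [hh.1.2, st_zero_left, tb_zero_left, h3]
    simp
  rw [h1, h2, h4, add_assoc, add_assoc, ← Finset.sum_add_distrib]
  congr 2
  refine Finset.sum_congr rfl fun e _ => ?_
  rw [b6_row_mul hh, b6_mat_mul hh.1]
  simp only [kr, Pi.add_apply]
  ring

theorem Ks_mul_Zs {a : Fin 6} {α : Fin 4 → ℝ} {h g : SRG} (hh : h ∈ Ks a α) (hg : g ∈ Zs a α) :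
    h * g ∈ Zs a α := by
  have hx : ∀ j, xs a j (h * g) = xs a j g := by
    intro j
    funext e
    have : xs a j (h * g) e = h (.x (a, j, e)) + g (.x (a, j, e)) := rfl
    rw [this, hh.1.2, zero_add]
    rfl
  have hF : ∀ j, Fp a j (h * g) (xs a j (h * g)) = Fp a j g (xs a j g) := by
    intro j
    rw [hx]
    simp only [Fp, b6_row_mul hh]
  refine ⟨?_, ?_, ?_⟩
  · rw [sf_mul, b6_sf0 hh.1, zero_add]
    simp only [hF]
    exact hg.1
  · intro j e
    have := hg.2.1 j e
    simp only [chi, b6_row_mul hh] at this ⊢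
    exact this
  · simp only [psi_mul hh, mul_add, Finset.sum_add_distrib]
    rw [hh.2.2.2.2, hg.2.2, add_zero]

theorem Kq_mul_Zq {l : Fin 3 → ℝ} {h g : SRG} (hh : h ∈ Kq l) (hg : g ∈ Zq l) : h * g ∈ Zq l := by
  refine ⟨?_, ?_⟩
  · simp only [mul_q, hh.1.1, zero_add]
    exact hg.1
  · simp only [mul_lq, hh.1.1, zero_mul, add_zero, mul_add, Finset.sum_add_distrib]
    rw [hh.2, hg.2, add_zero]

theorem b6_mat_one (β : Blk) : mat β (1 : SRG) = 0 := mat_zero β

theorem one_mem_Zs (a : Fin 6) (α : Fin 4 → ℝ) : (1 : SRG) ∈ Zs a α := by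
  refine ⟨?_, ?_, ?_⟩
  · have : sf a (1 : SRG) = 0 := b6_sf0 ⟨fun _ => rfl, fun _ => rfl⟩ a
    rw [this, zero_mul]
  · intro j e
    simp [chi, b6_mat_one]
  · refine Finset.sum_eq_zero fun j _ => ?_
    have : psi a j (1 : SRG) = 0 := by
      simp [psi, b6_mat_one, kr, one_apply]
    rw [this, mul_zero]

theorem one_mem_Zq (l : Fin 3 → ℝ) : (1 : SRG) ∈ Zq l := by
  refine ⟨?_, ?_⟩
  · simp [one_apply]
  · simp [one_apply]

end

end H8SR
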