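import Mathlib

/-!
# Chunk C4: coefficients of polynomial curves in a subspace (pure linear algebra)

`coeff_mem`: induction on `n`.  Let `F r = ∑ k < n+1, r^k v k`.  `r = 0` gives `v 0 ∈ W` (if `n + 1 ≥ 1`),
so `∑ k < n, r^(k+1) v (k+1) ∈ W` for all `r`, hence for `r ≠ 0` `G r = ∑ k < n, r^k v (k+1) ∈ W`.  For `r = 0`:
the Lagrange interpolation or the fact that a finite dimensional subspace is closed can be avoided as
follows: choose `n` distinct non-zero reals and invert the Vandermonde matrix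
(`Matrix.det_vandermonde_ne_zero_iff`).  Or directly for the whole statement: evaluate at the `n`
distinct points `0, 1, ..., n-1` and invert the Vandermonde matrix: `v k = ∑ i, (V⁻¹) k i • F i`.
`coeff_mem_fin`: the form used later; `coeff_mem2`: two variables (apply `coeff_mem` twice).
-/

namespace H8SR

open Finset

theorem coeff_mem {E : Type*} [AddCommGroup E] [Module ℝ E] (W : Submodule ℝ E) (n : ℕ)
    (v : ℕ → E) (h : ∀ r : ℝ, ∑ k ∈ range n, r ^ k • v k ∈ W) : ∀ k < n, v k ∈ W := by
  intro k hk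
  set V : Matrix (Fin n) (Fin n) ℝ := Matrix.vandermonde (fun i : Fin n => ((i : ℕ) : ℝ)) with hV
  have hinj : Function.Injective (fun i : Fin n => ((i : ℕ) : ℝ)) := by
    intro i j hij
    have hij' : ((i : ℕ) : ℝ) = ((j : ℕ) : ℝ) := hij
    have : (i : ℕ) = j := by exact_mod_cast hij'
    exact Fin.ext this
  have hdet : IsUnit V.det := by
    rw [isUnit_iff_ne_zero]
    exact Matrix.det_vandermonde_ne_zero_iff.mpr hinj
  have hinv : V⁻¹ * V = 1 := Matrix.nonsing_inv_mul V hdet
  have hF : ∀ i : Fin n, ∑ l : Fin n, V i l • v l ∈ W := by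
    intro i
    have h1 := h ((i : ℕ) : ℝ)
    rw [Finset.sum_range] at h1
    simpa [hV, Matrix.vandermonde_apply] using h1
  have key : ∑ i : Fin n, V⁻¹ ⟨k, hk⟩ i • ∑ l : Fin n, V i l • v l = v k := by
    calc ∑ i : Fin n, V⁻¹ ⟨k, hk⟩ i • ∑ l : Fin n, V i l • v l
        = ∑ i : Fin n, ∑ l : Fin n, (V⁻¹ ⟨k, hk⟩ i * V i l) • v l := by
          refine Finset.sum_congr rfl fun i _ => ?_
          rw [Finset.smul_sum]
          refine Finset.sum_congr rfl fun l _ => ?_
          rw [smul_smul]
      _ = ∑ l : Fin n, (∑ i : Fin n, V⁻¹ ⟨k, hk⟩ i * V i l) • v l := by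
          rw [Finset.sum_comm]
          refine Finset.sum_congr rfl fun l _ => ?_
          rw [Finset.sum_smul]
      _ = ∑ l : Fin n, ((1 : Matrix (Fin n) (Fin n) ℝ) ⟨k, hk⟩ l) • v l := by
          refine Finset.sum_congr rfl fun l _ => ?_
          rw [← hinv, Matrix.mul_apply]
      _ = v k := by
          rw [Finset.sum_eq_single (⟨k, hk⟩ : Fin n)]
          · simp
          · intro l _ hl
            rw [Matrix.one_apply_ne (Ne.symm hl), zero_smul]
          · intro hc
            exact absurd (Finset.mem_univ _) hc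
  rw [← key]
  exact W.sum_mem fun i _ => W.smul_mem _ (hF i)

/-- form with five coefficients -/
theorem coeff_mem5 {E : Type*} [AddCommGroup E] [Module ℝ E] (W : Submodule ℝ E)
    (v0 v1 v2 v3 v4 : E)
    (h : ∀ r : ℝ, v0 + r • v1 + r ^ 2 • v2 + r ^ 3 • v3 + r ^ 4 • v4 ∈ W) :
    v0 ∈ W ∧ v1 ∈ W ∧ v2 ∈ W ∧ v3 ∈ W ∧ v4 ∈ W := by
  have key := coeff_mem W 5 (fun k => if k = 0 then v0 else if k = 1 then v1 else
    if k = 2 then v2 else if k = 3 then v3 else v4) (by
      intro r
      simpa [Finset.sum_range_succ] using h r)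
  refine ⟨?_, ?_, ?_, ?_, ?_⟩
  · simpa using key 0 (by norm_num)
  · simpa using key 1 (by norm_num)
  · simpa using key 2 (by norm_num)
  · simpa using key 3 (by norm_num)
  · simpa using key 4 (by norm_num)

/-- form with three coefficients -/
theorem coeff_mem3 {E : Type*} [AddCommGroup E] [Module ℝ E] (W : Submodule ℝ E)
    (v0 v1 v2 : E) (h : ∀ r : ℝ, v0 + r • v1 + r ^ 2 • v2 ∈ W) : v0 ∈ W ∧ v1 ∈ W ∧ v2 ∈ W := by
  have key := coeff_mem W 3 (fun k => if k = 0 then v0 else if k = 1 then v1 else v2) (by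
      intro r
      simpa [Finset.sum_range_succ] using h r)
  refine ⟨?_, ?_, ?_⟩
  · simpa using key 0 (by norm_num)
  · simpa using key 1 (by norm_num)
  · simpa using key 2 (by norm_num)

end H8SR
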