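import Pool.Agent.Lib.H8SR.C1
import Pool.Agent.Lib.H8SR.C4

/-!
# Chunk C5: a block (other families)

`pv q β r` is the position with the given `q` and `x β = r`.
For `y = pv (σ • u) β r`, `β = (c, j, e)`, `∑ lv c i * u i = 1` (so `sf c y = σ`):
`Ls y (ev t) = [t: 1] + [lq i: σ u i] + [sq d: σ^2 (∑ lv d i u i)^2] + ∑_{i,k} σ^i r^(k+1) [m β i k]
 + [z c j 0: ep e σ^2 r^4/4] + [z c j 1: 2 ep e σ r^4/4] + [z c j 2: ep e r^4/4]`
(all the other blocks have `x = 0`, their moments `L(s^i x^(k+1))` are `0`; the blocks of the same sector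
contribute `st σ 0 _ = 0`, and `mat β y = 0`).
So with `coeff_mem5` in `r` (coefficients of `r, r^2, r^3, r^4`) and then `coeff_mem3` in `σ`:
`ev (m β i k) ∈ W` and `ev (z c j n) ∈ W` for `n = 0, 1, 2`.  Finally
`kz (ev (m β 1 0)) (ev (m β 0 1))` is a non-zero multiple of `ev (z c j 3)` and
`kz (ev (m β 0 0)) (ev (m β 0 1))` of `ev (z c j 4)`.
-/

namespace H8SR

open MeasureTheory Set Filter Topology
open scoped Manifold ContDiff

noncomputable section

/-- the position with the given `q` and `x β = r` -/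
def pv (q : Fin 3 → ℝ) (β : Blk) (r : ℝ) : SRG := fun k => match k with
  | .q i => q i
  | .x β' => if β' = β then r else 0
  | _ => 0

theorem isPos_pv (q : Fin 3 → ℝ) (β : Blk) (r : ℝ) : IsPos (pv q β r) := by
  intro k h1 h2
  cases k with
  | q i => exact absurd rfl (h1 i)
  | x β => exact absurd rfl (h2 β)
  | _ => rfl

theorem c5_ev (k l : Idx) : (ev k) l = if l = k then 1 else 0 := Pi.single_apply k 1 l

/-- matrix unit -/
def c5_E (i : Fin 3) (k : Fin 4) : Fin 3 → Fin 4 → ℝ := fun i' k' => if i' = i ∧ k' = k then 1 else 0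

theorem c5_qm_m (β : Blk) (i k : Fin 3) (c : Fin 6) : qm c (ev (.m β i k)) = 0 := by
  funext i'
  fin_cases i' <;> simp [qm, c5_ev]

theorem c5_mat_m (β β' : Blk) (i k : Fin 3) :
    mat β' (ev (.m β i k)) = (if β' = β then (1 : ℝ) else 0) • c5_E i k.succ := by
  funext i' k'
  refine Fin.cases ?_ (fun k' => ?_) k'
  · have h : mat β' (ev (.m β i k)) i' 0 = qm β'.1 (ev (.m β i k)) i' := rfl
    rw [h, c5_qm_m]
    have h2 : ¬ ((0 : Fin 4) = k.succ) := (Fin.succ_ne_zero k).symm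
    simp [c5_E, h2]
  · have h : mat β' (ev (.m β i k)) i' k'.succ = ev (.m β i k) (.m β' i' k') := rfl
    rw [h, c5_ev]
    by_cases hb : β' = β
    · subst hb
      simp only [c5_E, Idx.m.injEq, true_and, Fin.succ_inj, if_true, one_smul]
    · simp [c5_E, hb]

theorem c5_mat_pos {y : SRG} (hy : IsPos y) (β : Blk) : mat β y = 0 := by
  funext i k
  refine Fin.cases ?_ (fun k => ?_) k
  · have h : mat β y i 0 = qm β.1 y i := rfl
    have h1 : y .t = 0 := hy _ (by simp) (by simp)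
    have h2 : ∀ i, y (.lq i) = 0 := fun i => hy _ (by simp) (by simp)
    have h3 : ∀ c, y (.sq c) = 0 := fun i => hy _ (by simp) (by simp)
    rw [h]
    fin_cases i <;> simp [qm, h1, h2, h3]
  · exact hy _ (by simp) (by simp)

/-- brackets of coordinate vectors of the same block -/
theorem c5_kz (β : Blk) (i k i' k' : Fin 3) (c : Fin 6) (j : Fin 4) (n : Fin 5) :
    kz (ev (.m β i k)) (ev (.m β i' k')) (.z c j n) =
      if c = β.1 ∧ j = β.2.1 then
        ep β.2.2 * (gg β.2.2 / 6 * kap (c5_E i' k'.succ) (c5_E i k.succ) n) else 0 := by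
  obtain ⟨c0, j0, e0⟩ := β
  have h : kz (ev (.m (c0, j0, e0) i k)) (ev (.m (c0, j0, e0) i' k')) (.z c j n) =
      ∑ e, ep e * (gg e / 6 * kap (mat (c, j, e) (ev (.m (c0, j0, e0) i' k')))
        (mat (c, j, e) (ev (.m (c0, j0, e0) i k))) n) := rfl
  rw [h]
  simp only [c5_mat_m, kap_smul_left, kap_smul_right, Pi.smul_apply, smul_eq_mul]
  by_cases hc : c = c0 ∧ j = j0
  · obtain ⟨rfl, rfl⟩ := hc
    rw [if_pos ⟨rfl, rfl⟩, Finset.sum_eq_single e0]
    · simp
    · intro e _ he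
      have h1 : ¬ ((c, j, e) = (c, j, e0)) := by
        intro h2
        exact he (Prod.mk.inj (Prod.mk.inj h2).2).2
      rw [if_neg h1]
      ring
    · intro h1
      exact absurd (Finset.mem_univ _) h1
  · rw [if_neg hc]
    refine Finset.sum_eq_zero fun e _ => ?_
    have h1 : ¬ ((c, j, e) = (c0, j0, e0)) := by
      intro h2
      exact hc ⟨(Prod.mk.inj h2).1, (Prod.mk.inj (Prod.mk.inj h2).2).1⟩
    rw [if_neg h1]
    ring

theorem c5_ep_ne (e : Fin 4) : ep e ≠ 0 := by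
  fin_cases e <;> simp [ep]

theorem c5_gg_ne (e : Fin 4) : gg e ≠ 0 := by
  fin_cases e <;> simp [gg]

theorem c5_mem_of_smul (W : Submodule ℝ SRG) {r : ℝ} (hr : r ≠ 0) {v : SRG} (h : r • v ∈ W) :
    v ∈ W := by
  have h1 := W.smul_mem r⁻¹ h
  rw [smul_smul, inv_mul_cancel₀ hr, one_smul] at h1
  exact h1

/-- the constant `z 3` and `z 4` from brackets (also used for the active family) -/
theorem z34_mem (W : Submodule ℝ SRG) (hk : ∀ g ∈ W, ∀ h ∈ W, kz g h ∈ W) (β : Blk)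
    (h0 : ∀ k, ev (.m β 0 k) ∈ W) (h1 : ∀ k, ev (.m β 1 k) ∈ W) :
    ev (.z β.1 β.2.1 3) ∈ W ∧ ev (.z β.1 β.2.1 4) ∈ W := by
  have e3 : kz (ev (.m β 1 0)) (ev (.m β 0 1)) =
      (- (ep β.2.2 * gg β.2.2)) • ev (.z β.1 β.2.1 3) := by
    apply SRG.ext
    intro l
    rw [smul_apply, c5_ev]
    cases l with
    | z c j n =>
      rw [c5_kz]
      by_cases hc : c = β.1 ∧ j = β.2.1
      · rw [if_pos hc, hc.1, hc.2]
        fin_cases n <;> simp [kap, kr, c5_E, Fin.ext_iff] <;> first | ring1 | (left; ring1)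
      · rw [if_neg hc, if_neg (by
          intro h2
          injection h2 with h3 h4 h5
          exact hc ⟨h3, h4⟩), mul_zero]
    | _ => rw [if_neg (by simp), mul_zero]; rfl
  have e4 : kz (ev (.m β 0 0)) (ev (.m β 0 1)) =
      (- (ep β.2.2 * gg β.2.2 / 2)) • ev (.z β.1 β.2.1 4) := by
    apply SRG.ext
    intro l
    rw [smul_apply, c5_ev]
    cases l with
    | z c j n =>
      rw [c5_kz]
      by_cases hc : c = β.1 ∧ j = β.2.1
      · rw [if_pos hc, hc.1, hc.2]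
        fin_cases n <;> simp [kap, kr, c5_E, Fin.ext_iff] <;> ring
      · rw [if_neg hc, if_neg (by
          intro h2
          injection h2 with h3 h4 h5
          exact hc ⟨h3, h4⟩), mul_zero]
    | _ => rw [if_neg (by simp), mul_zero]; rfl
  have hne : ep β.2.2 * gg β.2.2 ≠ 0 := mul_ne_zero (c5_ep_ne _) (c5_gg_ne _)
  have m3 := hk _ (h1 0) _ (h0 1)
  have m4 := hk _ (h0 0) _ (h0 1)
  rw [e3] at m3
  rw [e4] at m4
  exact ⟨c5_mem_of_smul W (neg_ne_zero.2 hne) m3,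
    c5_mem_of_smul W (neg_ne_zero.2 (div_ne_zero hne two_ne_zero)) m4⟩

theorem c5_qm_t (c : Fin 6) : qm c (ev .t) = ![1, 0, 0] := by
  funext i'
  fin_cases i' <;> simp [qm, c5_ev]

theorem c5_mat_t (β : Blk) : mat β (ev .t) = c5_E 0 0 := by
  funext i' k'
  refine Fin.cases ?_ (fun k' => ?_) k'
  · have h : mat β (ev .t) i' 0 = qm β.1 (ev .t) i' := rfl
    rw [h, c5_qm_t]
    fin_cases i' <;> simp [c5_E]
  · have h : mat β (ev .t) i' k'.succ = ev .t (.m β i' k') := rfl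
    rw [h, c5_ev]
    have h2 : ¬ (k'.succ = (0 : Fin 4)) := Fin.succ_ne_zero k'
    simp [c5_E, h2]

theorem c5_tb (s x : ℝ) (i : Fin 3) (k : Fin 3) :
    tb s x (c5_E 0 0) i k.succ = s ^ (i : ℕ) * x ^ ((k : ℕ) + 1) := by
  fin_cases i <;> fin_cases k <;> simp [tb, tx, ts, c5_E] <;> ring

theorem c5_st (s x : ℝ) (n : Fin 5) :
    st s x (c5_E 0 0) n = ![s ^ 2 * (x ^ 4 / 4), 2 * s * (x ^ 4 / 4), x ^ 4 / 4, 0, 0] n := by
  fin_cases n <;> simp [st, p4, ts, c5_E] <;> ring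

theorem c5_Ls (q : Fin 3 → ℝ) (β : Blk) (r : ℝ) :
    Ls (pv q β r) (ev .t) = Ls (pv q β 0) (ev .t)
      + r • (ev (.m β 0 0) + (∑ i, lv β.1 i * q i) • ev (.m β 1 0) +
        (∑ i, lv β.1 i * q i) ^ 2 • ev (.m β 2 0))
      + r ^ 2 • (ev (.m β 0 1) + (∑ i, lv β.1 i * q i) • ev (.m β 1 1) +
        (∑ i, lv β.1 i * q i) ^ 2 • ev (.m β 2 1))
      + r ^ 3 • (ev (.m β 0 2) + (∑ i, lv β.1 i * q i) • ev (.m β 1 2) +
        (∑ i, lv β.1 i * q i) ^ 2 • ev (.m β 2 2))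
      + r ^ 4 • ((ep β.2.2 / 4) • ev (.z β.1 β.2.1 2) +
        (∑ i, lv β.1 i * q i) • ((ep β.2.2 / 2) • ev (.z β.1 β.2.1 1)) +
        (∑ i, lv β.1 i * q i) ^ 2 • ((ep β.2.2 / 4) • ev (.z β.1 β.2.1 0))) := by
  apply SRG.ext
  intro l
  simp only [add_apply, smul_apply, c5_ev]
  have hsf : ∀ (c : Fin 6) (ρ : ℝ), sf c (pv q β ρ) = ∑ i, lv c i * q i := fun c ρ => rfl
  cases l with
  | q i => simp [Ls, LL, c5_ev]
  | x β => simp [Ls, LL, c5_ev]
  | t => simp [Ls, LL, c5_ev]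
  | lq i => simp [Ls, LL, c5_ev, pv]
  | sq c =>
    have h : ∀ ρ, Ls (pv q β ρ) (ev .t) (.sq c) = (ev .t) (.sq c) +
      2 * sf c (pv q β ρ) * qm c (ev .t) 1 + sf c (pv q β ρ) ^ 2 * (ev .t) .t := fun ρ => rfl
    rw [h, h, hsf, hsf]
    simp
  | m β' i k =>
    have h : ∀ ρ, Ls (pv q β ρ) (ev .t) (.m β' i k) =
      tb (sf β'.1 (pv q β ρ)) (pv q β ρ (.x β')) (mat β' (ev .t)) i k.succ := fun ρ => rfl
    have hx : ∀ ρ, pv q β ρ (.x β') = if β' = β then ρ else 0 := fun ρ => rfl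
    rw [h, h, hsf, hsf, c5_mat_t, c5_tb, c5_tb, hx, hx]
    by_cases hb : β' = β
    · subst hb
      fin_cases i <;> fin_cases k <;> simp <;> ring
    · simp [hb]
  | z c j n =>
    have h : ∀ ρ, Ls (pv q β ρ) (ev .t) (.z c j n) =
      zs (sf c (pv q β ρ)) (fun n => (ev .t) (.z c j n)) n
      + ∑ e : Fin 4, ep e * (st (sf c (pv q β ρ)) (pv q β ρ (.x (c, j, e)))
        (mat (c, j, e) (ev .t)) n
        + gg e / 6 * kap (tb (sf c (pv q β ρ)) (pv q β ρ (.x (c, j, e)))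
          (mat (c, j, e) (ev .t))) (mat (c, j, e) (pv q β ρ)) n) := fun ρ => rfl
    have hz : (fun n => (ev .t) (.z c j n)) = (0 : Fin 5 → ℝ) := by
      funext n
      rw [c5_ev]
      simp
    have hx : ∀ ρ e, pv q β ρ (.x (c, j, e)) = if (c, j, e) = β then ρ else 0 := fun ρ e => rfl
    rw [h, h, hsf, hsf, hz]
    simp only [c5_mat_pos (isPos_pv q β _), kap_zero_right, c5_mat_t, c5_st, hx, Pi.zero_apply,
      mul_zero, add_zero]
    obtain ⟨c0, j0, e0⟩ := β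
    by_cases hc : c = c0 ∧ j = j0
    · obtain ⟨rfl, rfl⟩ := hc
      have e1 : ∀ (ρ : ℝ) (e : Fin 4), (if (c, j, e) = (c, j, e0) then ρ else 0) =
          if e = e0 then ρ else 0 := by
        intro ρ e
        simp
      simp only [e1]
      have e2 : ∀ (ρ : ℝ), ∑ e : Fin 4, ep e * (![(∑ i, lv c i * q i) ^ 2 *
          ((if e = e0 then ρ else 0) ^ 4 / 4), 2 * (∑ i, lv c i * q i) *
          ((if e = e0 then ρ else 0) ^ 4 / 4), (if e = e0 then ρ else 0) ^ 4 / 4, 0, 0] :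
            Fin 5 → ℝ) n =
          ep e0 * (![(∑ i, lv c i * q i) ^ 2 *
          (ρ ^ 4 / 4), 2 * (∑ i, lv c i * q i) * (ρ ^ 4 / 4), ρ ^ 4 / 4, 0, 0] :
            Fin 5 → ℝ) n := by
        intro ρ
        rw [Finset.sum_eq_single e0]
        · simp
        · intro e _ he
          rw [if_neg he]
          fin_cases n <;> simp
        · intro h1
          exact absurd (Finset.mem_univ _) h1
      rw [e2, e2]
      fin_cases n <;> simp <;> ring
    · have e1 : ∀ (ρ : ℝ) (e : Fin 4), (if (c, j, e) = (c0, j0, e0) then ρ else 0) = (0 : ℝ) := by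
        intro ρ e
        rw [if_neg]
        intro h2
        exact hc ⟨(Prod.mk.inj h2).1, (Prod.mk.inj (Prod.mk.inj h2).2).1⟩
      simp only [e1]
      have e2 : ∀ m : Fin 5, ¬ (Idx.z c j n = Idx.z c0 j0 m) := by
        intro m h2
        injection h2 with h3 h4 h5
        exact hc ⟨h3, h4⟩
      simp [e2]

theorem blk_mem (W : Submodule ℝ SRG) (hk : ∀ g ∈ W, ∀ h ∈ W, kz g h ∈ W) (β : Blk)
    (u : Fin 3 → ℝ) (hu : ∑ i, lv β.1 i * u i = 1)
    (h : ∀ σ r : ℝ, Ls (pv (σ • u) β r) (ev .t) ∈ W) :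
    (∀ i k, ev (.m β i k) ∈ W) ∧ ∀ n, ev (.z β.1 β.2.1 n) ∈ W := by
  have hs : ∀ σ : ℝ, ∑ i, lv β.1 i * (σ • u) i = σ := by
    intro σ
    have h1 : ∑ i, lv β.1 i * (σ • u) i = σ * ∑ i, lv β.1 i * u i := by
      rw [Finset.mul_sum]
      refine Finset.sum_congr rfl fun i _ => ?_
      rw [Pi.smul_apply, smul_eq_mul]
      ring
    rw [h1, hu, mul_one]
  have h1 : ∀ σ : ℝ, _ := fun σ => coeff_mem5 W _ _ _ _ _ (fun r => by
    have h2 := h σ r
    rw [c5_Ls, hs] at h2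
    exact h2)
  have c0 := coeff_mem3 W _ _ _ (fun σ => (h1 σ).2.1)
  have c1 := coeff_mem3 W _ _ _ (fun σ => (h1 σ).2.2.1)
  have c2 := coeff_mem3 W _ _ _ (fun σ => (h1 σ).2.2.2.1)
  have c3 := coeff_mem3 W _ _ _ (fun σ => (h1 σ).2.2.2.2)
  have hm : ∀ i k, ev (.m β i k) ∈ W := by
    intro i k
    fin_cases i <;> fin_cases k
    · exact c0.1
    · exact c1.1
    · exact c2.1
    · exact c0.2.1
    · exact c1.2.1
    · exact c2.2.1
    · exact c0.2.2
    · exact c1.2.2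
    · exact c2.2.2
  have h34 := z34_mem W hk β (fun k => hm 0 k) (fun k => hm 1 k)
  have he : ep β.2.2 ≠ 0 := c5_ep_ne _
  refine ⟨hm, fun n => ?_⟩
  fin_cases n
  · exact c5_mem_of_smul W (div_ne_zero he four_ne_zero) c3.2.2
  · exact c5_mem_of_smul W (div_ne_zero he two_ne_zero) c3.2.1
  · exact c5_mem_of_smul W (div_ne_zero he four_ne_zero) c3.1
  · exact h34.1
  · exact h34.2

end

end H8SR
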