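import Pool.Agent.Lib.H8SR.C5

/-!
# Chunk C6: the moments of `q` (active family `a`)

With `qv q = pv q β 0` (position `q`, all `x = 0`):
`Ls (qv q) (ev t) = ev t + ∑ q i • ev (lq i) + ∑_c (∑ lv c i q i)^2 • ev (sq c)`,
`Ls (qv q) (ev (lq i)) = ev (lq i) + ∑_c 2 (∑ lv c i' q i') (lv c i) • ev (sq c)`.
`q = 0`: `ev t`, `ev (lq i)`.  Subtract: for `lv a · q = 0` and every `i`:
`∑_c (lv c · q) (lv c i) • ev (sq c) ∈ W`.  For each `a` these vectors contain every `ev (sq c)`, `c ≠ a`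
(finite check for the six values of `a`, e.g. `a = 3`, `lv a = (1,1,0)`: `q = (1,-1,0)`, `(0,0,1)`; see
PROOF.md).  Suggestion: take `B q r := ∑_c (lv c · q) (lv c · r) • ev (sq c)`, symmetric bilinear, and give
for each pair `(a, c)` explicit `q, r`:  the table of `B` for the basis `e0, e1, e2` is
`B e0 e0 = E0+E3+E4`, `B e1 e1 = E1+E3+E5`, `B e2 e2 = E2+E4+E5`, `B e0 e1 = E3`, `B e0 e2 = E4`,
`B e1 e2 = E5`.  For `a = 0`: `q ∈ {e1, e2}`; `a = 1`: `{e0, e2}`; `a = 2`: `{e0, e1}`; `a = 3`: `{e0 - e1, e2}`;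
`a = 4`: `{e0 - e2, e1}`; `a = 5`: `{e1 - e2, e0}`.
-/

namespace H8SR

open MeasureTheory Set Filter Topology
open scoped Manifold ContDiff

noncomputable section

/-- the position `q` with all `x` equal to `0` -/
def qv (q : Fin 3 → ℝ) : SRG := fun k => match k with
  | .q i => q i
  | _ => 0

theorem isPos_qv (q : Fin 3 → ℝ) : IsPos (qv q) := by
  intro k h1 h2
  cases k with
  | q i => exact absurd rfl (h1 i)
  | x β => exact absurd rfl (h2 β)
  | _ => rfl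

theorem C6_ev_apply (j k : Idx) : ev j k = if k = j then 1 else 0 := Pi.single_apply j (1:ℝ) k

theorem C6_sum_apply {n : ℕ} (f : Fin n → SRG) (k : Idx) : (∑ i, f i) k = ∑ i, f i k :=
  Finset.sum_apply k _ _

theorem C6_mat_qv (q : Fin 3 → ℝ) (β : Blk) : mat β (qv q) = 0 := by
  funext i k
  refine Fin.cases ?_ (fun k => ?_) k
  · fin_cases i <;> simp [mat, qm, qv]
  · simp [mat, qv]

theorem C6_sf_qv (q : Fin 3 → ℝ) (c : Fin 6) : sf c (qv q) = ∑ i, lv c i * q i := rfl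

theorem C6_m (s : ℝ) (M : Fin 3 → Fin 4 → ℝ) (hM : ∀ i (k : Fin 3), M i k.succ = 0) (i : Fin 3)
    (k : Fin 3) : tb s 0 M i k.succ = 0 := by
  have h : ∀ i (k : Fin 3), ts s M i k.succ = 0 := by
    intro i k
    fin_cases i <;> simp [ts, hM]
  have h0 : ∀ i, ts s M i 1 = 0 := fun i => h i 0
  have h1 : ∀ i, ts s M i 2 = 0 := fun i => h i 1
  have h2 : ∀ i, ts s M i 3 = 0 := fun i => h i 2
  fin_cases k
  · simp [tb, tx, h0]
  · simp [tb, tx, h1]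
  · simp [tb, tx, h2]

theorem C6_z (q : Fin 3 → ℝ) (b : SRG) (c : Fin 6) (j : Fin 4) (n : Fin 5)
    (hz : ∀ n, b (.z c j n) = 0) : LL (qv q) b (.z c j n) = 0 := by
  have e : (fun n => b (.z c j n)) = (0 : Fin 5 → ℝ) := funext hz
  have e2 : zs (sf c (qv q)) (0 : Fin 5 → ℝ) n = 0 := by
    fin_cases n <;> simp [zs]
  have e3 : ∀ e : Fin 4, (qv q) (.x (c, j, e)) = 0 := fun _ => rfl
  change zs (sf c (qv q)) (fun n => b (.z c j n)) n
      + ∑ e : Fin 4, ep e * (st (sf c (qv q)) ((qv q) (.x (c, j, e))) (mat (c, j, e) b) n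
        + gg e / 6 * kap (tb (sf c (qv q)) ((qv q) (.x (c, j, e))) (mat (c, j, e) b))
          (mat (c, j, e) (qv q)) n) = 0
  rw [e, e2]
  simp only [e3, st_zero_left, C6_mat_qv, kap_zero_right, Pi.zero_apply, mul_zero, add_zero,
    Finset.sum_const_zero]

theorem C6_Ls_t (q : Fin 3 → ℝ) : Ls (qv q) (ev .t) = ev .t + ∑ i, q i • ev (.lq i)
    + ∑ c, (∑ i, lv c i * q i) ^ 2 • ev (.sq c) := by
  ext k
  rw [add_apply, add_apply, C6_sum_apply, C6_sum_apply]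
  simp only [smul_apply, C6_ev_apply]
  cases k with
  | q i => simp [Ls, LL, C6_ev_apply]
  | x β => simp [Ls, LL, C6_ev_apply]
  | t => simp [Ls, LL, C6_ev_apply]
  | lq i => simp [Ls, LL, C6_ev_apply, qv]
  | sq c => simp [Ls, LL, C6_ev_apply, C6_sf_qv, qm]
  | m β i k =>
    have h : LL (qv q) (ev .t) (.m β i k) = 0 := C6_m _ _ (fun i k => by simp [mat, C6_ev_apply]) i k
    simp [Ls, h]
  | z c j n =>
    have h : LL (qv q) (ev .t) (.z c j n) = 0 := C6_z q _ c j n (fun n => by simp [C6_ev_apply])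
    simp [Ls, h]

theorem C6_Ls_lq (q : Fin 3 → ℝ) (l : Fin 3) : Ls (qv q) (ev (.lq l)) = ev (.lq l)
    + ∑ c, (2 * (∑ i, lv c i * q i) * lv c l) • ev (.sq c) := by
  ext k
  rw [add_apply, C6_sum_apply]
  simp only [smul_apply, C6_ev_apply]
  cases k with
  | q i => simp [Ls, LL, C6_ev_apply]
  | x β => simp [Ls, LL, C6_ev_apply]
  | t => simp [Ls, LL, C6_ev_apply]
  | lq i => simp [Ls, LL, C6_ev_apply]
  | sq c => simp [Ls, LL, C6_ev_apply, C6_sf_qv, qm]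
  | m β i k =>
    have h : LL (qv q) (ev (.lq l)) (.m β i k) = 0 :=
      C6_m _ _ (fun i k => by simp [mat, C6_ev_apply]) i k
    simp [Ls, h]
  | z c j n =>
    have h : LL (qv q) (ev (.lq l)) (.z c j n) = 0 :=
      C6_z q _ c j n (fun n => by simp [C6_ev_apply])
    simp [Ls, h]

theorem C6_lin {V : Type*} [AddCommGroup V] [Module ℝ V] (W : Submodule ℝ V) (E : Fin 6 → V)
    (a : Fin 6) (h : ∀ q : Fin 3 → ℝ, ∑ i, lv a i * q i = 0 → ∀ l : Fin 3,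
      ∑ c, ((∑ i, lv c i * q i) * lv c l) • E c ∈ W) : ∀ c, c ≠ a → E c ∈ W := by
  have key0 : ∀ p : E 3 ∈ W ∧ E 4 ∈ W, E 0 + E 3 + E 4 ∈ W → E 0 ∈ W := fun p h0 => by
    have e : E 0 = (E 0 + E 3 + E 4) - E 3 - E 4 := by abel
    rw [e]; exact W.sub_mem (W.sub_mem h0 p.1) p.2
  have key1 : ∀ p : E 3 ∈ W ∧ E 5 ∈ W, E 1 + E 3 + E 5 ∈ W → E 1 ∈ W := fun p h0 => by
    have e : E 1 = (E 1 + E 3 + E 5) - E 3 - E 5 := by abel
    rw [e]; exact W.sub_mem (W.sub_mem h0 p.1) p.2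
  have key2 : ∀ p : E 4 ∈ W ∧ E 5 ∈ W, E 2 + E 4 + E 5 ∈ W → E 2 ∈ W := fun p h0 => by
    have e : E 2 = (E 2 + E 4 + E 5) - E 4 - E 5 := by abel
    rw [e]; exact W.sub_mem (W.sub_mem h0 p.1) p.2
  have neg : ∀ {x y : V}, -x + -y ∈ W → y ∈ W → x ∈ W := fun {x y} h0 h1 => by
    have e : x = -(-x + -y) - y := by abel
    rw [e]; exact W.sub_mem (W.neg_mem h0) h1
  have sub : ∀ {x y : V}, x + y ∈ W → y ∈ W → x ∈ W := fun {x y} h0 h1 => by
    have e : x = (x + y) - y := by abel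
    rw [e]; exact W.sub_mem h0 h1
  have v0 : (∑ i, lv a i * (![1, 0, 0] : Fin 3 → ℝ) i = 0) →
      E 0 + E 3 + E 4 ∈ W ∧ E 3 ∈ W ∧ E 4 ∈ W := fun hq => by
    have h0 := h _ hq 0
    have h1 := h _ hq 1
    have h2 := h _ hq 2
    simp [lv, Fin.sum_univ_succ] at h0 h1 h2
    refine ⟨?_, h1, h2⟩
    rw [add_assoc]
    exact h0
  have v1 : (∑ i, lv a i * (![0, 1, 0] : Fin 3 → ℝ) i = 0) →
      E 1 + E 3 + E 5 ∈ W ∧ E 3 ∈ W ∧ E 5 ∈ W := fun hq => by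
    have h0 := h _ hq 0
    have h1 := h _ hq 1
    have h2 := h _ hq 2
    simp [lv, Fin.sum_univ_succ] at h0 h1 h2
    refine ⟨?_, h0, h2⟩
    rw [add_assoc]
    exact h1
  have v2 : (∑ i, lv a i * (![0, 0, 1] : Fin 3 → ℝ) i = 0) →
      E 2 + E 4 + E 5 ∈ W ∧ E 4 ∈ W ∧ E 5 ∈ W := fun hq => by
    have h0 := h _ hq 0
    have h1 := h _ hq 1
    have h2 := h _ hq 2
    simp [lv, Fin.sum_univ_succ] at h0 h1 h2
    refine ⟨?_, h0, h1⟩
    rw [add_assoc]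
    exact h2
  fin_cases a
  · obtain ⟨a1, a2, a3⟩ := v1 (by simp [lv, Fin.sum_univ_succ])
    obtain ⟨b1, b2, b3⟩ := v2 (by simp [lv, Fin.sum_univ_succ])
    intro c hc
    fin_cases c
    · exact absurd rfl hc
    · exact key1 ⟨a2, a3⟩ a1
    · exact key2 ⟨b2, b3⟩ b1
    · exact a2
    · exact b2
    · exact a3
  · obtain ⟨a1, a2, a3⟩ := v0 (by simp [lv, Fin.sum_univ_succ])
    obtain ⟨b1, b2, b3⟩ := v2 (by simp [lv, Fin.sum_univ_succ])
    intro c hc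
    fin_cases c
    · exact key0 ⟨a2, a3⟩ a1
    · exact absurd rfl hc
    · exact key2 ⟨b2, b3⟩ b1
    · exact a2
    · exact b2
    · exact b3
  · obtain ⟨a1, a2, a3⟩ := v0 (by simp [lv, Fin.sum_univ_succ])
    obtain ⟨b1, b2, b3⟩ := v1 (by simp [lv, Fin.sum_univ_succ])
    intro c hc
    fin_cases c
    · exact key0 ⟨a2, a3⟩ a1
    · exact key1 ⟨b2, b3⟩ b1
    · exact absurd rfl hc
    · exact a2
    · exact a3
    · exact b3
  · obtain ⟨b1, b2, b3⟩ := v2 (by simp [lv, Fin.sum_univ_succ])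
    have hq : ∑ i, lv 3 i * (![1, -1, 0] : Fin 3 → ℝ) i = 0 := by simp [lv, Fin.sum_univ_succ]
    have h0 := h _ hq 0
    have h1 := h _ hq 1
    simp [lv, Fin.sum_univ_succ] at h0 h1
    intro c hc
    fin_cases c
    · exact sub h0 b2
    · exact neg h1 b3
    · exact key2 ⟨b2, b3⟩ b1
    · exact absurd rfl hc
    · exact b2
    · exact b3
  · obtain ⟨b1, b2, b3⟩ := v1 (by simp [lv, Fin.sum_univ_succ])
    have hq : ∑ i, lv 4 i * (![1, 0, -1] : Fin 3 → ℝ) i = 0 := by simp [lv, Fin.sum_univ_succ]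
    have h0 := h _ hq 0
    have h2 := h _ hq 2
    simp [lv, Fin.sum_univ_succ] at h0 h2
    intro c hc
    fin_cases c
    · exact sub h0 b2
    · exact key1 ⟨b2, b3⟩ b1
    · exact neg h2 b3
    · exact b2
    · exact absurd rfl hc
    · exact b3
  · obtain ⟨b1, b2, b3⟩ := v0 (by simp [lv, Fin.sum_univ_succ])
    have hq : ∑ i, lv 5 i * (![0, 1, -1] : Fin 3 → ℝ) i = 0 := by simp [lv, Fin.sum_univ_succ]
    have h1 := h _ hq 1
    have h2 := h _ hq 2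
    simp [lv, Fin.sum_univ_succ] at h1 h2
    intro c hc
    fin_cases c
    · exact key0 ⟨b2, b3⟩ b1
    · exact sub h1 b2
    · exact neg h2 b3
    · exact b2
    · exact b3
    · exact absurd rfl hc

theorem q_mem (W : Submodule ℝ SRG) (a : Fin 6)
    (h1 : ∀ q : Fin 3 → ℝ, ∑ i, lv a i * q i = 0 → Ls (qv q) (ev .t) ∈ W)
    (h2 : ∀ q : Fin 3 → ℝ, ∑ i, lv a i * q i = 0 → ∀ i, Ls (qv q) (ev (.lq i)) ∈ W) :
    ev .t ∈ W ∧ (∀ i, ev (.lq i) ∈ W) ∧ ∀ c, c ≠ a → ev (.sq c) ∈ W := by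
  have ht : ev .t ∈ W := by
    have h := h1 0 (by simp)
    rw [C6_Ls_t] at h
    simpa using h
  have hl : ∀ i, ev (.lq i) ∈ W := by
    intro i
    have h := h2 0 (by simp) i
    rw [C6_Ls_lq] at h
    simpa using h
  refine ⟨ht, hl, C6_lin W (fun c => ev (.sq c)) a fun q hq l => ?_⟩
  have h := h2 q hq l
  rw [C6_Ls_lq] at h
  have h3 : ∑ c, (2 * (∑ i, lv c i * q i) * lv c l) • ev (.sq c) ∈ W := by
    have e : ∑ c, (2 * (∑ i, lv c i * q i) * lv c l) • ev (.sq c) =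
        (ev (.lq l) + ∑ c, (2 * (∑ i, lv c i * q i) * lv c l) • ev (.sq c)) - ev (.lq l) := by
      rw [add_sub_cancel_left]
    rw [e]
    exact W.sub_mem h (hl l)
  have h4 := W.smul_mem (1 / 2 : ℝ) h3
  rw [Finset.smul_sum] at h4
  have e : ∑ c, ((∑ i, lv c i * q i) * lv c l) • ev (.sq c) =
      ∑ c, (1 / 2 : ℝ) • (2 * (∑ i, lv c i * q i) * lv c l) • ev (.sq c) := by
    refine Finset.sum_congr rfl fun c _ => ?_
    rw [smul_smul]
    congr 1
    ring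
  rw [e]
  exact h4

end

end H8SR
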