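import Pool.Agent.Lib.H8SR.C5

/-!
# Chunk C7: the blocks of the active family `a`

`xv X` is the position with `q = 0`, `x (a,j,e) = X j e`, other families `0`.
* `Ls (xv X) (ev t)` for `X = r` at one block `β = (a,j,e)`: `ev t + ∑ r^(k+1) • ev (m β 0 k) + ep e r^4/4 • ev (z a j 2)`
  (`s = 0`).  `coeff_mem5`: `ev (m β 0 k)`, `ev (z a j 2)`.
* `Ls (xv X) (ev (lq i))`, `lv a i = 1`, `∑ α j * P_j(X) = 0` with `P_j(X) = ∑ e, ep e * X j e ^ 4 / 4`:
  `ev (lq i) + ∑_{j,e,k} X j e ^ (k+1) • ev (m (a,j,e) 1 k) + ∑_j 2 P_j(X) • ev (z a j 1)`.  Replace `X` by `r X`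
  (the condition is homogeneous) and use `coeff_mem5`: for `k = 0,1,2`
  `V_k(X) := ∑_{j,e} X j e ^ (k+1) • ev (m (a,j,e) 1 k) ∈ W` and `∑_j P_j(X) • ev (z a j 1) ∈ W`.
  In the sector `j`: `X = (1 at e, ±1 at e')` with `ep e' = - ep e` (`P = 0`): sum and difference for
  `k = 0, 2` (odd powers) give `ev (m (a,j,e) 1 k)`; for `k = 1` (squares): `ev e + ev e' ∈ W` for opposite
  signs, and `X = (1, w, 1, 0)` with `w^4 = 2`, `w = sqrt (sqrt 2)`: `ev 0 + sqrt 2 • ev 1 + ev 2 ∈ W`, so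
  `(2 - sqrt 2) • ev (m (a,j,1) 1 1) ∈ W`, etc.
* for `c : Fin 4 → ℝ` with `∑ α j * c j = 0` choose `X j 0 ^ 4 = 4 max (c j) 0`, `X j 1 ^ 4 = 4 max (- c j) 0`:
  `∑_j c j • ev (z a j 1) ∈ W`.
-/

namespace H8SR

open MeasureTheory Set Filter Topology
open scoped Manifold ContDiff

noncomputable section

/-- the position of the family `a` -/
def xv (a : Fin 6) (X : Fin 4 → Fin 4 → ℝ) : SRG := fun k => match k with
  | .x β => if β.1 = a then X β.2.1 β.2.2 else 0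
  | _ => 0

theorem isPos_xv (a : Fin 6) (X : Fin 4 → Fin 4 → ℝ) : IsPos (xv a X) := by
  intro k _ h2
  cases k with
  | x β => exact absurd rfl (h2 β)
  | _ => rfl

/-- static potential of a sector -/
def stP (X : Fin 4 → ℝ) : ℝ := ∑ e, ep e * (X e ^ 4 / 4)

/-! ### coordinates of `Ls y (ev t)` and `Ls y (ev (lq i))` -/

theorem c7_ev (k l : Idx) : (ev k : Idx → ℝ) l = if l = k then 1 else 0 := by
  rw [ev, Pi.single_apply]

theorem c7_mat_t (β : Blk) : mat β (ev .t) = ![![1, 0, 0, 0], ![0, 0, 0, 0], ![0, 0, 0, 0]] := by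
  funext i k
  refine Fin.cases ?_ (fun k => ?_) k
  · simp only [mat, Fin.cons_zero]
    fin_cases i <;> simp [qm, c7_ev]
  · simp only [mat, Fin.cons_succ, c7_ev]
    fin_cases i <;> fin_cases k <;> simp

theorem c7_mat_lq (β : Blk) (i₀ : Fin 3) :
    mat β (ev (.lq i₀)) = ![![0, 0, 0, 0], ![lv β.1 i₀, 0, 0, 0], ![0, 0, 0, 0]] := by
  funext i k
  refine Fin.cases ?_ (fun k => ?_) k
  · simp only [mat, Fin.cons_zero]
    fin_cases i <;> simp [qm, c7_ev]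
  · simp only [mat, Fin.cons_succ, c7_ev]
    fin_cases i <;> fin_cases k <;> simp

theorem c7_mat_pos {y : SRG} (hy : IsPos y) (β : Blk) : mat β y = 0 := by
  have h : ∀ k : Idx, (∀ i, k ≠ .q i) → (∀ β, k ≠ .x β) → y k = 0 := hy
  funext i k
  refine Fin.cases ?_ (fun k => ?_) k
  · simp only [mat, Fin.cons_zero]
    fin_cases i
    · simpa [qm] using h .t (by simp) (by simp)
    · simp [qm, h (.lq _) (by simp) (by simp)]
    · simpa [qm] using h (.sq _) (by simp) (by simp)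
  · simp only [mat, Fin.cons_succ]
    exact h _ (by simp) (by simp)

theorem c7_Lt_t (y : SRG) : Ls y (ev .t) .t = 1 := by
  change (ev .t : Idx → ℝ) .t = 1
  simp [c7_ev]

theorem c7_Lt_lq (y : SRG) (i : Fin 3) : Ls y (ev .t) (.lq i) = y (.q i) := by
  change (ev .t : Idx → ℝ) (.lq i) + y (.q i) * (ev .t : Idx → ℝ) .t = _
  simp [c7_ev]

theorem c7_Lt_q (y : SRG) (i : Fin 3) : Ls y (ev .t) (.q i) = 0 := by
  change (ev .t : Idx → ℝ) (.q i) = _
  simp [c7_ev]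

theorem c7_Lt_x (y : SRG) (β : Blk) : Ls y (ev .t) (.x β) = 0 := by
  change (ev .t : Idx → ℝ) (.x β) = _
  simp [c7_ev]

theorem c7_Lt_sq (y : SRG) (c : Fin 6) : Ls y (ev .t) (.sq c) = sf c y ^ 2 := by
  change (ev .t : Idx → ℝ) (.sq c) + 2 * sf c y * qm c (ev .t) 1 + sf c y ^ 2 * (ev .t : Idx → ℝ) .t = _
  simp [c7_ev, qm]

theorem c7_Lt_m (y : SRG) (β : Blk) (i k : Fin 3) :
    Ls y (ev .t) (.m β i k) = sf β.1 y ^ (i : ℕ) * y (.x β) ^ ((k : ℕ) + 1) := by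
  change tb (sf β.1 y) (y (.x β)) (mat β (ev .t)) i k.succ = _
  rw [c7_mat_t]
  fin_cases i <;> fin_cases k <;> simp [tb, tx, ts] <;> ring

theorem c7_Lt_z {y : SRG} (hy : IsPos y) (c : Fin 6) (j : Fin 4) (n : Fin 5) :
    Ls y (ev .t) (.z c j n) = (![sf c y ^ 2, 2 * sf c y, 1, 0, 0] : Fin 5 → ℝ) n * stP (xs c j y) := by
  change zs (sf c y) (fun n => (ev .t : Idx → ℝ) (.z c j n)) n
      + ∑ e : Fin 4, ep e * (st (sf c y) (y (.x (c, j, e))) (mat (c, j, e) (ev .t)) n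
        + gg e / 6 * kap (tb (sf c y) (y (.x (c, j, e))) (mat (c, j, e) (ev .t)))
          (mat (c, j, e) y) n) = _
  simp only [c7_mat_pos hy, kap_zero_right, c7_mat_t, c7_ev, stP, xs]
  fin_cases n <;> simp [zs, st, p4, ts, Fin.sum_univ_four] <;> ring

theorem c7_Ll_t (y : SRG) (i₀ : Fin 3) : Ls y (ev (.lq i₀)) .t = 0 := by
  change (ev (.lq i₀) : Idx → ℝ) .t = 0
  simp [c7_ev]

theorem c7_Ll_lq (y : SRG) (i₀ i : Fin 3) : Ls y (ev (.lq i₀)) (.lq i) = if i = i₀ then 1 else 0 := by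
  change (ev (.lq i₀) : Idx → ℝ) (.lq i) + y (.q i) * (ev (.lq i₀) : Idx → ℝ) .t = _
  simp [c7_ev]

theorem c7_Ll_q (y : SRG) (i₀ i : Fin 3) : Ls y (ev (.lq i₀)) (.q i) = 0 := by
  change (ev (.lq i₀) : Idx → ℝ) (.q i) = _
  simp [c7_ev]

theorem c7_Ll_x (y : SRG) (i₀ : Fin 3) (β : Blk) : Ls y (ev (.lq i₀)) (.x β) = 0 := by
  change (ev (.lq i₀) : Idx → ℝ) (.x β) = _
  simp [c7_ev]

theorem c7_Ll_sq (y : SRG) (i₀ : Fin 3) (c : Fin 6) :
    Ls y (ev (.lq i₀)) (.sq c) = 2 * sf c y * lv c i₀ := by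
  change (ev (.lq i₀) : Idx → ℝ) (.sq c) + 2 * sf c y * qm c (ev (.lq i₀)) 1
    + sf c y ^ 2 * (ev (.lq i₀) : Idx → ℝ) .t = _
  simp [c7_ev, qm]

theorem c7_Ll_m (y : SRG) (i₀ : Fin 3) (β : Blk) (i k : Fin 3) :
    Ls y (ev (.lq i₀)) (.m β i k) =
      lv β.1 i₀ * (![0, 1, 2 * sf β.1 y] : Fin 3 → ℝ) i * y (.x β) ^ ((k : ℕ) + 1) := by
  change tb (sf β.1 y) (y (.x β)) (mat β (ev (.lq i₀))) i k.succ = _
  rw [c7_mat_lq]
  fin_cases i <;> fin_cases k <;> simp [tb, tx, ts] <;> ring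

theorem c7_Ll_z {y : SRG} (hy : IsPos y) (i₀ : Fin 3) (c : Fin 6) (j : Fin 4) (n : Fin 5) :
    Ls y (ev (.lq i₀)) (.z c j n) =
      lv c i₀ * (![2 * sf c y, 2, 0, 0, 0] : Fin 5 → ℝ) n * stP (xs c j y) := by
  change zs (sf c y) (fun n => (ev (.lq i₀) : Idx → ℝ) (.z c j n)) n
      + ∑ e : Fin 4, ep e * (st (sf c y) (y (.x (c, j, e))) (mat (c, j, e) (ev (.lq i₀))) n
        + gg e / 6 * kap (tb (sf c y) (y (.x (c, j, e))) (mat (c, j, e) (ev (.lq i₀))))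
          (mat (c, j, e) y) n) = _
  simp only [c7_mat_pos hy, kap_zero_right, c7_mat_lq, c7_ev, stP, xs]
  fin_cases n <;> simp [zs, st, p4, ts, Fin.sum_univ_four] <;> ring

/-! ### the elements `xv a X` -/

theorem c7_sf_xv (a c : Fin 6) (X : Fin 4 → Fin 4 → ℝ) : sf c (xv a X) = 0 := by
  simp [sf, xv]

theorem c7_xs_xv (a : Fin 6) (X : Fin 4 → Fin 4 → ℝ) (j : Fin 4) : xs a j (xv a X) = X j := by
  funext e
  simp [xs, xv]

theorem c7_xs_xv_ne {a c : Fin 6} (h : c ≠ a) (X : Fin 4 → Fin 4 → ℝ) (j : Fin 4) :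
    xs c j (xv a X) = 0 := by
  funext e
  simp [xs, xv, h]

theorem c7_stP_zero : stP 0 = 0 := by simp [stP]

/-- one block only -/
def c7X (j e : Fin 4) (r : ℝ) : Fin 4 → Fin 4 → ℝ := fun j' e' => if j' = j ∧ e' = e then r else 0

theorem c7_xv_one (a : Fin 6) (j e : Fin 4) (r : ℝ) (β : Blk) :
    xv a (c7X j e r) (.x β) = if β = (a, j, e) then r else 0 := by
  obtain ⟨c, j', e'⟩ := β
  simp only [xv, c7X, Prod.mk.injEq]
  split_ifs <;> simp_all

theorem c7_stP_one (j e j' : Fin 4) (r : ℝ) :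
    stP (c7X j e r j') = if j' = j then ep e * (r ^ 4 / 4) else 0 := by
  simp only [stP, c7X]
  by_cases h : j' = j
  · subst h
    simp [ite_pow, ite_div]
  · simp [h]

theorem c7_lt_one (a : Fin 6) (j e : Fin 4) (r : ℝ) :
    ev .t + r • ev (.m (a, j, e) 0 0) + r ^ 2 • ev (.m (a, j, e) 0 1)
      + r ^ 3 • ev (.m (a, j, e) 0 2) + r ^ 4 • ((ep e / 4) • ev (.z a j 2)) =
      Ls (xv a (c7X j e r)) (ev .t) := by
  ext k
  simp only [add_apply, smul_apply, c7_ev]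
  cases k with
  | q i => rw [c7_Lt_q]; simp
  | x β => rw [c7_Lt_x]; simp
  | t => rw [c7_Lt_t]; simp
  | lq i => rw [c7_Lt_lq]; simp [xv]
  | sq c => rw [c7_Lt_sq, c7_sf_xv]; simp
  | m β i k =>
    rw [c7_Lt_m, c7_sf_xv, c7_xv_one]
    by_cases hb : β = (a, j, e)
    · subst hb
      fin_cases i <;> fin_cases k <;> simp
    · fin_cases i <;> fin_cases k <;> simp [hb]
  | z c j' n =>
    rw [c7_Lt_z (isPos_xv a _), c7_sf_xv]
    by_cases hc : c = a
    · subst hc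
      rw [c7_xs_xv, c7_stP_one]
      by_cases hj : j' = j
      · subst hj
        fin_cases n <;> simp <;> ring
      · fin_cases n <;> simp [hj]
    · rw [c7_xs_xv_ne hc, c7_stP_zero]
      simp [hc]

theorem act0_mem (W : Submodule ℝ SRG) (a : Fin 6)
    (h1 : ∀ X, Ls (xv a X) (ev .t) ∈ W) :
    (∀ j e k, ev (.m (a, j, e) 0 k) ∈ W) ∧ ∀ j, ev (.z a j 2) ∈ W := by
  have key : ∀ j e, (ev (.m (a, j, e) 0 0) ∈ W ∧ ev (.m (a, j, e) 0 1) ∈ W ∧
      ev (.m (a, j, e) 0 2) ∈ W) ∧ (ep e / 4) • ev (.z a j 2) ∈ W := by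
    intro j e
    have h := coeff_mem5 W (ev .t) (ev (.m (a, j, e) 0 0)) (ev (.m (a, j, e) 0 1))
      (ev (.m (a, j, e) 0 2)) ((ep e / 4) • ev (.z a j 2)) (fun r => by
        rw [c7_lt_one]
        exact h1 _)
    exact ⟨⟨h.2.1, h.2.2.1, h.2.2.2.1⟩, h.2.2.2.2⟩
  refine ⟨fun j e k => ?_, fun j => ?_⟩
  · have := (key j e).1
    fin_cases k
    · exact this.1
    · exact this.2.1
    · exact this.2.2
  · have h := W.smul_mem 4 (key j 0).2
    have e1 : (4:ℝ) • ((ep 0 / 4) • ev (.z a j 2)) = ev (.z a j 2) := by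
      rw [smul_smul]; simp [ep]
    rwa [e1] at h

/-- the moments `m β 1 k` -/
def c7V (a : Fin 6) (k : Fin 3) (X : Fin 4 → Fin 4 → ℝ) : SRG := fun l => match l with
  | .m β i k' => if β.1 = a ∧ i = 1 ∧ k' = k then X β.2.1 β.2.2 ^ ((k : ℕ) + 1) else 0
  | _ => 0

/-- the coordinates `z a j 1` -/
def c7Z (a : Fin 6) (c : Fin 4 → ℝ) : SRG := fun l => match l with
  | .z d j n => if d = a ∧ n = 1 then c j else 0
  | _ => 0

theorem c7_exists_i (a : Fin 6) : ∃ i, lv a i = 1 := by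
  fin_cases a
  · exact ⟨0, by simp [lv]⟩
  · exact ⟨1, by simp [lv]⟩
  · exact ⟨2, by simp [lv]⟩
  · exact ⟨0, by simp [lv]⟩
  · exact ⟨0, by simp [lv]⟩
  · exact ⟨1, by simp [lv]⟩

theorem c7_stP_smul (r : ℝ) (v : Fin 4 → ℝ) : stP (fun e => r * v e) = r ^ 4 * stP v := by
  simp only [stP, Fin.sum_univ_four]
  ring

theorem c7_ll (a : Fin 6) (X : Fin 4 → Fin 4 → ℝ) {i : Fin 3} (hi : lv a i = 1) (r : ℝ) :
    ev (.lq i) + r • c7V a 0 X + r ^ 2 • c7V a 1 X + r ^ 3 • c7V a 2 X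
      + r ^ 4 • c7Z a (fun j => 2 * stP (X j)) =
      Ls (xv a (fun j e => r * X j e)) (ev (.lq i)) := by
  ext k
  simp only [add_apply, smul_apply, c7_ev]
  cases k with
  | q i => rw [c7_Ll_q]; simp [c7V, c7Z]
  | x β => rw [c7_Ll_x]; simp [c7V, c7Z]
  | t => rw [c7_Ll_t]; simp [c7V, c7Z]
  | lq i' => rw [c7_Ll_lq]; simp [c7V, c7Z]
  | sq c => rw [c7_Ll_sq, c7_sf_xv]; simp [c7V, c7Z]
  | m β i' k =>
    rw [c7_Ll_m, c7_sf_xv]
    by_cases hb : β.1 = a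
    · simp only [xv, hb, if_true, hi]
      fin_cases i' <;> fin_cases k <;> simp [c7V, c7Z, hb] <;> ring
    · simp [c7V, c7Z, hb, xv]
  | z c j' n =>
    rw [c7_Ll_z (isPos_xv a _), c7_sf_xv]
    by_cases hc : c = a
    · subst hc
      rw [c7_xs_xv, hi, c7_stP_smul]
      fin_cases n <;> simp [c7V, c7Z] <;> ring
    · rw [c7_xs_xv_ne hc, c7_stP_zero]
      simp [c7V, c7Z, hc]

/-- one sector only -/
def c7S (j : Fin 4) (v : Fin 4 → ℝ) : Fin 4 → Fin 4 → ℝ := fun j' => if j' = j then v else 0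

theorem c7_V_one (a : Fin 6) (k : Fin 3) (j : Fin 4) (v : Fin 4 → ℝ) :
    c7V a k (c7S j v) = v 0 ^ ((k : ℕ) + 1) • ev (.m (a, j, 0) 1 k)
      + v 1 ^ ((k : ℕ) + 1) • ev (.m (a, j, 1) 1 k) + v 2 ^ ((k : ℕ) + 1) • ev (.m (a, j, 2) 1 k)
      + v 3 ^ ((k : ℕ) + 1) • ev (.m (a, j, 3) 1 k) := by
  ext l
  simp only [add_apply, smul_apply, c7_ev]
  cases l with
  | m β i k' =>
    obtain ⟨c, j', e'⟩ := β
    simp only [c7V, c7S, Idx.m.injEq, Prod.mk.injEq]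
    by_cases h1 : c = a ∧ i = 1 ∧ k' = k
    · obtain ⟨h1, h2, h3⟩ := h1
      subst h1; subst h2; subst h3
      by_cases hj : j' = j
      · subst hj
        fin_cases e' <;> simp
      · simp [hj]
    · have h2 : ∀ P : Prop, ¬ ((c = a ∧ P) ∧ i = 1 ∧ k' = k) := fun P h => h1 ⟨h.1.1, h.2⟩
      simp [h1, h2]
  | _ => simp [c7V]

theorem act1_mem (W : Submodule ℝ SRG) (a : Fin 6) (α : Fin 4 → ℝ)
    (h2 : ∀ X, ∑ j, α j * stP (X j) = 0 → ∀ i, Ls (xv a X) (ev (.lq i)) ∈ W) :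
    (∀ j e k, ev (.m (a, j, e) 1 k) ∈ W) ∧
      ∀ c : Fin 4 → ℝ, ∑ j, α j * c j = 0 → ∑ j, c j • ev (.z a j 1) ∈ W := by
  obtain ⟨i, hi⟩ := c7_exists_i a
  have key : ∀ X : Fin 4 → Fin 4 → ℝ, ∑ j, α j * stP (X j) = 0 →
      (∀ k, c7V a k X ∈ W) ∧ c7Z a (fun j => 2 * stP (X j)) ∈ W := by
    intro X hX
    have h := coeff_mem5 W (ev (.lq i)) (c7V a 0 X) (c7V a 1 X) (c7V a 2 X)
      (c7Z a (fun j => 2 * stP (X j))) (fun r => by
        rw [c7_ll a X hi]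
        refine h2 _ ?_ i
        have e1 : ∀ j, α j * stP (fun e => r * X j e) = r ^ 4 * (α j * stP (X j)) := by
          intro j; rw [c7_stP_smul]; ring
        rw [Finset.sum_congr rfl fun j _ => e1 j, ← Finset.mul_sum, hX, mul_zero])
    refine ⟨fun k => ?_, h.2.2.2.2⟩
    fin_cases k
    · exact h.2.1
    · exact h.2.2.1
    · exact h.2.2.2.1
  constructor
  · intro j
    have keyS : ∀ v : Fin 4 → ℝ, stP v = 0 → ∀ k : Fin 3, v 0 ^ ((k : ℕ) + 1) • ev (.m (a, j, 0) 1 k)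
        + v 1 ^ ((k : ℕ) + 1) • ev (.m (a, j, 1) 1 k)
        + v 2 ^ ((k : ℕ) + 1) • ev (.m (a, j, 2) 1 k)
        + v 3 ^ ((k : ℕ) + 1) • ev (.m (a, j, 3) 1 k) ∈ W := by
      intro v hv k
      rw [← c7_V_one]
      refine (key (c7S j v) ?_).1 k
      refine Finset.sum_eq_zero fun j' _ => ?_
      by_cases h : j' = j
      · simp [c7S, h, hv]
      · simp [c7S, h, c7_stP_zero]
    set w : ℝ := Real.sqrt (Real.sqrt 2) with hw
    have hw0 : 0 ≤ w := Real.sqrt_nonneg _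
    have hw4 : w ^ 4 = 2 := by
      have e1 : w ^ 2 = Real.sqrt 2 := Real.sq_sqrt (Real.sqrt_nonneg _)
      have e2 : Real.sqrt 2 ^ 2 = 2 := Real.sq_sqrt (by norm_num)
      calc w ^ 4 = (w ^ 2) ^ 2 := by ring
        _ = 2 := by rw [e1, e2]
    have hw1 : 1 < w := by
      by_contra h
      push Not at h
      have : w ^ 4 ≤ 1 := pow_le_one₀ hw0 h
      linarith
    have hwk : ∀ k : Fin 3, w ^ ((k : ℕ) + 1) < 2 := by
      intro k
      rw [← hw4]
      exact pow_lt_pow_right₀ hw1 (by omega)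
    have all : ∀ k : Fin 3, ev (.m (a, j, 0) 1 k) ∈ W ∧ ev (.m (a, j, 1) 1 k) ∈ W ∧
        ev (.m (a, j, 2) 1 k) ∈ W ∧ ev (.m (a, j, 3) 1 k) ∈ W := by
      intro k
      have h01 := keyS ![1, 1, 0, 0] (by simp [stP, Fin.sum_univ_four, ep]) k
      have h12 := keyS ![0, 1, 1, 0] (by simp [stP, Fin.sum_univ_four, ep]) k
      have h23 := keyS ![0, 0, 1, 1] (by simp [stP, Fin.sum_univ_four, ep]) k
      have hww := keyS ![1, w, 1, 0] (by simp [stP, Fin.sum_univ_four, ep, hw4]; norm_num) k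
      simp only [Matrix.cons_val_zero, Matrix.cons_val_one, Matrix.cons_val, one_pow, one_smul,
        ne_eq, Nat.add_eq_zero_iff, one_ne_zero, and_false, not_false_eq_true, zero_pow, zero_smul,
        add_zero, zero_add] at h01 h12 h23 hww
      set E0 := ev (.m (a, j, 0) 1 k)
      set E1 := ev (.m (a, j, 1) 1 k)
      set E2 := ev (.m (a, j, 2) 1 k)
      set E3 := ev (.m (a, j, 3) 1 k)
      have h1 : E1 ∈ W := by
        have hs := W.sub_mem (W.sub_mem hww h01) h12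
        have e1 : E0 + w ^ ((k : ℕ) + 1) • E1 + E2 - (E0 + E1) - (E1 + E2) =
            (w ^ ((k : ℕ) + 1) - 2) • E1 := by
          module
        rw [e1] at hs
        have hne : w ^ ((k : ℕ) + 1) - 2 ≠ 0 := by
          have := hwk k
          intro h; linarith
        exact (W.smul_mem_iff hne).1 hs
      have h0 : E0 ∈ W := by
        have := W.sub_mem h01 h1
        rwa [add_sub_cancel_right] at this
      have h2' : E2 ∈ W := by
        have := W.sub_mem h12 h1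
        rwa [add_sub_cancel_left] at this
      have h3 : E3 ∈ W := by
        have := W.sub_mem h23 h2'
        rwa [add_sub_cancel_left] at this
      exact ⟨h0, h1, h2', h3⟩
    intro e k
    fin_cases e
    · exact (all k).1
    · exact (all k).2.1
    · exact (all k).2.2.1
    · exact (all k).2.2.2
  · intro c hc
    have hss : ∀ t : ℝ, 0 ≤ t → Real.sqrt (Real.sqrt t) ^ 4 = t := by
      intro t ht
      have e1 : Real.sqrt (Real.sqrt t) ^ 2 = Real.sqrt t := Real.sq_sqrt (Real.sqrt_nonneg _)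
      have e2 : Real.sqrt t ^ 2 = t := Real.sq_sqrt ht
      calc Real.sqrt (Real.sqrt t) ^ 4 = (Real.sqrt (Real.sqrt t) ^ 2) ^ 2 := by ring
        _ = t := by rw [e1, e2]
    set X : Fin 4 → Fin 4 → ℝ := fun j => ![Real.sqrt (Real.sqrt (4 * max (c j) 0)),
      Real.sqrt (Real.sqrt (4 * max (- c j) 0)), 0, 0] with hX
    have hP : ∀ j, stP (X j) = c j := by
      intro j
      have h1 := hss (4 * max (c j) 0) (by positivity)
      have h2 := hss (4 * max (- c j) 0) (by positivity)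
      simp only [stP, Fin.sum_univ_four, ep, hX, Matrix.cons_val_zero, Matrix.cons_val_one,
        Matrix.cons_val]
      rw [h1, h2]
      rcases le_total 0 (c j) with h | h
      · rw [max_eq_left h, max_eq_right (by linarith)]; ring
      · rw [max_eq_right h, max_eq_left (by linarith)]; ring
    have h := (key X (by simpa [hP] using hc)).2
    have h' := W.smul_mem (1 / 2 : ℝ) h
    have e1 : (1 / 2 : ℝ) • c7Z a (fun j => 2 * stP (X j)) = ∑ j, c j • ev (.z a j 1) := by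
      rw [Fin.sum_univ_four]
      ext l
      simp only [add_apply, smul_apply, c7_ev]
      cases l with
      | z d j n =>
        simp only [c7Z, hP, Idx.z.injEq]
        by_cases h1 : d = a ∧ n = 1
        · obtain ⟨h1, h3⟩ := h1
          subst h1; subst h3
          fin_cases j <;> simp
        · have h2 : ∀ P : Prop, ¬ (d = a ∧ P ∧ n = 1) := fun P h => h1 ⟨h.1, h.2.2⟩
          simp [h1, h2]
      | _ => simp [c7Z]
    rwa [e1] at h'

end

end H8SR
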