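import Pool.Agent.Lib.H8SR.C3
import Pool.Agent.Lib.H8SR.C6
import Pool.Agent.Lib.H8SR.C7
import Pool.Agent.Lib.H8SR.B6

/-!
# Chunk C8: every element of `Ks a α` is joined to the identity inside `Zs a α`

`full_Ks : Full (Zs a α) (Ks a α)`: linear conditions; `kz g h` has only the coordinates `z`; for `n = 0`
`kap (mat h) (mat g) 0 = kr (h 2) (g 2) = 0` and for `n = 1` both terms contain a row `2`, which is `0` for
the family `a`.  `inv` is `Ks_mul_Zs`.

Generators (`Full.gen`), `W = full_Ks.D`: for a position `y` with `sf a y = 0`: all `t • y` and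
`y * (r • ev t)` are in `Zs a α` (`sf a = 0`; row `2` of the blocks of the family `a` is `0`, so `chi = 0`; `psi`:
`z a j 1` gets no contribution because the factor `2 s` vanishes), and `Ls y (ev t) ∈ Ks a α`.  For `ev (lq i)` the
same if moreover `∑ α j * stP (xs a j y) = 0`.

Other families `c ≠ a`: there is `u` with `lv a · u = 0`, `lv c · u = 1` (`exists_u`; the vectors `lv a`, `lv c` are
not proportional), so `blk_mem` applies with `y = pv (σ • u) β r`.  `q_mem`, `act0_mem`, `act1_mem`, `z34_mem` give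
the rest.  Finally write `h ∈ Ks a α` as a sum of coordinate vectors:
`h = ∑ k, h k • ev k`, where the coordinates `q, x, sq a, m (a,j,e) 2 k, z a j 0` vanish and the coordinates
`z a j 1` form a vector `c` with `∑ α j * c j = 0`.
-/

namespace H8SR

open MeasureTheory Set Filter Topology
open scoped Manifold ContDiff

noncomputable section

theorem exists_u {a c : Fin 6} (h : c ≠ a) :
    ∃ u : Fin 3 → ℝ, ∑ i, lv a i * u i = 0 ∧ ∑ i, lv c i * u i = 1 := by
  have hD : (∑ i, lv a i * lv a i) * (∑ i, lv c i * lv c i) - (∑ i, lv a i * lv c i) ^ 2 ≠ 0 := by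
    revert h
    fin_cases a <;> fin_cases c <;> simp [lv, Fin.sum_univ_three] <;> norm_num
  set D := (∑ i, lv a i * lv a i) * (∑ i, lv c i * lv c i) - (∑ i, lv a i * lv c i) ^ 2 with hDd
  refine ⟨fun i => ((∑ i, lv a i * lv a i) * lv c i - (∑ i, lv a i * lv c i) * lv a i) / D, ?_, ?_⟩
  · simp only [Fin.sum_univ_three]
    ring
  · simp only [Fin.sum_univ_three] at hDd ⊢
    field_simp
    rw [hDd]
    ring

/-- row `2` of a block of the family `a` -/
theorem c8_row2 {a : Fin 6} {g : SRG} (h1 : g (.sq a) = 0) {j e : Fin 4}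
    (h2 : ∀ k, g (.m (a, j, e) 2 k) = 0) : mat (a, j, e) g 2 = 0 := by
  funext k
  refine Fin.cases ?_ (fun k => ?_) k
  · simpa [mat, qm] using h1
  · simpa [mat] using h2 k

theorem c8_kr_zero_right (f : Fin 4 → ℝ) : kr f 0 = 0 := by simp [kr]

theorem c8_kr_zero_left (f : Fin 4 → ℝ) : kr 0 f = 0 := by simp [kr]

theorem c8_mem_Zs {a : Fin 6} {α : Fin 4 → ℝ} {g : SRG} (hs : sf a g = 0) (h1 : g (.sq a) = 0)
    (h2 : ∀ j e k, g (.m (a, j, e) 2 k) = 0) (hz : ∑ j, α j * g (.z a j 1) = 0) : g ∈ Zs a α := by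
  have hM : ∀ j e, mat (a, j, e) g 2 = 0 := fun j e => c8_row2 h1 (h2 j e)
  refine ⟨by rw [hs, zero_mul], fun j e => ?_, ?_⟩
  · simp [chi, hM]
  · simpa [psi, hM, c8_kr_zero_right] using hz

theorem full_Ks (a : Fin 6) (α : Fin 4 → ℝ) : Full (Zs a α) (Ks a α) where
  one := one_mem_Zs a α
  p0 := fun h hh => hh.1
  zero := ⟨⟨fun _ => rfl, fun _ => rfl⟩, rfl, fun _ _ _ => rfl, fun _ => rfl, by
    refine Finset.sum_eq_zero fun j _ => ?_
    have : (0 : SRG) (.z a j 1) = 0 := rfl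
    rw [this, mul_zero]⟩
  add := fun g hg h hh => ⟨P0_add hg.1 hh.1, by rw [add_apply, hg.2.1, hh.2.1, add_zero],
    fun j e k => by rw [add_apply, hg.2.2.1, hh.2.2.1, add_zero],
    fun j => by rw [add_apply, hg.2.2.2.1, hh.2.2.2.1, add_zero], by
      simp only [add_apply, mul_add, Finset.sum_add_distrib, hg.2.2.2.2, hh.2.2.2.2, add_zero]⟩
  smul := fun r g hg => ⟨P0_smul r hg.1, by rw [smul_apply, hg.2.1, mul_zero],
    fun j e k => by rw [smul_apply, hg.2.2.1, mul_zero],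
    fun j => by rw [smul_apply, hg.2.2.2.1, mul_zero], by
      have e1 : ∀ j, α j * (r • g) (.z a j 1) = r * (α j * g (.z a j 1)) := fun j => by
        rw [smul_apply]; ring
      rw [Finset.sum_congr rfl fun j _ => e1 j, ← Finset.mul_sum, hg.2.2.2.2, mul_zero]⟩
  kz := fun g hg h hh => by
    have hgM : ∀ j e, mat (a, j, e) g 2 = 0 := fun j e => c8_row2 hg.2.1 (hg.2.2.1 j e)
    have hhM : ∀ j e, mat (a, j, e) h 2 = 0 := fun j e => c8_row2 hh.2.1 (hh.2.2.1 j e)
    have e0 : ∀ j, kz g h (.z a j 0) = 0 := by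
      intro j
      change ∑ e, ep e * (gg e / 6 * kap (mat (a, j, e) h) (mat (a, j, e) g) 0) = 0
      refine Finset.sum_eq_zero fun e _ => ?_
      simp [kap, hgM, hhM, c8_kr_zero_right]
    have e1 : ∀ j, kz g h (.z a j 1) = 0 := by
      intro j
      change ∑ e, ep e * (gg e / 6 * kap (mat (a, j, e) h) (mat (a, j, e) g) 1) = 0
      refine Finset.sum_eq_zero fun e _ => ?_
      simp [kap, hgM, hhM, c8_kr_zero_right, c8_kr_zero_left]
    refine ⟨P0_kz g h, rfl, fun _ _ _ => rfl, e0, ?_⟩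
    refine Finset.sum_eq_zero fun j _ => ?_
    rw [e1, mul_zero]
  inv := fun h hh g hg => Ks_mul_Zs hh hg

theorem c8_isClk_t : IsClk (ev .t) := by
  intro k h1 _
  rw [c7_ev, if_neg h1]

theorem c8_isClk_lq (i : Fin 3) : IsClk (ev (.lq i)) := by
  intro k _ h2
  rw [c7_ev, if_neg (h2 i)]

theorem c8_sf_smul (a : Fin 6) (r : ℝ) (g : SRG) : sf a (r • g) = r * sf a g := sf_smul a r g

theorem c8_mul_smul (y : SRG) (r : ℝ) (u : SRG) (k : Idx) :
    (y * (r • u)) k = y k + r * Ls y u k := by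
  have h : Ls y (r • u) = r • Ls y u := LL_smul y r u
  change y k + Ls y (r • u) k = _
  rw [h, smul_apply]

theorem c8_pos_zero {y : SRG} (hy : IsPos y) {k : Idx} (h1 : ∀ i, k ≠ .q i) (h2 : ∀ β, k ≠ .x β) :
    y k = 0 := hy k h1 h2

theorem c8_pos_mem {a : Fin 6} {α : Fin 4 → ℝ} {y : SRG} (hy : IsPos y) (hs : sf a y = 0) (r : ℝ) :
    r • y ∈ Zs a α := by
  refine c8_mem_Zs ?_ ?_ ?_ ?_
  · rw [c8_sf_smul, hs, mul_zero]
  · rw [smul_apply, c8_pos_zero hy (by simp) (by simp), mul_zero]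
  · intro j e k
    rw [smul_apply, c8_pos_zero hy (by simp) (by simp), mul_zero]
  · refine Finset.sum_eq_zero fun j _ => ?_
    rw [smul_apply, c8_pos_zero hy (by simp) (by simp), mul_zero, mul_zero]

theorem c8_sf_conj (a : Fin 6) {y u : SRG} (hu : ∀ i, u (.q i) = 0) : sf a (y * u) = sf a y := by
  rw [sf_mul]
  have : sf a u = 0 := by simp [sf, hu]
  rw [this, add_zero]

theorem gen_t (a : Fin 6) (α : Fin 4 → ℝ) {y : SRG} (hy : IsPos y) (hs : sf a y = 0) :
    Ls y (ev .t) ∈ (full_Ks a α).D := by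
  have hsq : Ls y (ev .t) (.sq a) = 0 := by rw [c7_Lt_sq, hs]; ring
  have hm : ∀ j e k, Ls y (ev .t) (.m (a, j, e) 2 k) = 0 := by
    intro j e k
    rw [c7_Lt_m]
    simp [hs]
  have hz0 : ∀ j, Ls y (ev .t) (.z a j 0) = 0 := by
    intro j
    rw [c7_Lt_z hy, hs]
    simp
  have hz1 : ∀ j, Ls y (ev .t) (.z a j 1) = 0 := by
    intro j
    rw [c7_Lt_z hy, hs]
    simp
  refine (full_Ks a α).gen hy c8_isClk_t (fun t _ => c8_pos_mem hy hs t) (fun r => ?_) ?_
  · refine c8_mem_Zs ?_ ?_ ?_ ?_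
    · rw [c8_sf_conj a, hs]
      intro i
      rw [smul_apply]
      have : ev .t (.q i) = 0 := by rw [c7_ev]; simp
      rw [this, mul_zero]
    · rw [c8_mul_smul, hsq, c8_pos_zero hy (by simp) (by simp)]; ring
    · intro j e k
      rw [c8_mul_smul, hm, c8_pos_zero hy (by simp) (by simp)]; ring
    · refine Finset.sum_eq_zero fun j _ => ?_
      rw [c8_mul_smul, hz1, c8_pos_zero hy (by simp) (by simp)]; ring
  · refine ⟨⟨fun i => c7_Lt_q y i, fun β => c7_Lt_x y β⟩, hsq, hm, hz0, ?_⟩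
    refine Finset.sum_eq_zero fun j _ => ?_
    rw [hz1, mul_zero]

theorem gen_lq (a : Fin 6) (α : Fin 4 → ℝ) {y : SRG} (hy : IsPos y) (hs : sf a y = 0)
    (hP : ∑ j, α j * stP (xs a j y) = 0) (i : Fin 3) :
    Ls y (ev (.lq i)) ∈ (full_Ks a α).D := by
  have hsq : Ls y (ev (.lq i)) (.sq a) = 0 := by rw [c7_Ll_sq, hs]; ring
  have hm : ∀ j e k, Ls y (ev (.lq i)) (.m (a, j, e) 2 k) = 0 := by
    intro j e k
    rw [c7_Ll_m]
    simp [hs]
  have hz0 : ∀ j, Ls y (ev (.lq i)) (.z a j 0) = 0 := by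
    intro j
    rw [c7_Ll_z hy, hs]
    simp
  have hz1 : ∀ j, Ls y (ev (.lq i)) (.z a j 1) = 2 * lv a i * stP (xs a j y) := by
    intro j
    rw [c7_Ll_z hy, hs]
    simp only [Matrix.cons_val_one, Matrix.cons_val_zero]
    ring
  have hsum : ∑ j, α j * Ls y (ev (.lq i)) (.z a j 1) = 0 := by
    have e1 : ∀ j, α j * Ls y (ev (.lq i)) (.z a j 1) = 2 * lv a i * (α j * stP (xs a j y)) := by
      intro j; rw [hz1]; ring
    rw [Finset.sum_congr rfl fun j _ => e1 j, ← Finset.mul_sum, hP, mul_zero]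
  refine (full_Ks a α).gen hy (c8_isClk_lq i) (fun t _ => c8_pos_mem hy hs t) (fun r => ?_) ?_
  · refine c8_mem_Zs ?_ ?_ ?_ ?_
    · rw [c8_sf_conj a, hs]
      intro i'
      rw [smul_apply]
      have : ev (.lq i) (.q i') = 0 := by rw [c7_ev]; simp
      rw [this, mul_zero]
    · rw [c8_mul_smul, hsq, c8_pos_zero hy (by simp) (by simp)]; ring
    · intro j e k
      rw [c8_mul_smul, hm, c8_pos_zero hy (by simp) (by simp)]; ring
    · have e1 : ∀ j, α j * (y * (r • ev (.lq i))) (.z a j 1) =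
          r * (α j * Ls y (ev (.lq i)) (.z a j 1)) := by
        intro j
        rw [c8_mul_smul, c8_pos_zero hy (by simp) (by simp)]; ring
      rw [Finset.sum_congr rfl fun j _ => e1 j, ← Finset.mul_sum, hsum, mul_zero]
  · exact ⟨⟨fun i' => c7_Ll_q y i i', fun β => c7_Ll_x y i β⟩, hsq, hm, hz0, hsum⟩

theorem c8_sum (h : SRG) : h = ∑ k, h k • ev k := by
  have e : (h : Idx → ℝ) = ∑ k, h k • (Pi.single k 1 : Idx → ℝ) := by
    funext i
    simp [Finset.sum_apply, Pi.single_apply]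
  exact e

theorem joined_Ks (a : Fin 6) (α : Fin 4 → ℝ) {h : SRG} (hh : h ∈ Ks a α) : Jn (Zs a α) h := by
  refine (full_Ks a α).jn ?_
  set W := (full_Ks a α).D with hW
  have hk : ∀ g ∈ W, ∀ h ∈ W, kz g h ∈ W := fun g hg h hh => (full_Ks a α).kz_mem hg hh
  obtain ⟨q1, q2, q3⟩ := q_mem W a
    (fun q hq => gen_t a α (isPos_qv q) (by simpa [sf, qv] using hq))
    (fun q hq i => gen_lq a α (isPos_qv q) (by simpa [sf, qv] using hq)
      (Finset.sum_eq_zero fun j _ => by
        have : xs a j (qv q) = 0 := rfl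
        rw [this, c7_stP_zero, mul_zero]) i)
  have hb : ∀ β : Blk, β.1 ≠ a → (∀ i k, ev (.m β i k) ∈ W) ∧ ∀ n, ev (.z β.1 β.2.1 n) ∈ W := by
    intro β hβ
    obtain ⟨u, hu1, hu2⟩ := exists_u hβ
    refine blk_mem W hk β u hu2 (fun σ r => gen_t a α (isPos_pv _ _ _) ?_)
    have e1 : sf a (pv (σ • u) β r) = σ * ∑ i, lv a i * u i := by
      rw [Finset.mul_sum]
      refine Finset.sum_congr rfl fun i _ => ?_
      change lv a i * (σ * u i) = _
      ring
    rw [e1, hu1, mul_zero]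
  obtain ⟨a1, a2⟩ := act0_mem W a (fun X => gen_t a α (isPos_xv a X) (c7_sf_xv a a X))
  obtain ⟨a3, a4⟩ := act1_mem W a α (fun X hX i => gen_lq a α (isPos_xv a X) (c7_sf_xv a a X)
    (by simpa [c7_xs_xv] using hX) i)
  have a5 : ∀ j, ev (.z a j 3) ∈ W ∧ ev (.z a j 4) ∈ W := fun j =>
    z34_mem W hk (a, j, 0) (fun k => a1 j 0 k) (fun k => a3 j 0 k)
  have hz : ∑ j, h (.z a j 1) • ev (.z a j 1) ∈ W := a4 (fun j => h (.z a j 1)) hh.2.2.2.2
  set h' : SRG := h - ∑ j, h (.z a j 1) • ev (.z a j 1) with hh'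
  have hval : ∀ k, h' k = h k - ∑ j, h (.z a j 1) * (if k = .z a j 1 then 1 else 0) := by
    intro k
    have e1 : h' k = h k - (∑ j, h (.z a j 1) • ev (.z a j 1)) k := rfl
    rw [e1, Fin.sum_univ_four, Fin.sum_univ_four]
    simp only [add_apply, smul_apply, c7_ev]
  have hW' : h' ∈ W := by
    rw [c8_sum h']
    refine W.sum_mem fun k _ => ?_
    have hzero : h' k = 0 → h' k • ev k ∈ W := by
      intro h0
      rw [h0, zero_smul]; exact W.zero_mem
    cases k with
    | q i => exact hzero (by rw [hval]; simp [hh.1.1])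
    | x β => exact hzero (by rw [hval]; simp [hh.1.2])
    | t => exact W.smul_mem _ q1
    | lq i => exact W.smul_mem _ (q2 i)
    | sq c =>
      by_cases hc : c = a
      · subst hc
        exact hzero (by rw [hval]; simp [hh.2.1])
      · exact W.smul_mem _ (q3 c hc)
    | m β i k =>
      by_cases hc : β.1 = a
      · obtain ⟨c, j, e⟩ := β
        simp only at hc
        subst hc
        fin_cases i
        · exact W.smul_mem _ (a1 j e k)
        · exact W.smul_mem _ (a3 j e k)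
        · exact hzero (by rw [hval]; simp [hh.2.2.1])
      · exact W.smul_mem _ ((hb β hc).1 i k)
    | z c j n =>
      by_cases hc : c = a
      · subst hc
        fin_cases n
        · exact hzero (by rw [hval]; simp [hh.2.2.2.1])
        · refine hzero ?_
          rw [hval]
          fin_cases j <;> simp
        · exact W.smul_mem _ (a2 j)
        · exact W.smul_mem _ (a5 j).1
        · exact W.smul_mem _ (a5 j).2
      · exact W.smul_mem _ ((hb (c, j, 0) hc).2 n)
  have : h = h' + ∑ j, h (.z a j 1) • ev (.z a j 1) := by rw [hh']; abel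
  rw [this]
  exact W.add_mem hW' hz

end

end H8SR
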