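import Pool.Agent.Lib.H8SR.C3
import Pool.Agent.Lib.H8SR.C5
import Pool.Agent.Lib.H8SR.C8
import Pool.Agent.Lib.H8SR.B6

/-!
# Chunk C9: Case 2

`full_Kq : Full (Zq l) (Kq l)`.  Generators: `Ls (pv (σ • u) β r) (ev t)` minus `Ls (qv-type) ...`: NOTE that
`Ls y (ev t)` has the coordinates `lq i = q i`, so `∑ l i * (lq i) = l(q) = 0` for `l(q_y) = 0`: it is in `Kq l`.
If `l` is not proportional to `lv c` (hypothesis `hl`: there is `u` with `l(u) = 0`, `lv c · u = 1`) then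
`blk_mem` gives all `ev (m β i k)`, `ev (z c j n)`.  A target `g` with `t = lq = sq = 0` and `l(q_g) = 0`:
`h = g - posF g` is a sum of these, so joined, and `g = h * posF g` (`mul_pos`), a straight move inside `Zq l`
(`reach_pos`).

`exists_l`: the linear forms `l` with `l(q) = 0` contain two linearly independent ones, `l₁, l₂`; among
`l₁ + n l₂`, `n = 0..6`, at most six are proportional to some `lv c`; `l` not proportional to `lv c` gives `u`
(cross product: `u = (l × v) × ...`; or: the map `w ↦ (l · w, lv c · w)` is onto `ℝ²`).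
-/

namespace H8SR

open MeasureTheory Set Filter Topology
open scoped Manifold ContDiff

noncomputable section

/-- two non-zero different coordinates -/
def c9P (l : Fin 3 → ℝ) : Prop :=
  (l 0 ≠ 0 ∧ l 1 ≠ 0 ∧ l 0 ≠ l 1) ∨ (l 0 ≠ 0 ∧ l 2 ≠ 0 ∧ l 0 ≠ l 2) ∨
    (l 1 ≠ 0 ∧ l 2 ≠ 0 ∧ l 1 ≠ l 2)

theorem c9_exists (q : Fin 3 → ℝ) : ∃ l : Fin 3 → ℝ, ∑ i, l i * q i = 0 ∧ c9P l := by
  simp only [Fin.sum_univ_three]
  by_cases h0 : q 0 = 0
  · by_cases h2 : q 2 = 0
    · by_cases h1 : q 1 = 0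
      · refine ⟨![1, 2, 0], by simp [h0, h1, h2], Or.inl ?_⟩
        simp
      · refine ⟨![q 1, 0, - q 1], by simp [h0, h2], Or.inr (Or.inl ?_)⟩
        simp only [Matrix.cons_val_zero, Matrix.cons_val]
        refine ⟨h1, neg_ne_zero.2 h1, fun h => h1 (by linarith)⟩
    · refine ⟨![2 * q 2, q 2, - q 1], ?_, Or.inl ?_⟩
      · simp [h0]; ring
      · simp only [Matrix.cons_val_zero, Matrix.cons_val_one]
        exact ⟨by simpa using h2, h2, fun h => h2 (by linarith)⟩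
  · by_cases h1 : q 1 = 0
    · refine ⟨![- q 2, 2 * q 0, q 0], ?_, Or.inr (Or.inr ?_)⟩
      · simp [h1]; ring
      · simp only [Matrix.cons_val_one, Matrix.cons_val]
        exact ⟨by simpa using h0, h0, fun h => h0 (by linarith)⟩
    · by_cases h2 : q 2 = 0
      · refine ⟨![q 1, - q 0, 2 * q 1], ?_, Or.inr (Or.inl ?_)⟩
        · simp [h2]; ring
        · simp only [Matrix.cons_val_zero, Matrix.cons_val]
          exact ⟨h1, by simpa using h1, fun h => h1 (by linarith)⟩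
      · by_cases h3 : q 0 + q 1 = 0
        · by_cases h4 : q 0 + q 2 = 0
          · refine ⟨![3, 1, 2], ?_, Or.inl ?_⟩
            · simp; linarith
            · simp
          · refine ⟨![q 2, 0, - q 0], ?_, Or.inr (Or.inl ?_)⟩
            · simp; ring
            · simp only [Matrix.cons_val_zero, Matrix.cons_val]
              exact ⟨h2, neg_ne_zero.2 h0, fun h => h4 (by linarith)⟩
        · refine ⟨![q 1, - q 0, 0], ?_, Or.inl ?_⟩
          · simp; ring
          · simp only [Matrix.cons_val_zero, Matrix.cons_val_one]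
            exact ⟨h1, neg_ne_zero.2 h0, fun h => h3 (by linarith)⟩

theorem c9_D {l : Fin 3 → ℝ} (hl : c9P l) (c : Fin 6) :
    (∑ i, l i * l i) * (∑ i, lv c i * lv c i) - (∑ i, l i * lv c i) ^ 2 ≠ 0 := by
  intro h
  simp only [Fin.sum_univ_three] at h
  have e : (l 0 * lv c 1 - l 1 * lv c 0) ^ 2 + (l 0 * lv c 2 - l 2 * lv c 0) ^ 2
      + (l 1 * lv c 2 - l 2 * lv c 1) ^ 2 = 0 := by
    rw [← h]; ring
  have m1 : l 0 * lv c 1 - l 1 * lv c 0 = 0 := by
    have := sq_nonneg (l 0 * lv c 1 - l 1 * lv c 0)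
    have := sq_nonneg (l 0 * lv c 2 - l 2 * lv c 0)
    have := sq_nonneg (l 1 * lv c 2 - l 2 * lv c 1)
    exact pow_eq_zero_iff (two_ne_zero) |>.1 (by linarith)
  have m2 : l 0 * lv c 2 - l 2 * lv c 0 = 0 := by
    have := sq_nonneg (l 0 * lv c 1 - l 1 * lv c 0)
    have := sq_nonneg (l 0 * lv c 2 - l 2 * lv c 0)
    have := sq_nonneg (l 1 * lv c 2 - l 2 * lv c 1)
    exact pow_eq_zero_iff (two_ne_zero) |>.1 (by linarith)
  have m3 : l 1 * lv c 2 - l 2 * lv c 1 = 0 := by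
    have := sq_nonneg (l 0 * lv c 1 - l 1 * lv c 0)
    have := sq_nonneg (l 0 * lv c 2 - l 2 * lv c 0)
    have := sq_nonneg (l 1 * lv c 2 - l 2 * lv c 1)
    exact pow_eq_zero_iff (two_ne_zero) |>.1 (by linarith)
  have key : ∀ x y z : ℝ, l 0 = x → l 1 = y → l 2 = z → c9P l → (x ≠ 0 ∧ y ≠ 0 ∧ x ≠ y) ∨
      (x ≠ 0 ∧ z ≠ 0 ∧ x ≠ z) ∨ (y ≠ 0 ∧ z ≠ 0 ∧ y ≠ z) := by
    intro x y z hx hy hz h
    subst hx; subst hy; subst hz
    exact h
  have hk := key _ _ _ rfl rfl rfl hl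
  generalize l 0 = x at *
  generalize l 1 = y at *
  generalize l 2 = z at *
  fin_cases c <;> simp [lv] at m1 m2 m3 <;> rcases hk with ⟨h1, h2, h3⟩ | ⟨h1, h2, h3⟩ | ⟨h1, h2, h3⟩ <;>
    first
      | exact h1 (by linarith)
      | exact h2 (by linarith)
      | exact h3 (by linarith)

theorem exists_l (q : Fin 3 → ℝ) : ∃ l : Fin 3 → ℝ, l ≠ 0 ∧ ∑ i, l i * q i = 0 ∧
    ∀ c : Fin 6, ∃ u : Fin 3 → ℝ, ∑ i, l i * u i = 0 ∧ ∑ i, lv c i * u i = 1 := by
  obtain ⟨l, hq, hl⟩ := c9_exists q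
  refine ⟨l, ?_, hq, fun c => ?_⟩
  · intro h
    rw [h] at hl
    simp [c9P] at hl
  · have hD := c9_D hl c
    set D := (∑ i, l i * l i) * (∑ i, lv c i * lv c i) - (∑ i, l i * lv c i) ^ 2 with hDd
    refine ⟨fun i => ((∑ i, l i * l i) * lv c i - (∑ i, l i * lv c i) * l i) / D, ?_, ?_⟩
    · simp only [Fin.sum_univ_three]
      ring
    · simp only [Fin.sum_univ_three] at hDd ⊢
      field_simp
      rw [hDd]
      ring

theorem full_Kq (l : Fin 3 → ℝ) : Full (Zq l) (Kq l) where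
  one := one_mem_Zq l
  p0 := fun h hh => hh.1
  zero := ⟨⟨fun _ => rfl, fun _ => rfl⟩, by
    refine Finset.sum_eq_zero fun i _ => ?_
    have : (0 : SRG) (.lq i) = 0 := rfl
    rw [this, mul_zero]⟩
  add := fun g hg h hh => ⟨P0_add hg.1 hh.1, by
      simp only [add_apply, mul_add, Finset.sum_add_distrib, hg.2, hh.2, add_zero]⟩
  smul := fun r g hg => ⟨P0_smul r hg.1, by
      have e1 : ∀ i, l i * (r • g) (.lq i) = r * (l i * g (.lq i)) := fun j => by
        rw [smul_apply]; ring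
      rw [Finset.sum_congr rfl fun j _ => e1 j, ← Finset.mul_sum, hg.2, mul_zero]⟩
  kz := fun g hg h hh => ⟨P0_kz g h, by
    refine Finset.sum_eq_zero fun i _ => ?_
    have : (kz g h : SRG) (.lq i) = 0 := rfl
    rw [this, mul_zero]⟩
  inv := fun h hh g hg => Kq_mul_Zq hh hg

theorem c9_gen {l : Fin 3 → ℝ} {y : SRG} (hy : IsPos y) (hl : ∑ i, l i * y (.q i) = 0) :
    Ls y (ev .t) ∈ (full_Kq l).D := by
  have hlq : ∀ i, y (.lq i) = 0 := fun i => c8_pos_zero hy (by simp) (by simp)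
  refine (full_Kq l).gen hy c8_isClk_t (fun t _ => ⟨?_, ?_⟩) (fun r => ⟨?_, ?_⟩) ⟨?_, ?_⟩
  · have e1 : ∀ i, l i * (t • y) (.q i) = t * (l i * y (.q i)) := fun j => by
      rw [smul_apply]; ring
    rw [Finset.sum_congr rfl fun j _ => e1 j, ← Finset.mul_sum, hl, mul_zero]
  · refine Finset.sum_eq_zero fun i _ => ?_
    rw [smul_apply, hlq, mul_zero, mul_zero]
  · have e1 : ∀ i, l i * (y * (r • ev .t)) (.q i) = l i * y (.q i) := fun j => by
      rw [c8_mul_smul, c7_Lt_q]; ring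
    rw [Finset.sum_congr rfl fun j _ => e1 j, hl]
  · have e1 : ∀ i, l i * (y * (r • ev .t)) (.lq i) = r * (l i * y (.q i)) := fun j => by
      rw [c8_mul_smul, c7_Lt_lq, hlq]; ring
    rw [Finset.sum_congr rfl fun j _ => e1 j, ← Finset.mul_sum, hl, mul_zero]
  · exact ⟨fun i => c7_Lt_q y i, fun β => c7_Lt_x y β⟩
  · have e1 : ∀ i, l i * Ls y (ev .t) (.lq i) = l i * y (.q i) := fun j => by
      rw [c7_Lt_lq]
    rw [Finset.sum_congr rfl fun j _ => e1 j, hl]

theorem joined_case2 {l : Fin 3 → ℝ}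
    (hl : ∀ c : Fin 6, ∃ u : Fin 3 → ℝ, ∑ i, l i * u i = 0 ∧ ∑ i, lv c i * u i = 1)
    {g : SRG} (hq : ∑ i, l i * g (.q i) = 0) (ht : g .t = 0) (hlq : ∀ i, g (.lq i) = 0)
    (hsq : ∀ c, g (.sq c) = 0) : Jn (Zq l) g := by
  set W := (full_Kq l).D with hW
  have hk : ∀ g ∈ W, ∀ h ∈ W, kz g h ∈ W := fun g hg h hh => (full_Kq l).kz_mem hg hh
  have hb : ∀ β : Blk, (∀ i k, ev (.m β i k) ∈ W) ∧ ∀ n, ev (.z β.1 β.2.1 n) ∈ W := by
    intro β
    obtain ⟨u, hu1, hu2⟩ := hl β.1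
    refine blk_mem W hk β u hu2 (fun σ r => c9_gen (isPos_pv _ _ _) ?_)
    have e1 : ∀ i, l i * (pv (σ • u) β r) (.q i) = σ * (l i * u i) := by
      intro i
      change l i * (σ * u i) = _
      ring
    rw [Finset.sum_congr rfl fun i _ => e1 i, ← Finset.mul_sum, hu1, mul_zero]
  set h : SRG := g - posF g with hh
  have hval : ∀ k, h k = g k - posF g k := fun k => rfl
  have hW' : h ∈ W := by
    rw [c8_sum h]
    refine W.sum_mem fun k _ => ?_
    have hzero : h k = 0 → h k • ev k ∈ W := by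
      intro h0
      rw [h0, zero_smul]; exact W.zero_mem
    cases k with
    | q i => exact hzero (by rw [hval]; simp [posF])
    | x β => exact hzero (by rw [hval]; simp [posF])
    | t => exact hzero (by rw [hval]; simp [posF, ht])
    | lq i => exact hzero (by rw [hval]; simp [posF, hlq])
    | sq c => exact hzero (by rw [hval]; simp [posF, hsq])
    | m β i k => exact W.smul_mem _ ((hb β).1 i k)
    | z c j n => exact W.smul_mem _ ((hb (c, j, 0)).2 n)
  obtain ⟨ℓ, hℓ⟩ := (full_Kq l).jn hW'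
  have hg : h + posF g = g := sub_add_cancel g (posF g)
  have hmove : SRP.Reach (Zq l) ‖(posF g : Idx → ℝ)‖ h (h + posF g) := by
    refine reach_pos (isPos_posF g) (norm_nonneg _)
      (fun k => norm_le_pi_norm (posF g : Idx → ℝ) k) (fun t _ => ⟨?_, ?_⟩)
    · have e1 : ∀ i, l i * (h + t • posF g) (.q i) = t * (l i * g (.q i)) := by
        intro i
        rw [add_apply, smul_apply, hval]
        simp only [posF]
        ring
      rw [Finset.sum_congr rfl fun i _ => e1 i, ← Finset.mul_sum, hq, mul_zero]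
    · refine Finset.sum_eq_zero fun i _ => ?_
      rw [add_apply, smul_apply, hval]
      simp [posF, hlq]
  rw [hg] at hmove
  exact ⟨_, H80A.Reach.trans hℓ hmove⟩

end

end H8SR
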