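import Pool.Agent.Lib.H8SR.A1
import Pool.Agent.Lib.H8SR.C9
import Pool.Agent.Lib.H8SR.B3
import Pool.Agent.Lib.H8SR.B4
import Pool.Agent.Lib.H8SR.B5
import Pool.Agent.Lib.H80A.PG10

/-!
# H8SR, assembly 2: every element is in `Abn`
-/

namespace H8SR

open MeasureTheory Set Filter Topology
open scoped Manifold ContDiff

noncomputable section

/-- the statement of the sector lemma -/
def SectorLemma : Prop := ∀ (τ : ℝ), τ ≠ 0 → ∀ (m : Fin 4 → Fin 4 → ℝ), (∀ e, m e 0 = τ) → ∀ z : ℝ,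
  ∃ x0 A0 A1 p : Fin 4 → ℝ, (∀ e, 0 < p e) ∧ p 0 = p 1 ∧ p 2 = p 3 ∧
    (∀ e, nd (gg e) (A1 e) τ (p e) = nd (gg e) (A0 e) 0 (p e) + tx (x0 e) (m e)) ∧
    ndz (fun e => nd (gg e) (A1 e) τ (p e)) = ndz (fun e => nd (gg e) (A0 e) 0 (p e)) + z +
      ∑ e, ep e * (p4 (x0 e) (m e) + gg e / 6 * kr (tx (x0 e) (m e)) (nd (gg e) (A0 e) 0 (p e)))

theorem ts_mat_zero (a : Fin 6) (j e : Fin 4) (c : ℝ) (g : SRG) :
    ts (-c) (mat (a, j, e) g) 2 0 = qm a g 2 - 2 * c * qm a g 1 + c ^ 2 * qm a g 0 := by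
  show qm a g 2 + 2 * (-c) * qm a g 1 + (-c) ^ 2 * qm a g 0 = _
  ring

theorem case1 (hsec : SectorLemma) (a : Fin 6) (c : ℝ) (g : SRG)
    (hτ : qm a g 2 - 2 * c * qm a g 1 + c ^ 2 * qm a g 0 ≠ 0) :
    ∃ (α : Fin 4 → ℝ) (g0 : SRG), α ≠ 0 ∧ Jn (Zs a α) g0 ∧ Jn (Zs a α) (g0 * g) := by
  have H := fun j : Fin 4 => hsec _ hτ (fun e => ts (-c) (mat (a, j, e) g) 2)
    (fun e => ts_mat_zero a j e c g) (zs (-c) (fun n => g (.z a j n)) 0)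
  choose x0 A0 A1 p hp h01 h23 h1 h2 using H
  obtain ⟨i, hi⟩ := exists_i a
  set N : Fin 4 → Fin 4 → Fin 4 → ℝ := fun j e => nd (gg e) (A0 j e) 0 (p j e) with hN
  set g0 : SRG := g0f a i (-c) x0 N with hg0
  obtain ⟨α, hα, e1, e2, e3⟩ := exists_weights (fun j => Fp a j g0 (xs a j g0))
    (fun j => Fp a j (g0 * g) (xs a j (g0 * g))) (fun j => psi a j (g0 * g))
  refine ⟨α, g0, hα, ?_, ?_⟩
  · refine reach_node (g0_isNd (N := N) fun j e => rfl) h01 h23 hp ?_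
    rw [e1, mul_zero]
  · refine reach_node (g01_isNd (N := N) hi (fun j e => rfl) (fun j e => h1 j e)
      (fun j => h2 j) e3) h01 h23 hp ?_
    rw [e2, mul_zero]

theorem abn_of_Jn {f : SRG → ℝ} (hf : ContDiff ℝ ∞ f) (hf1 : fderiv ℝ f 1 ≠ 0) {Z : Set SRG}
    (hZ : Z ⊆ SRP.crit f) {g0 g : SRG} (h0 : Jn Z g0) (h1 : Jn Z (g0 * g)) :
    g ∈ SRSard.Abn 𝓘(ℝ, SRG) SRP.End := by
  obtain ⟨l0, h0⟩ := h0
  obtain ⟨l1, h1⟩ := h1
  have h := H80A.abn_of_reach SRP hf hf1 hZ (H80A.Reach.trans (H80A.Reach.symm h0) h1)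
  rwa [inv_mul_cancel_left] at h

theorem case2 {g : SRG} (h : ∀ (a : Fin 6) (c : ℝ),
    qm a g 2 - 2 * c * qm a g 1 + c ^ 2 * qm a g 0 = 0) :
    g .t = 0 ∧ (∀ i, g (.lq i) = 0) ∧ ∀ c, g (.sq c) = 0 := by
  have hq : ∀ a, qm a g 0 = 0 ∧ qm a g 1 = 0 ∧ qm a g 2 = 0 := by
    intro a
    have h0 := h a 0
    have h1 := h a 1
    have h2 := h a (-1)
    refine ⟨by linarith, by linarith, by linarith⟩
  refine ⟨(hq 0).1, ?_, fun c => (hq c).2.2⟩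
  intro i
  fin_cases i
  · have := (hq 0).2.1
    simpa [qm, lv, Fin.sum_univ_three] using this
  · have := (hq 1).2.1
    simpa [qm, lv, Fin.sum_univ_three] using this
  · have := (hq 2).2.1
    simpa [qm, lv, Fin.sum_univ_three] using this

theorem mem_Abn (hsec : SectorLemma) (g : SRG) : g ∈ SRSard.Abn 𝓘(ℝ, SRG) SRP.End := by
  by_cases H : ∀ (a : Fin 6) (c : ℝ), qm a g 2 - 2 * c * qm a g 1 + c ^ 2 * qm a g 0 = 0
  · obtain ⟨ht, hlq, hsq⟩ := case2 H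
    obtain ⟨l, hl0, hlg, hl⟩ := exists_l (fun i => g (.q i))
    have h1 : Jn (Zq l) ((1 : SRG) * g) := by
      rw [one_mul]
      exact joined_case2 hl hlg ht hlq hsq
    have h0 : Jn (Zq l) 1 := ⟨0, H80A.Reach.refl (one_mem_Zq l)⟩
    exact abn_of_Jn (contDiff_lamQ l) (fderiv_lamQ_ne hl0) (Zq_sub_crit l) h0 h1
  · push Not at H
    obtain ⟨a, c, hτ⟩ := H
    obtain ⟨α, g0, hα, h0, h1⟩ := case1 hsec a c g hτ
    exact abn_of_Jn (contDiff_lamS a α) (fderiv_lamS_ne a hα) (Zs_sub_crit a α) h0 h1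

theorem Abn_eq_univ (hsec : SectorLemma) : SRSard.Abn 𝓘(ℝ, SRG) SRP.End = Set.univ :=
  Set.eq_univ_of_forall (mem_Abn hsec)

end

end H8SR
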