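import Pool.Agent.Lib.H8SR.ZDefs

/-!
# Chunk B1: the bilinear part of the group law

`BB v g` is the derivative of `a ↦ Ls a g` at `0` in the direction `v` (all coordinates are explicit
polynomials, degree `≤ 7` in `t` for `a = t v`).

`Ls_hasDerivAt`: `hasDerivAt_pi`, then coordinate by coordinate.  For the matrices prove first
`HasDerivAt (fun t => tb (t * s) (t * x) M i k) (tbD s x M i k) 0`,
`HasDerivAt (fun t => zs (t * s) Z n) (zsD s Z n) 0`, `HasDerivAt (fun t => st (t * s) (t * x) M n) (stD x M n) 0`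
(`fin_cases`, explicit polynomials in `t`; compare `fa_poly` in `Lib/SRSard/FA.lean`), and for
`kap (tb (t s) (t x) M) (t N) n = t * kap (tb (t s) (t x) M) N n` use the product rule and
`tb 0 0 M = M` (`mat (t v) = t mat v` is `mat_smul`, `sf c (t v) = t sf c v` is `sf_smul`).
`fderiv_Ls`: the function is smooth (`SRA.mul_smooth`), so its `fderiv` in the direction `v` is the
derivative along the line.
-/

namespace H8SR

open MeasureTheory Set Filter Topology
open scoped Manifold ContDiff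

noncomputable section

/-- linearisation of `tb` -/
def tbD (s x : ℝ) (M : Fin 3 → Fin 4 → ℝ) : Fin 3 → Fin 4 → ℝ := fun i k =>
  (![0, s * M 0 k, 2 * s * M 1 k] : Fin 3 → ℝ) i +
    (![0, x * M i 0, 2 * x * M i 1, 3 * x * M i 2] : Fin 4 → ℝ) k

/-- linearisation of `zs` -/
def zsD (s : ℝ) (Z : Fin 5 → ℝ) : Fin 5 → ℝ := ![s * Z 1, 2 * s * Z 2, 3 * s * Z 3, 4 * s * Z 4, 0]

/-- linearisation of `st` -/
def stD (x : ℝ) (M : Fin 3 → Fin 4 → ℝ) : Fin 5 → ℝ := ![x * M 2 3, 2 * x * M 1 3, x * M 0 3, 0, 0]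

/-- the bilinear part of the multiplication -/
def BB (v g : SRG) : SRG := fun k => match k with
  | .q _ => 0
  | .x _ => 0
  | .t => 0
  | .lq i => v (.q i) * g .t
  | .sq c => 2 * sf c v * qm c g 1
  | .m β i k => tbD (sf β.1 v) (v (.x β)) (mat β g) i k.succ
  | .z c j n => zsD (sf c v) (fun n => g (.z c j n)) n
      + ∑ e : Fin 4, ep e * (stD (v (.x (c, j, e))) (mat (c, j, e) g) n
        + gg e / 6 * kap (mat (c, j, e) g) (mat (c, j, e) v) n)

/-- a function with an explicit expansion of order two -/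
theorem b1_poly (v β : ℝ) (r : ℝ → ℝ) (hr : DifferentiableAt ℝ r 0) (f : ℝ → ℝ)
    (h : ∀ t, f t = v + t * β + t ^ 2 * r t) : HasDerivAt f β 0 := by
  have h1 : f = fun t => v + t * β + t ^ 2 * r t := funext h
  rw [h1]
  have i := hasDerivAt_id (0 : ℝ)
  have h2 := ((hasDerivAt_const (0 : ℝ) v).add (i.mul_const β)).add ((i.pow 2).mul hr.hasDerivAt)
  refine h2.congr_deriv ?_
  simp

/-- a product with a vanishing factor -/
theorem b1_mul (r f : ℝ → ℝ) (β : ℝ) (hr : DifferentiableAt ℝ r 0) (h : ∀ t, f t = t * r t)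
    (hβ : r 0 = β) : HasDerivAt f β 0 := by
  have h1 : f = fun t => t * r t := funext h
  rw [h1]
  have i := hasDerivAt_id (0 : ℝ)
  refine (i.mul hr.hasDerivAt).congr_deriv ?_
  simp [hβ]

theorem b1_ts (s : ℝ) (M : Fin 3 → Fin 4 → ℝ) (i : Fin 3) (k : Fin 4) :
    HasDerivAt (fun t : ℝ => ts (t * s) M i k)
      ((![0, s * M 0 k, 2 * s * M 1 k] : Fin 3 → ℝ) i) 0 := by
  fin_cases i
  · exact b1_poly (M 0 k) 0 (fun _ => 0) (by fun_prop) _ (fun t => by simp [ts])
  · exact b1_poly (M 1 k) (s * M 0 k) (fun _ => 0) (by fun_prop) _ (fun t => by simp [ts]; ring)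
  · exact b1_poly (M 2 k) (2 * s * M 1 k) (fun _ => s ^ 2 * M 0 k) (by fun_prop) _
      (fun t => by simp [ts]; ring)

theorem b1_tx (x : ℝ) (f : ℝ → Fin 4 → ℝ) (f' : Fin 4 → ℝ)
    (h : ∀ k, HasDerivAt (fun t => f t k) (f' k) 0) (k : Fin 4) :
    HasDerivAt (fun t : ℝ => tx (t * x) (f t) k)
      (f' k + (![0, x * f 0 0, 2 * x * f 0 1, 3 * x * f 0 2] : Fin 4 → ℝ) k) 0 := by
  have hx : HasDerivAt (fun t : ℝ => t * x) x 0 := by
    simpa using (hasDerivAt_id (0 : ℝ)).mul_const x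
  fin_cases k
  · refine (h 0).congr_deriv ?_
    simp
  · refine ((h 1).add (hx.mul (h 0))).congr_deriv ?_
    simp
  · refine (((h 2).add ((hx.const_mul 2).mul (h 1))).add ((hx.pow 2).mul (h 0))).congr_deriv ?_
    simp
  · refine ((((h 3).add ((hx.const_mul 3).mul (h 2))).add (((hx.pow 2).const_mul 3).mul
      (h 1))).add ((hx.pow 3).mul (h 0))).congr_deriv ?_
    simp

theorem b1_ts_zero (s : ℝ) (M : Fin 3 → Fin 4 → ℝ) (i : Fin 3) : ts (0 * s) M i = M i := by
  funext k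
  fin_cases i <;> simp [ts]

theorem b1_tb (s x : ℝ) (M : Fin 3 → Fin 4 → ℝ) (i : Fin 3) (k : Fin 4) :
    HasDerivAt (fun t : ℝ => tb (t * s) (t * x) M i k) (tbD s x M i k) 0 := by
  have h := b1_tx x (fun t => ts (t * s) M i)
    (fun k => (![0, s * M 0 k, 2 * s * M 1 k] : Fin 3 → ℝ) i) (fun k => b1_ts s M i k) k
  refine h.congr_deriv ?_
  simp only [b1_ts_zero, tbD]

theorem b1_zs (s : ℝ) (Z : Fin 5 → ℝ) (n : Fin 5) :
    HasDerivAt (fun t : ℝ => zs (t * s) Z n) (zsD s Z n) 0 := by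
  fin_cases n
  · exact b1_poly (Z 0) (s * Z 1) (fun t => s ^ 2 * Z 2 + t * s ^ 3 * Z 3 + t ^ 2 * s ^ 4 * Z 4)
      (by fun_prop) _ (fun t => by simp [zs]; ring)
  · exact b1_poly (Z 1) (2 * s * Z 2) (fun t => 3 * s ^ 2 * Z 3 + 4 * t * s ^ 3 * Z 4)
      (by fun_prop) _ (fun t => by simp [zs]; ring)
  · exact b1_poly (Z 2) (3 * s * Z 3) (fun _ => 6 * s ^ 2 * Z 4)
      (by fun_prop) _ (fun t => by simp [zs]; ring)
  · exact b1_poly (Z 3) (4 * s * Z 4) (fun _ => 0)
      (by fun_prop) _ (fun t => by simp [zs]; ring)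
  · exact b1_poly (Z 4) 0 (fun _ => 0) (by fun_prop) _ (fun t => by simp [zs])

theorem b1_p4 (x : ℝ) (f : ℝ → Fin 4 → ℝ) (f' : Fin 4 → ℝ)
    (h : ∀ k, HasDerivAt (fun t => f t k) (f' k) 0) :
    HasDerivAt (fun t : ℝ => p4 (t * x) (f t)) (x * f 0 3) 0 := by
  have hd : ∀ k, DifferentiableAt ℝ (fun t => f t k) 0 := fun k => (h k).differentiableAt
  have h0 := hd 0
  have h1 := hd 1
  have h2 := hd 2
  have h3 := hd 3
  refine b1_mul (fun t => x * f t 3 + 3 / 2 * (t * x ^ 2) * f t 2 + t ^ 2 * x ^ 3 * f t 1 +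
    t ^ 3 * x ^ 4 / 4 * f t 0) _ _ ?_ ?_ ?_
  · fun_prop
  · intro t
    simp only [p4]
    ring
  · simp

theorem b1_st (s x : ℝ) (M : Fin 3 → Fin 4 → ℝ) (n : Fin 5) :
    HasDerivAt (fun t : ℝ => st (t * s) (t * x) M n) (stD x M n) 0 := by
  have h : ∀ i, HasDerivAt (fun t : ℝ => p4 (t * x) (ts (t * s) M i)) (x * M i 3) 0 := by
    intro i
    have h1 := b1_p4 x (fun t => ts (t * s) M i) _ (fun k => b1_ts s M i k)
    refine h1.congr_deriv ?_
    rw [b1_ts_zero]
  fin_cases n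
  · exact h 2
  · refine ((h 1).const_mul 2).congr_deriv ?_
    simp [stD]
    ring
  · exact h 0
  · exact hasDerivAt_const _ _
  · exact hasDerivAt_const _ _

theorem b1_kap (s x : ℝ) (M N : Fin 3 → Fin 4 → ℝ) (n : Fin 5) :
    HasDerivAt (fun t : ℝ => kap (tb (t * s) (t * x) M) (t • N) n) (kap M N n) 0 := by
  have hd : ∀ i k, DifferentiableAt ℝ (fun t : ℝ => tb (t * s) (t * x) M i k) 0 :=
    fun i k => (b1_tb s x M i k).differentiableAt
  refine b1_mul (fun t => kap (tb (t * s) (t * x) M) N n) _ _ ?_ ?_ ?_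
  · have hkr : ∀ i j, DifferentiableAt ℝ (fun t : ℝ => kr (tb (t * s) (t * x) M i) (N j)) 0 := by
      intro i j
      have h0 := hd i 0
      have h1 := hd i 1
      have h2 := hd i 2
      have h3 := hd i 3
      unfold kr
      fun_prop
    fin_cases n
    · exact hkr 2 2
    · exact ((hkr 2 1).const_mul 2).add ((hkr 1 2).const_mul 2)
    · exact ((hkr 2 0).add ((hkr 1 1).const_mul 4)).add (hkr 0 2)
    · exact ((hkr 1 0).const_mul 2).add ((hkr 0 1).const_mul 2)
    · exact hkr 0 0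
  · intro t
    rw [kap_smul_right]
    rfl
  · simp only [zero_mul, tb_zero_left]

theorem b1_coord (v g : Idx → ℝ) (k : Idx) :
    HasDerivAt (fun t : ℝ => LL (t • v) g k) ((BB v g : Idx → ℝ) k) 0 := by
  cases k with
  | q i => exact hasDerivAt_const _ _
  | x β => exact hasDerivAt_const _ _
  | t => exact hasDerivAt_const _ _
  | lq i =>
    exact b1_poly (g (.lq i)) _ (fun _ => 0) (by fun_prop) _ (fun t => by
      simp only [LL, BB, Pi.smul_apply, smul_eq_mul]; ring)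
  | sq c =>
    exact b1_poly (g (.sq c)) _ (fun _ => sf c v ^ 2 * g .t) (by fun_prop) _ (fun t => by
      simp only [LL, BB, sf_smul]; ring)
  | m β i k =>
    have h := b1_tb (sf β.1 v) (v (.x β)) (mat β g) i k.succ
    refine h.congr_of_eventuallyEq (Filter.Eventually.of_forall fun t => ?_)
    simp only [LL, sf_smul, Pi.smul_apply, smul_eq_mul]
  | z c j n =>
    have h1 := b1_zs (sf c v) (fun n => g (.z c j n)) n
    have h2 : ∀ e : Fin 4, HasDerivAt (fun t : ℝ => ep e * (st (t * sf c v) (t * v (.x (c, j, e)))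
        (mat (c, j, e) g) n + gg e / 6 * kap (tb (t * sf c v) (t * v (.x (c, j, e)))
          (mat (c, j, e) g)) (t • mat (c, j, e) v) n))
        (ep e * (stD (v (.x (c, j, e))) (mat (c, j, e) g) n
        + gg e / 6 * kap (mat (c, j, e) g) (mat (c, j, e) v) n)) 0 := by
      intro e
      exact ((b1_st _ _ _ n).add ((b1_kap _ _ _ _ n).const_mul _)).const_mul _
    have h3 := h1.add (HasDerivAt.fun_sum (u := Finset.univ) fun e _ => h2 e)
    refine h3.congr_of_eventuallyEq (Filter.Eventually.of_forall fun t => ?_)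
    simp only [LL, sf_smul, mat_smul, Pi.smul_apply, smul_eq_mul]
    rfl

theorem Ls_hasDerivAt (v g : SRG) : HasDerivAt (fun t : ℝ => Ls (t • v) g) (BB v g) 0 := by
  have h : HasDerivAt (fun t : ℝ => (LL (t • v) g : Idx → ℝ)) (BB v g : Idx → ℝ) 0 :=
    hasDerivAt_pi.2 fun k => b1_coord v g k
  exact h

theorem contDiff_Ls (g : SRG) : ContDiff ℝ ∞ (fun h : SRG => Ls h g) := by
  have h1 : ContDiff ℝ ∞ (fun h : Idx → ℝ => LL h g) := by
    have h2 : ContDiff ℝ ∞ (fun h : Idx → ℝ => h + LL h g) :=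
      SRA.mul_smooth.comp (contDiff_id.prodMk contDiff_const)
    have h3 := h2.sub contDiff_id
    have h4 : (fun h : Idx → ℝ => LL h g) = fun h : Idx → ℝ => (h + LL h g) - id h := by
      funext h
      simp
    rw [h4]
    exact h3
  exact h1

theorem fderiv_Ls (v g : SRG) : fderiv ℝ (fun h : SRG => Ls h g) 0 v = BB v g := by
  have hd : DifferentiableAt ℝ (fun h : SRG => Ls h g) 0 :=
    (contDiff_Ls g).differentiable (by simp) 0
  have h1 := hd.hasFDerivAt.hasLineDerivAt v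
  have h2 : HasDerivAt (fun t : ℝ => Ls (0 + t • v) g)
      (fderiv ℝ (fun h : SRG => Ls h g) 0 v) 0 := h1
  have h3 := Ls_hasDerivAt v g
  have h4 : (fun t : ℝ => Ls (0 + t • v) g) = fun t : ℝ => Ls (t • v) g := by
    funext t
    rw [zero_add]
  rw [h4] at h2
  exact h2.unique h3

end

end H8SR
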