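import Pool.Agent.Lib.H8SR.B1

/-!
# Chunk B2: the adjoint action and the critical set

Let `R h = h * g⁻¹`.  `R h * g = h`, i.e. `R h + Ls (R h) g = h`; `R g = 1 = 0`.  Differentiating at
`h = g` in the direction `w`: `v + BB v g = w` for `v = fderiv R g w` (chain rule, `fderiv_Ls`).  The
linear map `v ↦ v + BB v g` is injective: it is the derivative at `0` of `h ↦ h * g = h + Ls h g`,
whose inverse is the smooth map `h ↦ h * g⁻¹` (chain rule for the composition).  So if
`v + BB v g = Ls g (hb j)` and `f v = 0` then `fderiv (h ↦ f (h * g⁻¹)) g (Ls g (hb j)) = f v = 0`;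
the general horizontal direction is a linear combination: `SRP.hor g c = ∑ j, c j • SRP.fv g j`,
`SRP.fv g j = Ls g (hb j)` (`AffGrp.fld_eval`).
-/

namespace H8SR

open MeasureTheory Set Filter Topology
open scoped Manifold ContDiff

noncomputable section

theorem fv_eq (g : SRG) (j : Fin mH) : SRP.fv g j = Ls g (hb j) := by
  funext k
  exact SRA.fld_eval hb k j g

theorem bas_eq (j : Fin mH) : SRP.bas j = hb j := by
  have h := fv_eq 0 j
  have h2 : Ls (0 : SRG) (hb j) = hb j := LL_zero_left (hb j)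
  rw [h2] at h
  exact h

theorem contDiff_mulr (k : SRG) : ContDiff ℝ ∞ (fun h : SRG => h * k) := by
  have h1 : (fun h : SRG => h * k) = fun h : SRG => h + Ls h k := by
    funext h
    exact mul_def h k
  rw [h1]
  exact contDiff_id.add (contDiff_Ls k)

/-- derivative of the right translation at the identity -/
theorem b2_hasFDeriv (g : SRG) :
    HasFDerivAt (fun h : SRG => h * g)
      (ContinuousLinearMap.id ℝ SRG + fderiv ℝ (fun h : SRG => Ls h g) 0) 0 := by
  have h1 : (fun h : SRG => h * g) = fun h : SRG => h + Ls h g := by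
    funext h
    exact mul_def h g
  rw [h1]
  have hd : DifferentiableAt ℝ (fun h : SRG => Ls h g) 0 :=
    (contDiff_Ls g).differentiable (by simp) 0
  exact (hasFDerivAt_id (0 : SRG)).add hd.hasFDerivAt

/-- the derivative of `h ↦ h * g⁻¹` at `g` maps `v + BB v g` to `v` -/
theorem b2_fderiv (g v : SRG) :
    fderiv ℝ (fun h : SRG => h * g⁻¹) g (v + BB v g) = v := by
  have hR : DifferentiableAt ℝ (fun h : SRG => h * g⁻¹) (0 * g) := by
    exact (contDiff_mulr g⁻¹).differentiable (by simp) _
  have h0 : (0 : SRG) * g = g := by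
    have : (0 : SRG) = 1 := one_eq_zero.symm
    rw [this, one_mul]
  have h1 := HasFDerivAt.comp (0 : SRG) (g := fun h : SRG => h * g⁻¹) (f := fun h : SRG => h * g)
    hR.hasFDerivAt (b2_hasFDeriv g)
  have h2 : ((fun h : SRG => h * g⁻¹) ∘ fun h : SRG => h * g) = fun h => h := by
    funext h
    show h * g * g⁻¹ = h
    rw [mul_inv_cancel_right]
  rw [h2] at h1
  have h3 := h1.unique (hasFDerivAt_id (0 : SRG))
  have h4 := congrArg (fun T : SRG →L[ℝ] SRG => T v) h3
  simp only [ContinuousLinearMap.comp_apply, ContinuousLinearMap.add_apply,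
    ContinuousLinearMap.id_apply] at h4
  rw [fderiv_Ls, h0] at h4
  exact h4

theorem mem_crit_of_ad (f : SRG →ₗ[ℝ] ℝ) {g : SRG}
    (H : ∀ k : Idx, isHor k = true → ∃ v : SRG, v + BB v g = Ls g (ev k) ∧ f v = 0) :
    g ∈ SRP.crit f := by
  intro c
  have hf : fderiv ℝ (fun h : SRG => f (h * g⁻¹)) g =
      (LinearMap.toContinuousLinearMap f).comp (fderiv ℝ (fun h : SRG => h * g⁻¹) g) := by
    have hR : DifferentiableAt ℝ (fun h : SRG => h * g⁻¹) g :=
      (contDiff_mulr g⁻¹).differentiable (by simp) _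
    exact ((LinearMap.toContinuousLinearMap f).hasFDerivAt.comp g hR.hasFDerivAt).fderiv
  rw [hf]
  unfold H80A.PG.hor
  rw [map_sum]
  refine Finset.sum_eq_zero fun j _ => ?_
  rw [map_smul]
  obtain ⟨v, hv, hfv⟩ := H (hI j) ((Fintype.equivFin HIdx).symm j).2
  have h1 : SRP.fv g j = v + BB v g := by
    rw [fv_eq, hv]
    rfl
  rw [h1, ContinuousLinearMap.comp_apply, b2_fderiv]
  show c j • f v = 0
  rw [hfv, smul_zero]

end

end H8SR
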