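import Pool.Agent.Lib.H8SR.B2

/-!
# Auxiliary file for the chunks B3 and B4: solution of `v + BB v g = w`
-/

namespace H8SR

open MeasureTheory Set Filter Topology
open scoped Manifold ContDiff

noncomputable section

/-- the part of levels 0 and 1 of the solution of `v + BB v g = w` -/
def b3_s1 (w g : SRG) : SRG := fun k => match k with
  | .q i => w (.q i)
  | .x β => w (.x β)
  | .t => w .t
  | .lq i => w (.lq i) - w (.q i) * g .t
  | .sq c => w (.sq c) - 2 * sf c w * qm c g 1
  | .m β i k => w (.m β i k) - tbD (sf β.1 w) (w (.x β)) (mat β g) i k.succ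
  | .z _ _ _ => 0

/-- the solution of `v + BB v g = w` -/
def b3_sol (w g : SRG) : SRG := fun k => match k with
  | .z c j n => w (.z c j n) - (zsD (sf c w) (fun n => g (.z c j n)) n
      + ∑ e : Fin 4, ep e * (stD (w (.x (c, j, e))) (mat (c, j, e) g) n
        + gg e / 6 * kap (mat (c, j, e) g) (mat (c, j, e) (b3_s1 w g)) n))
  | .q i => w (.q i)
  | .x β => w (.x β)
  | .t => w .t
  | .lq i => w (.lq i) - w (.q i) * g .t
  | .sq c => w (.sq c) - 2 * sf c w * qm c g 1
  | .m β i k => w (.m β i k) - tbD (sf β.1 w) (w (.x β)) (mat β g) i k.succ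

theorem b3_mat_sol (w g : SRG) (β : Blk) : mat β (b3_sol w g) = mat β (b3_s1 w g) := rfl

theorem b3_sf_sol (w g : SRG) (c : Fin 6) : sf c (b3_sol w g) = sf c w := rfl

theorem b3_sol_spec (w g : SRG) : b3_sol w g + BB (b3_sol w g) g = w := by
  funext k
  change b3_sol w g k + BB (b3_sol w g) g k = w k
  cases k with
  | q i => exact add_zero _
  | x β => exact add_zero _
  | t => exact add_zero _
  | lq i => simp only [b3_sol, BB]; ring
  | sq c =>
    have h : BB (b3_sol w g) g (.sq c) = 2 * sf c w * qm c g 1 := rfl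
    rw [h]
    simp only [b3_sol]
    ring
  | m β i k =>
    have h : BB (b3_sol w g) g (.m β i k) =
      tbD (sf β.1 w) (w (.x β)) (mat β g) i k.succ := rfl
    rw [h]
    simp only [b3_sol]
    ring
  | z c j n =>
    have h : BB (b3_sol w g) g (.z c j n) = zsD (sf c w) (fun n => g (.z c j n)) n
      + ∑ e : Fin 4, ep e * (stD (w (.x (c, j, e))) (mat (c, j, e) g) n
        + gg e / 6 * kap (mat (c, j, e) g) (mat (c, j, e) (b3_s1 w g)) n) := rfl
    rw [h]
    simp only [b3_sol]
    ring

theorem b3_mat_s1 (w g : SRG) (β : Blk) (i : Fin 3) (k : Fin 4) :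
    mat β (b3_s1 w g) i k = mat β w i k - tbD (sf β.1 w) (w (.x β)) (mat β g) i k := by
  refine Fin.cases ?_ (fun k => ?_) k
  · have h0 : ∀ u : SRG, ∀ i, mat β u i 0 = qm β.1 u i := fun u i => rfl
    rw [h0, h0]
    have e1 : mat β g 0 0 = g .t := rfl
    have e2 : mat β g 1 0 = qm β.1 g 1 := rfl
    fin_cases i
    · simp [qm, b3_s1, tbD]
    · simp only [tbD, e1]
      simp [qm, b3_s1, sf, Fin.sum_univ_three]
      ring
    · simp only [tbD, e2]
      simp [qm, b3_s1]
  · rfl

/-- value of the coordinate `z a j 0` of the solution -/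
theorem b3_sol_z (w g : SRG) (a : Fin 6) (j : Fin 4) :
    b3_sol w g (.z a j 0) = w (.z a j 0) - sf a w * g (.z a j 1) -
      ∑ e : Fin 4, ep e * (w (.x (a, j, e)) * mat (a, j, e) g 2 3 + gg e / 6 *
        kr (mat (a, j, e) g 2) (mat (a, j, e) (b3_s1 w g) 2)) := by
  simp only [b3_sol, zsD, stD, kap]
  simp
  ring

end

end H8SR
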