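import Pool.Agent.Lib.H8SR.ZDefs

/-!
# Chunk C1: the 2-step group of the elements with position zero

For `P0 g`: `Ls g h = h + kz g h` for `P0 h` (`tb_zero_left`, `zs_zero_left`, `st_zero_left`).
`kz` is bilinear and antisymmetric (`kap_add_left`, ..., `kap_swap`), depends only on the coordinates
`t, lq, sq, m`, and has only coordinates `z`; so `kz (kz g h) k = 0`.
-/

namespace H8SR

open MeasureTheory Set Filter Topology
open scoped Manifold ContDiff

noncomputable section

theorem c1_kz_z (g h : SRG) (c : Fin 6) (j : Fin 4) (n : Fin 5) :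
    kz g h (.z c j n) = ∑ e, ep e * (gg e / 6 * kap (mat (c, j, e) h) (mat (c, j, e) g) n) := rfl

theorem c1_ext_z {g h : SRG} (hz : ∀ c j n, g (.z c j n) = h (.z c j n))
    (hq : ∀ i, g (.q i) = h (.q i)) (hx : ∀ β, g (.x β) = h (.x β)) (ht : g .t = h .t)
    (hl : ∀ i, g (.lq i) = h (.lq i)) (hs : ∀ c, g (.sq c) = h (.sq c))
    (hm : ∀ β i k, g (.m β i k) = h (.m β i k)) : g = h := by
  refine SRG.ext fun k => ?_
  cases k with
  | q i => exact hq i
  | x β => exact hx β
  | t => exact ht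
  | lq i => exact hl i
  | sq c => exact hs c
  | m β i k => exact hm β i k
  | z c j n => exact hz c j n

theorem c1_mat_add (β : Blk) (g h : SRG) : mat β (g + h) = mat β g + mat β h := mat_add β g h

theorem c1_mat_smul (β : Blk) (r : ℝ) (g : SRG) : mat β (r • g) = r • mat β g := mat_smul β r g

theorem c1_mat_kz (β : Blk) (g h : SRG) : mat β (kz g h) = 0 := by
  funext i k
  refine Fin.cases ?_ (fun k => ?_) k
  · have h1 : mat β (kz g h) i 0 = qm β.1 (kz g h) i := rfl
    rw [h1]
    fin_cases i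
    · rfl
    · have h2 : ∀ i, kz g h (.lq i) = 0 := fun i => rfl
      simp [qm, h2]
    · rfl
  · rfl

theorem kz_add_left (g g' h : SRG) : kz (g + g') h = kz g h + kz g' h := by
  refine c1_ext_z (fun c j n => ?_) (fun i => (add_zero (0 : ℝ)).symm)
    (fun i => (add_zero (0 : ℝ)).symm) (add_zero (0 : ℝ)).symm (fun i => (add_zero (0 : ℝ)).symm)
    (fun i => (add_zero (0 : ℝ)).symm) (fun β i k => (add_zero (0 : ℝ)).symm)
  rw [add_apply, c1_kz_z, c1_kz_z, c1_kz_z, ← Finset.sum_add_distrib]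
  refine Finset.sum_congr rfl fun e _ => ?_
  rw [c1_mat_add, kap_add_right, Pi.add_apply]
  ring

theorem kz_smul_left (r : ℝ) (g h : SRG) : kz (r • g) h = r • kz g h := by
  refine c1_ext_z (fun c j n => ?_) (fun i => (mul_zero r).symm)
    (fun i => (mul_zero r).symm) (mul_zero r).symm (fun i => (mul_zero r).symm)
    (fun i => (mul_zero r).symm) (fun β i k => (mul_zero r).symm)
  rw [smul_apply, c1_kz_z, c1_kz_z, Finset.mul_sum]
  refine Finset.sum_congr rfl fun e _ => ?_
  rw [c1_mat_smul, kap_smul_right, Pi.smul_apply, smul_eq_mul]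
  ring

theorem kz_swap (g h : SRG) : kz g h = - kz h g := by
  refine c1_ext_z (fun c j n => ?_) (fun i => neg_zero.symm)
    (fun i => neg_zero.symm) neg_zero.symm (fun i => neg_zero.symm)
    (fun i => neg_zero.symm) (fun β i k => neg_zero.symm)
  have h1 : (- kz h g) (.z c j n) = - (kz h g (.z c j n)) := rfl
  rw [h1, c1_kz_z, c1_kz_z, ← Finset.sum_neg_distrib]
  refine Finset.sum_congr rfl fun e _ => ?_
  rw [kap_swap, Pi.neg_apply]
  ring

theorem kz_add_right (g h h' : SRG) : kz g (h + h') = kz g h + kz g h' := by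
  rw [kz_swap, kz_add_left, kz_swap g h, kz_swap g h', neg_add]

theorem kz_smul_right (r : ℝ) (g h : SRG) : kz g (r • h) = r • kz g h := by
  rw [kz_swap, kz_smul_left, kz_swap g h, smul_neg]

theorem kz_kz_left (g h k : SRG) : kz (kz g h) k = 0 := by
  refine c1_ext_z (fun c j n => ?_) (fun i => rfl) (fun i => rfl) rfl (fun i => rfl)
    (fun i => rfl) (fun β i k => rfl)
  rw [c1_kz_z]
  refine Finset.sum_eq_zero fun e _ => ?_
  rw [c1_mat_kz, kap_zero_right, Pi.zero_apply]
  ring

theorem kz_kz_right (g h k : SRG) : kz k (kz g h) = 0 := by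
  rw [kz_swap, kz_kz_left, neg_zero]

theorem P0_kz (g h : SRG) : P0 (kz g h) := ⟨fun _ => rfl, fun _ => rfl⟩

theorem P0_add {g h : SRG} (hg : P0 g) (hh : P0 h) : P0 (g + h) := by
  refine ⟨fun i => ?_, fun β => ?_⟩
  · rw [add_apply, hg.1, hh.1, add_zero]
  · rw [add_apply, hg.2, hh.2, add_zero]

theorem P0_smul (r : ℝ) {g : SRG} (hg : P0 g) : P0 (r • g) := by
  refine ⟨fun i => ?_, fun β => ?_⟩
  · rw [smul_apply, hg.1, mul_zero]
  · rw [smul_apply, hg.2, mul_zero]

theorem c1_P0_neg {g : SRG} (hg : P0 g) : P0 (-g) := by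
  have := P0_smul (-1) hg
  rwa [neg_one_smul] at this

theorem c1_sf {g : SRG} (hg : P0 g) (c : Fin 6) : sf c g = 0 := by
  unfold sf
  refine Finset.sum_eq_zero fun i _ => ?_
  rw [hg.1 i, mul_zero]

theorem P0_mul {g h : SRG} (hg : P0 g) (hh : P0 h) : g * h = g + h + kz g h := by
  have hs := c1_sf hg
  refine c1_ext_z (fun c j n => ?_) (fun i => ?_) (fun β => ?_) ?_ (fun i => ?_) (fun c => ?_)
    (fun β i k => ?_)
  · rw [mul_z, add_apply, add_apply, c1_kz_z, hs, zs_zero_left, add_assoc]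
    congr 2
    refine Finset.sum_congr rfl fun e _ => ?_
    rw [hg.2, st_zero_left, tb_zero_left, Pi.zero_apply, zero_add]
  · exact (add_zero _).symm
  · exact (add_zero _).symm
  · exact (add_zero _).symm
  · rw [mul_lq, hg.1, zero_mul, add_zero]
    exact (add_zero _).symm
  · rw [mul_sq, hs]
    have h0 : (g + h + kz g h) (.sq c) = g (.sq c) + h (.sq c) + 0 := rfl
    rw [h0]
    ring
  · rw [mul_m, hs, hg.2, tb_zero_left]
    have h0 : (g + h + kz g h) (.m β i k) = g (.m β i k) + h (.m β i k) + 0 := rfl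
    rw [h0, add_zero]
    rfl

theorem c1_kz_self (g : SRG) : kz g g = 0 := by
  refine c1_ext_z (fun c j n => ?_) (fun i => rfl) (fun i => rfl) rfl (fun i => rfl)
    (fun i => rfl) (fun β i k => rfl)
  rw [c1_kz_z]
  refine Finset.sum_eq_zero fun e _ => ?_
  rw [kap_self, Pi.zero_apply]
  ring

theorem c1_kz_neg_right (g h : SRG) : kz g (-h) = - kz g h := by
  have := kz_smul_right (-1) g h
  rwa [neg_one_smul, neg_one_smul] at this

theorem P0_inv {g : SRG} (hg : P0 g) : g⁻¹ = - g := by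
  apply inv_eq_of_mul_eq_one_right
  rw [P0_mul hg (c1_P0_neg hg), c1_kz_neg_right, c1_kz_self, one_eq_zero]
  simp

/-- the commutator of two elements of `G₀` -/
theorem P0_comm {g h : SRG} (hg : P0 g) (hh : P0 h) : g * h * g⁻¹ * h⁻¹ = (2:ℝ) • kz g h := by
  have e1 := P0_mul hg hh
  have hp1 : P0 (g + h + kz g h) := P0_add (P0_add hg hh) (P0_kz g h)
  have e2 : g * h * g⁻¹ = h + (2:ℝ) • kz g h := by
    rw [e1, P0_inv hg, P0_mul hp1 (c1_P0_neg hg), c1_kz_neg_right, kz_add_left, kz_add_left,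
      c1_kz_self, kz_kz_left, kz_swap h g]
    module
  have hp2 : P0 (h + (2:ℝ) • kz g h) := P0_add hh (P0_smul 2 (P0_kz g h))
  rw [e2, P0_inv hh, P0_mul hp2 (c1_P0_neg hh), c1_kz_neg_right, kz_add_left, kz_smul_left,
    c1_kz_self, kz_kz_left]
  module

end

end H8SR
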