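import Pool.Agent.Lib.H8SR.C1
import Pool.Agent.Lib.H80A.PG4

/-!
# Chunk C2: straight moves

`posF`, `IsPos` are in `CPG.lean`.  A vector `u` with `IsPos u` or `IsClk u` satisfies `Ls (t • u) u = u`
for all `t`, so `t ↦ t • u` is the horizontal curve with the constant control `c`,
`∑ j, c j • hb j = u` (`c j = u (hI j)`), `‖c‖ ≤ K` (sup norm).  So `SRP.gam (fun _ => c) t = t • u`
(`H80A.gam_eq_of_hasDerivAt` or `gam_unique`) and `H80A.reach_const_ctrl` applies.  Use `mul_pos` for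
positions.

`jn_exc`: the three pieces `1 → y → y * u → y * u * y⁻¹ = Ls y u`; on the third piece the points are
`y * u - t y = Ls y u * ((1 - t) • y)`.
-/

namespace H8SR

open MeasureTheory Set Filter Topology
open scoped Manifold ContDiff

noncomputable section

/-- only the clock coordinates `t`, `lq` are non-zero -/
def IsClk (u : SRG) : Prop := ∀ k : Idx, k ≠ .t → (∀ i, k ≠ .lq i) → u k = 0

theorem c2_fv (g : SRG) (j : Fin mH) : SRP.fv g j = Ls g (hb j) :=
  funext fun k => SRA.fld_eval hb k j g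

/-- the left multiplication, linear part -/
def c2T (g : SRG) : SRG →ₗ[ℝ] SRG := ⟨⟨Ls g, fun a b => LL_add g a b⟩, fun r a => LL_smul g r a⟩

theorem c2_sum (u : SRG) (hu : ∀ k, isHor k = false → u k = 0) :
    ∑ j : Fin mH, u (hI j) • (hb j : SRG) = u := by
  refine SRG.ext fun k => ?_
  have h1 : (∑ j : Fin mH, u (hI j) • (hb j : SRG)) k =
      ∑ j : Fin mH, u (hI j) * (Pi.single (hI j) (1 : ℝ) : Idx → ℝ) k :=
    Finset.sum_apply (M := fun _ : Idx => ℝ) k Finset.univ _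
  have h2 : ∑ j : Fin mH, u (hI j) * (Pi.single (hI j) (1 : ℝ) : Idx → ℝ) k =
      ∑ h : HIdx, u h.1 * (Pi.single h.1 (1 : ℝ) : Idx → ℝ) k :=
    Equiv.sum_comp (Fintype.equivFin HIdx).symm
      (fun h : HIdx => u h.1 * (Pi.single h.1 (1 : ℝ) : Idx → ℝ) k)
  rw [h1, h2]
  by_cases hk : isHor k = true
  · rw [Finset.sum_eq_single (⟨k, hk⟩ : HIdx)]
    · simp
    · intro h _ hne
      have : k ≠ h.1 := fun e => hne (Subtype.ext e.symm)
      rw [Pi.single_eq_of_ne this, mul_zero]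
    · intro h
      exact absurd (Finset.mem_univ _) h
  · rw [Bool.not_eq_true] at hk
    rw [hu k hk]
    refine Finset.sum_eq_zero fun h _ => ?_
    have : k ≠ h.1 := by
      intro e
      have h3 := h.2
      rw [← e, hk] at h3
      exact Bool.false_ne_true h3
    rw [Pi.single_eq_of_ne this, mul_zero]

theorem c2_hor (g u : SRG) (hu : ∀ k, isHor k = false → u k = 0) :
    SRP.hor g (fun j => u (hI j)) = Ls g u := by
  have h1 : SRP.hor g (fun j => u (hI j)) = ∑ j : Fin mH, u (hI j) • Ls g (hb j) := by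
    unfold H80A.PG.hor
    exact Finset.sum_congr rfl fun j _ => by rw [c2_fv]
  have h2 : Ls g u = c2T g (∑ j : Fin mH, u (hI j) • (hb j : SRG)) :=
    (congrArg (c2T g) (c2_sum u hu)).symm
  rw [h1, h2]
  exact ((map_sum (c2T g) (fun j : Fin mH => u (hI j) • (hb j : SRG)) Finset.univ).trans
    (Finset.sum_congr rfl fun j _ => (c2T g).map_smul (u (hI j)) (hb j))).symm

theorem c2_gam (u : SRG) (hu : ∀ k, isHor k = false → u k = 0)
    (hL : ∀ t : ℝ, Ls (t • u) u = u) (t : ℝ) :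
    SRP.gam (fun _ j => u (hI j)) t = t • u := by
  have h := H80A.gam_eq_of_hasDerivAt SRP (η := fun t : ℝ => t • u)
    (w := fun _ j => u (hI j)) continuous_const (fun t => by
      rw [c2_hor _ u hu, hL t]
      have := (hasDerivAt_id t).smul_const u
      rw [one_smul] at this
      exact this) t
  have h0 : ((0 : ℝ) • u) = (1 : SRG) := by rw [zero_smul]; rfl
  simp only [h0, one_mul] at h
  exact h.symm

theorem c2_Ls_pos (g : SRG) {v : SRG} (hv : IsPos v) : Ls g v = v := by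
  have h := mul_pos g hv
  rw [mul_def] at h
  exact add_left_cancel h

theorem c2_pos_smul (t : ℝ) {v : SRG} (hv : IsPos v) : IsPos (t • v) := by
  intro k h1 h2
  rw [smul_apply, hv k h1 h2, mul_zero]

theorem c2_pos_hor {v : SRG} (hv : IsPos v) (k : Idx) (hk : isHor k = false) : v k = 0 := by
  refine hv k (fun i e => ?_) (fun β e => ?_)
  · rw [e] at hk
    exact Bool.false_ne_true hk.symm
  · rw [e] at hk
    exact Bool.false_ne_true hk.symm

theorem c2_clk_hor {v : SRG} (hv : IsClk v) (k : Idx) (hk : isHor k = false) : v k = 0 := by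
  refine hv k (fun e => ?_) (fun β e => ?_)
  · rw [e] at hk
    exact Bool.false_ne_true hk.symm
  · rw [e] at hk
    exact Bool.false_ne_true hk.symm

theorem c2_clk_P0 {u : SRG} (hu : IsClk u) : P0 u :=
  ⟨fun i => hu _ (by simp) (by simp), fun β => hu _ (by simp) (by simp)⟩

theorem c2_Ls_clk {u : SRG} (hu : IsClk u) (t : ℝ) : Ls (t • u) u = u := by
  have hP := c2_clk_P0 hu
  have h := P0_mul (P0_smul t hP) hP
  rw [mul_def, kz_smul_left, c1_kz_self, smul_zero, add_zero] at h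
  exact add_left_cancel h

theorem c2_norm {v : SRG} {K : ℝ} (hK0 : 0 ≤ K) (hK : ∀ k, |v k| ≤ K) :
    ‖fun j => v (hI j)‖ ≤ K := by
  rw [pi_norm_le_iff_of_nonneg hK0]
  intro j
  rw [Real.norm_eq_abs]
  exact hK _

theorem c2_abs (v : SRG) (k : Idx) : |v k| ≤ ‖v‖ := by
  have h := norm_le_pi_norm (v : Idx → ℝ) k
  rwa [Real.norm_eq_abs] at h

theorem reach_pos {Z : Set SRG} {g v : SRG} (hv : IsPos v) {K : ℝ} (hK0 : 0 ≤ K)
    (hK : ∀ k, |v k| ≤ K) (hZ : ∀ t ∈ Icc (0:ℝ) 1, g + t • v ∈ Z) : SRP.Reach Z K g (g + v) := by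
  have hg := c2_gam v (c2_pos_hor hv) (fun t => c2_Ls_pos _ hv)
  have h := H80A.reach_const_ctrl (S := SRP) (Z := Z) (g := g) (fun j => v (hI j))
    (c2_norm hK0 hK) (fun t ht => by
      rw [hg, mul_pos g (c2_pos_smul t hv)]
      exact hZ t ht)
  rw [hg, one_smul, mul_pos g hv] at h
  exact h

theorem reach_clk {Z : Set SRG} {g u : SRG} (hu : IsClk u) {K : ℝ} (hK0 : 0 ≤ K)
    (hK : ∀ k, |u k| ≤ K) (hZ : ∀ t ∈ Icc (0:ℝ) 1, g * (t • u) ∈ Z) : SRP.Reach Z K g (g * u) := by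
  have hg := c2_gam u (c2_clk_hor hu) (c2_Ls_clk hu)
  have h := H80A.reach_const_ctrl (S := SRP) (Z := Z) (g := g) (fun j => u (hI j))
    (c2_norm hK0 hK) (fun t ht => by
      rw [hg]
      exact hZ t ht)
  rw [hg, one_smul] at h
  exact h

/-- conjugation of a clock by a position -/
theorem conj_clk {y u : SRG} (hy : IsPos y) (hu : IsClk u) : y * u = Ls y u + y ∧ P0 (Ls y u) :=
  ⟨by rw [mul_def, add_comm], fun i => (c2_clk_P0 hu).1 i, fun β => (c2_clk_P0 hu).2 β⟩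

theorem jn_exc {Z K : Set SRG} (hKZ : ∀ h ∈ K, ∀ g ∈ Z, h * g ∈ Z) {y u : SRG} (hy : IsPos y)
    (hu : IsClk u) (h1 : ∀ t ∈ Icc (0:ℝ) 1, t • y ∈ Z) (h2 : ∀ t ∈ Icc (0:ℝ) 1, y * (t • u) ∈ Z)
    (h3 : Ls y u ∈ K) : Jn Z (Ls y u) := by
  have r1 : SRP.Reach Z ‖y‖ 1 y := by
    have h := reach_pos (Z := Z) (g := 1) hy (norm_nonneg y) (c2_abs y) (fun t ht => by
      rw [one_eq_zero, zero_add]
      exact h1 t ht)
    rw [one_eq_zero, zero_add, ← one_eq_zero] at h
    exact h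
  have r2 : SRP.Reach Z ‖u‖ y (y * u) := reach_clk hu (norm_nonneg u) (c2_abs u) h2
  have hny : IsPos (-y) := by
    have := c2_pos_smul (-1) hy
    rwa [neg_one_smul] at this
  have r3 : SRP.Reach Z ‖-y‖ (y * u) (Ls y u) := by
    have h := reach_pos (Z := Z) (g := y * u) hny (norm_nonneg _) (c2_abs (-y)) (fun t ht => by
      have e : y * u + t • (-y) = Ls y u * ((1 - t) • y) := by
        rw [mul_pos _ (c2_pos_smul (1 - t) hy), (conj_clk hy hu).1]
        module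
      rw [e]
      exact hKZ _ h3 _ (h1 _ ⟨by linarith [ht.2], by linarith [ht.1]⟩))
    have e2 : y * u + -y = Ls y u := by
      rw [(conj_clk hy hu).1, add_neg_cancel_right]
    rw [e2] at h
    exact h
  exact ⟨_, H80A.Reach.trans (H80A.Reach.trans r1 r2) r3⟩

theorem Jn_mul {Z K : Set SRG} (hKZ : ∀ h ∈ K, ∀ g ∈ Z, h * g ∈ Z) {h g : SRG} (hh : h ∈ K)
    (h1 : Jn Z h) (h2 : Jn Z g) : Jn Z (h * g) := by
  obtain ⟨ℓ₁, r1⟩ := h1
  obtain ⟨ℓ₂, r2⟩ := h2
  have r3 := H80A.Reach.transplant (Z' := Z) (g' := h) r2 (fun k hk => by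
    rw [one_mul] at hk
    exact hKZ h hh k hk)
  rw [inv_one, one_mul] at r3
  exact ⟨_, H80A.Reach.trans r1 r3⟩

theorem Jn_inv {Z K : Set SRG} (hKZ : ∀ h ∈ K, ∀ g ∈ Z, h * g ∈ Z) {h : SRG} (hh : h⁻¹ ∈ K)
    (h1 : Jn Z h) : Jn Z h⁻¹ := by
  obtain ⟨ℓ₁, r1⟩ := h1
  have r3 := H80A.Reach.transplant (Z' := Z) (g' := 1) (H80A.Reach.symm r1) (fun k hk => by
    have h2 := hKZ _ hh _ hk
    rw [inv_mul_cancel_left] at h2
    rw [one_mul]
    exact h2)
  rw [one_mul, mul_one] at r3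
  exact ⟨_, r3⟩

end

end H8SR
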