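import Pool.Agent.Lib.H8SR.C2

/-!
# Chunk C3: the Lie algebra of the group of joined elements

`D = {u ∈ K | ∀ r, Jn Z (r • u)}`.  For `u, u' ∈ D`: the commutator of `(r/2) • u` and `u'` is
`r • kz u u'` (`P0_comm`), so `kz u u' ∈ D` (`Jn_mul`, `Jn_inv`).  If `u, u' ∈ D` then
`(r • u) * (r • u') * ((- r^2) • kz u u') = r • (u + u')` (`P0_mul`, `kz_kz_left`), so `u + u' ∈ D`.
-/

namespace H8SR

open MeasureTheory Set Filter Topology
open scoped Manifold ContDiff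

noncomputable section

/-- hypotheses of the fullness lemma -/
structure Full (Z K : Set SRG) : Prop where
  one : (1 : SRG) ∈ Z
  p0 : ∀ h ∈ K, P0 h
  zero : (0 : SRG) ∈ K
  add : ∀ g ∈ K, ∀ h ∈ K, g + h ∈ K
  smul : ∀ (r : ℝ), ∀ g ∈ K, r • g ∈ K
  kz : ∀ g ∈ K, ∀ h ∈ K, kz g h ∈ K
  inv : ∀ h ∈ K, ∀ g ∈ Z, h * g ∈ Z

theorem C3_kz_mem {Z K : Set SRG} (H : Full Z K) {g h : SRG}
    (hg : g ∈ K ∧ ∀ r : ℝ, Jn Z (r • g)) (hh : h ∈ K ∧ ∀ r : ℝ, Jn Z (r • h)) :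
    H8SR.kz g h ∈ K ∧ ∀ r : ℝ, Jn Z (r • H8SR.kz g h) := by
  refine ⟨H.kz g hg.1 h hh.1, fun r => ?_⟩
  have hgK : (r / 2) • g ∈ K := H.smul _ _ hg.1
  have hPg : P0 ((r / 2) • g) := H.p0 _ hgK
  have hPh : P0 h := H.p0 _ hh.1
  have hh1 : Jn Z h := by
    have := hh.2 1
    rwa [one_smul] at this
  have hgi : ((r / 2) • g)⁻¹ ∈ K := by
    rw [P0_inv hPg, ← neg_smul]
    exact H.smul _ _ hg.1
  have hhi : h⁻¹ ∈ K := by
    rw [P0_inv hPh, ← neg_one_smul ℝ]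
    exact H.smul _ _ hh.1
  have hgh : (r / 2) • g * h ∈ K := by
    rw [P0_mul hPg hPh]
    exact H.add _ (H.add _ hgK _ hh.1) _ (H.kz _ hgK _ hh.1)
  have hPgi : P0 ((r / 2) • g)⁻¹ := H.p0 _ hgi
  have hghg : (r / 2) • g * h * ((r / 2) • g)⁻¹ ∈ K := by
    rw [P0_mul (H.p0 _ hgh) hPgi]
    exact H.add _ (H.add _ hgh _ hgi) _ (H.kz _ hgh _ hgi)
  have j1 : Jn Z ((r / 2) • g * h) := Jn_mul H.inv hgK (hg.2 _) hh1
  have j2 : Jn Z ((r / 2) • g * h * ((r / 2) • g)⁻¹) :=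
    Jn_mul H.inv hgh j1 (Jn_inv H.inv hgi (hg.2 _))
  have j3 : Jn Z ((r / 2) • g * h * ((r / 2) • g)⁻¹ * h⁻¹) :=
    Jn_mul H.inv hghg j2 (Jn_inv H.inv hhi hh1)
  rw [P0_comm hPg hPh, kz_smul_left, smul_smul] at j3
  have e2 : (2:ℝ) * (r / 2) = r := by ring
  rwa [e2] at j3

theorem C3_add_mem {Z K : Set SRG} (H : Full Z K) {g h : SRG}
    (hg : g ∈ K ∧ ∀ r : ℝ, Jn Z (r • g)) (hh : h ∈ K ∧ ∀ r : ℝ, Jn Z (r • h)) :
    g + h ∈ K ∧ ∀ r : ℝ, Jn Z (r • (g + h)) := by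
  refine ⟨H.add _ hg.1 _ hh.1, fun r => ?_⟩
  have hgK : r • g ∈ K := H.smul _ _ hg.1
  have hhK : r • h ∈ K := H.smul _ _ hh.1
  have hPg : P0 (r • g) := H.p0 _ hgK
  have hPh : P0 (r • h) := H.p0 _ hhK
  have hk := C3_kz_mem H hg hh
  have hkK : (-(r ^ 2)) • H8SR.kz g h ∈ K := H.smul _ _ hk.1
  have hghK : r • g * (r • h) ∈ K := by
    rw [P0_mul hPg hPh]
    exact H.add _ (H.add _ hgK _ hhK) _ (H.kz _ hgK _ hhK)
  have j1 : Jn Z (r • g * (r • h)) := Jn_mul H.inv hgK (hg.2 _) (hh.2 _)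
  have j2 : Jn Z (r • g * (r • h) * ((-(r ^ 2)) • H8SR.kz g h)) :=
    Jn_mul H.inv hghK j1 (hk.2 _)
  have e : r • g * (r • h) * ((-(r ^ 2)) • H8SR.kz g h) = r • (g + h) := by
    rw [P0_mul (H.p0 _ hghK) (H.p0 _ hkK), P0_mul hPg hPh, kz_smul_left, kz_smul_right,
      kz_smul_right, kz_kz_right, smul_zero, add_zero, smul_smul, smul_add]
    have e3 : r • g + r • h + (r * r) • H8SR.kz g h + (-(r ^ 2)) • H8SR.kz g h
        = r • g + r • h + ((r * r) • H8SR.kz g h + (-(r ^ 2)) • H8SR.kz g h) := by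
      rw [add_assoc]
    rw [e3, ← add_smul]
    have e4 : r * r + -(r ^ 2) = 0 := by ring
    rw [e4, zero_smul, add_zero]
  rwa [e] at j2

theorem C3_jn_zero {Z K : Set SRG} (H : Full Z K) : Jn Z (0 : SRG) := by
  have hy : IsPos (0 : SRG) := fun k _ _ => rfl
  have h := reach_pos (Z := Z) (g := (1 : SRG)) (v := 0) hy (K := 0) le_rfl (fun k => by
    have : (0 : SRG) k = 0 := rfl
    rw [this, abs_zero]) (fun t _ => by
      have e : (1 : SRG) + t • (0 : SRG) = 1 := by rw [smul_zero, add_zero]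
      rw [e]
      exact H.one)
  have e : (1 : SRG) + 0 = 0 := by rw [add_zero, one_eq_zero]
  rw [e] at h
  exact ⟨0, h⟩

/-- the Lie algebra of the joined elements -/
def Full.D {Z K : Set SRG} (H : Full Z K) : Submodule ℝ SRG where
  carrier := {u | u ∈ K ∧ ∀ r : ℝ, Jn Z (r • u)}
  add_mem' := fun hg hh => C3_add_mem H hg hh
  zero_mem' := by
    refine ⟨H.zero, fun r => ?_⟩
    rw [smul_zero]
    exact C3_jn_zero H
  smul_mem' := by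
    intro c g hg
    refine ⟨H.smul _ _ hg.1, fun r => ?_⟩
    rw [smul_smul]
    exact hg.2 _

theorem Full.mem_D {Z K : Set SRG} (H : Full Z K) {u : SRG} :
    u ∈ H.D ↔ u ∈ K ∧ ∀ r : ℝ, Jn Z (r • u) := Iff.rfl

theorem Full.kz_mem {Z K : Set SRG} (H : Full Z K) {g h : SRG} (hg : g ∈ H.D) (hh : h ∈ H.D) :
    H8SR.kz g h ∈ H.D := C3_kz_mem H hg hh

/-- generators -/
theorem Full.gen {Z K : Set SRG} (H : Full Z K) {y u : SRG} (hy : IsPos y)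
    (hu : IsClk u) (h1 : ∀ t ∈ Icc (0:ℝ) 1, t • y ∈ Z) (h2 : ∀ r : ℝ, y * (r • u) ∈ Z)
    (h3 : Ls y u ∈ K) : Ls y u ∈ H.D := by
  refine ⟨h3, fun r => ?_⟩
  have e : r • Ls y u = Ls y (r • u) := (SRA.smul' y r u).symm
  have hu' : IsClk (r • u) := fun k hk1 hk2 => by
    have : (r • u) k = r * u k := rfl
    rw [this, hu k hk1 hk2, mul_zero]
  rw [e]
  refine jn_exc H.inv hy hu' h1 (fun t _ => ?_) ?_
  · rw [smul_smul]
    exact h2 _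
  · rw [← e]
    exact H.smul _ _ h3

theorem Full.jn {Z K : Set SRG} (H : Full Z K) {u : SRG} (hu : u ∈ H.D) : Jn Z u := by
  have := hu.2 1
  rwa [one_smul] at this

end

end H8SR
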