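import Pool.Agent.Lib.H8SR.CDefs

/-!
# H8SR: algebra of moment matrices
-/

namespace H8SR

noncomputable section

theorem tb_apply (s x : ℝ) (M : Fin 3 → Fin 4 → ℝ) (i : Fin 3) (k : Fin 4) :
    tb s x M i k = tx x (ts s M i) k := rfl

theorem tb_add (s x : ℝ) (M N : Fin 3 → Fin 4 → ℝ) : tb s x (M + N) = tb s x M + tb s x N := by
  funext i k
  fin_cases i <;> fin_cases k <;> simp [tb, tx, ts] <;> ring

theorem tb_smul (s x r : ℝ) (M : Fin 3 → Fin 4 → ℝ) : tb s x (r • M) = r • tb s x M := by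
  funext i k
  fin_cases i <;> fin_cases k <;> simp [tb, tx, ts] <;> ring

theorem tb_zero (s x : ℝ) : tb s x 0 = 0 := by
  have := tb_smul s x 0 0
  simpa using this

theorem tb_zero_left (M : Fin 3 → Fin 4 → ℝ) : tb 0 0 M = M := by
  funext i k
  fin_cases i <;> fin_cases k <;> simp [tb, tx, ts]

theorem tb_tb (s x s' x' : ℝ) (M : Fin 3 → Fin 4 → ℝ) :
    tb s x (tb s' x' M) = tb (s + s') (x + x') M := by
  funext i k
  fin_cases i <;> fin_cases k <;> simp [tb, tx, ts] <;> ring

theorem kap_add_left (M M' N : Fin 3 → Fin 4 → ℝ) : kap (M + M') N = kap M N + kap M' N := by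
  funext n
  fin_cases n <;> simp [kap, kr] <;> ring

theorem kap_add_right (M N N' : Fin 3 → Fin 4 → ℝ) : kap M (N + N') = kap M N + kap M N' := by
  funext n
  fin_cases n <;> simp [kap, kr] <;> ring

theorem kap_smul_left (r : ℝ) (M N : Fin 3 → Fin 4 → ℝ) : kap (r • M) N = r • kap M N := by
  funext n
  fin_cases n <;> simp [kap, kr] <;> ring

theorem kap_smul_right (r : ℝ) (M N : Fin 3 → Fin 4 → ℝ) : kap M (r • N) = r • kap M N := by
  funext n
  fin_cases n <;> simp [kap, kr] <;> ring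

theorem kap_zero_left (N : Fin 3 → Fin 4 → ℝ) : kap 0 N = 0 := by
  have := kap_smul_left 0 0 N
  simpa using this

theorem kap_zero_right (N : Fin 3 → Fin 4 → ℝ) : kap N 0 = 0 := by
  have := kap_smul_right 0 N 0
  simpa using this

theorem kap_swap (M N : Fin 3 → Fin 4 → ℝ) : kap M N = - kap N M := by
  funext n
  fin_cases n <;> simp [kap, kr] <;> ring

theorem kap_self (M : Fin 3 → Fin 4 → ℝ) : kap M M = 0 := by
  funext n
  have := congrFun (kap_swap M M) n
  simp only [Pi.neg_apply, Pi.zero_apply] at this ⊢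
  linarith

theorem zs_add (s : ℝ) (Z W : Fin 5 → ℝ) : zs s (Z + W) = zs s Z + zs s W := by
  funext n
  fin_cases n <;> simp [zs] <;> ring

theorem zs_smul (s r : ℝ) (Z : Fin 5 → ℝ) : zs s (r • Z) = r • zs s Z := by
  funext n
  fin_cases n <;> simp [zs] <;> ring

theorem zs_zero_left (Z : Fin 5 → ℝ) : zs 0 Z = Z := by
  funext n
  fin_cases n <;> simp [zs]

theorem zs_zs (s s' : ℝ) (Z : Fin 5 → ℝ) : zs s (zs s' Z) = zs (s + s') Z := by
  funext n
  fin_cases n <;> simp [zs] <;> ring

theorem kap_tb (s x : ℝ) (M N : Fin 3 → Fin 4 → ℝ) : kap (tb s x M) (tb s x N) = zs s (kap M N) := by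
  funext n
  fin_cases n <;> simp [zs, kap, kr, tb, tx, ts] <;> ring

theorem st_add (s x : ℝ) (M N : Fin 3 → Fin 4 → ℝ) : st s x (M + N) = st s x M + st s x N := by
  funext n
  fin_cases n <;> simp [st, p4, ts] <;> ring

theorem st_smul (s x r : ℝ) (M : Fin 3 → Fin 4 → ℝ) : st s x (r • M) = r • st s x M := by
  funext n
  fin_cases n <;> simp [st, p4, ts] <;> ring

theorem st_zero_left (s : ℝ) (M : Fin 3 → Fin 4 → ℝ) : st s 0 M = 0 := by
  funext n
  fin_cases n <;> simp [st, p4, ts]

theorem st_cocycle (s x s' x' : ℝ) (M : Fin 3 → Fin 4 → ℝ) :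
    st (s + s') (x + x') M = zs s (st s' x' M) + st s x (tb s' x' M) := by
  funext n
  fin_cases n <;> simp [st, p4, ts, zs, tb, tx] <;> ring

/-! ## the maps `mat`, `qm`, `sf` -/

theorem sf_add (c : Fin 6) (a b : Idx → ℝ) : sf c (a + b) = sf c a + sf c b := by
  simp only [sf, Pi.add_apply, Fin.sum_univ_three]; ring

theorem sf_smul (c : Fin 6) (r : ℝ) (a : Idx → ℝ) : sf c (r • a) = r * sf c a := by
  simp only [sf, Pi.smul_apply, smul_eq_mul, Fin.sum_univ_three]; ring

theorem sf_LL (c : Fin 6) (a b : Idx → ℝ) : sf c (LL a b) = sf c b := rfl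

theorem qm_add (c : Fin 6) (a b : Idx → ℝ) : qm c (a + b) = qm c a + qm c b := by
  funext i
  fin_cases i <;> simp [qm, Fin.sum_univ_three] <;> ring

theorem qm_smul (c : Fin 6) (r : ℝ) (a : Idx → ℝ) : qm c (r • a) = r • qm c a := by
  funext i
  fin_cases i <;> simp [qm, Fin.sum_univ_three] <;> ring

theorem mat_add (β : Blk) (a b : Idx → ℝ) : mat β (a + b) = mat β a + mat β b := by
  funext i k
  refine Fin.cases ?_ (fun k => ?_) k
  · simp only [mat, Fin.cons_zero, qm_add, Pi.add_apply]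
  · simp only [mat, Fin.cons_succ, Pi.add_apply]

theorem mat_smul (β : Blk) (r : ℝ) (a : Idx → ℝ) : mat β (r • a) = r • mat β a := by
  funext i k
  refine Fin.cases ?_ (fun k => ?_) k
  · simp only [mat, Fin.cons_zero, qm_smul, Pi.smul_apply]
  · simp only [mat, Fin.cons_succ, Pi.smul_apply]

theorem mat_zero (β : Blk) : mat β (0 : Idx → ℝ) = 0 := by
  have := mat_smul β 0 (0 : Idx → ℝ)
  simpa using this

theorem qm_LL (c : Fin 6) (a b : Idx → ℝ) : qm c (LL a b) =
    ![qm c b 0, qm c b 1 + sf c a * qm c b 0,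
      qm c b 2 + 2 * sf c a * qm c b 1 + sf c a ^ 2 * qm c b 0] := by
  funext i
  fin_cases i
  · simp [qm, LL]
  · simp [qm, LL, sf, Fin.sum_univ_three]; ring
  · simp [qm, LL, sf, Fin.sum_univ_three]

theorem mat_LL (β : Blk) (a b : Idx → ℝ) :
    mat β (LL a b) = tb (sf β.1 a) (a (.x β)) (mat β b) := by
  funext i k
  refine Fin.cases ?_ (fun k => ?_) k
  · have h : mat β (LL a b) i 0 = qm β.1 (LL a b) i := rfl
    rw [h, qm_LL]
    have h0 : ∀ i, mat β b i 0 = qm β.1 b i := fun i => rfl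
    fin_cases i <;> simp [tb, tx, ts, h0]
  · simp only [mat, Fin.cons_succ, LL]

theorem ep_sum_add (f g : Fin 4 → ℝ) : ∑ e, ep e * (f e + g e) = ∑ e, ep e * f e + ∑ e, ep e * g e := by
  rw [← Finset.sum_add_distrib]
  exact Finset.sum_congr rfl fun e _ => by ring

theorem LL_add (a b c : Idx → ℝ) : LL a (b + c) = LL a b + LL a c := by
  funext k
  cases k with
  | q i => rfl
  | x β => rfl
  | t => rfl
  | lq i => simp only [LL, Pi.add_apply]; ring
  | sq c => simp only [LL, Pi.add_apply, qm_add]; ring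
  | m β i k =>
    simp only [LL, Pi.add_apply, mat_add, tb_add]
  | z d j n =>
    have hz : zs (sf d a) (fun n => (b + c) (Idx.z d j n)) n =
        zs (sf d a) (fun n => b (.z d j n)) n + zs (sf d a) (fun n => c (.z d j n)) n := by
      rw [← Pi.add_apply, ← zs_add]; rfl
    have h1 : LL a (b + c) (Idx.z d j n) = zs (sf d a) (fun n => (b + c) (Idx.z d j n)) n
      + ∑ e : Fin 4, ep e * (st (sf d a) (a (.x (d, j, e))) (mat (d, j, e) (b + c)) n
        + gg e / 6 * kap (tb (sf d a) (a (.x (d, j, e))) (mat (d, j, e) (b + c)))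
          (mat (d, j, e) a) n) := rfl
    rw [h1, hz]
    simp only [LL, Pi.add_apply, mat_add, tb_add, st_add, kap_add_left]
    rw [add_add_add_comm, ← Finset.sum_add_distrib]
    congr 1
    exact Finset.sum_congr rfl fun e _ => by ring

theorem LL_smul (a : Idx → ℝ) (r : ℝ) (b : Idx → ℝ) : LL a (r • b) = r • LL a b := by
  funext k
  cases k with
  | q i => rfl
  | x β => rfl
  | t => rfl
  | lq i => simp only [LL, Pi.smul_apply, smul_eq_mul]; ring
  | sq c => simp only [LL, Pi.smul_apply, smul_eq_mul, qm_smul]; ring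
  | m β i k =>
    simp only [LL, Pi.smul_apply, mat_smul, tb_smul]
  | z d j n =>
    have hz : zs (sf d a) (fun n => (r • b) (Idx.z d j n)) n =
        r * zs (sf d a) (fun n => b (.z d j n)) n := by
      rw [← smul_eq_mul, ← Pi.smul_apply, ← zs_smul]; rfl
    have h1 : LL a (r • b) (Idx.z d j n) = zs (sf d a) (fun n => (r • b) (Idx.z d j n)) n
      + ∑ e : Fin 4, ep e * (st (sf d a) (a (.x (d, j, e))) (mat (d, j, e) (r • b)) n
        + gg e / 6 * kap (tb (sf d a) (a (.x (d, j, e))) (mat (d, j, e) (r • b)))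
          (mat (d, j, e) a) n) := rfl
    rw [h1, hz]
    simp only [LL, Pi.smul_apply, mat_smul, tb_smul, st_smul, kap_smul_left, smul_eq_mul]
    rw [mul_add, Finset.mul_sum]
    congr 1
    exact Finset.sum_congr rfl fun e _ => by ring

theorem LL_zero_left (b : Idx → ℝ) : LL 0 b = b := by
  have h0 : ∀ c, sf c (0 : Idx → ℝ) = 0 := fun c => by simp [sf]
  funext k
  cases k with
  | q i => rfl
  | x β => rfl
  | t => rfl
  | lq i => simp [LL]
  | sq c => simp [LL, h0]
  | m β i k => simp [LL, h0, tb_zero_left, mat]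
  | z d j n => simp [LL, h0, tb_zero_left, zs_zero_left, st_zero_left, mat_zero, kap_zero_right]

theorem LL_mul (a b c : Idx → ℝ) : LL (a + LL a b) c = LL a (LL b c) := by
  funext k
  cases k with
  | q i => rfl
  | x β => rfl
  | t => rfl
  | lq i =>
    simp only [LL, Pi.add_apply]; ring
  | sq d =>
    simp only [LL, qm_LL, sf_add, sf_LL]
    simp [qm]
    ring
  | m β i k =>
    have h : (a + LL a b) (Idx.x β) = a (Idx.x β) + b (Idx.x β) := rfl
    simp only [LL, mat_LL, tb_tb, sf_add, sf_LL, h]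
  | z d j n =>
    have h : ∀ β, (a + LL a b) (Idx.x β) = a (Idx.x β) + b (Idx.x β) := fun β => rfl
    have hz : (fun n => LL b c (Idx.z d j n)) = zs (sf d b) (fun n => c (.z d j n))
      + fun n => ∑ e : Fin 4, ep e * (st (sf d b) (b (.x (d, j, e))) (mat (d, j, e) c) n
        + gg e / 6 * kap (tb (sf d b) (b (.x (d, j, e))) (mat (d, j, e) c)) (mat (d, j, e) b) n) := by
      funext n; rfl
    have hs : ∀ (s : ℝ) (F : Fin 4 → Fin 5 → ℝ), zs s (fun n => ∑ e, F e n) =
        fun n => ∑ e, zs s (F e) n := by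
      intro s F
      funext n
      fin_cases n <;> simp [zs, Fin.sum_univ_four] <;> ring
    have h1 : LL (a + LL a b) c (Idx.z d j n) =
      zs (sf d a + sf d b) (fun n => c (.z d j n)) n
      + ∑ e : Fin 4, ep e * (st (sf d a + sf d b) (a (.x (d, j, e)) + b (.x (d, j, e)))
          (mat (d, j, e) c) n
        + gg e / 6 * kap (tb (sf d a + sf d b) (a (.x (d, j, e)) + b (.x (d, j, e)))
          (mat (d, j, e) c)) (mat (d, j, e) a + tb (sf d a) (a (.x (d, j, e))) (mat (d, j, e) b)) n) := by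
      simp only [LL, sf_add, sf_LL, h, mat_add, mat_LL]
    have h2 : LL a (LL b c) (Idx.z d j n) =
      zs (sf d a) (fun n => LL b c (.z d j n)) n
      + ∑ e : Fin 4, ep e * (st (sf d a) (a (.x (d, j, e)))
          (tb (sf d b) (b (.x (d, j, e))) (mat (d, j, e) c)) n
        + gg e / 6 * kap (tb (sf d a) (a (.x (d, j, e)))
          (tb (sf d b) (b (.x (d, j, e))) (mat (d, j, e) c))) (mat (d, j, e) a) n) := by
      have : LL a (LL b c) (Idx.z d j n) = zs (sf d a) (fun n => LL b c (.z d j n)) n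
        + ∑ e : Fin 4, ep e * (st (sf d a) (a (.x (d, j, e))) (mat (d, j, e) (LL b c)) n
        + gg e / 6 * kap (tb (sf d a) (a (.x (d, j, e))) (mat (d, j, e) (LL b c)))
          (mat (d, j, e) a) n) := rfl
      rw [this]
      simp only [mat_LL]
    rw [h1, h2, hz, zs_add, zs_zs, hs]
    simp only [Pi.add_apply]
    rw [add_assoc]
    congr 1
    rw [← Finset.sum_add_distrib]
    refine Finset.sum_congr rfl fun e _ => ?_
    have hz2 : zs (sf d a) (fun n => ep e * (st (sf d b) (b (.x (d, j, e))) (mat (d, j, e) c) n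
        + gg e / 6 * kap (tb (sf d b) (b (.x (d, j, e))) (mat (d, j, e) c)) (mat (d, j, e) b) n)) =
        ep e • (zs (sf d a) (st (sf d b) (b (.x (d, j, e))) (mat (d, j, e) c)) + (gg e / 6) •
          zs (sf d a) (kap (tb (sf d b) (b (.x (d, j, e))) (mat (d, j, e) c)) (mat (d, j, e) b))) := by
      rw [← zs_smul, ← zs_add, ← zs_smul]
      rfl
    rw [hz2, st_cocycle, kap_add_right, ← tb_tb, kap_tb]
    simp only [Pi.add_apply, Pi.smul_apply, smul_eq_mul]
    ring

end

end H8SR
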