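import Pool.Agent.Lib.H8SR.GDefs

/-!
# H8SR: the concrete group (definitions)

Horizontal variables: `q 0, q 1, q 2`, `x β` (`β = (a, j, b)`: family `a`, sector `j`, block `b`), the
clock `t` and the three clocks `lq i = [q i, t]`.  `s_a = lv a · q` is the modulator of family `a`.
Coordinates: `t = L(1)`, `lq i = L(q_i)`, `sq a = L(s_a^2)`, `m β i k = L(s_a^i x_β^(k+1))`, where
`L(f) = ∫ f dt` along the curve, and the chains `z a j n`, the coefficients of `h^n` in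
`∫ (s+h)^2 P dt + ∫∫ (s+h)^2 (s'+h)^2 K dt' dt`, `P = ∑_b ε_b x_b^4/4`,
`K = ∑_b ε_b γ_b/6 (x_b - x_b')^3` (`t' < t`).
-/

namespace H8SR

noncomputable section

/-- (family, sector, block) -/
abbrev Blk : Type := Fin 6 × Fin 4 × Fin 4

/-- names of the coordinates -/
inductive Idx
  | q (i : Fin 3)
  | x (β : Blk)
  | t
  | lq (i : Fin 3)
  | sq (a : Fin 6)
  | m (β : Blk) (i k : Fin 3)
  | z (a : Fin 6) (j : Fin 4) (n : Fin 5)
  deriving DecidableEq, Fintype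

/-- signs -/
def ep : Fin 4 → ℝ := ![1, -1, 1, -1]
/-- ratios -/
def gg : Fin 4 → ℝ := ![1, 101, 1, 101]
/-- the six linear forms; their squares are a basis of the quadratic forms on `ℝ³` -/
def lv : Fin 6 → Fin 3 → ℝ := ![![1, 0, 0], ![0, 1, 0], ![0, 0, 1], ![1, 1, 0], ![1, 0, 1], ![0, 1, 1]]

/-- translation by `x` of a row of moments `(L(1), L(x), L(x^2), L(x^3))` -/
def tx (x : ℝ) (f : Fin 4 → ℝ) : Fin 4 → ℝ :=
  ![f 0, f 1 + x * f 0, f 2 + 2 * x * f 1 + x ^ 2 * f 0,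
    f 3 + 3 * x * f 2 + 3 * x ^ 2 * f 1 + x ^ 3 * f 0]

/-- translation by `s` of the rows `(L(1 ·), L(s ·), L(s^2 ·))` -/
def ts (s : ℝ) (M : Fin 3 → Fin 4 → ℝ) : Fin 3 → Fin 4 → ℝ :=
  ![fun k => M 0 k, fun k => M 1 k + s * M 0 k, fun k => M 2 k + 2 * s * M 1 k + s ^ 2 * M 0 k]

/-- translation of a moment matrix -/
def tb (s x : ℝ) (M : Fin 3 → Fin 4 → ℝ) : Fin 3 → Fin 4 → ℝ := fun i k => tx x (ts s M i) k

/-- `(L' ⊗ L)((x - x')^3)` for rows of moments -/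
def kr (f' f : Fin 4 → ℝ) : ℝ := f' 3 * f 0 - 3 * f' 2 * f 1 + 3 * f' 1 * f 2 - f' 0 * f 3

/-- coefficient of `h^n` in `(L' ⊗ L)((s+h)^2 (s'+h)^2 (x-x')^3)` -/
def kap (M' M : Fin 3 → Fin 4 → ℝ) : Fin 5 → ℝ :=
  ![kr (M' 2) (M 2), 2 * kr (M' 2) (M 1) + 2 * kr (M' 1) (M 2),
    kr (M' 2) (M 0) + 4 * kr (M' 1) (M 1) + kr (M' 0) (M 2),
    2 * kr (M' 1) (M 0) + 2 * kr (M' 0) (M 1), kr (M' 0) (M 0)]

/-- `L((x₀+x)^4 - x^4)/4` from a row of moments -/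
def p4 (x : ℝ) (f : Fin 4 → ℝ) : ℝ := x * f 3 + 3 / 2 * x ^ 2 * f 2 + x ^ 3 * f 1 + x ^ 4 / 4 * f 0

/-- static part of the translation of the chain -/
def st (s x : ℝ) (M : Fin 3 → Fin 4 → ℝ) : Fin 5 → ℝ :=
  ![p4 x (ts s M 2), 2 * p4 x (ts s M 1), p4 x (ts s M 0), 0, 0]

/-- translation of a chain in the variable `s` -/
def zs (s : ℝ) (Z : Fin 5 → ℝ) : Fin 5 → ℝ :=
  ![Z 0 + s * Z 1 + s ^ 2 * Z 2 + s ^ 3 * Z 3 + s ^ 4 * Z 4,
    Z 1 + 2 * s * Z 2 + 3 * s ^ 2 * Z 3 + 4 * s ^ 3 * Z 4,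
    Z 2 + 3 * s * Z 3 + 6 * s ^ 2 * Z 4, Z 3 + 4 * s * Z 4, Z 4]

/-- the modulator of the family `a` -/
def sf (a : Fin 6) (g : Idx → ℝ) : ℝ := ∑ i, lv a i * g (.q i)

/-- `(L(1), L(s_a), L(s_a^2))` -/
def qm (a : Fin 6) (g : Idx → ℝ) : Fin 3 → ℝ := ![g .t, ∑ i, lv a i * g (.lq i), g (.sq a)]

/-- moment matrix `L(s_a^i x_β^k)` of a block, `k = 0..3` -/
def mat (β : Blk) (g : Idx → ℝ) : Fin 3 → Fin 4 → ℝ :=
  fun i => Fin.cons (qm β.1 g i) (fun k => g (.m β i k))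

/-- the linear part of the multiplication -/
def LL (a b : Idx → ℝ) : Idx → ℝ := fun k => match k with
  | .q i => b (.q i)
  | .x β => b (.x β)
  | .t => b .t
  | .lq i => b (.lq i) + a (.q i) * b .t
  | .sq c => b (.sq c) + 2 * sf c a * qm c b 1 + sf c a ^ 2 * b .t
  | .m β i k => tb (sf β.1 a) (a (.x β)) (mat β b) i k.succ
  | .z c j n => zs (sf c a) (fun n => b (.z c j n)) n
      + ∑ e : Fin 4, ep e * (st (sf c a) (a (.x (c, j, e))) (mat (c, j, e) b) n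
        + gg e / 6 * kap (tb (sf c a) (a (.x (c, j, e))) (mat (c, j, e) b)) (mat (c, j, e) a) n)

/-- negation of the positions, used for the inverse -/
def npos (a : Idx → ℝ) : Idx → ℝ := fun k => match k with
  | .q i => - a (.q i)
  | .x β => - a (.x β)
  | _ => 0

/-- the inverse: `(y, L, z)⁻¹ = (-y, 0, 0) * (0, -L, -z)` -/
def invF (a : Idx → ℝ) : Idx → ℝ :=
  npos a + LL (npos a) (fun k => match k with
    | .q _ => 0
    | .x _ => 0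
    | k => - a k)

/-- level of a coordinate -/
def lev : Idx → ℕ
  | .q _ => 0
  | .x _ => 0
  | .z _ _ _ => 2
  | _ => 1

end

end H8SR
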