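import Pool.Agent.Lib.H8SR.GDefs

/-!
# H8SR: polynomial functions are closed under the ring operations
-/

namespace H8SR

open MeasureTheory Set Filter Topology
open scoped Manifold ContDiff

noncomputable section

variable {ι : Type}

theorem IsPoly.const (c : ℝ) : IsPoly (fun _ : ι → ℝ => c) :=
  ⟨MvPolynomial.C c, fun a => by simp⟩

theorem IsPoly.coord (k : ι) : IsPoly (fun a : ι → ℝ => a k) :=
  ⟨MvPolynomial.X k, fun a => by simp⟩

theorem IsPoly.add {f g : (ι → ℝ) → ℝ} (hf : IsPoly f) (hg : IsPoly g) :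
    IsPoly (fun a => f a + g a) := by
  obtain ⟨p, hp⟩ := hf
  obtain ⟨q, hq⟩ := hg
  exact ⟨p + q, fun a => by simp [hp, hq]⟩

theorem IsPoly.mul {f g : (ι → ℝ) → ℝ} (hf : IsPoly f) (hg : IsPoly g) :
    IsPoly (fun a => f a * g a) := by
  obtain ⟨p, hp⟩ := hf
  obtain ⟨q, hq⟩ := hg
  exact ⟨p * q, fun a => by simp [hp, hq]⟩

theorem IsPoly.sub {f g : (ι → ℝ) → ℝ} (hf : IsPoly f) (hg : IsPoly g) :
    IsPoly (fun a => f a - g a) := by
  obtain ⟨p, hp⟩ := hf
  obtain ⟨q, hq⟩ := hg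
  exact ⟨p - q, fun a => by simp [hp, hq]⟩

theorem IsPoly.neg {f : (ι → ℝ) → ℝ} (hf : IsPoly f) : IsPoly (fun a => - f a) := by
  obtain ⟨p, hp⟩ := hf
  exact ⟨-p, fun a => by simp [hp]⟩

theorem IsPoly.pow {f : (ι → ℝ) → ℝ} (hf : IsPoly f) (n : ℕ) : IsPoly (fun a => f a ^ n) := by
  obtain ⟨p, hp⟩ := hf
  exact ⟨p ^ n, fun a => by simp [hp]⟩

theorem IsPoly.div_const {f : (ι → ℝ) → ℝ} (hf : IsPoly f) (c : ℝ) : IsPoly (fun a => f a / c) := by
  simp only [div_eq_mul_inv]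
  exact hf.mul (.const _)

theorem IsPoly.sum {κ : Type} (s : Finset κ) {f : κ → (ι → ℝ) → ℝ} (hf : ∀ j, IsPoly (f j)) :
    IsPoly (fun a => ∑ j ∈ s, f j a) := by
  classical
  induction s using Finset.induction_on with
  | empty => simpa using IsPoly.const (ι := ι) 0
  | insert j s hj ih =>
    simp only [Finset.sum_insert hj]
    exact (hf j).add ih


end

end H8SR
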