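import Pool.Agent.Lib.H8SR.CAlg
import Pool.Agent.Lib.H8SR.GPoly

/-!
# H8SR: the concrete group as an affine group
-/

namespace H8SR

noncomputable section

theorem LL_tri (a a' b : Idx → ℝ) (k : Idx) (h : ∀ l, lev l < lev k → a l = a' l) :
    LL a b k = LL a' b k := by
  cases k with
  | q i => rfl
  | x β => rfl
  | t => rfl
  | lq i => simp only [LL, h (.q i) (by simp [lev])]
  | sq c =>
    have hs : sf c a = sf c a' := by simp only [sf, h (.q _) (by simp [lev])]
    simp only [LL, hs]
  | m β i k =>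
    have hs : sf β.1 a = sf β.1 a' := by simp only [sf, h (.q _) (by simp [lev])]
    simp only [LL, hs, h (.x β) (by simp [lev])]
  | z d j n =>
    have hs : sf d a = sf d a' := by simp only [sf, h (.q _) (by simp [lev])]
    have hm : ∀ β, mat β a = mat β a' := by
      intro β
      have e : ∀ i, a (.lq i) = a' (.lq i) := fun i => h _ (by simp [lev])
      funext i k
      refine Fin.cases ?_ (fun k => ?_) k
      · simp only [mat, Fin.cons_zero, qm, e, h .t (by simp [lev]), h (.sq β.1) (by simp [lev])]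
      · simp only [mat, Fin.cons_succ]
        exact h (.m β i k) (by simp [lev])
    simp only [LL, hs, hm, h (.x _) (by simp [lev])]

theorem isPoly_sf (c : Fin 6) : IsPoly (sf c) := .sum _ fun i => (IsPoly.const _).mul (.coord _)

theorem isPoly_mat (β : Blk) (i : Fin 3) (k : Fin 4) : IsPoly (fun a => mat β a i k) := by
  refine Fin.cases ?_ (fun k => ?_) k
  · simp only [mat, Fin.cons_zero]
    fin_cases i
    · exact .coord _
    · exact IsPoly.sum (ι := Idx) Finset.univ (f := fun i a => lv β.1 i * a (.lq i))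
        fun i => (IsPoly.const _).mul (.coord _)
    · exact .coord _
  · simp only [mat, Fin.cons_succ]
    exact .coord _

theorem isPoly_ts {s : (Idx → ℝ) → ℝ} (hs : IsPoly s) {M : (Idx → ℝ) → Fin 3 → Fin 4 → ℝ}
    (hM : ∀ i k, IsPoly (fun a => M a i k)) (i : Fin 3) (k : Fin 4) :
    IsPoly (fun a => ts (s a) (M a) i k) := by
  have h0 := hM 0 k
  have h1 := hM 1 k
  have h2 := hM 2 k
  fin_cases i
  · exact h0
  · exact h1.add (hs.mul h0)
  · exact (h2.add (((IsPoly.const 2).mul hs).mul h1)).add ((hs.pow 2).mul h0)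

theorem isPoly_tx {x : (Idx → ℝ) → ℝ} (hx : IsPoly x) {f : (Idx → ℝ) → Fin 4 → ℝ}
    (hf : ∀ k, IsPoly (fun a => f a k)) (k : Fin 4) : IsPoly (fun a => tx (x a) (f a) k) := by
  have c2 := IsPoly.const (ι := Idx) 2
  have c3 := IsPoly.const (ι := Idx) 3
  fin_cases k
  · exact hf 0
  · exact (hf 1).add (hx.mul (hf 0))
  · exact ((hf 2).add ((c2.mul hx).mul (hf 1))).add ((hx.pow 2).mul (hf 0))
  · exact (((hf 3).add ((c3.mul hx).mul (hf 2))).add ((c3.mul (hx.pow 2)).mul (hf 1))).add
      ((hx.pow 3).mul (hf 0))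

theorem isPoly_tb {s x : (Idx → ℝ) → ℝ} (hs : IsPoly s) (hx : IsPoly x)
    {M : (Idx → ℝ) → Fin 3 → Fin 4 → ℝ} (hM : ∀ i k, IsPoly (fun a => M a i k)) (i : Fin 3)
    (k : Fin 4) : IsPoly (fun a => tb (s a) (x a) (M a) i k) :=
  isPoly_tx hx (fun k => isPoly_ts hs hM i k) k

theorem isPoly_kr {f g : (Idx → ℝ) → Fin 4 → ℝ} (hf : ∀ k, IsPoly (fun a => f a k))
    (hg : ∀ k, IsPoly (fun a => g a k)) : IsPoly (fun a => kr (f a) (g a)) := by
  have c3 := IsPoly.const (ι := Idx) 3
  exact ((((hf 3).mul (hg 0)).sub ((c3.mul (hf 2)).mul (hg 1))).add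
    ((c3.mul (hf 1)).mul (hg 2))).sub ((hf 0).mul (hg 3))

theorem isPoly_kap {M N : (Idx → ℝ) → Fin 3 → Fin 4 → ℝ} (hM : ∀ i k, IsPoly (fun a => M a i k))
    (hN : ∀ i k, IsPoly (fun a => N a i k)) (n : Fin 5) : IsPoly (fun a => kap (M a) (N a) n) := by
  have c2 := IsPoly.const (ι := Idx) 2
  have c4 := IsPoly.const (ι := Idx) 4
  have h : ∀ i j, IsPoly (fun a => kr (M a i) (N a j)) := fun i j => isPoly_kr (hM i) (hN j)
  fin_cases n
  · exact h 2 2
  · exact (c2.mul (h 2 1)).add (c2.mul (h 1 2))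
  · exact ((h 2 0).add (c4.mul (h 1 1))).add (h 0 2)
  · exact (c2.mul (h 1 0)).add (c2.mul (h 0 1))
  · exact h 0 0

theorem isPoly_p4 {x : (Idx → ℝ) → ℝ} (hx : IsPoly x) {f : (Idx → ℝ) → Fin 4 → ℝ}
    (hf : ∀ k, IsPoly (fun a => f a k)) : IsPoly (fun a => p4 (x a) (f a)) :=
  (((hx.mul (hf 3)).add (((IsPoly.const _).mul (hx.pow 2)).mul (hf 2))).add
    ((hx.pow 3).mul (hf 1))).add (((hx.pow 4).div_const 4).mul (hf 0))

theorem isPoly_st {s x : (Idx → ℝ) → ℝ} (hs : IsPoly s) (hx : IsPoly x)
    {M : (Idx → ℝ) → Fin 3 → Fin 4 → ℝ} (hM : ∀ i k, IsPoly (fun a => M a i k)) (n : Fin 5) :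
    IsPoly (fun a => st (s a) (x a) (M a) n) := by
  have c2 := IsPoly.const (ι := Idx) 2
  have h : ∀ i, IsPoly (fun a => p4 (x a) (ts (s a) (M a) i)) := fun i =>
    isPoly_p4 hx (fun k => isPoly_ts hs hM i k)
  fin_cases n
  · exact h 2
  · exact c2.mul (h 1)
  · exact h 0
  · exact .const 0
  · exact .const 0

theorem isPoly_zs {s : (Idx → ℝ) → ℝ} (hs : IsPoly s) (Z : Fin 5 → ℝ) (n : Fin 5) :
    IsPoly (fun a => zs (s a) Z n) := by
  have c : ∀ r : ℝ, IsPoly (fun _ : Idx → ℝ => r) := fun r => .const r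
  fin_cases n
  · exact ((((c _).add (hs.mul (c _))).add ((hs.pow 2).mul (c _))).add
      ((hs.pow 3).mul (c _))).add ((hs.pow 4).mul (c _))
  · exact (((c _).add (((c _).mul hs).mul (c _))).add (((c _).mul (hs.pow 2)).mul (c _))).add
      (((c _).mul (hs.pow 3)).mul (c _))
  · exact ((c _).add (((c _).mul hs).mul (c _))).add (((c _).mul (hs.pow 2)).mul (c _))
  · exact (c _).add (((c _).mul hs).mul (c _))
  · exact c _

theorem LL_poly (b : Idx → ℝ) (k : Idx) : IsPoly (fun a => LL a b k) := by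
  have c : ∀ r : ℝ, IsPoly (fun _ : Idx → ℝ => r) := fun r => .const r
  cases k with
  | q i => exact c _
  | x β => exact c _
  | t => exact c _
  | lq i => exact (c _).add ((IsPoly.coord _).mul (c _))
  | sq d => exact ((c _).add (((c 2).mul (isPoly_sf d)).mul (c _))).add (((isPoly_sf d).pow 2).mul (c _))
  | m β i k =>
    exact isPoly_tb (M := fun _ => mat β b) (isPoly_sf β.1) (.coord (.x β)) (fun _ _ => c _) i k.succ
  | z d j n =>
    simp only [LL]
    refine (isPoly_zs (isPoly_sf d) _ n).add (.sum _ fun e => (c _).mul (.add ?_ ((c _).mul ?_)))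
    · exact isPoly_st (M := fun _ => mat (d, j, e) b) (isPoly_sf d) (.coord (.x (d, j, e)))
        (fun _ _ => c _) n
    · exact isPoly_kap (M := fun a => tb (sf d a) (a (.x (d, j, e))) (mat (d, j, e) b))
        (N := fun a => mat (d, j, e) a)
        (isPoly_tb (M := fun _ => mat (d, j, e) b) (isPoly_sf d) (.coord (.x (d, j, e)))
          (fun _ _ => c _)) (fun i k => isPoly_mat _ i k) n

/-- `(0, L, z) * (0, -L, -z) = 1` -/
theorem inv_aux (a : Idx → ℝ) (hq : ∀ i, a (.q i) = 0) (hx : ∀ β, a (.x β) = 0) :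
    a + LL a (-a) = 0 := by
  have hs : ∀ c, sf c a = 0 := fun c => by simp [sf, hq]
  have hm : ∀ β, mat β (-a) = - mat β a := by
    intro β
    have := mat_smul β (-1) a
    simpa using this
  funext k
  cases k with
  | q i => simp [LL]
  | x β => simp [LL]
  | t => simp [LL]
  | lq i => simp [LL, hq]
  | sq c => simp [LL, hs]
  | m β i k =>
    simp only [LL, Pi.add_apply, hs, hx, tb_zero_left, hm, Pi.neg_apply, Pi.zero_apply]
    simp [mat]
  | z d j n =>
    simp only [LL, Pi.add_apply, hs, hx, tb_zero_left, hm, zs_zero_left, st_zero_left,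
      Pi.zero_apply, Pi.neg_apply]
    have h : ∀ e, kap (-mat (d, j, e) a) (mat (d, j, e) a) = 0 := by
      intro e
      have := kap_smul_left (-1) (mat (d, j, e) a) (mat (d, j, e) a)
      rw [kap_self] at this
      simpa using this
    simp [h]

theorem qm_npos (c : Fin 6) (a : Idx → ℝ) : qm c (npos a) = 0 := by
  funext i
  fin_cases i <;> simp [qm, npos]

theorem mat_npos (β : Blk) (a : Idx → ℝ) : mat β (npos a) = 0 := by
  funext i k
  refine Fin.cases ?_ (fun k => ?_) k
  · simp only [mat, Fin.cons_zero, qm_npos, Pi.zero_apply]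
  · simp only [mat, Fin.cons_succ, npos, Pi.zero_apply]

theorem st_zero_right (s x : ℝ) : st s x 0 = 0 := by
  have := st_smul s x 0 0
  simpa using this

theorem zs_zero_right (s : ℝ) : zs s 0 = 0 := by
  have := zs_smul s 0 0
  simpa using this

/-- multiplication by a pure position on the right changes only the positions -/
theorem LL_npos (a b : Idx → ℝ) : LL a (npos b) = npos b := by
  funext k
  cases k with
  | q i => rfl
  | x β => rfl
  | t => rfl
  | lq i => simp [LL, npos]
  | sq c => simp [LL, qm_npos, npos]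
  | m β i k => simp [LL, mat_npos, tb_zero, npos]
  | z d j n =>
    have h : (fun n => npos b (Idx.z d j n)) = 0 := rfl
    simp only [LL, h, mat_npos, tb_zero, kap_zero_left, st_zero_right, zs_zero_right]
    simp [npos]

/-- right inverse -/
theorem invF_right (a : Idx → ℝ) : a + LL a (invF a) = 0 := by
  set L' : Idx → ℝ := fun k => match k with
    | .q _ => 0
    | .x _ => 0
    | k => - a k with hL'
  have e : invF a = npos a + LL (npos a) L' := rfl
  rw [e, LL_add, ← LL_mul, ← add_assoc, LL_npos]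
  have hu : L' = -(a + npos a) := by
    funext k
    cases k <;> simp [hL', npos]
  rw [hu]
  apply inv_aux
  · intro i; simp [npos]
  · intro β; simp [npos]

theorem invF_spec (a : Idx → ℝ) : invF a + LL (invF a) a = 0 := by
  -- the inverse of the inverse
  have h1 := invF_right a
  have h2 := invF_right (invF a)
  -- b := invF a, c := invF b; a * b = 1, b * c = 1 so a = c
  have h3 : invF (invF a) = a := by
    have e := LL_mul a (invF a) (invF (invF a))
    rw [h1, LL_zero_left] at e
    have e2 : LL (invF a) (invF (invF a)) = - invF a := by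
      rw [eq_neg_iff_add_eq_zero, add_comm]; exact h2
    have e3 : LL a (- invF a) = a := by
      have e4 := LL_smul a (-1) (invF a)
      rw [neg_one_smul, neg_one_smul] at e4
      rw [e4, neg_eq_iff_add_eq_zero, add_comm]; exact h1
    rw [e, e2, e3]
  rw [h3] at h2
  exact h2

/-- the group as an affine group -/
def SRA : AffGrp Idx where
  L := LL
  add' := LL_add
  smul' := LL_smul
  zero' := LL_zero_left
  mul' := LL_mul
  inv := invF
  inv' := invF_spec
  lev := lev
  depth := 3
  lev_lt := fun k => by cases k <;> simp [lev]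
  tri := LL_tri
  poly := LL_poly

/-- the group -/
abbrev SR : Type := SRA.G

end

end H8SR
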