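import Pool.Agent.Lib.H8SR.GPoly
import Pool.Agent.Lib.H80A.PGDefs

/-!
# H8SR: an affine group gives a polynomial Lie group in the sense of H80A
-/

namespace H8SR

open MeasureTheory Set Filter Topology
open scoped Manifold ContDiff

noncomputable section

variable {ι : Type} [Fintype ι]

theorem isPoly_contDiff {f : (ι → ℝ) → ℝ} (h : IsPoly f) : ContDiff ℝ ∞ f := by
  obtain ⟨p, hp⟩ := h
  have e : f = fun a => MvPolynomial.eval a p := funext hp
  rw [e]
  induction p using MvPolynomial.induction_on generalizing f with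
  | C a => simpa using contDiff_const
  | add p q hp' hq' =>
    simp only [map_add]
    exact (hp' (fun a => rfl) rfl).add (hq' (fun a => rfl) rfl)
  | mul_X p i hp' =>
    simp only [map_mul, MvPolynomial.eval_X]
    exact (hp' (fun a => rfl) rfl).mul (contDiff_apply (𝕜 := ℝ) (E := ℝ) i)

/-- the polynomial can be chosen with variables of smaller level only -/
theorem exists_poly_tri {f : (ι → ℝ) → ℝ} (h : IsPoly f) (S : Set ι)
    (hS : ∀ a a' : ι → ℝ, (∀ l ∈ S, a l = a' l) → f a = f a') :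
    ∃ p : MvPolynomial ι ℝ, (∀ a, f a = MvPolynomial.eval a p) ∧ ∀ i ∈ p.vars, i ∈ S := by
  classical
  obtain ⟨p, hp⟩ := h
  refine ⟨MvPolynomial.bind₁ (fun i => if i ∈ S then MvPolynomial.X i else 0) p, fun a => ?_, ?_⟩
  · rw [MvPolynomial.eval, MvPolynomial.eval₂Hom_bind₁]
    have h1 : f a = f (fun i => if i ∈ S then a i else 0) := hS _ _ fun l hl => by simp [hl]
    rw [h1, hp]
    congr 1
    congr 1
    funext i
    split_ifs <;> simp
  · intro i hi
    have h2 := MvPolynomial.vars_bind₁ (fun i => if i ∈ S then (MvPolynomial.X i : MvPolynomial ι ℝ)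
      else 0) p hi
    rw [Finset.mem_biUnion] at h2
    obtain ⟨l, -, hl⟩ := h2
    split_ifs at hl with h3
    · rw [MvPolynomial.vars_X, Finset.mem_singleton] at hl
      rwa [hl]
    · simp at hl

variable (A : AffGrp ι) {m : ℕ} (b : Fin m → ι → ℝ)

theorem AffGrp.exists_fld (k : ι) (j : Fin m) :
    ∃ p : MvPolynomial ι ℝ, (∀ a, A.L a (b j) k = MvPolynomial.eval a p) ∧
      ∀ i ∈ p.vars, A.lev i < A.lev k :=
  exists_poly_tri (A.poly (b j) k) {l | A.lev l < A.lev k} (fun a a' h => A.tri a a' (b j) k h)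

/-- the polynomial components of the horizontal fields -/
def AffGrp.fld (k : ι) (j : Fin m) : MvPolynomial ι ℝ := Classical.choose (A.exists_fld b k j)

theorem AffGrp.fld_eval (k : ι) (j : Fin m) (a : ι → ℝ) :
    MvPolynomial.eval a (A.fld b k j) = A.L a (b j) k :=
  ((Classical.choose_spec (A.exists_fld b k j)).1 a).symm

theorem AffGrp.L_sum [DecidableEq ι] (a c : ι → ℝ) (k : ι) :
    A.L a c k = ∑ l, c l * A.L a (Pi.single l 1) k := by
  let T : (ι → ℝ) →ₗ[ℝ] (ι → ℝ) := ⟨⟨A.L a, A.add' a⟩, A.smul' a⟩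
  have h : A.L a c = T c := rfl
  have h2 : c = ∑ l, c l • (Pi.single l 1 : ι → ℝ) := by
    funext i
    simp [Finset.sum_apply, Pi.single_apply]
  rw [h]
  conv_lhs => rw [h2]
  rw [map_sum, Finset.sum_apply]
  refine Finset.sum_congr rfl fun l _ => ?_
  rw [map_smul]
  rfl

theorem AffGrp.mul_smooth : ContDiff ℝ ∞ (fun p : (ι → ℝ) × (ι → ℝ) => p.1 + A.L p.1 p.2) := by
  classical
  rw [contDiff_pi]
  intro k
  have e : (fun p : (ι → ℝ) × (ι → ℝ) => (p.1 + A.L p.1 p.2) k) =
      fun p => p.1 k + ∑ l, p.2 l * A.L p.1 (Pi.single l 1) k := by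
    funext p
    rw [Pi.add_apply, A.L_sum p.1 p.2 k]
  rw [e]
  have h1 : ∀ l : ι, ContDiff ℝ ∞ (fun p : (ι → ℝ) × (ι → ℝ) => p.1 l) := fun l =>
    (contDiff_apply (𝕜 := ℝ) (E := ℝ) l).comp contDiff_fst
  have h2 : ∀ l : ι, ContDiff ℝ ∞ (fun p : (ι → ℝ) × (ι → ℝ) => p.2 l) := fun l =>
    (contDiff_apply (𝕜 := ℝ) (E := ℝ) l).comp contDiff_snd
  refine (h1 k).add (ContDiff.sum fun l _ => (h2 l).mul ?_)
  exact (isPoly_contDiff (A.poly (Pi.single l 1) k)).comp contDiff_fst

/-- the associated polynomial Lie group -/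
def AffGrp.toPG (hinv : ContDiff ℝ ∞ A.inv) : H80A.PG ι m where
  mul a c := a + A.L a c
  inv := A.inv
  mul_assoc a c d := by
    change (a + A.L a c) + A.L (a + A.L a c) d = a + A.L a (c + A.L c d)
    rw [A.mul', A.add', add_assoc]
  zero_mul a := by
    change 0 + A.L 0 a = a
    rw [A.zero', zero_add]
  inv_mul a := A.inv' a
  mul_smooth := A.mul_smooth
  inv_smooth := hinv
  rk := A.lev
  fld := A.fld b
  tri k j := (Classical.choose_spec (A.exists_fld b k j)).2
  left g h j := by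
    let T : (ι → ℝ) →ₗ[ℝ] (ι → ℝ) := ⟨⟨A.L g, A.add' g⟩, A.smul' g⟩
    have e : (fun c : ι → ℝ => g + A.L g c) = fun c => g + LinearMap.toContinuousLinearMap T c := rfl
    have e2 : (fun k => MvPolynomial.eval h (A.fld b k j)) = A.L h (b j) := by
      funext k; exact A.fld_eval b k j h
    have e3 : (fun k => MvPolynomial.eval (g + A.L g h) (A.fld b k j)) = A.L (g + A.L g h) (b j) := by
      funext k; exact A.fld_eval b k j _
    have e4 : HasFDerivAt (fun c : ι → ℝ => g + A.L g c) (LinearMap.toContinuousLinearMap T) h := by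
      rw [e]
      exact (LinearMap.toContinuousLinearMap T).hasFDerivAt.const_add g
    rw [e2, e4.fderiv]
    change A.L g (A.L h (b j)) = fun k => MvPolynomial.eval (g + A.L g h) (A.fld b k j)
    rw [e3, A.mul']

end

end H8SR
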