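import Pool.Agent.Lib.H8SR.CGrp
import Pool.Agent.Lib.H8SR.GPG

/-!
# H8SR: the concrete group as a polynomial Lie group (`H80A.PG`), basic formulas
-/

namespace H8SR

open MeasureTheory Set Filter Topology
open scoped Manifold ContDiff

noncomputable section

/-- the horizontal coordinates: positions and clocks -/
def isHor : Idx → Bool
  | .q _ => true
  | .x _ => true
  | .t => true
  | .lq _ => true
  | _ => false

/-- horizontal coordinates as a type -/
abbrev HIdx : Type := {k : Idx // isHor k = true}

/-- the number of horizontal directions (`103`) -/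
abbrev mH : ℕ := Fintype.card HIdx

/-- enumeration of the horizontal coordinates -/
def hI (j : Fin mH) : Idx := ((Fintype.equivFin HIdx).symm j).1

/-- horizontal basis -/
def hb (j : Fin mH) : Idx → ℝ := Pi.single (hI j) 1

theorem contDiff_invF : ContDiff ℝ ∞ invF := by
  have hk : ∀ k : Idx, ContDiff ℝ ∞ (fun a : Idx → ℝ => a k) := fun k =>
    contDiff_apply (𝕜 := ℝ) (E := ℝ) k
  have h1 : ContDiff ℝ ∞ npos := by
    rw [contDiff_pi]
    intro k
    cases k <;> simp only [npos] <;> first | exact contDiff_const | exact (hk _).neg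
  have h2 : ContDiff ℝ ∞ (fun (a : Idx → ℝ) (k : Idx) => (match k with
    | .q _ => 0
    | .x _ => 0
    | k => - a k : ℝ)) := by
    rw [contDiff_pi]
    intro k
    cases k <;> first | exact contDiff_const | exact (hk _).neg
  exact SRA.mul_smooth.comp (h1.prodMk h2)

/-- the group -/
def SRP : H80A.PG Idx mH := SRA.toPG hb contDiff_invF

/-- the group, as a type -/
abbrev SRG : Type := SRP.Car

/-- the linear part of the left multiplication -/
def Ls (g h : SRG) : SRG := LL g h

theorem mul_def (g h : SRG) : g * h = g + Ls g h := rfl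

theorem mul_apply (g h : SRG) (k : Idx) : (g * h) k = g k + LL g h k := rfl

theorem add_apply (g h : SRG) (k : Idx) : (g + h) k = g k + h k := rfl

theorem smul_apply (r : ℝ) (g : SRG) (k : Idx) : (r • g) k = r * g k := rfl

theorem one_apply (k : Idx) : (1 : SRG) k = 0 := rfl

theorem one_eq_zero : (1 : SRG) = 0 := rfl

@[ext] theorem SRG.ext {g h : SRG} (H : ∀ k, g k = h k) : g = h := funext H

theorem inv_def (g : SRG) : (g⁻¹ : SRG) = invF g := rfl

theorem mul_q (g h : SRG) (i : Fin 3) : (g * h) (.q i) = g (.q i) + h (.q i) := rfl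
theorem mul_x (g h : SRG) (β : Blk) : (g * h) (.x β) = g (.x β) + h (.x β) := rfl
theorem mul_t (g h : SRG) : (g * h) .t = g .t + h .t := rfl
theorem mul_lq (g h : SRG) (i : Fin 3) :
    (g * h) (.lq i) = g (.lq i) + (h (.lq i) + g (.q i) * h .t) := rfl
theorem mul_sq (g h : SRG) (c : Fin 6) :
    (g * h) (.sq c) = g (.sq c) + (h (.sq c) + 2 * sf c g * qm c h 1 + sf c g ^ 2 * h .t) := rfl
theorem mul_m (g h : SRG) (β : Blk) (i k : Fin 3) :
    (g * h) (.m β i k) = g (.m β i k) + tb (sf β.1 g) (g (.x β)) (mat β h) i k.succ := rfl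
theorem mul_z (g h : SRG) (c : Fin 6) (j : Fin 4) (n : Fin 5) :
    (g * h) (.z c j n) = g (.z c j n) + (zs (sf c g) (fun n => h (.z c j n)) n
      + ∑ e : Fin 4, ep e * (st (sf c g) (g (.x (c, j, e))) (mat (c, j, e) h) n
        + gg e / 6 * kap (tb (sf c g) (g (.x (c, j, e))) (mat (c, j, e) h))
          (mat (c, j, e) g) n)) := rfl

theorem sf_mul (c : Fin 6) (g h : SRG) : sf c (g * h) = sf c g + sf c h :=
  sf_add c g (LL g h)

theorem mat_mul (β : Blk) (g h : SRG) :
    mat β (g * h) = mat β g + tb (sf β.1 g) (g (.x β)) (mat β h) :=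
  (mat_add β g (LL g h)).trans (by rw [mat_LL])

theorem qm_mul (c : Fin 6) (g h : SRG) : qm c (g * h) = qm c g +
    ![qm c h 0, qm c h 1 + sf c g * qm c h 0,
      qm c h 2 + 2 * sf c g * qm c h 1 + sf c g ^ 2 * qm c h 0] :=
  (qm_add c g (LL g h)).trans (by rw [qm_LL])

/-! ## positions -/

/-- a pure position -/
def IsPos (v : SRG) : Prop := ∀ k : Idx, (∀ i, k ≠ .q i) → (∀ β, k ≠ .x β) → v k = 0

/-- position part of an element -/
def posF (g : SRG) : SRG := fun k => match k with
  | .q i => g (.q i)
  | .x β => g (.x β)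
  | _ => 0

theorem isPos_posF (g : SRG) : IsPos (posF g) := by
  intro k h1 h2
  cases k with
  | q i => exact absurd rfl (h1 i)
  | x β => exact absurd rfl (h2 β)
  | _ => rfl

/-- right multiplication by a position only changes the positions -/
theorem mul_pos (g : SRG) {v : SRG} (hv : IsPos v) : g * v = g + v := by
  have h : (v : Idx → ℝ) = npos (fun k => - v k) := by
    funext k
    cases k with
    | q i => simp [npos]
    | x β => simp [npos]
    | _ => exact hv _ (by simp) (by simp)
  rw [mul_def]
  have h2 : Ls g v = v := by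
    change LL g v = v
    rw [h]; exact LL_npos g _
  rw [h2]

end

end H8SR
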