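import Pool.Agent.Lib.H8SR.ZDefs

/-!
# Chunk D1: identities for node points (pure algebra)

`Q(x) = x^3 + γ (M₀ x^2 - 2 M₁ x + M₂) = (x-A)((x-A)^2 - S (x-A) + p)`, `S = -3A - γT`, for `M = nd γ A T p`.
`nd_charge`: the third component uses `Q(A) = 0`.  `nd_switch`: the factorisation shows that `M₀, M₁, M₂` agree,
and `M₃` is a function of them.  `ndz_charge`: unfold, `Fin.sum_univ_four`, `ep`, `gg`; each block contributes
`c * τ * p^2` to the difference with the same constant `c`; `linear_combination (c * τ) * hp`.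
All identities were checked with exact rational arithmetic.
-/

namespace H8SR

noncomputable section

theorem gg_pos (e : Fin 4) : 0 < gg e := by
  fin_cases e <;> simp [gg]

theorem fb_nd {γ : ℝ} (hγ : γ ≠ 0) (A T p : ℝ) : fb γ (nd γ A T p) A = - p ^ 2 / 12 := by
  simp only [fb, nd, Matrix.cons_val]
  field_simp
  ring

theorem chi_nd (γ A T p : ℝ) :
    nd γ A T p 3 + γ * (nd γ A T p 0 * nd γ A T p 2 - nd γ A T p 1 ^ 2) = 0 := by
  simp only [nd, Matrix.cons_val]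
  ring

theorem nd_origin (γ : ℝ) : nd γ 0 0 0 = 0 := by
  funext k
  fin_cases k <;> simp [nd]

theorem nd_switch {γ : ℝ} (hγ : γ ≠ 0) {A T p ρ : ℝ}
    (h : ρ ^ 2 - (- 3 * A - γ * T) * ρ + p = 0) : nd γ (A + ρ) T (ρ ^ 2 - p) = nd γ A T p := by
  have _ := hγ
  have hp : p = (- 3 * A - γ * T) * ρ - ρ ^ 2 := by linarith
  have h1 : (3 * (A + ρ) ^ 2 + 2 * γ * T * (A + ρ) - (ρ ^ 2 - p)) / (2 * γ) =
      (3 * A ^ 2 + 2 * γ * T * A - p) / (2 * γ) := by
    rw [hp]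
    congr 1
    ring
  have h2 : (2 * (A + ρ) ^ 3 + γ * T * (A + ρ) ^ 2 - (ρ ^ 2 - p) * (A + ρ)) / γ =
      (2 * A ^ 3 + γ * T * A ^ 2 - p * A) / γ := by
    rw [hp]
    congr 1
    ring
  simp only [nd, h1, h2]

theorem nd_charge {γ : ℝ} (hγ : γ ≠ 0) (A T p τ : ℝ) :
    nd γ A (T + τ) p = nd γ A T p + ![τ, τ * A, τ * A ^ 2, τ * A ^ 3] := by
  funext k
  fin_cases k
  · simp [nd]
  · simp [nd]
    field_simp
    ring
  · simp [nd]
    field_simp
    ring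
  · simp [nd]
    field_simp
    ring

theorem ndz_charge (A : Fin 4 → ℝ) (T τ : ℝ) {p : Fin 4 → ℝ} (hp : ∑ e, ep e * p e ^ 2 = 0) :
    ndz (fun e => nd (gg e) (A e) (T + τ) (p e)) = ndz (fun e => nd (gg e) (A e) T (p e)) +
      ∑ e, ep e * (τ * (A e ^ 4 / 4) + gg e / 6 *
        kr ![τ, τ * A e, τ * A e ^ 2, τ * A e ^ 3] (nd (gg e) (A e) T (p e))) := by
  have key : ∀ e, gg e * (nd (gg e) (A e) (T + τ) (p e) 0 * nd (gg e) (A e) (T + τ) (p e) 3 -
      nd (gg e) (A e) (T + τ) (p e) 1 * nd (gg e) (A e) (T + τ) (p e) 2) =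
      gg e * (nd (gg e) (A e) T (p e) 0 * nd (gg e) (A e) T (p e) 3 -
      nd (gg e) (A e) T (p e) 1 * nd (gg e) (A e) T (p e) 2) - 10 * (τ * (A e ^ 4 / 4) + gg e / 6 *
        kr ![τ, τ * A e, τ * A e ^ 2, τ * A e ^ 3] (nd (gg e) (A e) T (p e)))
        - τ * p e ^ 2 / 6 := by
    intro e
    have hg := (gg_pos e).ne'
    simp only [nd, kr, Matrix.cons_val]
    field_simp
    ring
  simp only [ndz, key]
  have h2 : ∀ e, ep e * (gg e * (nd (gg e) (A e) T (p e) 0 * nd (gg e) (A e) T (p e) 3 -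
      nd (gg e) (A e) T (p e) 1 * nd (gg e) (A e) T (p e) 2) - 10 * (τ * (A e ^ 4 / 4) + gg e / 6 *
        kr ![τ, τ * A e, τ * A e ^ 2, τ * A e ^ 3] (nd (gg e) (A e) T (p e)))
        - τ * p e ^ 2 / 6) =
      ep e * (gg e * (nd (gg e) (A e) T (p e) 0 * nd (gg e) (A e) T (p e) 3 -
      nd (gg e) (A e) T (p e) 1 * nd (gg e) (A e) T (p e) 2)) + (-10) * (ep e * (τ * (A e ^ 4 / 4)
        + gg e / 6 * kr ![τ, τ * A e, τ * A e ^ 2, τ * A e ^ 3] (nd (gg e) (A e) T (p e))))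
        + (- τ / 6) * (ep e * p e ^ 2) := fun e => by ring
  simp only [h2, Finset.sum_add_distrib, ← Finset.mul_sum, hp]
  ring

end

end H8SR
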