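import Pool.Agent.Lib.H8SR.D1
import Pool.Agent.Lib.H80A.PG4

/-!
# Chunk D2: states lie in `Zs`; closedness of the states; the relation `NR`

`IsNd` depends only on the coordinates which are not positions (`sq a = M₀`, `m (a,j,e) i k`, `t`, `lq`, `z a j 0`,
`z a j 1`).  `mem_of_pos`: `Fp a j g (xs a j g) = ∑ ep e * (- p j e ^ 2 / 12) = 0` by `Bal`.
`IsSt.limit`: every condition is an equality between continuous functions of `(g, A, T, p)`.
-/

namespace H8SR

open MeasureTheory Set Filter Topology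

noncomputable section

variable {a : Fin 6} {α : Fin 4 → ℝ} {A A' A'' : Fin 4 → Fin 4 → ℝ} {T T' T'' : ℝ}
  {p p' p'' : Fin 4 → Fin 4 → ℝ} {g : SRG}

theorem d2_mat_add (β : Blk) (g h : SRG) : mat β (g + h) = mat β g + mat β h := mat_add β g h

theorem d2_mat_pos {v : SRG} (hv : IsPos v) (β : Blk) : mat β v = 0 := by
  have h0 : ∀ k : Idx, (∀ i, k ≠ .q i) → (∀ β, k ≠ .x β) → v k = 0 := hv
  have hl : ∀ i, v (.lq i) = 0 := fun i => h0 _ (by simp) (by simp)
  funext i k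
  refine Fin.cases ?_ (fun k => ?_) k
  · have h1 : mat β v i 0 = qm β.1 v i := rfl
    rw [h1]
    fin_cases i
    · exact h0 _ (by simp) (by simp)
    · show ∑ i, lv β.1 i * v (.lq i) = 0
      exact Finset.sum_eq_zero fun i _ => by rw [hl, mul_zero]
    · exact h0 _ (by simp) (by simp)
  · exact h0 (.m β i k) (by simp) (by simp)

theorem d2_mat_add_pos (g : SRG) {v : SRG} (hv : IsPos v) (β : Blk) :
    mat β (g + v) = mat β g := by
  rw [d2_mat_add, d2_mat_pos hv, add_zero]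

theorem d2_z_add_pos (g : SRG) {v : SRG} (hv : IsPos v) (c : Fin 6) (j : Fin 4) (n : Fin 5) :
    (g + v) (.z c j n) = g (.z c j n) := by
  rw [add_apply, hv (.z c j n) (by simp) (by simp), add_zero]

theorem d2_psi_add_pos (g : SRG) {v : SRG} (hv : IsPos v) (a : Fin 6) (j : Fin 4) :
    psi a j (g + v) = psi a j g := by
  unfold psi
  rw [d2_z_add_pos g hv]
  congr 1
  exact Finset.sum_congr rfl fun e _ => by rw [d2_mat_add_pos g hv]

theorem IsNd.add_pos (h : IsNd a α A T p g) {v : SRG} (hv : IsPos v) : IsNd a α A T p (g + v) := by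
  refine ⟨fun j e => ?_, fun j => ?_, ?_⟩
  · rw [d2_mat_add_pos g hv]
    exact h.mom j e
  · rw [d2_z_add_pos g hv]
    exact h.zz j
  · rw [← h.ps]
    exact Finset.sum_congr rfl fun j _ => by rw [d2_psi_add_pos g hv]

theorem IsNd.chi0 (h : IsNd a α A T p g) (j e : Fin 4) : chi (a, j, e) g = 0 := by
  show mat (a, j, e) g 2 3 + gg e * (mat (a, j, e) g 2 0 * mat (a, j, e) g 2 2 -
    mat (a, j, e) g 2 1 ^ 2) = 0
  rw [h.mom j e]
  exact chi_nd _ _ _ _

theorem IsNd.mem_of_F (h : IsNd a α A T p g) (hF : ∑ j, α j * Fp a j g (xs a j g) = 0) :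
    g ∈ Zs a α :=
  ⟨by rw [hF, mul_zero], h.chi0, h.ps⟩

theorem IsNd.mem_of_pos (h : IsNd a α A T p g) (hb : Bal p)
    (hx : ∀ j e, g (.x (a, j, e)) = A j e) : g ∈ Zs a α := by
  refine h.mem_of_F (Finset.sum_eq_zero fun j _ => ?_)
  have h1 : Fp a j g (xs a j g) = 0 := by
    unfold Fp
    have h2 : ∀ e, ep e * fb (gg e) (mat (a, j, e) g 2) (xs a j g e) =
        (-1 / 12) * (ep e * p j e ^ 2) := by
      intro e
      have h3 : xs a j g e = A j e := hx j e
      rw [h.mom j e, h3, fb_nd (gg_pos e).ne']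
      ring
    rw [Finset.sum_congr rfl fun e _ => h2 e, ← Finset.mul_sum, hb j, mul_zero]
  rw [h1, mul_zero]

theorem IsNd.mem_of_sf (h : IsNd a α A T p g) (hs : sf a g = 0) : g ∈ Zs a α :=
  ⟨by rw [hs, zero_mul], h.chi0, h.ps⟩

theorem IsSt.mem (h : IsSt a α A T p g) : g ∈ Zs a α := by
  refine h.toIsNd.mem_of_sf ?_
  unfold sf
  exact Finset.sum_eq_zero fun i _ => by rw [h.q0 i, mul_zero]

/-- the rows of effective moments decide: change of the labels `(A, p)` -/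
theorem IsNd.relabel (h : IsNd a α A T p g)
    (hn : ∀ j e, nd (gg e) (A j e) T (p j e) = nd (gg e) (A' j e) T (p' j e)) :
    IsNd a α A' T p' g := by
  refine ⟨fun j e => ?_, fun j => ?_, h.ps⟩
  · rw [h.mom j e, hn]
  · rw [h.zz j]
    congr 1
    funext e
    exact hn j e

theorem d2_coord (k : Idx) {g : ℕ → SRG} {g' : SRG} (hg : Tendsto g atTop (𝓝 g')) :
    Tendsto (fun n => g n k) atTop (𝓝 (g' k)) :=
  ((continuous_apply (A := fun _ : Idx => ℝ) k).tendsto g').comp hg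

theorem d2_mat (β : Blk) (i : Fin 3) (k : Fin 4) {g : ℕ → SRG} {g' : SRG}
    (hg : Tendsto g atTop (𝓝 g')) :
    Tendsto (fun n => mat β (g n) i k) atTop (𝓝 (mat β g' i k)) := by
  refine Fin.cases ?_ (fun k => ?_) k
  · fin_cases i
    · exact d2_coord .t hg
    · show Tendsto (fun n => ∑ i, lv β.1 i * g n (.lq i)) atTop (𝓝 (∑ i, lv β.1 i * g' (.lq i)))
      exact tendsto_finsetSum _ fun i _ => (d2_coord (.lq i) hg).const_mul _
    · exact d2_coord (.sq β.1) hg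
  · exact d2_coord (.m β i k) hg

theorem d2_nd (γ : ℝ) {A T p : ℕ → ℝ} {A' T' p' : ℝ} (hA : Tendsto A atTop (𝓝 A'))
    (hT : Tendsto T atTop (𝓝 T')) (hp : Tendsto p atTop (𝓝 p')) (k : Fin 4) :
    Tendsto (fun n => nd γ (A n) (T n) (p n) k) atTop (𝓝 (nd γ A' T' p' k)) := by
  have hc : Continuous fun x : ℝ × ℝ × ℝ => nd γ x.1 x.2.1 x.2.2 k := by
    fin_cases k
    · show Continuous fun x : ℝ × ℝ × ℝ => x.2.1
      fun_prop
    · show Continuous fun x : ℝ × ℝ × ℝ => (3 * x.1 ^ 2 + 2 * γ * x.2.1 * x.1 - x.2.2) / (2 * γ)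
      fun_prop
    · show Continuous fun x : ℝ × ℝ × ℝ => (2 * x.1 ^ 3 + γ * x.2.1 * x.1 ^ 2 - x.2.2 * x.1) / γ
      fun_prop
    · show Continuous fun x : ℝ × ℝ × ℝ =>
        - γ * (x.2.1 * ((2 * x.1 ^ 3 + γ * x.2.1 * x.1 ^ 2 - x.2.2 * x.1) / γ)
          - ((3 * x.1 ^ 2 + 2 * γ * x.2.1 * x.1 - x.2.2) / (2 * γ)) ^ 2)
      fun_prop
  exact (hc.tendsto (A', T', p')).comp (hA.prodMk_nhds (hT.prodMk_nhds hp))

theorem IsSt.limit {A : ℕ → Fin 4 → Fin 4 → ℝ} {T : ℕ → ℝ} {p : ℕ → Fin 4 → Fin 4 → ℝ}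
    {g : ℕ → SRG} {A' : Fin 4 → Fin 4 → ℝ} {T' : ℝ} {p' : Fin 4 → Fin 4 → ℝ} {g' : SRG}
    (h : ∀ n, IsSt a α (A n) (T n) (p n) (g n)) (hA : Tendsto A atTop (𝓝 A'))
    (hT : Tendsto T atTop (𝓝 T')) (hp : Tendsto p atTop (𝓝 p')) (hg : Tendsto g atTop (𝓝 g')) :
    IsSt a α A' T' p' g' := by
  have hA2 : ∀ j e, Tendsto (fun n => A n j e) atTop (𝓝 (A' j e)) := fun j e =>
    (tendsto_pi_nhds.1 ((tendsto_pi_nhds.1 hA) j)) e
  have hp2 : ∀ j e, Tendsto (fun n => p n j e) atTop (𝓝 (p' j e)) := fun j e =>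
    (tendsto_pi_nhds.1 ((tendsto_pi_nhds.1 hp) j)) e
  have hnd : ∀ j e k, Tendsto (fun n => nd (gg e) (A n j e) (T n) (p n j e) k) atTop
      (𝓝 (nd (gg e) (A' j e) T' (p' j e) k)) := fun j e k => d2_nd _ (hA2 j e) hT (hp2 j e) k
  refine ⟨⟨fun j e => ?_, fun j => ?_, ?_⟩, fun i => ?_, fun j e => ?_, fun β hβ => ?_⟩
  · funext k
    refine tendsto_nhds_unique (d2_mat (a, j, e) 2 k hg) ?_
    simp only [(h _).mom j e]
    exact hnd j e k
  · refine tendsto_nhds_unique (d2_coord (.z a j 0) hg) ?_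
    simp only [(h _).zz j]
    unfold ndz
    refine Tendsto.const_mul _ (tendsto_finsetSum _ fun e _ => Tendsto.const_mul _
      (Tendsto.const_mul _ ?_))
    exact ((hnd j e 0).mul (hnd j e 3)).sub ((hnd j e 1).mul (hnd j e 2))
  · have h1 : Tendsto (fun n => ∑ j, α j * psi a j (g n)) atTop (𝓝 (∑ j, α j * psi a j g')) := by
      refine tendsto_finsetSum _ fun j _ => Tendsto.const_mul _ ?_
      unfold psi
      refine (d2_coord (.z a j 1) hg).add (tendsto_finsetSum _ fun e _ => Tendsto.const_mul _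
        (Tendsto.const_mul _ ?_))
      unfold kr
      have m := fun i k => d2_mat (a, j, e) i k hg
      exact ((((m 1 3).mul (m 2 0)).sub (((m 1 2).const_mul 3).mul (m 2 1))).add
        (((m 1 1).const_mul 3).mul (m 2 2))).sub ((m 1 0).mul (m 2 3))
    refine tendsto_nhds_unique h1 ?_
    simp only [(h _).ps]
    exact tendsto_const_nhds
  · refine tendsto_nhds_unique (d2_coord (.q i) hg) ?_
    simp only [(h _).q0 i]
    exact tendsto_const_nhds
  · refine tendsto_nhds_unique (d2_coord (.x (a, j, e)) hg) ?_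
    simp only [(h _).xa j e]
    exact hA2 j e
  · refine tendsto_nhds_unique (d2_coord (.x β) hg) ?_
    simp only [(h _).xo β hβ]
    exact tendsto_const_nhds

theorem NR.refl (A : Fin 4 → Fin 4 → ℝ) (T : ℝ) (p : Fin 4 → Fin 4 → ℝ) :
    NR a α 0 A T p A T p := fun g hg => ⟨g, hg, H80A.Reach.refl hg.mem⟩

theorem NR.trans {K K' : ℝ} (h : NR a α K A T p A' T' p') (h' : NR a α K' A' T' p' A'' T'' p'') :
    NR a α (K + K') A T p A'' T'' p'' := by
  intro g hg
  obtain ⟨g', hg', r⟩ := h g hg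
  obtain ⟨g'', hg'', r'⟩ := h' g' hg'
  exact ⟨g'', hg'', H80A.Reach.trans r r'⟩

theorem NR.mono {K K' : ℝ} (h : NR a α K A T p A' T' p') (hK : K ≤ K') :
    NR a α K' A T p A' T' p' := by
  intro g hg
  obtain ⟨g', hg', r⟩ := h g hg
  exact ⟨g', hg', H80A.Reach.mono r hK⟩

end

end H8SR
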