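import Pool.Agent.Lib.H8SR.D2
import Pool.Agent.Lib.H8SR.C2

/-!
# Chunk D3: the two moves between states

`exists_i`: an index with `lv a i = 1`.
`T_move`: `v = ` the position with `q i = σ` (`lv a i = 1`, so `sf a v = σ`).  From the state `g`:
`g → g + v` (`reach_pos`, cost `σ`; `IsNd.add_pos`, `mem_of_pos`), then `reach_clk` with `u = w • ev t`,
`w = (T' - T) / σ^2` (cost `|w|`): for `0 ≤ t ≤ 1` the point `(g + v) * (t • u)` is again `IsNd` with `T + t (T' - T)`: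
`mat (a,j,e) ((g + v) * (t • u)) 2 = mat (a,j,e) g 2 + τ (1, A, A^2, A^3)`, `τ = t w σ^2` (`mat_mul`), `nd_charge`;
coordinate `z a j 0`: `mul_z`, `ndz_charge`; `psi`: the formula
`psi a j (g * (w • ev t)) = psi a j g + 2 * sf a g * w * Fp a j g (xs a j g)` (checked exactly), and here `Fp = 0`.
Then back: `- v` (cost `σ`).
`x_move`: at `q = 0` all points are in `Zs` (`mem_of_sf`); the position changes from `A` to `A'`; `IsNd.relabel`.
-/

namespace H8SR

open MeasureTheory Set Filter Topology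

noncomputable section

variable {a : Fin 6} {α : Fin 4 → ℝ}

theorem exists_i (a : Fin 6) : ∃ i, lv a i = 1 := by
  fin_cases a
  · exact ⟨0, rfl⟩
  · exact ⟨1, rfl⟩
  · exact ⟨2, rfl⟩
  · exact ⟨0, rfl⟩
  · exact ⟨0, rfl⟩
  · exact ⟨1, rfl⟩

theorem d3_mat_u (w : ℝ) (β : Blk) : mat β (w • ev .t) = fun i k =>
    if i = 0 ∧ k = 0 then w else 0 := by
  have ht : (w • ev .t) .t = w := by
    show w * (Pi.single Idx.t (1 : ℝ) : Idx → ℝ) .t = w
    simp
  have hl : ∀ i, (w • ev .t) (.lq i) = 0 := fun i => by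
    show w * (Pi.single Idx.t (1 : ℝ) : Idx → ℝ) (.lq i) = 0
    simp
  have hs : ∀ i, (w • ev .t) (.sq i) = 0 := fun i => by
    show w * (Pi.single Idx.t (1 : ℝ) : Idx → ℝ) (.sq i) = 0
    simp
  have hm : ∀ β i k, (w • ev .t) (.m β i k) = 0 := fun β i k => by
    show w * (Pi.single Idx.t (1 : ℝ) : Idx → ℝ) (.m β i k) = 0
    simp
  funext i k
  refine Fin.cases ?_ (fun k => ?_) k
  · have h1 : mat β (w • ev .t) i 0 = qm β.1 (w • ev .t) i := rfl
    rw [h1]
    fin_cases i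
    · show (w • ev .t) .t = _
      rw [ht]
      simp
    · show ∑ i, lv β.1 i * (w • ev .t) (.lq i) = _
      rw [Finset.sum_eq_zero fun i _ => by rw [hl, mul_zero]]
      simp
    · show (w • ev .t) (.sq β.1) = _
      rw [hs]
      simp
  · show (w • ev .t) (.m β i k) = _
    rw [hm]
    simp

theorem d3_tb (s x w : ℝ) (i : Fin 3) (k : Fin 4) :
    tb s x (fun i k => if i = 0 ∧ k = 0 then w else 0) i k = w * s ^ (i : ℕ) * x ^ (k : ℕ) := by
  fin_cases i <;> fin_cases k <;> simp [tb, tx, ts] <;> ring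

theorem d3_mat_clk (g : SRG) (w : ℝ) (β : Blk) (i : Fin 3) (k : Fin 4) :
    mat β (g * (w • ev .t)) i k = mat β g i k + w * sf β.1 g ^ (i : ℕ) * g (.x β) ^ (k : ℕ) := by
  rw [mat_mul, d3_mat_u, Pi.add_apply, Pi.add_apply, d3_tb]

theorem d3_z_u (w : ℝ) (c : Fin 6) (j : Fin 4) (s : ℝ) (n : Fin 5) :
    zs s (fun n => (w • ev .t) (.z c j n)) n = 0 := by
  have h : (fun n => (w • ev .t) (.z c j n)) = (0 : Fin 5 → ℝ) := by
    funext n
    show w * (Pi.single Idx.t (1 : ℝ) : Idx → ℝ) (.z c j n) = 0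
    simp
  rw [h, zs_zero_right]
  rfl

theorem d3_st0 (s x w : ℝ) : st s x (fun i k => if i = 0 ∧ k = 0 then w else 0) 0 =
    w * s ^ 2 * (x ^ 4 / 4) := by
  simp [st, p4, ts]
  ring

theorem d3_st1 (s x w : ℝ) : st s x (fun i k => if i = 0 ∧ k = 0 then w else 0) 1 =
    2 * (w * s * (x ^ 4 / 4)) := by
  simp [st, p4, ts]
  ring

theorem d3_z0 (g : SRG) (w : ℝ) (c : Fin 6) (j : Fin 4) :
    (g * (w • ev .t)) (.z c j 0) = g (.z c j 0) + ∑ e, ep e *
      (w * sf c g ^ 2 * (g (.x (c, j, e)) ^ 4 / 4) + gg e / 6 *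
        kr ![w * sf c g ^ 2, w * sf c g ^ 2 * g (.x (c, j, e)),
          w * sf c g ^ 2 * g (.x (c, j, e)) ^ 2, w * sf c g ^ 2 * g (.x (c, j, e)) ^ 3]
          (mat (c, j, e) g 2)) := by
  rw [mul_z, d3_z_u, zero_add]
  congr 1
  refine Finset.sum_congr rfl fun e _ => ?_
  rw [d3_mat_u, d3_st0]
  have hk : ∀ M' M : Fin 3 → Fin 4 → ℝ, kap M' M 0 = kr (M' 2) (M 2) := fun M' M => rfl
  rw [hk]
  congr 3
  congr 1
  funext k
  rw [d3_tb]
  fin_cases k <;> simp

theorem psi_clk (a : Fin 6) (j : Fin 4) (g : SRG) (w : ℝ) :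
    psi a j (g * (w • ev .t)) = psi a j g + 2 * sf a g * w * Fp a j g (xs a j g) := by
  unfold psi Fp
  rw [mul_z, d3_z_u, zero_add, add_assoc, add_assoc, ← Finset.sum_add_distrib, Finset.mul_sum,
    ← Finset.sum_add_distrib]
  congr 1
  refine Finset.sum_congr rfl fun e _ => ?_
  have hk : ∀ M' M : Fin 3 → Fin 4 → ℝ, kap M' M 1 = 2 * kr (M' 2) (M 1) + 2 * kr (M' 1) (M 2) :=
    fun M' M => rfl
  have hx : xs a j g e = g (.x (a, j, e)) := rfl
  rw [d3_mat_u, d3_st1, hk, hx]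
  simp only [kr, fb, d3_tb, d3_mat_clk]
  have e1 : ((1 : Fin 3) : ℕ) = 1 := rfl
  have e2 : ((2 : Fin 3) : ℕ) = 2 := rfl
  have f0 : ((0 : Fin 4) : ℕ) = 0 := rfl
  have f1 : ((1 : Fin 4) : ℕ) = 1 := rfl
  have f2 : ((2 : Fin 4) : ℕ) = 2 := rfl
  have f3 : ((3 : Fin 4) : ℕ) = 3 := rfl
  rw [e1, e2, f0, f1, f2, f3]
  ring

theorem d3_F {A : Fin 4 → Fin 4 → ℝ} {T : ℝ} {p : Fin 4 → Fin 4 → ℝ} {g : SRG}
    (h : IsNd a α A T p g) (hb : Bal p) (hx : ∀ j e, g (.x (a, j, e)) = A j e) (j : Fin 4) :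
    Fp a j g (xs a j g) = 0 := by
  unfold Fp
  have h2 : ∀ e, ep e * fb (gg e) (mat (a, j, e) g 2) (xs a j g e) =
      (-1 / 12) * (ep e * p j e ^ 2) := by
    intro e
    have h3 : xs a j g e = A j e := hx j e
    rw [h.mom j e, h3, fb_nd (gg_pos e).ne']
    ring
  rw [Finset.sum_congr rfl fun e _ => h2 e, ← Finset.mul_sum, hb j, mul_zero]

theorem d3_nd {A : Fin 4 → Fin 4 → ℝ} {T : ℝ} {p : Fin 4 → Fin 4 → ℝ} {g : SRG}
    (h : IsNd a α A T p g) (hb : Bal p) (hx : ∀ j e, g (.x (a, j, e)) = A j e) (w : ℝ) :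
    IsNd a α A (T + w * sf a g ^ 2) p (g * (w • ev .t)) := by
  refine ⟨fun j e => ?_, fun j => ?_, ?_⟩
  · rw [nd_charge (gg_pos e).ne']
    funext k
    rw [d3_mat_clk, h.mom j e, hx j e, Pi.add_apply]
    congr 1
    fin_cases k <;> simp
  · rw [d3_z0, h.zz j, ndz_charge (fun e => A j e) T (w * sf a g ^ 2) (hb j)]
    congr 1
    refine Finset.sum_congr rfl fun e _ => ?_
    rw [hx j e, h.mom j e]
  · have h1 : ∀ j, α j * psi a j (g * (w • ev .t)) = α j * psi a j g := by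
      intro j
      rw [psi_clk, d3_F h hb hx j, mul_zero, add_zero]
    rw [Finset.sum_congr rfl fun j _ => h1 j]
    exact h.ps

theorem d3_pos (σ : ℝ) (i : Fin 3) : IsPos (σ • ev (.q i)) := by
  intro k h1 _
  show σ * (Pi.single (Idx.q i) (1 : ℝ) : Idx → ℝ) k = 0
  rw [Pi.single_eq_of_ne (h1 i), mul_zero]

theorem d3_abs (w : ℝ) (i k : Idx) : |(w • ev i) k| ≤ |w| := by
  show |w * (Pi.single i (1 : ℝ) : Idx → ℝ) k| ≤ |w|
  by_cases h : k = i
  · rw [h]
    simp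
  · rw [Pi.single_eq_of_ne h, mul_zero, abs_zero]
    exact abs_nonneg w

theorem d3_clk (w : ℝ) : IsClk (w • ev .t) := by
  intro k h1 _
  show w * (Pi.single Idx.t (1 : ℝ) : Idx → ℝ) k = 0
  rw [Pi.single_eq_of_ne h1, mul_zero]

theorem T_move (A : Fin 4 → Fin 4 → ℝ) (T : ℝ) {p : Fin 4 → Fin 4 → ℝ} (hb : Bal p) (T' : ℝ)
    {σ : ℝ} (hσ : 0 < σ) : NR a α (2 * σ + |T' - T| / σ ^ 2) A T p A T' p := by
  intro g hg
  obtain ⟨i, hi⟩ := exists_i a
  set v : SRG := σ • ev (.q i) with hv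
  have hvp : IsPos v := d3_pos σ i
  have hvx : ∀ β, v (.x β) = 0 := by
    intro β
    show σ * (Pi.single (Idx.q i) (1 : ℝ) : Idx → ℝ) (.x β) = 0
    simp
  have hvq : ∀ i', v (.q i') = if i' = i then σ else 0 := by
    intro i'
    show σ * (Pi.single (Idx.q i) (1 : ℝ) : Idx → ℝ) (.q i') = _
    by_cases h : i' = i
    · rw [h]; simp
    · have : (Idx.q i') ≠ Idx.q i := fun e => h (Idx.q.inj e)
      rw [Pi.single_eq_of_ne this, if_neg h, mul_zero]
  set w : ℝ := (T' - T) / σ ^ 2 with hw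
  have hσ2 : (0 : ℝ) < σ ^ 2 := by positivity
  have hwσ : w * σ ^ 2 = T' - T := div_mul_cancel₀ _ hσ2.ne'
  have habs : |w| = |T' - T| / σ ^ 2 := by rw [hw, abs_div, abs_of_pos hσ2]
  have hxa : ∀ (t : ℝ) (j e : Fin 4), (g + t • v) (.x (a, j, e)) = A j e := by
    intro t j e
    rw [add_apply, smul_apply, hvx, mul_zero, add_zero]
    exact hg.xa j e
  -- the first step
  have r1 : SRP.Reach (Zs a α) σ g (g + v) := by
    refine reach_pos hvp hσ.le (fun k => ?_) (fun t _ => ?_)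
    · have := d3_abs σ (.q i) k
      rwa [abs_of_pos hσ] at this
    · exact (hg.toIsNd.add_pos (c2_pos_smul t hvp)).mem_of_pos hb (hxa t)
  have hg1 : IsNd a α A T p (g + v) := hg.toIsNd.add_pos hvp
  have hx1 : ∀ j e, (g + v) (.x (a, j, e)) = A j e := by
    intro j e
    have := hxa 1 j e
    rwa [one_smul] at this
  have hs1 : sf a (g + v) = σ := by
    have h1 : sf a (g + v) = sf a g + sf a v := sf_add a g v
    have h2 : sf a g = 0 := by
      unfold sf
      exact Finset.sum_eq_zero fun i _ => by rw [hg.q0 i, mul_zero]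
    have h3 : sf a v = σ := by
      unfold sf
      rw [Finset.sum_eq_single i]
      · rw [hvq, if_pos rfl, hi, one_mul]
      · intro i' _ hne
        rw [hvq, if_neg hne, mul_zero]
      · intro h
        exact absurd (Finset.mem_univ _) h
    rw [h1, h2, h3, zero_add]
  -- the second step
  have r2 : SRP.Reach (Zs a α) |w| (g + v) ((g + v) * (w • ev .t)) := by
    refine reach_clk (d3_clk w) (abs_nonneg w) (d3_abs w .t) (fun t _ => ?_)
    rw [smul_smul]
    refine (d3_nd hg1 hb hx1 (t * w)).mem_of_pos hb (fun j e => ?_)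
    rw [mul_x, hx1]
    show A j e + (t * w) * (Pi.single Idx.t (1 : ℝ) : Idx → ℝ) (.x (a, j, e)) = A j e
    simp
  have hg2 : IsNd a α A T' p ((g + v) * (w • ev .t)) := by
    have h := d3_nd hg1 hb hx1 w
    rwa [hs1, hwσ, add_sub_cancel] at h
  have hx2 : ∀ β, ((g + v) * (w • ev .t)) (.x β) = g (.x β) := by
    intro β
    rw [mul_x, add_apply, hvx, add_zero]
    show g (.x β) + w * (Pi.single Idx.t (1 : ℝ) : Idx → ℝ) (.x β) = g (.x β)
    simp
  have hq2 : ∀ i', ((g + v) * (w • ev .t)) (.q i') = g (.q i') + v (.q i') := by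
    intro i'
    rw [mul_q, add_apply]
    show g (.q i') + v (.q i') + w * (Pi.single Idx.t (1 : ℝ) : Idx → ℝ) (.q i') = _
    simp
  -- the third step
  set g2 : SRG := (g + v) * (w • ev .t) with hg2d
  have hnv : IsPos (-v) := by
    have := c2_pos_smul (-1) hvp
    rwa [neg_one_smul] at this
  have hnvx : ∀ β, (-v) (.x β) = 0 := by
    intro β
    have h1 : (-v) (.x β) = -(v (.x β)) := rfl
    rw [h1, hvx, neg_zero]
  have r3 : SRP.Reach (Zs a α) σ g2 (g2 + -v) := by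
    refine reach_pos hnv hσ.le (fun k => ?_) (fun t _ => ?_)
    · have h1 : (-v) k = -(v k) := rfl
      rw [h1, abs_neg]
      have := d3_abs σ (.q i) k
      rwa [abs_of_pos hσ] at this
    · refine (hg2.add_pos (c2_pos_smul t hnv)).mem_of_pos hb (fun j e => ?_)
      rw [add_apply, smul_apply, hnvx, mul_zero, add_zero, hx2]
      exact hg.xa j e
  refine ⟨g2 + -v, ⟨hg2.add_pos hnv, fun i' => ?_, fun j e => ?_, fun β hβ => ?_⟩, ?_⟩
  · rw [add_apply, hq2]
    have h1 : (-v) (.q i') = -(v (.q i')) := rfl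
    rw [h1, hg.q0]
    ring
  · rw [add_apply, hnvx, hx2, add_zero]
    exact hg.xa j e
  · rw [add_apply, hnvx, hx2, add_zero]
    exact hg.xo β hβ
  · refine H80A.Reach.mono (H80A.Reach.trans (H80A.Reach.trans r1 r2) r3) (le_of_eq ?_)
    rw [habs]
    ring

theorem x_move {A A' : Fin 4 → Fin 4 → ℝ} {T : ℝ} {p p' : Fin 4 → Fin 4 → ℝ} {K : ℝ} (hK : 0 ≤ K)
    (hA : ∀ j e, |A' j e - A j e| ≤ K)
    (hn : ∀ j e, nd (gg e) (A j e) T (p j e) = nd (gg e) (A' j e) T (p' j e)) :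
    NR a α K A T p A' T p' := by
  intro g hg
  set v : SRG := fun k => match k with
    | .x β => if β.1 = a then A' β.2.1 β.2.2 - A β.2.1 β.2.2 else 0
    | _ => 0 with hv
  have hvp : IsPos v := by
    intro k h1 h2
    cases k with
    | q i => exact absurd rfl (h1 i)
    | x β => exact absurd rfl (h2 β)
    | _ => rfl
  have hvq : ∀ i, v (.q i) = 0 := fun i => rfl
  have hvx : ∀ β : Blk, v (.x β) = if β.1 = a then A' β.2.1 β.2.2 - A β.2.1 β.2.2 else 0 :=
    fun β => rfl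
  have hvb : ∀ k, |v k| ≤ K := by
    intro k
    by_cases h : ∃ β : Blk, k = .x β
    · obtain ⟨β, rfl⟩ := h
      rw [hvx]
      split_ifs
      · exact hA _ _
      · rw [abs_zero]
        exact hK
    · by_cases h1 : ∃ i, k = .q i
      · obtain ⟨i, rfl⟩ := h1
        rw [hvq i, abs_zero]
        exact hK
      · rw [hvp k (fun i e => h1 ⟨i, e⟩) (fun β e => h ⟨β, e⟩), abs_zero]
        exact hK
  refine ⟨g + v, ⟨(hg.toIsNd.add_pos hvp).relabel hn, fun i => ?_, fun j e => ?_,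
    fun β hβ => ?_⟩, reach_pos hvp hK hvb (fun t _ => ?_)⟩
  · rw [add_apply, hvq i, add_zero]
    exact hg.q0 i
  · rw [add_apply, hvx, hg.xa j e, if_pos rfl]
    ring
  · rw [add_apply, hvx, if_neg hβ, add_zero]
    exact hg.xo β hβ
  · refine (hg.toIsNd.add_pos (c2_pos_smul t hvp)).mem_of_sf ?_
    unfold sf
    refine Finset.sum_eq_zero fun i _ => ?_
    rw [add_apply, smul_apply, hvq i, hg.q0 i, mul_zero, add_zero, mul_zero]

end

end H8SR
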