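import Pool.Agent.Lib.H8SR.D3

/-!
# Chunk D4: the pair coordinates; 1-switches and 2-switches

`pr A j i k x y` is `A` with the entries `(j,i)`, `(j,k)` replaced by `x`, `y`.
`switch_i`: `x_move` with `nd_switch` for the block `(j,i)` (`gg i = 1`): `S = -3 x - T = 3/2 ρ` and
`ρ^2 - 3/2 ρ^2 + P = 0` for `ρ^2 = 2 P`, `ρ^2 - P = P`.  `switch_k`: the same with `gg k = 101`.
`switch_2`: both blocks, `S_i = -3x - T`, `S_k = -3y - 101 T`, both equal to `ρ + P/ρ`.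
-/

namespace H8SR

open MeasureTheory Set Filter Topology

noncomputable section

variable {a : Fin 6} {α : Fin 4 → ℝ}

/-- replace the entries `(j,i)` and `(j,k)` -/
def pr (A : Fin 4 → Fin 4 → ℝ) (j i k : Fin 4) (x y : ℝ) : Fin 4 → Fin 4 → ℝ := fun j' e =>
  if j' = j ∧ e = i then x else if j' = j ∧ e = k then y else A j' e

/-- a good pair of blocks -/
def GoodPair (i k : Fin 4) : Prop :=
  i ≠ k ∧ ep i = 1 ∧ ep k = -1 ∧ gg i = 1 ∧ gg k = 101

theorem goodPair01 : GoodPair 0 1 := by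
  refine ⟨by decide, ?_, ?_, ?_, ?_⟩ <;> simp [ep, gg]

theorem goodPair23 : GoodPair 2 3 := by
  refine ⟨by decide, ?_, ?_, ?_, ?_⟩ <;> simp [ep, gg]

theorem D4_pr_i (A : Fin 4 → Fin 4 → ℝ) (j i k : Fin 4) (x y : ℝ) : pr A j i k x y j i = x := by
  simp [pr]

theorem D4_pr_k (A : Fin 4 → Fin 4 → ℝ) (j : Fin 4) {i k : Fin 4} (h : i ≠ k) (x y : ℝ) :
    pr A j i k x y j k = y := by
  simp [pr, h.symm]

theorem D4_pr_o (A : Fin 4 → Fin 4 → ℝ) {j i k j' e : Fin 4} (h1 : ¬ (j' = j ∧ e = i))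
    (h2 : ¬ (j' = j ∧ e = k)) (x y : ℝ) : pr A j i k x y j' e = A j' e := by
  rw [pr, if_neg h1, if_neg h2]

theorem Bal.pr {p : Fin 4 → Fin 4 → ℝ} (hp : Bal p) (j : Fin 4) {i k : Fin 4} (hG : GoodPair i k)
    (hpp : p j k = p j i) (c : ℝ) : Bal (pr p j i k c c) := by
  obtain ⟨hik, h1, h2, _, _⟩ := hG
  intro j'
  have h0 := hp j'
  by_cases hj : j' = j
  · subst hj
    have e : ∀ e, ep e * H8SR.pr p j' i k c c j' e ^ 2 = ep e * p j' e ^ 2 +
        ((if e = i then c ^ 2 - p j' i ^ 2 else 0) - (if e = k then c ^ 2 - p j' i ^ 2 else 0)) := by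
      intro e
      by_cases hi : e = i
      · subst hi
        rw [D4_pr_i, if_pos rfl, if_neg hik, h1]
        ring
      · by_cases hk : e = k
        · subst hk
          rw [D4_pr_k _ _ hik, if_pos rfl, if_neg hi, h2, hpp]
          ring
        · rw [D4_pr_o _ (fun h => hi h.2) (fun h => hk h.2), if_neg hi, if_neg hk]
          ring
    rw [Finset.sum_congr rfl fun x _ => e x, Finset.sum_add_distrib, h0, Finset.sum_sub_distrib,
      Finset.sum_ite_eq', Finset.sum_ite_eq']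
    simp
  · have e : ∀ e, H8SR.pr p j i k c c j' e = p j' e := fun e =>
      D4_pr_o _ (fun h => hj h.1) (fun h => hj h.1) _ _
    simp only [e]
    exact h0

theorem pr_self (A : Fin 4 → Fin 4 → ℝ) (j i k : Fin 4) : pr A j i k (A j i) (A j k) = A := by
  funext j' e
  rw [pr]
  split_ifs with h1 h2
  · rw [h1.1, h1.2]
  · rw [h2.1, h2.2]
  · rfl

theorem pr_pr (A : Fin 4 → Fin 4 → ℝ) (j i k : Fin 4) (x y x' y' : ℝ) :
    pr (pr A j i k x y) j i k x' y' = pr A j i k x' y' := by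
  funext j' e
  rw [pr, pr, pr]
  split_ifs <;> rfl

theorem continuous_pr (A : Fin 4 → Fin 4 → ℝ) (j i k : Fin 4) :
    Continuous (fun v : ℝ × ℝ => pr A j i k v.1 v.2) := by
  refine continuous_pi fun j' => continuous_pi fun e => ?_
  simp only [pr]
  split_ifs
  · exact continuous_fst
  · exact continuous_snd
  · exact continuous_const

/-- a move which changes only one pair -/
theorem D4_move (A p : Fin 4 → Fin 4 → ℝ) (j : Fin 4) {i k : Fin 4} (hik : i ≠ k)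
    {x y x' y' T P P' K : ℝ} (hK : 0 ≤ K) (hx : |x' - x| ≤ K) (hy : |y' - y| ≤ K)
    (h1 : nd (gg i) x T P = nd (gg i) x' T P') (h2 : nd (gg k) y T P = nd (gg k) y' T P') :
    NR a α K (pr A j i k x y) T (pr p j i k P P) (pr A j i k x' y') T (pr p j i k P' P') := by
  refine x_move hK ?_ ?_
  · intro j' e
    by_cases hi : j' = j ∧ e = i
    · obtain ⟨rfl, rfl⟩ := hi
      rw [D4_pr_i, D4_pr_i]
      exact hx
    · by_cases hk : j' = j ∧ e = k
      · obtain ⟨rfl, rfl⟩ := hk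
        rw [D4_pr_k _ _ hik, D4_pr_k _ _ hik]
        exact hy
      · rw [D4_pr_o _ hi hk, D4_pr_o _ hi hk, sub_self, abs_zero]
        exact hK
  · intro j' e
    by_cases hi : j' = j ∧ e = i
    · obtain ⟨rfl, rfl⟩ := hi
      rw [D4_pr_i, D4_pr_i, D4_pr_i, D4_pr_i]
      exact h1
    · by_cases hk : j' = j ∧ e = k
      · obtain ⟨rfl, rfl⟩ := hk
        rw [D4_pr_k _ _ hik, D4_pr_k _ _ hik, D4_pr_k _ _ hik, D4_pr_k _ _ hik]
        exact h2
      · rw [D4_pr_o _ hi hk, D4_pr_o _ hi hk, D4_pr_o _ hi hk, D4_pr_o _ hi hk]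

theorem D4_abs (x ρ : ℝ) : |x + ρ - x| ≤ |ρ| := by rw [add_sub_cancel_left]

theorem D4_abs0 (x ρ : ℝ) : |x - x| ≤ |ρ| := by rw [sub_self, abs_zero]; exact abs_nonneg _

theorem switch_i (A p : Fin 4 → Fin 4 → ℝ) (j : Fin 4) {i k : Fin 4} (hG : GoodPair i k)
    {x y T P ρ : ℝ} (h1 : ρ ^ 2 = 2 * P) (hT : - 3 * x - T = 3 / 2 * ρ) :
    NR a α |ρ| (pr A j i k x y) T (pr p j i k P P) (pr A j i k (x + ρ) y) T (pr p j i k P P) := by
  obtain ⟨hik, _, _, hgi, _⟩ := hG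
  refine D4_move A p j hik (abs_nonneg _) (D4_abs x ρ) (D4_abs0 y ρ) ?_ rfl
  have hP : ρ ^ 2 - P = P := by linarith
  have h := nd_switch (γ := gg i) (gg_pos i).ne' (A := x) (T := T) (p := P) (ρ := ρ) (by
    rw [hgi, one_mul, hT]; nlinarith)
  rw [hP] at h
  exact h.symm

theorem switch_k (A p : Fin 4 → Fin 4 → ℝ) (j : Fin 4) {i k : Fin 4} (hG : GoodPair i k)
    {x y T P ρ : ℝ} (h1 : ρ ^ 2 = 2 * P) (hT : - 3 * y - 101 * T = 3 / 2 * ρ) :
    NR a α |ρ| (pr A j i k x y) T (pr p j i k P P) (pr A j i k x (y + ρ)) T (pr p j i k P P) := by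
  obtain ⟨hik, _, _, _, hgk⟩ := hG
  refine D4_move A p j hik (abs_nonneg _) (D4_abs0 x ρ) (D4_abs y ρ) rfl ?_
  have hP : ρ ^ 2 - P = P := by linarith
  have h := nd_switch (γ := gg k) (gg_pos k).ne' (A := y) (T := T) (p := P) (ρ := ρ) (by
    rw [hgk, hT]; nlinarith)
  rw [hP] at h
  exact h.symm

theorem switch_2 (A p : Fin 4 → Fin 4 → ℝ) (j : Fin 4) {i k : Fin 4} (hG : GoodPair i k)
    {x y T P ρ : ℝ} (h0 : ρ ≠ 0) (h1 : - 3 * x - T = ρ + P / ρ)
    (h2 : - 3 * y - 101 * T = ρ + P / ρ) :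
    NR a α |ρ| (pr A j i k x y) T (pr p j i k P P)
      (pr A j i k (x + ρ) (y + ρ)) T (pr p j i k (ρ ^ 2 - P) (ρ ^ 2 - P)) := by
  obtain ⟨hik, _, _, hgi, hgk⟩ := hG
  have e : (ρ + P / ρ) * ρ = ρ ^ 2 + P := by field_simp
  refine D4_move A p j hik (abs_nonneg _) (D4_abs x ρ) (D4_abs y ρ) ?_ ?_
  · exact (nd_switch (γ := gg i) (gg_pos i).ne' (by
      rw [hgi, one_mul, h1, e]; ring)).symm
  · exact (nd_switch (γ := gg k) (gg_pos k).ne' (by
      rw [hgk, h2, e]; ring)).symm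

end

end H8SR
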