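import Pool.Agent.Lib.H8SR.D4

/-!
# Chunk D5: hops (adaptation of `Lib/SRSard/SteerA.lean`)

`hop_i`: start and end at `T = 0`; `n` switches of the block `i` with `ρ = ± η`, `η = sqrt (2 P)`
(`ρ` has the sign of `n`): tuned values `T_l = - 3/2 ρ - 3 (x + l ρ)`, `l = 0..n-1`; T-moves `0 → T_0`,
switch, `T_l → T_{l+1}` (difference `3 |ρ|`), ..., `T_{n-1} → 0`.  At most `|n| + 2` T-moves, the sum of their
`|ΔT|` is at most `6 (|x| + (|n| + 1) η)`.  `hop_k` is the same with `T_l = - (3/2 ρ + 3 (y + l ρ)) / 101`.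
`hop_2`: `T = 3 (x - y) / 100`.
-/

namespace H8SR

open MeasureTheory Set Filter Topology

noncomputable section

variable {a : Fin 6} {α : Fin 4 → ℝ}

/-- the tuned value of `T` -/
def D5_tun (g x ρ : ℝ) : ℝ := - (3 / 2 * ρ + 3 * x) / g

theorem D5_abs_div {g : ℝ} (hg : 1 ≤ g) {x B : ℝ} (hx : |x| ≤ B) : |x / g| ≤ B := by
  rw [abs_div, abs_of_pos (by linarith : 0 < g)]
  exact (div_le_self (abs_nonneg x) hg).trans hx

theorem D5_iter {F : ℝ → Fin 4 → Fin 4 → ℝ} {P : Fin 4 → Fin 4 → ℝ} {σ : ℝ} (hσ : 0 < σ)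
    (hT : ∀ x T T' : ℝ, NR a α (2 * σ + |T' - T| / σ ^ 2) (F x) T P (F x) T' P) {g : ℝ} (hg : 1 ≤ g)
    {ρ : ℝ} (hsw : ∀ x T : ℝ, - 3 * x - g * T = 3 / 2 * ρ → NR a α |ρ| (F x) T P (F (x + ρ)) T P)
    (x : ℝ) (n : ℕ) :
    NR a α (n * (2 * σ + 3 * |ρ| / σ ^ 2 + |ρ|)) (F x) (D5_tun g x ρ) P (F (x + n * ρ))
      (D5_tun g (x + n * ρ) ρ) P := by
  have hg0 : g ≠ 0 := by linarith
  induction n with
  | zero =>
    have e1 : x + ((0:ℕ):ℝ) * ρ = x := by simp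
    rw [e1]
    simpa using NR.refl (a := a) (α := α) (F x) (D5_tun g x ρ) P
  | succ n ih =>
    have h1 := hsw (x + n * ρ) (D5_tun g (x + n * ρ) ρ) (by unfold D5_tun; field_simp; ring)
    have e : x + n * ρ + ρ = x + ((n + 1 : ℕ) : ℝ) * ρ := by
      push_cast
      ring
    rw [e] at h1
    have h2 := hT (x + ((n + 1 : ℕ) : ℝ) * ρ) (D5_tun g (x + n * ρ) ρ)
      (D5_tun g (x + ((n + 1 : ℕ) : ℝ) * ρ) ρ)
    have hle : |D5_tun g (x + ((n + 1 : ℕ) : ℝ) * ρ) ρ - D5_tun g (x + n * ρ) ρ| ≤ 3 * |ρ| := by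
      have e2 : D5_tun g (x + ((n + 1 : ℕ) : ℝ) * ρ) ρ - D5_tun g (x + n * ρ) ρ =
          (- (3 * ρ)) / g := by
        unfold D5_tun
        push_cast
        field_simp
        ring
      rw [e2]
      apply D5_abs_div hg
      rw [abs_neg, abs_mul, abs_of_pos (by norm_num : (0:ℝ) < 3)]
    have hσ2 : 0 < σ ^ 2 := by positivity
    have hle2 : 2 * σ + |D5_tun g (x + ((n + 1 : ℕ) : ℝ) * ρ) ρ - D5_tun g (x + n * ρ) ρ| / σ ^ 2 ≤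
        2 * σ + 3 * |ρ| / σ ^ 2 := by
      have := div_le_div_of_nonneg_right hle hσ2.le
      linarith
    refine ((ih.trans h1).trans (h2.mono hle2)).mono (le_of_eq ?_)
    push_cast
    ring

theorem D5_hop {F : ℝ → Fin 4 → Fin 4 → ℝ} {P : Fin 4 → Fin 4 → ℝ} {σ : ℝ} (hσ : 0 < σ)
    (hT : ∀ x T T' : ℝ, NR a α (2 * σ + |T' - T| / σ ^ 2) (F x) T P (F x) T' P) {g : ℝ} (hg : 1 ≤ g)
    {ρ : ℝ} (hsw : ∀ x T : ℝ, - 3 * x - g * T = 3 / 2 * ρ → NR a α |ρ| (F x) T P (F (x + ρ)) T P)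
    (x : ℝ) (n : ℕ) :
    NR a α (2 * σ * (n + 2) + 6 * (|x| + (n + 1) * |ρ|) / σ ^ 2 + n * |ρ|) (F x) 0 P
      (F (x + n * ρ)) 0 P := by
  have hb : ∀ x B : ℝ, |x| ≤ B → |D5_tun g x ρ| ≤ 3 / 2 * |ρ| + 3 * B := by
    intro x B hx
    unfold D5_tun
    apply D5_abs_div hg
    rw [abs_neg]
    refine (abs_add_le _ _).trans ?_
    rw [abs_mul, abs_mul, abs_of_pos (by norm_num : (0:ℝ) < 3 / 2),
      abs_of_pos (by norm_num : (0:ℝ) < 3)]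
    linarith
  have hr1 := hT x 0 (D5_tun g x ρ)
  have hr2 := D5_iter (a := a) (α := α) hσ hT hg hsw x n
  have hr3 := hT (x + n * ρ) (D5_tun g (x + n * ρ) ρ) 0
  refine ((hr1.trans hr2).trans hr3).mono ?_
  rw [sub_zero, zero_sub, abs_neg]
  have k1 := hb x |x| le_rfl
  have k2 : |x + n * ρ| ≤ |x| + n * |ρ| := by
    refine (abs_add_le _ _).trans ?_
    rw [abs_mul, Nat.abs_cast]
  have k3 := hb _ _ k2
  have hσ2 : 0 < σ ^ 2 := by positivity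
  have k4 : |D5_tun g x ρ| / σ ^ 2 + n * (3 * |ρ| / σ ^ 2) + |D5_tun g (x + n * ρ) ρ| / σ ^ 2 ≤
      6 * (|x| + (n + 1) * |ρ|) / σ ^ 2 := by
    have : |D5_tun g x ρ| / σ ^ 2 + n * (3 * |ρ| / σ ^ 2) + |D5_tun g (x + n * ρ) ρ| / σ ^ 2 =
        (|D5_tun g x ρ| + n * (3 * |ρ|) + |D5_tun g (x + n * ρ) ρ|) / σ ^ 2 := by
      field_simp
    rw [this]
    apply div_le_div_of_nonneg_right _ hσ2.le
    have := abs_nonneg ρ
    linarith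
  linarith

theorem D5_hopZ {F : ℝ → Fin 4 → Fin 4 → ℝ} {P : Fin 4 → Fin 4 → ℝ} {σ : ℝ} (hσ : 0 < σ)
    (hT : ∀ x T T' : ℝ, NR a α (2 * σ + |T' - T| / σ ^ 2) (F x) T P (F x) T' P) {g : ℝ} (hg : 1 ≤ g)
    {η : ℝ} (hη : 0 < η)
    (hsw : ∀ ρ x T : ℝ, ρ ^ 2 = η ^ 2 → - 3 * x - g * T = 3 / 2 * ρ →
      NR a α |ρ| (F x) T P (F (x + ρ)) T P) (x : ℝ) (n : ℤ) :
    NR a α (2 * σ * (|(n:ℝ)| + 2) + 6 * (|x| + (|(n:ℝ)| + 1) * η) / σ ^ 2 + |(n:ℝ)| * η) (F x) 0 P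
      (F (x + n * η)) 0 P := by
  obtain ⟨m, rfl | rfl⟩ := Int.eq_nat_or_neg n
  · have h := D5_hop (a := a) (α := α) hσ hT hg (ρ := η) (fun x T => hsw η x T rfl) x m
    rw [abs_of_pos hη] at h
    simpa using h
  · have h := D5_hop (a := a) (α := α) hσ hT hg (ρ := - η) (fun x T => hsw (-η) x T (by ring)) x m
    rw [abs_neg, abs_of_pos hη] at h
    simpa using h

theorem hop_i (A : Fin 4 → Fin 4 → ℝ) {p : Fin 4 → Fin 4 → ℝ} (hp : Bal p) (j : Fin 4)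
    {i k : Fin 4} (hG : GoodPair i k) (hpp : p j k = p j i) {x y P η : ℝ} (hη : 0 < η)
    (h1 : η ^ 2 = 2 * P) (n : ℤ) {σ : ℝ} (hσ : 0 < σ) :
    NR a α (2 * σ * (|(n:ℝ)| + 2) + 6 * (|x| + (|(n:ℝ)| + 1) * η) / σ ^ 2 + |(n:ℝ)| * η)
      (pr A j i k x y) 0 (pr p j i k P P) (pr A j i k (x + n * η) y) 0 (pr p j i k P P) := by
  refine D5_hopZ (F := fun x => pr A j i k x y) hσ (fun x T T' => ?_) (g := 1) le_rfl hη
    (fun ρ x T h2 h3 => ?_) x n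
  · exact T_move _ T (hp.pr j hG hpp P) T' hσ
  · exact switch_i A p j hG (h2.trans h1) (by rw [one_mul] at h3; exact h3)

theorem hop_k (A : Fin 4 → Fin 4 → ℝ) {p : Fin 4 → Fin 4 → ℝ} (hp : Bal p) (j : Fin 4)
    {i k : Fin 4} (hG : GoodPair i k) (hpp : p j k = p j i) {x y P η : ℝ} (hη : 0 < η)
    (h1 : η ^ 2 = 2 * P) (n : ℤ) {σ : ℝ} (hσ : 0 < σ) :
    NR a α (2 * σ * (|(n:ℝ)| + 2) + 6 * (|y| + (|(n:ℝ)| + 1) * η) / σ ^ 2 + |(n:ℝ)| * η)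
      (pr A j i k x y) 0 (pr p j i k P P) (pr A j i k x (y + n * η)) 0 (pr p j i k P P) := by
  refine D5_hopZ (F := fun y => pr A j i k x y) hσ (fun y T T' => ?_) (g := 101) (by norm_num) hη
    (fun ρ y T h2 h3 => ?_) y n
  · exact T_move _ T (hp.pr j hG hpp P) T' hσ
  · exact switch_k A p j hG (h2.trans h1) h3

theorem hop_2 (A : Fin 4 → Fin 4 → ℝ) {p : Fin 4 → Fin 4 → ℝ} (hp : Bal p) (j : Fin 4)
    {i k : Fin 4} (hG : GoodPair i k) (hpp : p j k = p j i) {x y P ρ : ℝ} (hρ : 0 < ρ)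
    (hc : ρ + P / ρ = 3 * (y - 101 * x) / 100) {σ : ℝ} (hσ : 0 < σ) :
    NR a α (4 * σ + 2 * |3 * (x - y) / 100| / σ ^ 2 + ρ)
      (pr A j i k x y) 0 (pr p j i k P P)
      (pr A j i k (x + ρ) (y + ρ)) 0 (pr p j i k (ρ ^ 2 - P) (ρ ^ 2 - P)) := by
  have h1 := T_move (a := a) (α := α) (pr A j i k x y) 0 (hp.pr j hG hpp P) (3 * (x - y) / 100) hσ
  have h2 := switch_2 (a := a) (α := α) A p j hG (x := x) (y := y) (T := 3 * (x - y) / 100)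
    (P := P) (ρ := ρ) hρ.ne' (by rw [hc]; ring) (by rw [hc]; ring)
  have h3 := T_move (a := a) (α := α) (pr A j i k (x + ρ) (y + ρ)) (3 * (x - y) / 100)
    (hp.pr j hG hpp (ρ ^ 2 - P)) 0 hσ
  refine ((h1.trans h2).trans h3).mono (le_of_eq ?_)
  rw [sub_zero, zero_sub, abs_neg, abs_of_pos hρ]
  ring

end

end H8SR
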