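import Pool.Agent.Lib.H8SR.D5
import Pool.Agent.Lib.SRSard.SteerB

/-!
# Chunk D6: one round (adaptation of `Lib/SRSard/SteerB.lean`)

As in `steer_step` of SteerB (the lemmas `SRSard.sb_round`, `sb_ceil`, `sb_rho`, `sb_sq_le` are imported):
`η = sqrt 2 * s`, `n1` with `|x + n1 η| ≤ η/2`, `b = x + n1 η`, `n2` with `c' = y + n2 η ∈ [101 b + 67 s, 101 b + 67 s + η]`,
`c = 3 (c' - 101 b)/100 ∈ [2.01 s, 2.06 s]`, `ρ` from `sb_rho`, `s' = sqrt (ρ^2 - s^2)`; `1.1 s ≤ ρ ≤ 1.28 s` gives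
`0.2 s^2 ≤ s'^2 ≤ 0.64 s^2`.  Costs: `|n1| η ≤ |x| + η/2`, `|n2| η ≤ |101 b + 67 s| + |y| + η ≤ 139 s + |y| + η`, so the
number of T-moves is at most `(|x| + |y|)/s + 106`, and everything is bounded by the stated expression.
-/

namespace H8SR

open MeasureTheory Set Filter Topology

noncomputable section

variable {a : Fin 6} {α : Fin 4 → ℝ}

theorem D6_cost {X Y s σ N1 N2 η M ρ : ℝ} (hX : 0 ≤ X) (hY : 0 ≤ Y) (hs : 0 < s) (hσ : 0 < σ)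
    (hN1 : 0 ≤ N1) (hN2 : 0 ≤ N2) (hη1 : s ≤ η) (hη2 : η ≤ 1.415 * s)
    (h1 : N1 * η ≤ X + η / 2) (h2 : N2 * η ≤ 139 * s + Y + η) (hM : M ≤ 5 * s)
    (hρ : ρ ≤ 1.28 * s) :
    2 * σ * (N1 + 2) + 6 * (X + (N1 + 1) * η) / σ ^ 2 + N1 * η +
      (2 * σ * (N2 + 2) + 6 * (Y + (N2 + 1) * η) / σ ^ 2 + N2 * η) +
      (4 * σ + 2 * M / σ ^ 2 + ρ) ≤ 1000 * (X + Y + s) * (σ / s + 1 / σ ^ 2 + 1) := by
  have hσ2 : 0 < 1 / σ ^ 2 := by positivity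
  set w := 1 / σ ^ 2 with hw
  have e1 : 6 * (X + (N1 + 1) * η) / σ ^ 2 = 6 * (X + (N1 + 1) * η) * w := by rw [hw]; ring
  have e2 : 6 * (Y + (N2 + 1) * η) / σ ^ 2 = 6 * (Y + (N2 + 1) * η) * w := by rw [hw]; ring
  have e3 : 2 * M / σ ^ 2 = 2 * M * w := by rw [hw]; ring
  rw [e1, e2, e3]
  have a1 : 2 * σ * (N1 + 2) + 2 * σ * (N2 + 2) + 4 * σ ≤ 1000 * (X + Y + s) * (σ / s) := by
    have b1 : N1 * s ≤ N1 * η := mul_le_mul_of_nonneg_left hη1 hN1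
    have b2 : N2 * s ≤ N2 * η := mul_le_mul_of_nonneg_left hη1 hN2
    have b3 : 2 * σ * (N1 + 2) + 2 * σ * (N2 + 2) + 4 * σ =
        (2 * (N1 * s) + 2 * (N2 * s) + 12 * s) * (σ / s) := by
      field_simp
      ring
    rw [b3]
    apply mul_le_mul_of_nonneg_right _ (by positivity)
    nlinarith
  have a2 : 6 * (X + (N1 + 1) * η) + 6 * (Y + (N2 + 1) * η) + 2 * M ≤ 1000 * (X + Y + s) := by
    nlinarith
  have a3 := mul_le_mul_of_nonneg_right a2 hσ2.le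
  have a4 : N1 * η + N2 * η + ρ ≤ 1000 * (X + Y + s) := by nlinarith
  nlinarith

theorem steer_step (A : Fin 4 → Fin 4 → ℝ) {p : Fin 4 → Fin 4 → ℝ} (hp : Bal p) (j : Fin 4)
    {i k : Fin 4} (hG : GoodPair i k) (hpp : p j k = p j i) {x y s : ℝ} (hs : 0 < s) :
    ∃ x' y' s' : ℝ, 2 / 5 * s ≤ s' ∧ s' ≤ 4 / 5 * s ∧ |x'| ≤ 300 * s ∧ |y'| ≤ 300 * s ∧
      ∀ σ : ℝ, 0 < σ → NR a α (1000 * (|x| + |y| + s) * (σ / s + 1 / σ ^ 2 + 1))
        (pr A j i k x y) 0 (pr p j i k (s ^ 2) (s ^ 2))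
        (pr A j i k x' y') 0 (pr p j i k (s' ^ 2) (s' ^ 2)) := by
  obtain ⟨η, hη⟩ : ∃ η, η = Real.sqrt (2 * s ^ 2) := ⟨_, rfl⟩
  have hη0 : 0 < η := by rw [hη]; exact Real.sqrt_pos.2 (by positivity)
  have hη2 : η ^ 2 = 2 * s ^ 2 := by rw [hη, Real.sq_sqrt (by positivity)]
  have hη_le : η ≤ 1.415 * s := by
    apply SRSard.sb_sq_le _ (by positivity)
    rw [hη2]; nlinarith [sq_nonneg s]
  have hη_ge : s ≤ η := by
    apply SRSard.sb_sq_le _ hη0.le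
    rw [hη2]; nlinarith [sq_nonneg s]
  obtain ⟨n1, hn1, hn1'⟩ := SRSard.sb_round x hη0
  obtain ⟨b, hb⟩ : ∃ b, b = x + n1 * η := ⟨_, rfl⟩
  rw [← hb] at hn1
  obtain ⟨n2, hn2, hn2', hn2''⟩ := SRSard.sb_ceil y (101 * b + 67 * s) hη0
  obtain ⟨c', hc'⟩ : ∃ c', c' = y + n2 * η := ⟨_, rfl⟩
  rw [← hc'] at hn2 hn2'
  obtain ⟨c, hc⟩ : ∃ c, c = 3 * (c' - 101 * b) / 100 := ⟨_, rfl⟩
  have hc1 : 2.01 * s ≤ c := by rw [hc]; linarith
  have hc2 : c ≤ 2.06 * s := by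
    rw [hc]
    have : c' - 101 * b ≤ 67 * s + η := by linarith
    nlinarith
  obtain ⟨ρ, hρ1, hρ2, hρc'⟩ := SRSard.sb_rho hs hc1 hc2
  have hρ0 : 0 < ρ := by linarith
  have hsq : 0 < ρ ^ 2 - s ^ 2 := by nlinarith
  have hb1 := abs_le.1 hn1
  refine ⟨b + ρ, c' + ρ, Real.sqrt (ρ ^ 2 - s ^ 2), ?_, ?_, ?_, ?_, ?_⟩
  · apply Real.le_sqrt_of_sq_le
    nlinarith
  · rw [Real.sqrt_le_left (by positivity)]
    nlinarith
  · rw [abs_le]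
    constructor <;> linarith [hb1.1, hb1.2]
  · rw [abs_le]
    constructor <;> linarith [hb1.1, hb1.2]
  · intro σ hσ
    have R1 := hop_i (a := a) (α := α) A hp j hG hpp (x := x) (y := y) hη0 hη2 n1 hσ
    have R2 := hop_k (a := a) (α := α) A hp j hG hpp (x := b) (y := y) hη0 hη2 n2 hσ
    have R3 := hop_2 (a := a) (α := α) A hp j hG hpp (x := b) (y := c') (P := s ^ 2) hρ0
      (by rw [hρc', hc]) hσ
    rw [← hb] at R1
    rw [← hc'] at R2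
    rw [Real.sq_sqrt hsq.le]
    refine ((R1.trans R2).trans R3).mono ?_
    apply D6_cost (abs_nonneg x) (abs_nonneg y) hs hσ (abs_nonneg _) (abs_nonneg _) hη_ge hη_le hn1'
      _ _ hρ2
    · have h5 : |101 * b + 67 * s| ≤ 139 * s := by
        rw [abs_le]
        constructor <;> linarith [hb1.1, hb1.2]
      linarith
    · rw [abs_le]
      constructor <;> linarith [hb1.1, hb1.2]

end

end H8SR
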