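import Pool.Agent.Lib.H8SR.D6
import Pool.Agent.Lib.H8SR.B6

/-!
# Chunk D7: a pair is steered to the origin (adaptation of `Lib/SRSard/SteerC.lean`)

Iterate `steer_step`: `(x_n, y_n, s_n)`, `s_{n+1} ≤ 4/5 s_n`, `s_{n+1} ≥ 2/5 s_n`, `|x_{n+1}|, |y_{n+1}| ≤ 300 s_n`, with
`σ_n = (10/11)^n`.  For `n ≥ 1`: `|x_n| + |y_n| + s_n ≤ 600 s_{n-1} + s_n ≤ 1501 s_n`, so the cost of the round `n` is at most
`1000 * 1501 * (σ_n + s_n / σ_n^2 + s_n)`, `s_n ≤ (4/5)^n s_0`, `s_n/σ_n^2 ≤ s_0 (4/5 * 121/100)^n = s_0 (0.968)^n`: summable.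
Choose the elements `g_n` one after the other (`NR`), apply `H80A.Reach.infinite` (with `isClosed_Zs`) and
`IsSt.limit`.  (The costs are taken exactly equal to the bound: `NR` with a fixed number.)
-/

namespace H8SR

open MeasureTheory Set Filter Topology

noncomputable section

variable {a : Fin 6} {α : Fin 4 → ℝ}

/-- infinite concatenation of the relation `NR` -/
theorem D7_infinite {A : ℕ → Fin 4 → Fin 4 → ℝ} {T : ℕ → ℝ} {p : ℕ → Fin 4 → Fin 4 → ℝ}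
    {A' : Fin 4 → Fin 4 → ℝ} {T' : ℝ} {p' : Fin 4 → Fin 4 → ℝ} {ℓ : ℕ → ℝ}
    (H : ∀ n, NR a α (ℓ n) (A n) (T n) (p n) (A (n + 1)) (T (n + 1)) (p (n + 1)))
    (hs : Summable ℓ) (hA : Tendsto A atTop (𝓝 A')) (hT : Tendsto T atTop (𝓝 T'))
    (hp : Tendsto p atTop (𝓝 p')) : NR a α (∑' n, ℓ n) (A 0) (T 0) (p 0) A' T' p' := by
  intro g hg
  choose next hnext hR using H
  let G : ∀ n, {g : SRG // IsSt a α (A n) (T n) (p n) g} := fun n =>
    Nat.rec (motive := fun n => {g : SRG // IsSt a α (A n) (T n) (p n) g}) ⟨g, hg⟩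
      (fun n q => ⟨next n q.1 q.2, hnext n q.1 q.2⟩) n
  have hG : ∀ n, SRP.Reach (Zs a α) (ℓ n) (G n).1 (G (n + 1)).1 := fun n => hR n (G n).1 (G n).2
  obtain ⟨g', h1, h2⟩ := H80A.Reach.infinite (isClosed_Zs a α) (g := fun n => (G n).1) hG hs
  exact ⟨g', IsSt.limit (fun n => (G n).2) hA hT hp h1, h2⟩

/-- the data of a round -/
def D7_pt (A : Fin 4 → Fin 4 → ℝ) (j i k : Fin 4) (q : ℝ × ℝ × ℝ) : Fin 4 → Fin 4 → ℝ :=
  pr A j i k q.1 q.2.1

def D7_pp (p : Fin 4 → Fin 4 → ℝ) (j i k : Fin 4) (q : ℝ × ℝ × ℝ) : Fin 4 → Fin 4 → ℝ :=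
  pr p j i k (q.2.2 ^ 2) (q.2.2 ^ 2)

theorem steer_pair (A : Fin 4 → Fin 4 → ℝ) {p : Fin 4 → Fin 4 → ℝ} (hp : Bal p) (j : Fin 4)
    {i k : Fin 4} (hG : GoodPair i k) (hpp : p j k = p j i) {x y s : ℝ} (hs : 0 < s) :
    ∃ ℓ, NR a α ℓ (pr A j i k x y) 0 (pr p j i k (s ^ 2) (s ^ 2))
      (pr A j i k 0 0) 0 (pr p j i k 0 0) := by
  have step : ∀ q : {q : ℝ × ℝ × ℝ // 0 < q.2.2}, ∃ q' : {q : ℝ × ℝ × ℝ // 0 < q.2.2},
      2 / 5 * q.1.2.2 ≤ q'.1.2.2 ∧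
      q'.1.2.2 ≤ 4 / 5 * q.1.2.2 ∧ |q'.1.1| ≤ 300 * q.1.2.2 ∧ |q'.1.2.1| ≤ 300 * q.1.2.2 ∧
      ∀ σ : ℝ, 0 < σ →
        NR a α (1000 * (|q.1.1| + |q.1.2.1| + q.1.2.2) * (σ / q.1.2.2 + 1 / σ ^ 2 + 1))
          (D7_pt A j i k q.1) 0 (D7_pp p j i k q.1)
          (D7_pt A j i k q'.1) 0 (D7_pp p j i k q'.1) := by
    rintro ⟨⟨x, y, s⟩, hs⟩
    simp only at hs
    obtain ⟨x', y', s', h1, h2, h3, h4, h5⟩ := steer_step (a := a) (α := α) A hp j hG hpp
      (x := x) (y := y) hs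
    have hs' : 0 < s' := by linarith
    exact ⟨⟨(x', y', s'), hs'⟩, h1, h2, h3, h4, h5⟩
  choose next hlow hS hA hK hR using step
  let Q : ℕ → {q : ℝ × ℝ × ℝ // 0 < q.2.2} := fun n => next^[n] ⟨(x, y, s), hs⟩
  have hQ0 : Q 0 = ⟨(x, y, s), hs⟩ := rfl
  have hQs : ∀ n, Q (n + 1) = next (Q n) := fun n => Function.iterate_succ_apply' _ _ _
  have hSn : ∀ n, (Q n).1.2.2 ≤ (4 / 5) ^ n * s := by
    intro n
    induction n with
    | zero => simp [hQ0]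
    | succ n ih =>
      rw [hQs]
      calc _ ≤ 4 / 5 * (Q n).1.2.2 := hS _
        _ ≤ 4 / 5 * ((4 / 5) ^ n * s) := by linarith
        _ = (4 / 5) ^ (n + 1) * s := by ring
  have hpos : ∀ n, 0 < (Q n).1.2.2 := fun n => (Q n).2
  have hAn : ∀ n, |(Q (n + 1)).1.1| ≤ 300 * (Q n).1.2.2 := by
    intro n
    rw [hQs]
    exact hA _
  have hKn : ∀ n, |(Q (n + 1)).1.2.1| ≤ 300 * (Q n).1.2.2 := by
    intro n
    rw [hQs]
    exact hK _
  have hgeo : Tendsto (fun n : ℕ => (4 / 5 : ℝ) ^ n) atTop (𝓝 0) :=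
    tendsto_pow_atTop_nhds_zero_of_lt_one (by norm_num) (by norm_num)
  have hS0 : Tendsto (fun n => (Q n).1.2.2) atTop (𝓝 0) := by
    have h1 : Tendsto (fun n : ℕ => (4 / 5 : ℝ) ^ n * s) atTop (𝓝 0) := by
      simpa using hgeo.mul_const s
    exact squeeze_zero (fun n => (hpos n).le) hSn h1
  have h300 : Tendsto (fun n : ℕ => 300 * (Q n).1.2.2) atTop (𝓝 0) := by
    simpa using hS0.const_mul 300
  have hA0 : Tendsto (fun n => (Q n).1.1) atTop (𝓝 0) := by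
    rw [← tendsto_add_atTop_iff_nat 1]
    exact squeeze_zero_norm (fun n => by rw [Real.norm_eq_abs]; exact hAn n) h300
  have hK0 : Tendsto (fun n => (Q n).1.2.1) atTop (𝓝 0) := by
    rw [← tendsto_add_atTop_iff_nat 1]
    exact squeeze_zero_norm (fun n => by rw [Real.norm_eq_abs]; exact hKn n) h300
  have hptt : Tendsto (fun n => D7_pt A j i k (Q n).1) atTop (𝓝 (pr A j i k 0 0)) :=
    ((continuous_pr A j i k).tendsto (0, 0)).comp (hA0.prodMk_nhds hK0)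
  have hppt : Tendsto (fun n => D7_pp p j i k (Q n).1) atTop (𝓝 (pr p j i k 0 0)) := by
    have h1 : Tendsto (fun n => (Q n).1.2.2 ^ 2) atTop (𝓝 0) := by
      simpa using hS0.pow 2
    exact ((continuous_pr p j i k).tendsto (0, 0)).comp (h1.prodMk_nhds h1)
  set σ : ℕ → ℝ := fun n => (10 / 11) ^ n with hσ
  have hσ0 : ∀ n, 0 < σ n := fun n => by rw [hσ]; positivity
  set ℓ : ℕ → ℝ := fun n => 1000 * (|(Q n).1.1| + |(Q n).1.2.1| + (Q n).1.2.2) *
    (σ n / (Q n).1.2.2 + 1 / σ n ^ 2 + 1) with hℓ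
  have hstep : ∀ n, NR a α (ℓ n) (D7_pt A j i k (Q n).1) 0 (D7_pp p j i k (Q n).1)
      (D7_pt A j i k (Q (n + 1)).1) 0 (D7_pp p j i k (Q (n + 1)).1) := fun n => by
    rw [hQs]
    exact hR (Q n) (σ n) (hσ0 n)
  have hsum : Summable ℓ := by
    rw [← summable_nat_add_iff 1]
    have hg1 : Summable (fun n : ℕ => ((10:ℝ) / 11) ^ n) :=
      summable_geometric_of_lt_one (by norm_num) (by norm_num)
    have hg2 : Summable (fun n : ℕ => ((121:ℝ) / 125) ^ n) :=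
      summable_geometric_of_lt_one (by norm_num) (by norm_num)
    have hg3 : Summable (fun n : ℕ => ((4:ℝ) / 5) ^ n) :=
      summable_geometric_of_lt_one (by norm_num) (by norm_num)
    have hg : Summable (fun n : ℕ => 1501000 * (((10:ℝ) / 11) ^ n + ((121:ℝ) / 125) ^ n * s
        + ((4:ℝ) / 5) ^ n * s)) :=
      ((hg1.add (hg2.mul_right s)).add (hg3.mul_right s)).mul_left _
    refine Summable.of_nonneg_of_le (fun n => ?_) (fun n => ?_) ((summable_nat_add_iff 1).2 hg)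
    · have h1 := hpos (n + 1)
      have h2 := hσ0 (n + 1)
      simp only [hℓ]
      positivity
    · have h1 := hpos (n + 1)
      have h2 := hσ0 (n + 1)
      have h3 : (Q n).1.2.2 ≤ 5 / 2 * (Q (n + 1)).1.2.2 := by
        have := hlow (Q n)
        rw [← hQs] at this
        linarith
      have h4 : |(Q (n + 1)).1.1| + |(Q (n + 1)).1.2.1| + (Q (n + 1)).1.2.2 ≤
          1501 * (Q (n + 1)).1.2.2 := by
        linarith [hAn n, hKn n]
      have h5 := hSn (n + 1)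
      have h6 : 1 / σ (n + 1) ^ 2 = ((121:ℝ) / 100) ^ (n + 1) := by
        rw [hσ]
        simp only
        rw [← pow_mul, mul_comm (n + 1) 2, pow_mul, one_div, ← inv_pow]
        norm_num
      have h7 : ((121:ℝ) / 100) ^ (n + 1) * (4 / 5) ^ (n + 1) = (121 / 125) ^ (n + 1) := by
        rw [← mul_pow]
        norm_num
      set u := (Q (n + 1)).1.2.2 with hu
      calc ℓ (n + 1) = 1000 * (|(Q (n + 1)).1.1| + |(Q (n + 1)).1.2.1| + u) *
            (σ (n + 1) / u + 1 / σ (n + 1) ^ 2 + 1) := rfl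
        _ ≤ 1000 * (1501 * u) * (σ (n + 1) / u + 1 / σ (n + 1) ^ 2 + 1) := by
          gcongr
        _ = 1501000 * (σ (n + 1) + 1 / σ (n + 1) ^ 2 * u + u) := by
          field_simp
          ring
        _ ≤ 1501000 * (((10:ℝ) / 11) ^ (n + 1) + ((121:ℝ) / 125) ^ (n + 1) * s
            + ((4:ℝ) / 5) ^ (n + 1) * s) := by
          have h8 : 1 / σ (n + 1) ^ 2 * u ≤ ((121:ℝ) / 125) ^ (n + 1) * s := by
            rw [h6]
            calc ((121:ℝ) / 100) ^ (n + 1) * u ≤ (121 / 100) ^ (n + 1) * ((4 / 5) ^ (n + 1) * s) := by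
                  gcongr
              _ = _ := by rw [← mul_assoc, h7]
          have h9 : σ (n + 1) = ((10:ℝ) / 11) ^ (n + 1) := rfl
          rw [h9] at *
          linarith
  exact ⟨_, D7_infinite (A := fun n => D7_pt A j i k (Q n).1) (T := fun _ => 0)
    (p := fun n => D7_pp p j i k (Q n).1) hstep hsum hptt tendsto_const_nhds hppt⟩

end

end H8SR
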