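import Pool.Agent.Lib.H8SR.D7
import Pool.Agent.Lib.H8SR.C8

/-!
# Chunk D8: all pairs; every node point is joined to the identity

`steer_all`: first `T_move` to `T = 0`, then `steer_pair` for the eight pairs `(j; 0,1)`, `(j; 2,3)` one after the other
(`pr_self`, `Bal.pr`; `s = sqrt (p j i)`), the entries of the finished pairs are `0`.  At the end `A = 0`, `p = 0`.
`IsSt a α 0 0 0 g` implies `g ∈ Ks a α` (`nd_origin`; `psi a j g = g (z a j 1)` because the rows `2` vanish).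
`reach_node`: move `q` to `0` (`reach_pos`; the product `sf a * ∑ α j Fp` stays `0` because `sf a` is multiplied by
`1 - t` and the `x` do not change), then `x` to `A` in the family `a` and to `0` in the others (`sf a = 0`), which is a state;
`steer_all`, `joined_Ks`.
-/

namespace H8SR

open MeasureTheory Set Filter Topology

noncomputable section

variable {a : Fin 6} {α : Fin 4 → ℝ}

theorem D8_one (A : Fin 4 → Fin 4 → ℝ) {p : Fin 4 → Fin 4 → ℝ} (hp : Bal p) (j : Fin 4)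
    {i k : Fin 4} (hG : GoodPair i k) (hpp : p j k = p j i) (hpos : 0 < p j i) :
    ∃ ℓ, NR a α ℓ A 0 p (pr A j i k 0 0) 0 (pr p j i k 0 0) := by
  obtain ⟨ℓ, h⟩ := steer_pair (a := a) (α := α) A hp j hG hpp (x := A j i) (y := A j k)
    (Real.sqrt_pos.mpr hpos)
  rw [Real.sq_sqrt hpos.le, pr_self] at h
  nth_rewrite 2 [← hpp] at h
  rw [pr_self] at h
  exact ⟨ℓ, h⟩

/-- the entries of the sector `j` are replaced by `0` -/
def D8_zr (A : Fin 4 → Fin 4 → ℝ) (j : Fin 4) : Fin 4 → Fin 4 → ℝ := fun j' e =>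
  if j' = j then 0 else A j' e

theorem D8_zr_eq (A : Fin 4 → Fin 4 → ℝ) (j : Fin 4) :
    pr (pr A j 0 1 0 0) j 2 3 0 0 = D8_zr A j := by
  funext j' e
  by_cases h : j' = j
  · fin_cases e <;> simp [pr, D8_zr, h]
  · simp [pr, D8_zr, h]

theorem D8_sector (A : Fin 4 → Fin 4 → ℝ) {p : Fin 4 → Fin 4 → ℝ} (hp : Bal p) (j : Fin 4)
    (h01 : p j 0 = p j 1) (h23 : p j 2 = p j 3) (h0 : 0 < p j 0) (h2 : 0 < p j 2) :
    (∃ ℓ, NR a α ℓ A 0 p (D8_zr A j) 0 (D8_zr p j)) ∧ Bal (D8_zr p j) := by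
  obtain ⟨ℓ1, h1⟩ := D8_one (a := a) (α := α) A hp j goodPair01 h01.symm h0
  have hp1 : Bal (pr p j 0 1 0 0) := Bal.pr hp j goodPair01 h01.symm 0
  have e2 : pr p j 0 1 0 0 j 2 = p j 2 := by simp [pr]
  have e3 : pr p j 0 1 0 0 j 3 = p j 3 := by simp [pr]
  obtain ⟨ℓ2, h3⟩ := D8_one (a := a) (α := α) (pr A j 0 1 0 0) hp1 j goodPair23
    (by rw [e2, e3]; exact h23.symm) (by rw [e2]; exact h2)
  have hp2 : Bal (pr (pr p j 0 1 0 0) j 2 3 0 0) :=
    Bal.pr hp1 j goodPair23 (by rw [e2, e3]; exact h23.symm) 0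
  rw [D8_zr_eq] at hp2
  rw [D8_zr_eq, D8_zr_eq] at h3
  exact ⟨⟨_, h1.trans h3⟩, hp2⟩

theorem D8_bal {p : Fin 4 → Fin 4 → ℝ} (h01 : ∀ j, p j 0 = p j 1) (h23 : ∀ j, p j 2 = p j 3) :
    Bal p := by
  intro j
  simp [Fin.sum_univ_four, ep, h01 j, h23 j]

theorem steer_all (A : Fin 4 → Fin 4 → ℝ) (T : ℝ) {p : Fin 4 → Fin 4 → ℝ}
    (h01 : ∀ j, p j 0 = p j 1) (h23 : ∀ j, p j 2 = p j 3) (hpos : ∀ j e, 0 < p j e) :
    ∃ ℓ, NR a α ℓ A T p 0 0 0 := by
  have hb := D8_bal h01 h23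
  have hT := T_move (a := a) (α := α) A T hb 0 one_pos
  have e1 : ∀ j j' e, j' ≠ j → D8_zr p j j' e = p j' e := fun j j' e h => by simp [D8_zr, h]
  obtain ⟨⟨ℓ0, h0⟩, hb0⟩ := D8_sector (a := a) (α := α) A hb 0 (h01 0) (h23 0) (hpos 0 0) (hpos 0 2)
  obtain ⟨⟨ℓ1, h1⟩, hb1⟩ := D8_sector (a := a) (α := α) (D8_zr A 0) hb0 1
    (by simpa [D8_zr] using h01 1) (by simpa [D8_zr] using h23 1)
    (by simpa [D8_zr] using hpos 1 0) (by simpa [D8_zr] using hpos 1 2)
  obtain ⟨⟨ℓ2, h2⟩, hb2⟩ := D8_sector (a := a) (α := α) (D8_zr (D8_zr A 0) 1) hb1 2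
    (by simpa [D8_zr] using h01 2) (by simpa [D8_zr] using h23 2)
    (by simpa [D8_zr] using hpos 2 0) (by simpa [D8_zr] using hpos 2 2)
  obtain ⟨⟨ℓ3, h3⟩, hb3⟩ := D8_sector (a := a) (α := α) (D8_zr (D8_zr (D8_zr A 0) 1) 2) hb2 3
    (by simpa [D8_zr] using h01 3) (by simpa [D8_zr] using h23 3)
    (by simpa [D8_zr] using hpos 3 0) (by simpa [D8_zr] using hpos 3 2)
  have e : ∀ B : Fin 4 → Fin 4 → ℝ, D8_zr (D8_zr (D8_zr (D8_zr B 0) 1) 2) 3 = 0 := by
    intro B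
    funext j e
    fin_cases j <;> simp [D8_zr]
  rw [e, e] at h3
  exact ⟨_, (((hT.trans h0).trans h1).trans h2).trans h3⟩

theorem IsSt.mem_Ks {g : SRG} (h : IsSt a α 0 0 0 g) : g ∈ Ks a α := by
  have hm : ∀ j e, mat (a, j, e) g 2 = 0 := fun j e => by
    rw [h.mom j e]
    exact nd_origin _
  refine ⟨⟨h.q0, fun β => ?_⟩, ?_, fun j e k => ?_, fun j => ?_, ?_⟩
  · by_cases hβ : β.1 = a
    · obtain ⟨c, j, e⟩ := β
      simp only at hβ
      subst hβ
      exact h.xa j e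
    · exact h.xo β hβ
  · exact congrFun (hm 0 0) 0
  · exact congrFun (hm j e) k.succ
  · rw [h.zz j]
    have : (fun e => nd (gg e) ((0 : Fin 4 → Fin 4 → ℝ) j e) 0 ((0 : Fin 4 → Fin 4 → ℝ) j e)) =
        fun _ => 0 := by
      funext e
      exact nd_origin _
    rw [this]
    simp [ndz]
  · have hps := h.ps
    have h1 : ∀ j, psi a j g = g (.z a j 1) := fun j => by
      simp [psi, hm, kr]
    simp only [h1] at hps
    exact hps

theorem D8_reach {Z : Set SRG} {g v : SRG} (hv : IsPos v)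
    (hZ : ∀ t ∈ Icc (0:ℝ) 1, g + t • v ∈ Z) : ∃ K, SRP.Reach Z K g (g + v) :=
  ⟨∑ k, |v k|, reach_pos hv (Finset.sum_nonneg fun k _ => abs_nonneg _)
    (fun k => Finset.single_le_sum (f := fun k => |v k|) (fun k _ => abs_nonneg _)
      (Finset.mem_univ k)) hZ⟩

/-- minus the position `q` -/
def D8_v (g : SRG) : SRG := fun k => match k with
  | .q i => - g (.q i)
  | _ => 0

/-- the change of the positions `x` -/
def D8_w (a : Fin 6) (A : Fin 4 → Fin 4 → ℝ) (g : SRG) : SRG := fun k => match k with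
  | .x β => (if β.1 = a then A β.2.1 β.2.2 else 0) - g (.x β)
  | _ => 0

theorem D8_pos_v (g : SRG) : IsPos (D8_v g) := by
  intro k h1 h2
  cases k with
  | q i => exact absurd rfl (h1 i)
  | _ => rfl

theorem D8_pos_w (a : Fin 6) (A : Fin 4 → Fin 4 → ℝ) (g : SRG) : IsPos (D8_w a A g) := by
  intro k h1 h2
  cases k with
  | x β => exact absurd rfl (h2 β)
  | _ => rfl

theorem D8_smul {v : SRG} (hv : IsPos v) (t : ℝ) : IsPos (t • v) := by
  intro k h1 h2
  rw [smul_apply, hv k h1 h2, mul_zero]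

theorem reach_node {A : Fin 4 → Fin 4 → ℝ} {T : ℝ} {p : Fin 4 → Fin 4 → ℝ} {g : SRG}
    (h : IsNd a α A T p g) (h01 : ∀ j, p j 0 = p j 1) (h23 : ∀ j, p j 2 = p j 3)
    (hpos : ∀ j e, 0 < p j e) (hF : sf a g * ∑ j, α j * Fp a j g (xs a j g) = 0) :
    Jn (Zs a α) g := by
  -- the positions q
  have hv := D8_pos_v g
  obtain ⟨K1, h1⟩ := D8_reach (Z := Zs a α) (g := g) hv (fun t _ => by
    have hn := h.add_pos (D8_smul hv t)
    refine ⟨?_, hn.chi0, hn.ps⟩
    have e1 : sf a (g + t • D8_v g) = (1 - t) * sf a g := by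
      have h2 : ∀ i, (g + t • D8_v g) (.q i) = (1 - t) * g (.q i) := fun i => by
        rw [add_apply, smul_apply]
        simp only [D8_v]
        ring
      simp only [sf, h2, Finset.mul_sum]
      exact Finset.sum_congr rfl fun i _ => by ring
    have e2 : ∀ j, xs a j (g + t • D8_v g) = xs a j g := fun j => by
      funext e
      simp only [xs]
      rw [add_apply, smul_apply]
      simp [D8_v]
    have e3 : ∀ j, Fp a j (g + t • D8_v g) = Fp a j g := fun j => by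
      funext x
      simp only [Fp, hn.mom, h.mom]
    rw [e1]
    simp only [e2, e3]
    rw [mul_assoc, hF, mul_zero])
  set g1 := g + D8_v g with hg1
  have hn1 : IsNd a α A T p g1 := h.add_pos hv
  have hq1 : ∀ i, g1 (.q i) = 0 := fun i => by
    rw [hg1, add_apply]
    simp [D8_v]
  have hw := D8_pos_w a A g1
  obtain ⟨K2, h2⟩ := D8_reach (Z := Zs a α) (g := g1) hw (fun t _ => by
    refine (hn1.add_pos (D8_smul hw t)).mem_of_sf ?_
    have h2 : ∀ i, (g1 + t • D8_w a A g1) (.q i) = 0 := fun i => by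
      rw [add_apply, smul_apply, hq1]
      simp [D8_w]
    simp [sf, h2])
  set g2 := g1 + D8_w a A g1 with hg2
  have hs : IsSt a α A T p g2 := by
    refine ⟨hn1.add_pos hw, fun i => ?_, fun j e => ?_, fun β hβ => ?_⟩
    · rw [hg2, add_apply, hq1]
      simp [D8_w]
    · rw [hg2, add_apply]
      simp [D8_w]
    · rw [hg2, add_apply]
      simp [D8_w, hβ]
  obtain ⟨ℓ, h3⟩ := steer_all (a := a) (α := α) A T h01 h23 hpos
  obtain ⟨g3, hg3, h4⟩ := h3 g2 hs
  obtain ⟨ℓ', h5⟩ := joined_Ks a α hg3.mem_Ks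
  exact ⟨_, H80A.Reach.trans h5 (H80A.Reach.symm (H80A.Reach.trans (H80A.Reach.trans h1 h2) h4))⟩

end

end H8SR
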