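import Mathlib

/-!
# H8SR, part E (section 6 of PROOF.md): definitions, real numbers only

* `Sol v k d u η p`: the parametrisation of the pairs of nodes with equal `p`.
* `wt v k d u η`: the block term `om / tau` of the LAW.
-/

namespace H8SR

noncomputable section

/-- the pairs of nodes with the same `p` -/
structure Sol (v k d u η p : ℝ) : Prop where
  ne : η ≠ 0
  cub : u ^ 3 + (3 * v - η ^ 2) * u = k
  pe : 2 * η ^ 2 + d * η - d * (u ^ 2 + v) / η = p

/-- auxiliary quantities of the LAW -/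
def wA (d u η : ℝ) : ℝ := -(d * u / η) - 3 * u
/-- auxiliary quantities of the LAW -/
def wB (v d u η : ℝ) : ℝ := -η ^ 2 - d * η - d * (u ^ 2 + v) / η - 3 * u ^ 2 - 2 * wA d u η * u
/-- `om / tau` -/
def wt (v k d u η : ℝ) : ℝ :=
  k * wA d u η + 3 / 2 * v * wB v d u η - v / 3 * (wA d u η ^ 2 - d ^ 2) - wB v d u η ^ 2 / 12

end

end H8SR
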