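import Pool.Agent.Lib.H8SR.ZDefs
import Pool.Agent.Lib.H8SR.E0

/-!
# H8SR, section 6: block identity and LAW
-/

namespace H8SR

/-- moments with mean `xb`, central moments `v`, `k` and mass `τ` -/
noncomputable def cm (τ xb v k : ℝ) : Fin 4 → ℝ :=
  ![τ, xb * τ, (v + xb ^ 2) * τ, (k + 3 * xb * (v + xb ^ 2) - 2 * xb ^ 3) * τ]

theorem e1_cm_of {m : Fin 4 → ℝ} {τ : ℝ} (hτ : τ ≠ 0) (hm : m 0 = τ) :
    m = cm τ (m 1 / τ) (m 2 / τ - (m 1 / τ) ^ 2)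
      (m 3 / τ - 3 * (m 1 / τ) * (m 2 / τ) + 2 * (m 1 / τ) ^ 3) := by
  funext i
  fin_cases i
  · simp [cm, hm]
  · simp [cm]; field_simp
  · simp [cm]; field_simp
  · simp [cm]; field_simp; ring

/-- block identity -/
theorem sol_block {g τ xb v k u η p : ℝ} (hg : g ≠ 0)
    (H : Sol v k (g * τ / 2) u η p) (ξ : ℝ) (hξ : ξ = g * τ / 6 * (1 + u / η)) :
    nd g (-ξ + η) τ p = nd g (-ξ - η) 0 p + tx (-ξ - u - xb) (cm τ xb v k) := by
  have hη := H.ne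
  have hk : k = u ^ 3 + (3 * v - η ^ 2) * u := H.cub.symm
  have hp : p = 2 * η ^ 2 + g * τ / 2 * η - g * τ / 2 * (u ^ 2 + v) / η := H.pe.symm
  subst hk hp hξ
  funext i
  fin_cases i
  · simp [nd, tx, cm]
  · simp [nd, tx, cm]
    field_simp
    ring
  · simp [nd, tx, cm]
    field_simp
    ring
  · simp [nd, tx, cm]
    field_simp
    ring

/-- LAW, one block -/
theorem sol_law {g τ xb v k u η p : ℝ} (hg : g ≠ 0)
    (H : Sol v k (g * τ / 2) u η p) (ξ : ℝ) (hξ : ξ = g * τ / 6 * (1 + u / η)) :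
    p4 (-ξ - u - xb) (cm τ xb v k)
      + g / 6 * kr (tx (-ξ - u - xb) (cm τ xb v k)) (nd g (-ξ - η) 0 p)
      - 1 / 10 * g * (nd g (-ξ - η) 0 p 0 * nd g (-ξ - η) 0 p 3
          - nd g (-ξ - η) 0 p 1 * nd g (-ξ - η) 0 p 2)
      + 1 / 10 * g * (nd g (-ξ + η) τ p 0 * nd g (-ξ + η) τ p 3
          - nd g (-ξ + η) τ p 1 * nd g (-ξ + η) τ p 2)
      = 1 / 5 * (τ * wt v k (g * τ / 2) u η) + p4 (-xb) (cm τ xb v k) := by
  have hη := H.ne
  have hk : k = u ^ 3 + (3 * v - η ^ 2) * u := H.cub.symm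
  have hp : p = 2 * η ^ 2 + g * τ / 2 * η - g * τ / 2 * (u ^ 2 + v) / η := H.pe.symm
  subst hk hp hξ
  simp only [nd, tx, cm, p4, kr, wt, wA, wB, Matrix.cons_val_zero, Matrix.cons_val_one,
    Matrix.cons_val]
  field_simp
  ring

end H8SR
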