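import Pool.Agent.Lib.H8SR.E0

/-!
# H8SR, section 6: the sector lemma (branches of solutions, asymptotics, intermediate values)
-/

namespace H8SR

open Filter Topology Set

theorem e2_sum9 {x1 x2 x3 x4 x5 x6 x7 x8 x9 c1 c2 c3 c4 c5 c6 c7 c8 c9 : ℝ} (h1 : |x1| ≤ c1)
    (h2 : |x2| ≤ c2) (h3 : |x3| ≤ c3) (h4 : |x4| ≤ c4) (h5 : |x5| ≤ c5) (h6 : |x6| ≤ c6)
    (h7 : |x7| ≤ c7) (h8 : |x8| ≤ c8) (h9 : |x9| ≤ c9) :
    |x1 + x2 + x3 + x4 + x5 + x6 + x7 + x8 + x9| ≤ c1 + c2 + c3 + c4 + c5 + c6 + c7 + c8 + c9 := by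
  rw [abs_le] at *
  constructor <;> linarith [h1.1, h2.1, h3.1, h4.1, h5.1, h6.1, h7.1, h8.1, h9.1,
    h1.2, h2.2, h3.2, h4.2, h5.2, h6.2, h7.2, h8.2, h9.2]

theorem e2_wt_est (v k d : ℝ) : ∃ C, 0 ≤ C ∧ ∀ u η p : ℝ, 1 ≤ |η| → |u| ≤ 1 → Sol v k d u η p →
    |wt v k d u η + p ^ 2 / 48 + d * η ^ 3 / 12| ≤ C * η ^ 2 := by
  set V := |v| with hV
  set D := |d| with hD
  have hV0 : 0 ≤ V := abs_nonneg _
  have hD0 : 0 ≤ D := abs_nonneg _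
  have hk0 := abs_nonneg k
  set R := D * (1 + V) with hR
  have hR0 : 0 ≤ R := by positivity
  set β := R + 3 + 2 * (D + 3) with hβ
  have hβ0 : 0 ≤ β := by positivity
  refine ⟨|k| * (D + 3) + 3 / 2 * V * (1 + D + β) + V / 3 * ((D + 3) ^ 2 + D ^ 2) + D ^ 2 / 12
    + (1 + D) * β / 6 + β ^ 2 / 12 + D ^ 2 / 48 + R * (2 + D) / 24 + R ^ 2 / 48, by positivity, ?_⟩
  intro u η p h1 hu H
  have hη := H.ne
  have hp := H.pe
  set r := d * (u ^ 2 + v) / η with hr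
  have hη1 : 1 ≤ η ^ 2 := by nlinarith [sq_abs η]
  have hηle : |η| ≤ η ^ 2 := by nlinarith [sq_abs η]
  have hu2 : |u ^ 2| ≤ 1 := by rw [abs_pow]; exact pow_le_one₀ (abs_nonneg _) hu
  have hinv : |η⁻¹| ≤ 1 := by
    rw [abs_inv]; exact inv_le_one_of_one_le₀ h1
  have hr1 : |r| ≤ R := by
    rw [hr, div_eq_mul_inv, abs_mul, abs_mul]
    have : |u ^ 2 + v| ≤ 1 + V := (abs_add_le _ _).trans (by linarith)
    calc |d| * |u ^ 2 + v| * |η⁻¹| ≤ |d| * |u ^ 2 + v| * 1 := by gcongr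
      _ = D * |u ^ 2 + v| := by rw [mul_one]
      _ ≤ R := by rw [hR]; gcongr
  set a := wA d u η with ha
  have ha1 : |a| ≤ D + 3 := by
    have e1 : a = -(d * u * η⁻¹) - 3 * u := by rw [ha, wA, div_eq_mul_inv]
    rw [e1]
    have e2 : |d * u * η⁻¹| ≤ D := by
      rw [abs_mul, abs_mul]
      calc |d| * |u| * |η⁻¹| ≤ |d| * 1 * 1 := by gcongr
        _ = D := by rw [mul_one, mul_one]
    have e3 : |3 * u| ≤ 3 := by rw [abs_mul, abs_of_pos (by norm_num : (0:ℝ) < 3)]; linarith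
    calc |-(d * u * η⁻¹) - 3 * u| ≤ |-(d * u * η⁻¹)| + |3 * u| := abs_sub _ _
      _ ≤ D + 3 := by rw [abs_neg]; linarith
  set b0 := -r - 3 * u ^ 2 - 2 * a * u with hb0
  have hb1 : |b0| ≤ β := by
    have e3 : |3 * u ^ 2| ≤ 3 := by rw [abs_mul, abs_of_pos (by norm_num : (0:ℝ) < 3)]; linarith
    have e4 : |2 * a * u| ≤ 2 * (D + 3) := by
      rw [abs_mul, abs_mul, abs_of_pos (by norm_num : (0:ℝ) < 2)]
      calc 2 * |a| * |u| ≤ 2 * |a| * 1 := by gcongr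
        _ ≤ 2 * (D + 3) := by linarith
    calc |b0| ≤ |-r - 3 * u ^ 2| + |2 * a * u| := abs_sub _ _
      _ ≤ |-r| + |3 * u ^ 2| + |2 * a * u| := by gcongr; exact abs_sub _ _
      _ ≤ β := by rw [abs_neg]; linarith
  have hB : wB v d u η = -(η ^ 2 + d * η) + b0 := by
    rw [hb0, wB, ← hr, ← ha]; ring
  have hid : wt v k d u η + p ^ 2 / 48 + d * η ^ 3 / 12 =
      k * a + 3 / 2 * v * (-(η ^ 2 + d * η) + b0) + (-(v / 3 * (a ^ 2 - d ^ 2)))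
        + (-(d ^ 2 * η ^ 2 / 12)) + (η ^ 2 + d * η) * b0 / 6 + (-(b0 ^ 2 / 12))
        + d ^ 2 * η ^ 2 / 48 + (-(r * (2 * η ^ 2 + d * η) / 24)) + r ^ 2 / 48 := by
    rw [wt, hB, ← hp, ← ha]; ring
  have hq : |η ^ 2 + d * η| ≤ (1 + D) * η ^ 2 := by
    calc |η ^ 2 + d * η| ≤ |η ^ 2| + |d * η| := abs_add_le _ _
      _ = η ^ 2 + D * |η| := by rw [abs_of_nonneg (sq_nonneg η), abs_mul]
      _ ≤ (1 + D) * η ^ 2 := by nlinarith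
  have hq2 : |2 * η ^ 2 + d * η| ≤ (2 + D) * η ^ 2 := by
    calc |2 * η ^ 2 + d * η| ≤ |2 * η ^ 2| + |d * η| := abs_add_le _ _
      _ = 2 * η ^ 2 + D * |η| := by rw [abs_of_nonneg (by positivity : 0 ≤ 2 * η ^ 2), abs_mul]
      _ ≤ (2 + D) * η ^ 2 := by nlinarith
  have t1 : |k * a| ≤ |k| * (D + 3) * η ^ 2 := by
    rw [abs_mul]
    calc |k| * |a| ≤ |k| * (D + 3) := by gcongr
      _ ≤ |k| * (D + 3) * η ^ 2 := le_mul_of_one_le_right (by positivity) hη1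
  have t2 : |3 / 2 * v * (-(η ^ 2 + d * η) + b0)| ≤ 3 / 2 * V * (1 + D + β) * η ^ 2 := by
    rw [abs_mul, abs_mul, abs_of_pos (by norm_num : (0:ℝ) < 3 / 2)]
    have : |-(η ^ 2 + d * η) + b0| ≤ (1 + D + β) * η ^ 2 := by
      calc |-(η ^ 2 + d * η) + b0| ≤ |-(η ^ 2 + d * η)| + |b0| := abs_add_le _ _
        _ ≤ (1 + D) * η ^ 2 + β * η ^ 2 := by
            rw [abs_neg]
            have : β ≤ β * η ^ 2 := le_mul_of_one_le_right hβ0 hη1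
            linarith
        _ = _ := by ring
    calc 3 / 2 * |v| * |-(η ^ 2 + d * η) + b0| ≤ 3 / 2 * V * ((1 + D + β) * η ^ 2) := by gcongr
      _ = _ := by ring
  have t3 : |-(v / 3 * (a ^ 2 - d ^ 2))| ≤ V / 3 * ((D + 3) ^ 2 + D ^ 2) * η ^ 2 := by
    rw [abs_neg, abs_mul, abs_div, abs_of_pos (by norm_num : (0:ℝ) < 3)]
    have : |a ^ 2 - d ^ 2| ≤ (D + 3) ^ 2 + D ^ 2 := by
      calc |a ^ 2 - d ^ 2| ≤ |a ^ 2| + |d ^ 2| := abs_sub _ _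
        _ = |a| ^ 2 + D ^ 2 := by rw [abs_pow, abs_pow]
        _ ≤ _ := by gcongr
    calc |v| / 3 * |a ^ 2 - d ^ 2| ≤ V / 3 * ((D + 3) ^ 2 + D ^ 2) := by gcongr
      _ ≤ _ := le_mul_of_one_le_right (by positivity) hη1
  have t4 : |-(d ^ 2 * η ^ 2 / 12)| ≤ D ^ 2 / 12 * η ^ 2 := by
    rw [abs_neg, abs_of_nonneg (by positivity), hD, sq_abs]; linarith
  have t5 : |(η ^ 2 + d * η) * b0 / 6| ≤ (1 + D) * β / 6 * η ^ 2 := by
    rw [abs_div, abs_mul, abs_of_pos (by norm_num : (0:ℝ) < 6)]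
    calc |η ^ 2 + d * η| * |b0| / 6 ≤ ((1 + D) * η ^ 2) * β / 6 := by gcongr
      _ = _ := by ring
  have t6 : |-(b0 ^ 2 / 12)| ≤ β ^ 2 / 12 * η ^ 2 := by
    rw [abs_neg, abs_div, abs_pow, abs_of_pos (by norm_num : (0:ℝ) < 12)]
    calc |b0| ^ 2 / 12 ≤ β ^ 2 / 12 := by gcongr
      _ ≤ _ := le_mul_of_one_le_right (by positivity) hη1
  have t7 : |d ^ 2 * η ^ 2 / 48| ≤ D ^ 2 / 48 * η ^ 2 := by
    rw [abs_of_nonneg (by positivity), hD, sq_abs]; linarith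
  have t8 : |-(r * (2 * η ^ 2 + d * η) / 24)| ≤ R * (2 + D) / 24 * η ^ 2 := by
    rw [abs_neg, abs_div, abs_mul, abs_of_pos (by norm_num : (0:ℝ) < 24)]
    calc |r| * |2 * η ^ 2 + d * η| / 24 ≤ R * ((2 + D) * η ^ 2) / 24 := by gcongr
      _ = _ := by ring
  have t9 : |r ^ 2 / 48| ≤ R ^ 2 / 48 * η ^ 2 := by
    rw [abs_div, abs_pow, abs_of_pos (by norm_num : (0:ℝ) < 48)]
    calc |r| ^ 2 / 48 ≤ R ^ 2 / 48 := by gcongr
      _ ≤ _ := le_mul_of_one_le_right (by positivity) hη1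
  rw [hid]
  exact (e2_sum9 t1 t2 t3 t4 t5 t6 t7 t8 t9).trans (le_of_eq (by ring))

end H8SR
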