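import Pool.Agent.Lib.H8SR.E0

/-!
# H8SR, section 6: continuous branches of solutions, parametrised by `p`
-/

namespace H8SR

open Filter Topology Set

/-- the lower bound for `|η|` -/
noncomputable def e3N (v k d : ℝ) : ℝ := 6 + 6 * |v| + |k| + |d| * (10 + |v|)

theorem e3_N_one (v k d : ℝ) : 6 ≤ e3N v k d := by
  unfold e3N
  have h1 := abs_nonneg v
  have h2 := abs_nonneg k
  have h3 : 0 ≤ |d| * (10 + |v|) := by positivity
  linarith

theorem e3_root (v k d η : ℝ) (h : e3N v k d ≤ |η|) :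
    ∃ u, |u| ≤ 1 ∧ u ^ 3 + (3 * v - η ^ 2) * u = k := by
  have h6 := e3_N_one v k d
  have hη2 : |η| ≤ η ^ 2 := by nlinarith [sq_abs η]
  have h3 : 0 ≤ |d| * (10 + |v|) := by positivity
  have hN : 6 + 6 * |v| + |k| ≤ η ^ 2 := by
    have : e3N v k d ≤ η ^ 2 := h.trans hη2
    unfold e3N at this
    linarith
  have hv := abs_le.1 (le_refl |v|)
  have hk := abs_le.1 (le_refl |k|)
  have hc : ContinuousOn (fun u : ℝ => u ^ 3 + (3 * v - η ^ 2) * u) (Icc (-1) 1) := by fun_prop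
  have := intermediate_value_Icc' (by norm_num : (-1:ℝ) ≤ 1) hc
  have hmem : k ∈ Icc ((fun u : ℝ => u ^ 3 + (3 * v - η ^ 2) * u) 1)
      ((fun u : ℝ => u ^ 3 + (3 * v - η ^ 2) * u) (-1)) := by
    constructor <;> simp only <;> linarith [hv.1, hv.2, hk.1, hk.2]
  obtain ⟨u, hu, hu2⟩ := this hmem
  exact ⟨u, abs_le.2 hu, hu2⟩

theorem e3_lip1 {v k d η η' u u' : ℝ} (h : e3N v k d ≤ |η|) (hle : |η'| ≤ |η|)
    (hu : |u| ≤ 1) (hu' : |u'| ≤ 1) (hc : u ^ 3 + (3 * v - η ^ 2) * u = k)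
    (hc' : u' ^ 3 + (3 * v - η' ^ 2) * u' = k) : |u - u'| * |η| ≤ 4 * |η - η'| := by
  have h6 := e3_N_one v k d
  have h3 : 0 ≤ |d| * (10 + |v|) := by positivity
  have hη2 : |η| ≤ η ^ 2 := by nlinarith [sq_abs η]
  have hN : 6 + 6 * |v| + |k| ≤ η ^ 2 := by
    have : e3N v k d ≤ η ^ 2 := h.trans hη2
    unfold e3N at this
    linarith
  have hk0 := abs_nonneg k
  have hv := abs_le.1 (le_refl |v|)
  have id1 : (u - u') * (η ^ 2 - 3 * v - (u ^ 2 + u * u' + u' ^ 2)) = -((η - η') * ((η + η') * u')) := by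
    linear_combination hc' - hc
  have hq : u ^ 2 + u * u' + u' ^ 2 ≤ 3 := by
    have a1 : u ^ 2 ≤ 1 := by rw [← sq_abs]; exact pow_le_one₀ (abs_nonneg _) hu
    have a2 : u' ^ 2 ≤ 1 := by rw [← sq_abs]; exact pow_le_one₀ (abs_nonneg _) hu'
    nlinarith [sq_nonneg (u - u')]
  have hG : η ^ 2 / 2 ≤ η ^ 2 - 3 * v - (u ^ 2 + u * u' + u' ^ 2) := by linarith [hv.2]
  have hpos : 0 < η ^ 2 := by nlinarith
  have e1 : |u - u'| * (η ^ 2 / 2) ≤ |η - η'| * (2 * |η|) := by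
    calc |u - u'| * (η ^ 2 / 2) ≤ |u - u'| * (η ^ 2 - 3 * v - (u ^ 2 + u * u' + u' ^ 2)) := by
          gcongr
      _ = |(u - u') * (η ^ 2 - 3 * v - (u ^ 2 + u * u' + u' ^ 2))| := by
          rw [abs_mul, abs_of_nonneg (by linarith : 0 ≤ η ^ 2 - 3 * v - (u ^ 2 + u * u' + u' ^ 2))]
      _ = |η - η'| * (|η + η'| * |u'|) := by rw [id1, abs_neg, abs_mul, abs_mul]
      _ ≤ |η - η'| * ((|η| + |η|) * 1) := by
          gcongr
          exact (abs_add_le _ _).trans (by linarith)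
      _ = _ := by ring
  have h0 : 0 < |η| := by linarith
  have e2 : η ^ 2 = |η| * |η| := by rw [← sq_abs]; ring
  rw [e2] at e1
  have e3 : (|u - u'| * |η|) * |η| ≤ (4 * |η - η'|) * |η| := by nlinarith
  exact le_of_mul_le_mul_right e3 h0

theorem e3_lip2 {v k d η η' u u' : ℝ} (h : e3N v k d ≤ |η|) (h' : e3N v k d ≤ |η'|)
    (hu : |u| ≤ 1) (hu' : |u'| ≤ 1) (hc : u ^ 3 + (3 * v - η ^ 2) * u = k)
    (hc' : u' ^ 3 + (3 * v - η' ^ 2) * u' = k) : |u - u'| ≤ |η - η'| := by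
  have h6 := e3_N_one v k d
  rcases le_total |η'| |η| with hle | hle
  · have := e3_lip1 h hle hu hu' hc hc'
    nlinarith [abs_nonneg (u - u'), abs_nonneg (η - η')]
  · have := e3_lip1 h' hle hu' hu hc' hc
    rw [abs_sub_comm u' u, abs_sub_comm η' η] at this
    nlinarith [abs_nonneg (u - u'), abs_nonneg (η - η')]

theorem e3_lower {v k d e η η' u u' p p' : ℝ} (he : e = 1 ∨ e = -1) (h : e3N v k d ≤ e * η)
    (h' : e3N v k d ≤ e * η') (hu : |u| ≤ 1) (hu' : |u'| ≤ 1) (H : Sol v k d u η p)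
    (H' : Sol v k d u' η' p') : |η - η'| ≤ |p - p'| := by
  have h6 := e3_N_one v k d
  have hη := H.ne
  have hη' := H'.ne
  have ab : ∀ x, e3N v k d ≤ e * x → e3N v k d ≤ |x| := by
    intro x hx
    rcases he with rfl | rfl
    · rw [one_mul] at hx; exact hx.trans (le_abs_self x)
    · have : -1 * x = -x := by ring
      rw [this] at hx; exact hx.trans (neg_le_abs x)
  have hL := e3_lip2 (ab _ h) (ab _ h') hu hu' H.cub H'.cub
  have id1 : p - p' = (η - η') * (2 * (η + η') + d)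
      - d * ((u - u') * (u + u') * η⁻¹ + (u' ^ 2 + v) * ((η' - η) * (η⁻¹ * η'⁻¹))) := by
    rw [← H.pe, ← H'.pe]; field_simp; ring
  have i1 : |η⁻¹| ≤ 1 := by
    rw [abs_inv]; exact inv_le_one_of_one_le₀ (by linarith [ab _ h])
  have i2 : |η'⁻¹| ≤ 1 := by
    rw [abs_inv]; exact inv_le_one_of_one_le₀ (by linarith [ab _ h'])
  have b1 : |(u - u') * (u + u') * η⁻¹| ≤ 2 * |η - η'| := by
    rw [abs_mul, abs_mul]
    calc |u - u'| * |u + u'| * |η⁻¹| ≤ |η - η'| * (1 + 1) * 1 := by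
          gcongr
          exact (abs_add_le _ _).trans (by linarith)
      _ = _ := by ring
  have b2 : |(u' ^ 2 + v) * ((η' - η) * (η⁻¹ * η'⁻¹))| ≤ (1 + |v|) * |η - η'| := by
    rw [abs_mul, abs_mul, abs_mul, abs_sub_comm η' η]
    have : |u' ^ 2 + v| ≤ 1 + |v| := (abs_add_le _ _).trans (by
      have : |u' ^ 2| ≤ 1 := by rw [abs_pow]; exact pow_le_one₀ (abs_nonneg _) hu'
      linarith)
    calc |u' ^ 2 + v| * (|η - η'| * (|η⁻¹| * |η'⁻¹|)) ≤ (1 + |v|) * (|η - η'| * (1 * 1)) := by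
          gcongr
      _ = _ := by ring
  have b3 : |d * ((u - u') * (u + u') * η⁻¹ + (u' ^ 2 + v) * ((η' - η) * (η⁻¹ * η'⁻¹)))|
      ≤ |d| * ((3 + |v|) * |η - η'|) := by
    rw [abs_mul]
    gcongr
    exact (abs_add_le _ _).trans (by linarith)
  have b4 : (4 * e3N v k d - |d|) * |η - η'| ≤ |(η - η') * (2 * (η + η') + d)| := by
    rw [abs_mul, mul_comm]
    gcongr
    have hd := abs_le.1 (le_refl |d|)
    rcases he with rfl | rfl
    · exact le_trans (by linarith [hd.1]) (le_abs_self _)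
    · exact le_trans (by linarith [hd.2]) (neg_le_abs _)
  have b5 : |p - p'| ≥ (4 * e3N v k d - |d|) * |η - η'| - |d| * ((3 + |v|) * |η - η'|) := by
    rw [id1]
    have := abs_sub_abs_le_abs_sub ((η - η') * (2 * (η + η') + d))
      (d * ((u - u') * (u + u') * η⁻¹ + (u' ^ 2 + v) * ((η' - η) * (η⁻¹ * η'⁻¹))))
    linarith
  have b6 : 1 ≤ 4 * e3N v k d - |d| - |d| * (3 + |v|) := by
    unfold e3N
    have h1 := abs_nonneg v
    have h2 := abs_nonneg k
    have h3 := abs_nonneg d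
    have h4 : 0 ≤ |d| * |v| := by positivity
    nlinarith
  nlinarith [abs_nonneg (η - η')]

theorem e3_size {v k d η u p : ℝ} (h : e3N v k d ≤ |η|) (hu : |u| ≤ 1) (H : Sol v k d u η p) :
    η ^ 2 ≤ p ∧ p ≤ 4 * η ^ 2 := by
  have h6 := e3_N_one v k d
  have i1 : |η⁻¹| ≤ 1 := by
    rw [abs_inv]; exact inv_le_one_of_one_le₀ (by linarith)
  have b1 : |d * (u ^ 2 + v) / η| ≤ |d| * (1 + |v|) := by
    rw [div_eq_mul_inv, abs_mul, abs_mul]
    have : |u ^ 2 + v| ≤ 1 + |v| := (abs_add_le _ _).trans (by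
      have : |u ^ 2| ≤ 1 := by rw [abs_pow]; exact pow_le_one₀ (abs_nonneg _) hu
      linarith)
    calc |d| * |u ^ 2 + v| * |η⁻¹| ≤ |d| * (1 + |v|) * 1 := by gcongr
      _ = _ := by ring
  have b2 : |d * η| ≤ |d| * |η| := (abs_mul _ _).le
  have h1 := abs_nonneg v
  have h2 := abs_nonneg k
  have h3 := abs_nonneg d
  have b3 : |d| * |η| + |d| * (1 + |v|) ≤ η ^ 2 := by
    have : |d| * (10 + |v|) ≤ |η| := by
      have : e3N v k d ≤ |η| := h
      unfold e3N at this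
      linarith
    have h5 : |d| * (1 + |v|) ≤ |d| * (1 + |v|) * |η| :=
      le_mul_of_one_le_right (by positivity) (by linarith)
    have h7 : |d| * (2 + |v|) ≤ |η| := by nlinarith
    have h8 : |d| * (2 + |v|) * |η| ≤ |η| * |η| := by gcongr
    have h9 : |η| * |η| = η ^ 2 := by rw [← sq_abs]; ring
    nlinarith
  have c1 := abs_le.1 b1
  have c2 := abs_le.1 b2
  rw [← H.pe]
  constructor <;> linarith [c1.1, c1.2, c2.1, c2.2]

theorem branch (v k d e : ℝ) (he : e = 1 ∨ e = -1) :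
    ∃ P₀, 1 ≤ P₀ ∧ ∃ u η : ℝ → ℝ, ContinuousOn u (Ici P₀) ∧ ContinuousOn η (Ici P₀) ∧
      ∀ p, P₀ ≤ p → Sol v k d (u p) (η p) p ∧ |u p| ≤ 1 ∧ 1 ≤ e * η p ∧ η p ^ 2 ≤ p ∧
        p ≤ 4 * η p ^ 2 := by
  classical
  have h6 := e3_N_one v k d
  set N := e3N v k d with hN
  have hee : e * e = 1 := by rcases he with rfl | rfl <;> norm_num
  have ab : ∀ x, N ≤ x → N ≤ |e * x| := by
    intro x hx
    rcases he with rfl | rfl
    · rw [one_mul]; exact hx.trans (le_abs_self x)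
    · have : -1 * x = -x := by ring
      rw [this, abs_neg]; exact hx.trans (le_abs_self x)
  have hroot : ∀ x : ℝ, ∃ u, N ≤ x → |u| ≤ 1 ∧ u ^ 3 + (3 * v - (e * x) ^ 2) * u = k := by
    intro x
    by_cases hx : N ≤ x
    · obtain ⟨u, h1, h2⟩ := e3_root v k d (e * x) (ab x hx)
      exact ⟨u, fun _ => ⟨h1, h2⟩⟩
    · exact ⟨0, fun h => absurd h hx⟩
  choose U hU using hroot
  have habs : ∀ x y, |e * x - e * y| = |x - y| := by
    intro x y
    rw [← mul_sub, abs_mul]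
    rcases he with rfl | rfl <;> simp
  have hUL : ∀ x, N ≤ x → ∀ y, N ≤ y → |U x - U y| ≤ |x - y| := by
    intro x hx y hy
    have := e3_lip2 (ab x hx) (ab y hy) (hU x hx).1 (hU y hy).1 (hU x hx).2 (hU y hy).2
    rwa [habs] at this
  have hUc : ContinuousOn U (Ici N) := by
    refine LipschitzOnWith.continuousOn (K := 1) (LipschitzOnWith.of_dist_le_mul ?_)
    intro x hx y hy
    rw [Real.dist_eq, Real.dist_eq, NNReal.coe_one, one_mul]
    exact hUL x hx y hy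
  set G : ℝ → ℝ := fun x => 2 * (e * x) ^ 2 + d * (e * x) - d * (U x ^ 2 + v) / (e * x) with hG
  have hne : ∀ x, N ≤ x → e * x ≠ 0 := by
    intro x hx h0
    have := ab x hx
    rw [h0, abs_zero] at this
    linarith
  have hS : ∀ x, N ≤ x → Sol v k d (U x) (e * x) (G x) := fun x hx =>
    ⟨hne x hx, (hU x hx).2, rfl⟩
  have hGc : ContinuousOn G (Ici N) := by
    have c1 : ContinuousOn (fun x : ℝ => e * x) (Ici N) := by fun_prop
    refine ContinuousOn.sub (by fun_prop) (ContinuousOn.div ?_ c1 fun x hx => hne x hx)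
    exact continuousOn_const.mul ((hUc.pow 2).add continuousOn_const)
  have hsz : ∀ x, N ≤ x → x ^ 2 ≤ G x ∧ G x ≤ 4 * x ^ 2 := by
    intro x hx
    have := e3_size (ab x hx) (hU x hx).1 (hS x hx)
    have e2 : (e * x) ^ 2 = x ^ 2 := by
      rw [mul_pow, pow_two e, hee, one_mul]
    rwa [e2] at this
  have hsurj : ∀ p, ∃ x, G N ≤ p → N ≤ x ∧ G x = p := by
    intro p
    by_cases hp : G N ≤ p
    · have hp1 : 1 ≤ p := by
        have := (hsz N le_rfl).1
        nlinarith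
      have hNp : N ≤ N + p := by linarith
      have hcont : ContinuousOn G (Icc N (N + p)) := hGc.mono Icc_subset_Ici_self
      have := intermediate_value_Icc hNp hcont
      have hmem : p ∈ Icc (G N) (G (N + p)) := by
        refine ⟨hp, ?_⟩
        have := (hsz (N + p) hNp).1
        nlinarith
      obtain ⟨x, hx, hx2⟩ := this hmem
      exact ⟨x, fun _ => ⟨hx.1, hx2⟩⟩
    · exact ⟨0, fun h => absurd h hp⟩
  choose X hX using hsurj
  have hP1 : 1 ≤ G N := by
    have := (hsz N le_rfl).1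
    nlinarith
  have hXL : ∀ p, G N ≤ p → ∀ q, G N ≤ q → |X p - X q| ≤ |p - q| := by
    intro p hp q hq
    have s1 := hS (X p) (hX p hp).1
    have s2 := hS (X q) (hX q hq).1
    rw [(hX p hp).2] at s1
    rw [(hX q hq).2] at s2
    have g1 : N ≤ e * (e * X p) := by rw [← mul_assoc, hee, one_mul]; exact (hX p hp).1
    have g2 : N ≤ e * (e * X q) := by rw [← mul_assoc, hee, one_mul]; exact (hX q hq).1
    have := e3_lower he g1 g2 (hU _ (hX p hp).1).1 (hU _ (hX q hq).1).1 s1 s2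
    rwa [habs] at this
  have hXc : ContinuousOn X (Ici (G N)) := by
    refine LipschitzOnWith.continuousOn (K := 1) (LipschitzOnWith.of_dist_le_mul ?_)
    intro x hx y hy
    rw [Real.dist_eq, Real.dist_eq, NNReal.coe_one, one_mul]
    exact hXL x hx y hy
  refine ⟨G N, hP1, fun p => U (X p), fun p => e * X p, ?_, continuousOn_const.mul hXc, ?_⟩
  · exact hUc.comp hXc fun p hp => (hX p hp).1
  · intro p hp
    have s1 := hS (X p) (hX p hp).1
    rw [(hX p hp).2] at s1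
    have s2 := e3_size (ab (X p) (hX p hp).1) (hU _ (hX p hp).1).1 s1
    refine ⟨s1, (hU _ (hX p hp).1).1, ?_, s2.1, s2.2⟩
    rw [← mul_assoc, hee, one_mul]
    linarith [(hX p hp).1]

end H8SR
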