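import Pool.Agent.Lib.H8SR.E2
import Pool.Agent.Lib.H8SR.E3

/-!
# H8SR, part E: the LAW is solvable (intermediate value theorem)
-/

namespace H8SR

open Filter Topology Set

theorem e4_ivt {g : ℝ → ℝ} {a : ℝ} (hc : ContinuousOn g (Ici a)) (ha : g a ≤ 0)
    (ht : Tendsto g atTop atTop) : ∃ x, a ≤ x ∧ g x = 0 := by
  obtain ⟨b, hb1, hb2⟩ := ((ht.eventually_ge_atTop 0).and (eventually_ge_atTop a)).exists
  obtain ⟨x, hx, hx2⟩ := intermediate_value_Icc hb2 (hc.mono Icc_subset_Ici_self) ⟨ha, hb1⟩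
  exact ⟨x, hx.1, hx2⟩

theorem e4_tend {W : ℝ → ℝ} {c₁ c₂ P : ℝ} (h1 : 0 < c₁)
    (h : ∀ p, P ≤ p → c₁ * √p ^ 3 - c₂ * √p ^ 2 ≤ W p) : Tendsto W atTop atTop := by
  have hs : Tendsto (fun p : ℝ => √p) atTop atTop := Real.tendsto_sqrt_atTop
  have h2 : Tendsto (fun p : ℝ => c₁ * √p - c₂) atTop atTop :=
    tendsto_atTop_add_const_right _ _ (hs.const_mul_atTop h1)
  have h3 : Tendsto (fun p : ℝ => √p ^ 2) atTop atTop :=
    (tendsto_pow_atTop (by norm_num : (2:ℕ) ≠ 0)).comp hs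
  have h4 := h3.atTop_mul_atTop₀ h2
  refine tendsto_atTop_mono' _ ?_ h4
  filter_upwards [eventually_ge_atTop P] with p hp
  refine le_trans (le_of_eq ?_) (h p hp)
  ring

/-- a pair of blocks with ratios `1`, `101` -/
theorem e4_pair {τ : ℝ} (hτ : τ ≠ 0) (v₀ k₀ v₁ k₁ e : ℝ) (he : e = 1 ∨ e = -1) :
    ∃ (P : ℝ) (u₀ η₀ u₁ η₁ : ℝ → ℝ), 1 ≤ P ∧
      (∀ p, P ≤ p → Sol v₀ k₀ (1 * τ / 2) (u₀ p) (η₀ p) p ∧ Sol v₁ k₁ (101 * τ / 2) (u₁ p) (η₁ p) p) ∧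
      ContinuousOn (fun p => e * (τ * (wt v₀ k₀ (1 * τ / 2) (u₀ p) (η₀ p)
        - wt v₁ k₁ (101 * τ / 2) (u₁ p) (η₁ p)))) (Ici P) ∧
      Tendsto (fun p => e * (τ * (wt v₀ k₀ (1 * τ / 2) (u₀ p) (η₀ p)
        - wt v₁ k₁ (101 * τ / 2) (u₁ p) (η₁ p)))) atTop atTop := by
  obtain ⟨P₀, hP₀, u₀, η₀, hu₀, hη₀, H₀⟩ := branch v₀ k₀ (1 * τ / 2) 1 (Or.inl rfl)
  obtain ⟨P₁, hP₁, u₁, η₁, hu₁, hη₁, H₁⟩ := branch v₁ k₁ (101 * τ / 2) e he
  obtain ⟨C₀, hC₀, E₀⟩ := e2_wt_est v₀ k₀ (1 * τ / 2)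
  obtain ⟨C₁, hC₁, E₁⟩ := e2_wt_est v₁ k₁ (101 * τ / 2)
  have hee : |e| = 1 := by rcases he with rfl | rfl <;> norm_num
  have hm0 : ∀ p, max P₀ P₁ ≤ p → P₀ ≤ p := fun p hp => (le_max_left _ _).trans hp
  have hm1 : ∀ p, max P₀ P₁ ≤ p → P₁ ≤ p := fun p hp => (le_max_right _ _).trans hp
  have hcw : ∀ {P : ℝ} {v k d : ℝ} {u η : ℝ → ℝ}, ContinuousOn u (Ici P) → ContinuousOn η (Ici P) →
      (∀ p, P ≤ p → η p ≠ 0) → ContinuousOn (fun p => wt v k d (u p) (η p)) (Ici P) := by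
    intro P v k d u η hu hη hne
    have hA : ContinuousOn (fun p => wA d (u p) (η p)) (Ici P) := by
      unfold wA
      exact ((continuousOn_const.mul hu).div hη fun p hp => hne p hp).neg.sub
        (continuousOn_const.mul hu)
    have hB : ContinuousOn (fun p => wB v d (u p) (η p)) (Ici P) := by
      unfold wB
      refine ContinuousOn.sub (ContinuousOn.sub (ContinuousOn.sub (ContinuousOn.sub
        (hη.pow 2).neg (continuousOn_const.mul hη)) ?_) (continuousOn_const.mul (hu.pow 2)))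
        ((continuousOn_const.mul hA).mul hu)
      exact (continuousOn_const.mul ((hu.pow 2).add continuousOn_const)).div hη
        fun p hp => hne p hp
    unfold wt
    exact ((((continuousOn_const.mul hA).add (continuousOn_const.mul hB)).sub
      (continuousOn_const.mul ((hA.pow 2).sub continuousOn_const))).sub ((hB.pow 2).div_const _))
  refine ⟨max P₀ P₁, u₀, η₀, u₁, η₁, hP₀.trans (le_max_left _ _), ?_, ?_, ?_⟩
  · exact fun p hp => ⟨(H₀ p (hm0 p hp)).1, (H₁ p (hm1 p hp)).1⟩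
  · have c0 := hcw (v := v₀) (k := k₀) (d := 1 * τ / 2) hu₀ hη₀ (fun p hp => (H₀ p hp).1.ne)
    have c1 := hcw (v := v₁) (k := k₁) (d := 101 * τ / 2) hu₁ hη₁ (fun p hp => (H₁ p hp).1.ne)
    exact continuousOn_const.mul (continuousOn_const.mul
      ((c0.mono (Ici_subset_Ici.2 (le_max_left _ _))).sub
        (c1.mono (Ici_subset_Ici.2 (le_max_right _ _)))))
  · refine e4_tend (c₁ := τ ^ 2 / 24 * 11) (c₂ := |τ| * (C₀ + C₁)) (P := max P₀ P₁)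
      (by positivity) ?_
    intro p hp
    obtain ⟨s0, hu0, h10, hle0, hge0⟩ := H₀ p (hm0 p hp)
    obtain ⟨s1, hu1, h11, hle1, hge1⟩ := H₁ p (hm1 p hp)
    rw [one_mul] at h10
    have hp1 : 1 ≤ p := hP₀.trans (hm0 p hp)
    set s := √p with hs
    have hs0 : 0 ≤ s := Real.sqrt_nonneg _
    have hss : s ^ 2 = p := Real.sq_sqrt (by linarith)
    have b0 := E₀ (u₀ p) (η₀ p) p (by rw [abs_of_pos (by linarith)]; exact h10) hu0 s0
    have hab1 : 1 ≤ |η₁ p| := by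
      rcases he with rfl | rfl
      · rw [one_mul] at h11; exact h11.trans (le_abs_self _)
      · have : -1 * η₁ p = -η₁ p := by ring
        rw [this] at h11; exact h11.trans (neg_le_abs _)
    have b1 := E₁ (u₁ p) (η₁ p) p hab1 hu1 s1
    set w0 := wt v₀ k₀ (1 * τ / 2) (u₀ p) (η₀ p) with hw0
    set w1 := wt v₁ k₁ (101 * τ / 2) (u₁ p) (η₁ p) with hw1
    set x0 := η₀ p with hx0
    set x1 := η₁ p with hx1
    set E0 := w0 + p ^ 2 / 48 + 1 * τ / 2 * x0 ^ 3 / 12 with hE0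
    set E1 := w1 + p ^ 2 / 48 + 101 * τ / 2 * x1 ^ 3 / 12 with hE1
    have hid : e * (τ * (w0 - w1)) = τ ^ 2 / 24 * (e * (101 * x1 ^ 3 - x0 ^ 3))
        + e * τ * (E0 - E1) := by
      rw [hE0, hE1]; ring
    have herr : |e * τ * (E0 - E1)| ≤ |τ| * (C₀ + C₁) * s ^ 2 := by
      rw [abs_mul, abs_mul, hee, one_mul, hss]
      have : |E0 - E1| ≤ (C₀ + C₁) * p := by
        calc |E0 - E1| ≤ |E0| + |E1| := abs_sub _ _
          _ ≤ C₀ * x0 ^ 2 + C₁ * x1 ^ 2 := add_le_add b0 b1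
          _ ≤ C₀ * p + C₁ * p := by gcongr
          _ = _ := by ring
      calc |τ| * |E0 - E1| ≤ |τ| * ((C₀ + C₁) * p) := by gcongr
        _ = _ := by ring
    -- sizes
    have a0 : s / 2 ≤ x0 := by
      refine abs_le_of_sq_le_sq' ?_ (by linarith) |>.2
      rw [div_pow, hss]; linarith
    have a0' : x0 ≤ s := by
      refine abs_le_of_sq_le_sq' ?_ hs0 |>.2
      rw [hss]; exact hle0
    have hc0 : x0 ^ 3 ≤ s ^ 3 := by gcongr
    have hc0' : s ^ 3 / 8 ≤ x0 ^ 3 := by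
      have : (s / 2) ^ 3 ≤ x0 ^ 3 := by gcongr
      calc s ^ 3 / 8 = (s / 2) ^ 3 := by ring
        _ ≤ _ := this
    have hs3 : 0 ≤ s ^ 3 := by positivity
    have hmain : 11 * s ^ 3 ≤ e * (101 * x1 ^ 3 - x0 ^ 3) := by
      have ha1 : s / 2 ≤ e * x1 := by
        refine abs_le_of_sq_le_sq' ?_ (by linarith) |>.2
        rw [div_pow, hss, mul_pow, ← sq_abs e, hee]; linarith
      have hc1 : s ^ 3 / 8 ≤ (e * x1) ^ 3 := by
        have : (s / 2) ^ 3 ≤ (e * x1) ^ 3 := by gcongr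
        calc s ^ 3 / 8 = (s / 2) ^ 3 := by ring
          _ ≤ _ := this
      rcases he with rfl | rfl
      · rw [one_mul] at hc1 ⊢
        linarith
      · have e3 : ((-1) * x1) ^ 3 = - x1 ^ 3 := by ring
        rw [e3] at hc1
        linarith
    rw [hid]
    have h1 := (abs_le.1 herr).1
    have h2 : τ ^ 2 / 24 * (11 * s ^ 3) ≤ τ ^ 2 / 24 * (e * (101 * x1 ^ 3 - x0 ^ 3)) := by gcongr
    linarith

/-- the LAW is solvable -/
theorem e4_law {τ : ℝ} (hτ : τ ≠ 0) (v k : Fin 4 → ℝ) (Z : ℝ) :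
    ∃ (u η : Fin 4 → ℝ) (p p' : ℝ), 0 < p ∧ 0 < p' ∧
      Sol (v 0) (k 0) (1 * τ / 2) (u 0) (η 0) p ∧ Sol (v 1) (k 1) (101 * τ / 2) (u 1) (η 1) p ∧
      Sol (v 2) (k 2) (1 * τ / 2) (u 2) (η 2) p' ∧ Sol (v 3) (k 3) (101 * τ / 2) (u 3) (η 3) p' ∧
      Z + τ * (wt (v 0) (k 0) (1 * τ / 2) (u 0) (η 0) - wt (v 1) (k 1) (101 * τ / 2) (u 1) (η 1)
        + wt (v 2) (k 2) (1 * τ / 2) (u 2) (η 2) - wt (v 3) (k 3) (101 * τ / 2) (u 3) (η 3)) = 0 := by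
  obtain ⟨P, u0, η0, u1, η1, hP, hS, hc, ht⟩ := e4_pair hτ (v 0) (k 0) (v 1) (k 1) 1 (Or.inl rfl)
  obtain ⟨P', u2, η2, u3, η3, hP', hS', hc', ht'⟩ :=
    e4_pair hτ (v 2) (k 2) (v 3) (k 3) (-1) (Or.inr rfl)
  set W : ℝ → ℝ := fun p => 1 * (τ * (wt (v 0) (k 0) (1 * τ / 2) (u0 p) (η0 p)
        - wt (v 1) (k 1) (101 * τ / 2) (u1 p) (η1 p))) with hW
  set W' : ℝ → ℝ := fun p => -1 * (τ * (wt (v 2) (k 2) (1 * τ / 2) (u2 p) (η2 p)
        - wt (v 3) (k 3) (101 * τ / 2) (u3 p) (η3 p))) with hW'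
  have key : ∃ p p', P ≤ p ∧ P' ≤ p' ∧ Z + W p - W' p' = 0 := by
    rcases le_total (Z + W P - W' P') 0 with h | h
    · obtain ⟨x, hx, hx2⟩ := e4_ivt (g := fun p => Z + W p - W' P') (a := P)
        ((continuousOn_const.add hc).sub continuousOn_const) h
        (tendsto_atTop_add_const_right _ _ (tendsto_atTop_add_const_left _ _ ht))
      exact ⟨x, P', hx, le_rfl, hx2⟩
    · obtain ⟨x, hx, hx2⟩ := e4_ivt (g := fun p => W' p - (Z + W P)) (a := P')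
        (hc'.sub continuousOn_const) (by linarith)
        (tendsto_atTop_add_const_right _ _ ht')
      exact ⟨P, x, le_rfl, hx, by linarith⟩
  obtain ⟨p, p', hp, hp', hz⟩ := key
  refine ⟨![u0 p, u1 p, u2 p', u3 p'], ![η0 p, η1 p, η2 p', η3 p'], p, p', by linarith, by linarith,
    (hS p hp).1, (hS p hp).2, (hS' p' hp').1, (hS' p' hp').2, ?_⟩
  simp only [Matrix.cons_val_zero, Matrix.cons_val_one, Matrix.cons_val]
  rw [hW, hW'] at hz
  simp only at hz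
  linarith

end H8SR
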