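import Pool.Agent.Lib.H8SR.E1
import Pool.Agent.Lib.H8SR.E4

/-!
# H8SR, part E: the sector theorem
-/

namespace H8SR

theorem sector (τ : ℝ) (hτ : τ ≠ 0) (m : Fin 4 → Fin 4 → ℝ) (hm : ∀ e, m e 0 = τ) (z : ℝ) :
    ∃ x0 A0 A1 p : Fin 4 → ℝ, (∀ e, 0 < p e) ∧ p 0 = p 1 ∧ p 2 = p 3 ∧
      (∀ e, nd (gg e) (A1 e) τ (p e) = nd (gg e) (A0 e) 0 (p e) + tx (x0 e) (m e)) ∧
      ndz (fun e => nd (gg e) (A1 e) τ (p e)) = ndz (fun e => nd (gg e) (A0 e) 0 (p e)) + z +
        ∑ e, ep e * (p4 (x0 e) (m e) + gg e / 6 * kr (tx (x0 e) (m e))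
          (nd (gg e) (A0 e) 0 (p e))) := by
  set xb : Fin 4 → ℝ := fun e => m e 1 / τ with hxb
  set v : Fin 4 → ℝ := fun e => m e 2 / τ - (m e 1 / τ) ^ 2 with hv
  set k : Fin 4 → ℝ := fun e => m e 3 / τ - 3 * (m e 1 / τ) * (m e 2 / τ) + 2 * (m e 1 / τ) ^ 3
    with hk
  have hmm : ∀ e, m e = cm τ (xb e) (v e) (k e) := fun e => e1_cm_of hτ (hm e)
  obtain ⟨u, η, p, p', hp, hp', s0, s1, s2, s3, hlaw⟩ := e4_law hτ v k
    (5 * (z + ∑ e, ep e * p4 (-xb e) (cm τ (xb e) (v e) (k e))))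
  have hg : ∀ e, gg e ≠ 0 := by
    intro e
    fin_cases e <;> simp [gg]
  have hS : ∀ e : Fin 4, Sol (v e) (k e) (gg e * τ / 2) (u e) (η e) (![p, p, p', p'] e) := by
    intro e
    fin_cases e
    · simpa [gg] using s0
    · simpa [gg] using s1
    · simpa [gg] using s2
    · simpa [gg] using s3
  set ξ : Fin 4 → ℝ := fun e => gg e * τ / 6 * (1 + u e / η e) with hξ
  refine ⟨fun e => -ξ e - u e - xb e, fun e => -ξ e - η e, fun e => -ξ e + η e,
    ![p, p, p', p'], ?_, ?_, ?_, ?_, ?_⟩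
  · intro e
    fin_cases e
    · exact hp
    · exact hp
    · exact hp'
    · exact hp'
  · rfl
  · rfl
  · intro e
    rw [hmm e]
    exact sol_block (hg e) (hS e) (ξ e) rfl
  · have hL := fun e => sol_law (xb := xb e) (hg e) (hS e) (ξ e) rfl
    simp only [← hmm] at hL hlaw
    have hsum : ∑ e, ep e * (τ * wt (v e) (k e) (gg e * τ / 2) (u e) (η e)) =
        -(5 * (z + ∑ e, ep e * p4 (-xb e) (m e))) := by
      have e1 : ∑ e, ep e * (τ * wt (v e) (k e) (gg e * τ / 2) (u e) (η e)) =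
          τ * (wt (v 0) (k 0) (1 * τ / 2) (u 0) (η 0) - wt (v 1) (k 1) (101 * τ / 2) (u 1) (η 1)
          + wt (v 2) (k 2) (1 * τ / 2) (u 2) (η 2)
          - wt (v 3) (k 3) (101 * τ / 2) (u 3) (η 3)) := by
        rw [Fin.sum_univ_four]
        simp only [ep, gg, Matrix.cons_val_zero, Matrix.cons_val_one, Matrix.cons_val]
        ring
      rw [e1]
      linarith
    have h1 : ∀ e, ep e * (p4 (-ξ e - u e - xb e) (m e) + gg e / 6 *
        kr (tx (-ξ e - u e - xb e) (m e)) (nd (gg e) (-ξ e - η e) 0 (![p, p, p', p'] e))) =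
        ep e * (1 / 5 * (τ * wt (v e) (k e) (gg e * τ / 2) (u e) (η e)) + p4 (-xb e) (m e))
        + 1 / 10 * (ep e * (gg e * (nd (gg e) (-ξ e - η e) 0 (![p, p, p', p'] e) 0
            * nd (gg e) (-ξ e - η e) 0 (![p, p, p', p'] e) 3
          - nd (gg e) (-ξ e - η e) 0 (![p, p, p', p'] e) 1
            * nd (gg e) (-ξ e - η e) 0 (![p, p, p', p'] e) 2)))
        - 1 / 10 * (ep e * (gg e * (nd (gg e) (-ξ e + η e) τ (![p, p, p', p'] e) 0
            * nd (gg e) (-ξ e + η e) τ (![p, p, p', p'] e) 3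
          - nd (gg e) (-ξ e + η e) τ (![p, p, p', p'] e) 1
            * nd (gg e) (-ξ e + η e) τ (![p, p, p', p'] e) 2))) := by
      intro e
      have := hL e
      linear_combination ep e * this
    unfold ndz
    rw [Finset.sum_congr rfl fun e _ => h1 e, Finset.sum_sub_distrib, Finset.sum_add_distrib,
      ← Finset.mul_sum, ← Finset.mul_sum]
    have h2 : ∑ e, ep e * (1 / 5 * (τ * wt (v e) (k e) (gg e * τ / 2) (u e) (η e))
        + p4 (-xb e) (m e)) = -z := by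
      have : ∑ e, ep e * (1 / 5 * (τ * wt (v e) (k e) (gg e * τ / 2) (u e) (η e))
          + p4 (-xb e) (m e)) = 1 / 5 * ∑ e, ep e * (τ * wt (v e) (k e) (gg e * τ / 2) (u e) (η e))
          + ∑ e, ep e * p4 (-xb e) (m e) := by
        rw [Finset.mul_sum, ← Finset.sum_add_distrib]
        exact Finset.sum_congr rfl fun e _ => by ring
      rw [this, hsum]
      ring
    rw [h2]
    ring

/-- three linear forms on `ℝ⁴` have a common nonzero zero -/
theorem weights (f : Fin 3 → Fin 4 → ℝ) :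
    ∃ α : Fin 4 → ℝ, α ≠ 0 ∧ ∀ i, ∑ j, α j * f i j = 0 := by
  have h : (Matrix.toLin' (Matrix.of f)).ker ≠ ⊥ := by
    apply LinearMap.ker_ne_bot_of_finrank_lt
    simp
  obtain ⟨α, hα, h0⟩ := Submodule.exists_mem_ne_zero_of_ne_bot h
  refine ⟨α, h0, fun i => ?_⟩
  have := congrFun (LinearMap.mem_ker.1 hα) i
  rw [Matrix.toLin'_apply, Matrix.mulVec, dotProduct] at this
  rw [Pi.zero_apply] at this
  rw [← this]
  exact Finset.sum_congr rfl fun j _ => by rw [Matrix.of_apply]; ring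

end H8SR
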