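import Pool.Agent.Lib.H8SR.B3
import Pool.Agent.Lib.H8SR.B4
import Pool.Agent.Lib.H80A.PG8
import Pool.Agent.Lib.H80A.PG10

/-!
# H8SR, assembly A: elements joined with the identity give abnormal endpoints
-/

namespace H8SR

open MeasureTheory Set Filter Topology
open scoped Manifold ContDiff

noncomputable section

/-- The endpoint map of `SRG`. -/
def endMap : SRS.Controls mH → SRG := SRP.End

theorem isEndpointMap_endMap :
    SRS.IsEndpointMap (E := SRG) (G := SRG) SRP.bas endMap := by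
  obtain ⟨h1, h2⟩ := H80A.isEndpointMap_End SRP
  refine ⟨h1, ?_⟩
  intro w
  obtain ⟨γ, hγ, hγ1⟩ := h2 w
  exact ⟨γ, hγ, hγ1⟩

theorem abn_eq : SRS.Abn SRG endMap = SRSard.Abn 𝓘(ℝ, SRG) SRP.End := by
  ext q
  constructor
  · rintro ⟨w, hw, hc⟩
    exact ⟨w, hw, hc⟩
  · rintro ⟨w, hw, hc⟩
    exact ⟨w, hw, hc⟩

/-- two elements joined with the identity inside a part of a critical set -/
theorem mem_abn {f : SRG → ℝ} (hf : ContDiff ℝ ∞ f) (hf1 : fderiv ℝ f 1 ≠ 0) {Z : Set SRG}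
    (hZ : Z ⊆ SRP.crit f) {g0 g : SRG} (h0 : Jn Z g0) (h1 : Jn Z (g0 * g)) :
    g ∈ SRS.Abn SRG endMap := by
  obtain ⟨L0, h0⟩ := h0
  obtain ⟨L1, h1⟩ := h1
  have h := H80A.abn_of_reach SRP hf hf1 hZ (H80A.Reach.trans (H80A.Reach.symm h0) h1)
  rw [inv_mul_cancel_left] at h
  rw [abn_eq]
  exact h

theorem mem_abn_Zs {a : Fin 6} {α : Fin 4 → ℝ} (hα : α ≠ 0) {g0 g : SRG} (h0 : Jn (Zs a α) g0)
    (h1 : Jn (Zs a α) (g0 * g)) : g ∈ SRS.Abn SRG endMap :=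
  mem_abn (contDiff_lamS a α) (fderiv_lamS_ne a hα) (Zs_sub_crit a α) h0 h1

theorem mem_abn_Zq {l : Fin 3 → ℝ} (hl : l ≠ 0) {g : SRG} (h0 : Jn (Zq l) 1)
    (h1 : Jn (Zq l) g) : g ∈ SRS.Abn SRG endMap :=
  mem_abn (contDiff_lamQ l) (fderiv_lamQ_ne hl) (Zq_sub_crit l) h0 (by rwa [one_mul])

end

end H8SR
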