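import Pool.Agent.Lib.H8SR.FinA
import Pool.Agent.Lib.H8SR.B5
import Pool.Agent.Lib.H8SR.C9

/-!
# H8SR, assembly B: the two cases
-/

namespace H8SR

open MeasureTheory Set Filter Topology
open scoped Manifold ContDiff

noncomputable section

/-- the statement of case 1 (PROOF.md, section 6) -/
def Case1 : Prop := ∀ (g : SRG) (a : Fin 6) (c : ℝ),
  g (.sq a) - 2 * c * (∑ i, lv a i * g (.lq i)) + c ^ 2 * g .t ≠ 0 →
    ∃ α : Fin 4 → ℝ, α ≠ 0 ∧ ∃ g0 : SRG, Jn (Zs a α) g0 ∧ Jn (Zs a α) (g0 * g)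

theorem case2_coords {g : SRG} (H : ∀ (a : Fin 6) (c : ℝ),
    g (.sq a) - 2 * c * (∑ i, lv a i * g (.lq i)) + c ^ 2 * g .t = 0) :
    g .t = 0 ∧ (∀ i, g (.lq i) = 0) ∧ ∀ c, g (.sq c) = 0 := by
  have hsq : ∀ c, g (.sq c) = 0 := fun c => by simpa using H c 0
  have h : ∀ a, (∑ i, lv a i * g (.lq i)) = 0 ∧ g .t = 0 := fun a => by
    have h1 := H a 1
    have h2 := H a (-1)
    rw [hsq a] at h1 h2
    constructor <;> linarith
  refine ⟨(h 0).2, fun i => ?_, hsq⟩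
  fin_cases i
  · simpa [lv, Fin.sum_univ_three] using (h 0).1
  · simpa [lv, Fin.sum_univ_three] using (h 1).1
  · simpa [lv, Fin.sum_univ_three] using (h 2).1

theorem jn_one {Z : Set SRG} (h : (1 : SRG) ∈ Z) : Jn Z 1 := ⟨0, H80A.Reach.refl h⟩

/-- every point is the endpoint of an abnormal curve -/
theorem abn_univ (H : Case1) : SRS.Abn SRG endMap = univ := by
  refine eq_univ_of_forall fun g => ?_
  by_cases h : ∀ (a : Fin 6) (c : ℝ),
      g (.sq a) - 2 * c * (∑ i, lv a i * g (.lq i)) + c ^ 2 * g .t = 0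
  · obtain ⟨ht, hlq, hsq⟩ := case2_coords h
    obtain ⟨l, hl0, hlq0, hl⟩ := exists_l (fun i => g (.q i))
    exact mem_abn_Zq hl0 (jn_one (one_mem_Zq l)) (joined_case2 hl hlq0 ht hlq hsq)
  · push Not at h
    obtain ⟨a, c, h⟩ := h
    obtain ⟨α, hα, g0, h0, h1⟩ := H g a c h
    exact mem_abn_Zs hα h0 h1

end

end H8SR
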