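import Mathlib
import Pool.Agent.Lib.SRSard.Statement

/-!
# H8SR: affine nilpotent groups (generic library, definitions)

An *affine group* is `ι → ℝ` with the group law `a * b = a + L a b`, `L a` linear, `L` polynomial and
triangular with respect to a level function on the coordinates.  All nilpotent groups used here have
this form.  The left invariant vector field of `v` at `g` is `L g v`.
-/

namespace H8SR

open MeasureTheory Set Filter Topology
open scoped Manifold ContDiff

noncomputable section

/-- polynomial functions on `ι → ℝ` -/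
def IsPoly {ι : Type} (f : (ι → ℝ) → ℝ) : Prop :=
  ∃ p : MvPolynomial ι ℝ, ∀ a, f a = MvPolynomial.eval a p

/-- affine groups -/
structure AffGrp (ι : Type) [Fintype ι] where
  L : (ι → ℝ) → (ι → ℝ) → (ι → ℝ)
  add' : ∀ a b c, L a (b + c) = L a b + L a c
  smul' : ∀ a (r : ℝ) b, L a (r • b) = r • L a b
  zero' : ∀ b, L 0 b = b
  mul' : ∀ a b c, L (a + L a b) c = L a (L b c)
  inv : (ι → ℝ) → (ι → ℝ)
  inv' : ∀ a, inv a + L (inv a) a = 0
  lev : ι → ℕ
  depth : ℕ
  lev_lt : ∀ k, lev k < depth
  tri : ∀ a a' b k, (∀ l, lev l < lev k → a l = a' l) → L a b k = L a' b k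
  poly : ∀ b k, IsPoly (fun a => L a b k)

variable {ι : Type} [Fintype ι]

/-- the underlying space of the group -/
def AffGrp.G (_A : AffGrp ι) : Type := ι → ℝ

namespace AffGrp

variable (A : AffGrp ι)

instance : NormedAddCommGroup A.G := inferInstanceAs (NormedAddCommGroup (ι → ℝ))
instance : NormedSpace ℝ A.G := inferInstanceAs (NormedSpace ℝ (ι → ℝ))
instance : FiniteDimensional ℝ A.G := inferInstanceAs (FiniteDimensional ℝ (ι → ℝ))
instance : MeasurableSpace A.G := inferInstanceAs (MeasurableSpace (ι → ℝ))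
instance : BorelSpace A.G := inferInstanceAs (BorelSpace (ι → ℝ))

/-- the linear part of the left multiplication by `a` -/
def Lf (a b : A.G) : A.G := A.L a b

instance : Mul A.G := ⟨fun a b => a + A.Lf a b⟩
instance : One A.G := ⟨0⟩
instance : Inv A.G := ⟨fun a => A.inv a⟩

theorem mul_def (a b : A.G) : a * b = a + A.Lf a b := rfl
theorem one_def : (1 : A.G) = 0 := rfl
theorem inv_def (a : A.G) : a⁻¹ = A.inv a := rfl
theorem Lf_add (a b c : A.G) : A.Lf a (b + c) = A.Lf a b + A.Lf a c := A.add' a b c
theorem Lf_smul (a : A.G) (r : ℝ) (b : A.G) : A.Lf a (r • b) = r • A.Lf a b := A.smul' a r b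
theorem Lf_zero_left (b : A.G) : A.Lf 0 b = b := A.zero' b
theorem Lf_mul (a b c : A.G) : A.Lf (a * b) c = A.Lf a (A.Lf b c) := A.mul' a b c
theorem add_apply (a b : A.G) (k : ι) : (a + b) k = a k + b k := rfl
theorem sub_apply (a b : A.G) (k : ι) : (a - b) k = a k - b k := rfl
theorem neg_apply (a : A.G) (k : ι) : (-a) k = - a k := rfl
theorem smul_apply (r : ℝ) (a : A.G) (k : ι) : (r • a) k = r * a k := rfl
theorem zero_apply (k : ι) : (0 : A.G) k = 0 := rfl
theorem mul_apply (a b : A.G) (k : ι) : (a * b) k = a k + A.Lf a b k := rfl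

@[ext] theorem G.ext {a b : A.G} (h : ∀ i, a i = b i) : a = b := funext h

instance : Group A.G := Group.ofLeftAxioms
  (fun a b c => by
    rw [mul_def, mul_def A a (b * c), mul_def A b c, Lf_mul, Lf_add, mul_def, add_assoc])
  (fun a => by rw [mul_def, one_def, Lf_zero_left, zero_add])
  (fun a => A.inv' a)

/-- the linear part as a linear map -/
def Ll (a : A.G) : A.G →ₗ[ℝ] A.G where
  toFun := A.Lf a
  map_add' := A.Lf_add a
  map_smul' := A.Lf_smul a

end AffGrp

/-! ## Horizontal curves -/

section curves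

variable (A : AffGrp ι) {m : ℕ} (b : Fin m → A.G)

/-- the horizontal vector with coefficients `c` -/
def hv (c : Fin m → ℝ) : A.G := ∑ j, c j • b j

/-- Picard iterates of the equation `γ' = L γ (hv w)`, `γ 0 = 1` -/
def pic (w : ℝ → Fin m → ℝ) : ℕ → ℝ → A.G
  | 0, _ => (0 : ι → ℝ)
  | n + 1, t => fun k => ∫ s in (0:ℝ)..t, A.Lf (pic w n s) (hv A b (w s)) k

/-- The horizontal curve with control `w` issued from `1`. -/
def gam (w : ℝ → Fin m → ℝ) (t : ℝ) : A.G := pic A b w A.depth t

/-- Controls for finite curves: measurable and bounded by `1`. -/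
structure Ctrl {m : ℕ} (w : ℝ → Fin m → ℝ) : Prop where
  meas : Measurable w
  bound : ∀ t, ‖w t‖ ≤ 1

/-- `Reach A b Z L g h`: there is a horizontal curve from `g` to `h`, parametrized by `[0, L]`, with
control bounded by `1`, all of whose points lie in `Z`. -/
def Reach (Z : Set A.G) (L : ℝ) (g h : A.G) : Prop :=
  0 ≤ L ∧ ∃ w : ℝ → Fin m → ℝ, Ctrl w ∧ g * gam A b w L = h ∧
    ∀ t ∈ Icc (0:ℝ) L, g * gam A b w t ∈ Z

/-- the control as a function -/
def ctl (w : SRS.Controls m) : ℝ → Fin m → ℝ := fun s j => w.val s j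

/-- the endpoint map -/
def End (w : SRS.Controls m) : A.G := gam A b (ctl w) 1

end curves

end

end H8SR
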