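import Pool.Agent.Lib.H8SR.ZDefs

/-!
# `SRG` is a nilpotent group

Weights `q, t : 1`, `x : 3`, `lq : 2`, `sq : 3`, `m β i k : i + 3 k + 4`, `z c j n : 15 - n`: the group law
is homogeneous.  The elements whose coordinates of weight `< n` vanish form a descending central
series.
-/

namespace H8SR

open Set

noncomputable section

/-- the weight of a coordinate -/
def nwt : Idx → ℕ
  | .q _ => 1
  | .x _ => 3
  | .t => 1
  | .lq _ => 2
  | .sq _ => 3
  | .m _ i k => i.1 + 3 * k.1 + 4
  | .z _ _ n => 15 - n.1

/-- agreement of the coordinates of weight `< n` -/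
def NAg (n : ℕ) (a b : SRG) : Prop := ∀ k, nwt k < n → a k = b k

theorem nil_sf {n : ℕ} (hn : 1 < n) {a b : SRG} (h : NAg n a b) (c : Fin 6) : sf c a = sf c b := by
  have h1 : ∀ i, a (.q i) = b (.q i) := fun i => h _ (by simpa [nwt] using hn)
  simp only [sf, h1]

theorem nil_mat {n : ℕ} {a b : SRG} (h : NAg n a b) (β : Blk) (i : Fin 3) (k : Fin 4)
    (hn : i.1 + 3 * k.1 + 1 < n) : mat β a i k = mat β b i k := by
  induction k using Fin.cases with
  | zero =>
    simp only [mat, Fin.cons_zero]
    fin_cases i
    · exact h .t (by simpa [nwt] using hn)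
    · have h1 : ∀ i, a (.lq i) = b (.lq i) := fun i => h _ (by simpa [nwt] using hn)
      simp [qm, h1]
    · exact h (.sq β.1) (by simpa [nwt] using hn)
  | succ k =>
    simp only [mat, Fin.cons_succ]
    refine h _ ?_
    simp only [nwt]
    simp only [Fin.val_succ] at hn
    omega

theorem nil_tb {M N : Fin 3 → Fin 4 → ℝ} (s x : ℝ) (i : Fin 3) (k : Fin 4)
    (h : ∀ i' k', i' ≤ i → k' ≤ k → M i' k' = N i' k') : tb s x M i k = tb s x N i k := by
  fin_cases i <;> fin_cases k <;>
  · try have a00 := h 0 0 (by decide) (by decide)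
    try have a01 := h 0 1 (by decide) (by decide)
    try have a02 := h 0 2 (by decide) (by decide)
    try have a03 := h 0 3 (by decide) (by decide)
    try have a10 := h 1 0 (by decide) (by decide)
    try have a11 := h 1 1 (by decide) (by decide)
    try have a12 := h 1 2 (by decide) (by decide)
    try have a13 := h 1 3 (by decide) (by decide)
    try have a20 := h 2 0 (by decide) (by decide)
    try have a21 := h 2 1 (by decide) (by decide)
    try have a22 := h 2 2 (by decide) (by decide)
    try have a23 := h 2 3 (by decide) (by decide)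
    simp [tb, tx, ts, *]

theorem nil_kr {f f' g g' : Fin 4 → ℝ} (h : ∀ k, f k = f' k) (h' : ∀ k, g k = g' k) :
    kr f g = kr f' g' := by
  simp only [kr, h, h']

/-- largest row used in the coefficient `n` -/
def nrow (n : Fin 5) : ℕ := if n.1 ≤ 2 then 2 else 4 - n.1

theorem nil_kap {M M' N N' : Fin 3 → Fin 4 → ℝ} (n : Fin 5)
    (h : ∀ (i : Fin 3) k, i.1 ≤ nrow n → M i k = M' i k)
    (h' : ∀ (i : Fin 3) k, i.1 ≤ nrow n → N i k = N' i k) : kap M N n = kap M' N' n := by
  fin_cases n <;>
  · try have a0 : ∀ k, M 0 k = M' 0 k := fun k => h 0 k (by decide)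
    try have a1 : ∀ k, M 1 k = M' 1 k := fun k => h 1 k (by decide)
    try have a2 : ∀ k, M 2 k = M' 2 k := fun k => h 2 k (by decide)
    try have b0 : ∀ k, N 0 k = N' 0 k := fun k => h' 0 k (by decide)
    try have b1 : ∀ k, N 1 k = N' 1 k := fun k => h' 1 k (by decide)
    try have b2 : ∀ k, N 2 k = N' 2 k := fun k => h' 2 k (by decide)
    simp [kap, kr, *]

theorem nil_st {M N : Fin 3 → Fin 4 → ℝ} (s x : ℝ) (n : Fin 5)
    (h : ∀ (i : Fin 3) k, i.1 + n.1 ≤ 2 → M i k = N i k) : st s x M n = st s x N n := by
  fin_cases n <;>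
  · try have a0 : ∀ k, M 0 k = N 0 k := fun k => h 0 k (by decide)
    try have a1 : ∀ k, M 1 k = N 1 k := fun k => h 1 k (by decide)
    try have a2 : ∀ k, M 2 k = N 2 k := fun k => h 2 k (by decide)
    simp [st, p4, ts, *]

theorem nil_zs {Z W : Fin 5 → ℝ} (s : ℝ) (n : Fin 5) (h : ∀ n', n ≤ n' → Z n' = W n') :
    zs s Z n = zs s W n := by
  fin_cases n <;>
  · try have a0 := h 0 (by decide)
    try have a1 := h 1 (by decide)
    try have a2 := h 2 (by decide)
    try have a3 := h 3 (by decide)
    try have a4 := h 4 (by decide)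
    simp [zs, *]

theorem nil_tb_lead {M : Fin 3 → Fin 4 → ℝ} (s x : ℝ) (i : Fin 3) (k : Fin 4)
    (h : ∀ i' k', i' ≤ i → k' ≤ k → i'.1 + 3 * k'.1 < i.1 + 3 * k.1 → M i' k' = 0) :
    tb s x M i k = M i k := by
  fin_cases i <;> fin_cases k <;>
  · try have a00 := h 0 0 (by decide) (by decide) (by decide)
    try have a01 := h 0 1 (by decide) (by decide) (by decide)
    try have a02 := h 0 2 (by decide) (by decide) (by decide)
    try have a03 := h 0 3 (by decide) (by decide) (by decide)
    try have a10 := h 1 0 (by decide) (by decide) (by decide)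
    try have a11 := h 1 1 (by decide) (by decide) (by decide)
    try have a12 := h 1 2 (by decide) (by decide) (by decide)
    try have a13 := h 1 3 (by decide) (by decide) (by decide)
    try have a20 := h 2 0 (by decide) (by decide) (by decide)
    try have a21 := h 2 1 (by decide) (by decide) (by decide)
    try have a22 := h 2 2 (by decide) (by decide) (by decide)
    try have a23 := h 2 3 (by decide) (by decide) (by decide)
    simp [tb, tx, ts, *]

theorem nil_zs_lead {Z : Fin 5 → ℝ} (s : ℝ) (n : Fin 5) (h : ∀ n', n < n' → Z n' = 0) :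
    zs s Z n = Z n := by
  fin_cases n <;>
  · try have a0 := h 0 (by decide)
    try have a1 := h 1 (by decide)
    try have a2 := h 2 (by decide)
    try have a3 := h 3 (by decide)
    try have a4 := h 4 (by decide)
    simp [zs, *]

/-- the truncated product depends only on the truncated factors -/
theorem nil_mul {n : ℕ} {a a' b b' : SRG} (ha : NAg n a a') (hb : NAg n b b') :
    NAg n (a * b) (a' * b') := by
  intro k hk
  rw [mul_apply, mul_apply, ha k hk]
  congr 1
  cases k with
  | q i => exact hb _ hk
  | x β => exact hb _ hk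
  | t => exact hb _ hk
  | lq i =>
    simp only [nwt] at hk
    simp only [LL]
    rw [hb (.lq i) hk, ha (.q i) (by simp only [nwt]; omega), hb .t (by simp only [nwt]; omega)]
  | sq c =>
    simp only [nwt] at hk
    have h1 : qm c b 1 = qm c b' 1 :=
      nil_mat hb (c, 0, 0) 1 0 (by simp; omega)
    simp only [LL]
    rw [hb (.sq c) hk, nil_sf (by omega) ha, hb .t (by simp only [nwt]; omega), h1]
  | m β i k =>
    simp only [nwt] at hk
    simp only [LL]
    rw [nil_sf (by omega) ha, ha (.x β) (by simp only [nwt]; omega)]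
    refine nil_tb _ _ _ _ fun i' k' hi hk' => nil_mat hb β i' k' ?_
    have h1 : i'.1 ≤ i.1 := hi
    have h2 : k'.1 ≤ k.1 + 1 := by simpa using (Fin.le_def.1 hk')
    omega
  | z c j n' =>
    have hn' := n'.2
    simp only [nwt] at hk
    simp only [LL]
    rw [nil_sf (by omega) ha]
    have hz : zs (sf c a') (fun n => b (.z c j n)) n' = zs (sf c a') (fun n => b' (.z c j n)) n' := by
      refine nil_zs _ _ fun m hm => hb _ ?_
      have := Fin.le_def.1 hm
      simp only [nwt]
      omega
    rw [hz]
    congr 1
    refine Finset.sum_congr rfl fun e _ => ?_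
    rw [ha (.x (c, j, e)) (by simp only [nwt]; omega)]
    congr 2
    · refine nil_st _ _ _ fun i k hi => nil_mat hb _ i k ?_
      have := k.2
      omega
    · congr 1
      refine nil_kap _ (fun i k hi => nil_tb _ _ _ _ fun i' k' hi' hk' => nil_mat hb _ i' k' ?_)
        fun i k hi => nil_mat ha _ i k ?_
      · have h1 := Fin.le_def.1 hi'
        have h2 := k'.2
        unfold nrow at hi
        split_ifs at hi <;> omega
      · have h2 := k.2
        unfold nrow at hi
        split_ifs at hi <;> omega

theorem nil_sf_zero {n : ℕ} (hn : 1 < n) {a : SRG} (h : NAg n a 1) (c : Fin 6) : sf c a = 0 := by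
  rw [nil_sf hn h]
  simp [sf, one_apply]

theorem nil_mat_zero {n : ℕ} {a : SRG} (h : NAg n a 1) (β : Blk) (i : Fin 3) (k : Fin 4)
    (hn : i.1 + 3 * k.1 + 1 < n) : mat β a i k = 0 := by
  rw [nil_mat h β i k hn, one_eq_zero]
  exact congrFun (congrFun (mat_zero β) i) k

/-- multiplication by an element of the `n`-th term is addition up to weight `n` (left) -/
theorem nil_left {n : ℕ} {a b : SRG} (ha : NAg n a 1) (k : Idx) (hk : nwt k < n + 1) :
    (a * b) k = a k + b k := by
  rw [mul_apply]
  congr 1
  cases k with
  | q i => rfl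
  | x β => rfl
  | t => rfl
  | lq i =>
    simp only [nwt] at hk
    simp only [LL]
    rw [ha (.q i) (by simp only [nwt]; omega), one_apply]
    ring
  | sq c =>
    simp only [nwt] at hk
    simp only [LL]
    rw [nil_sf_zero (by omega) ha]
    ring
  | m β i k =>
    simp only [nwt] at hk
    simp only [LL]
    rw [nil_sf_zero (by omega) ha, ha (.x β) (by simp only [nwt]; omega), one_apply, tb_zero_left]
    simp [mat]
  | z c j n' =>
    have hn' := n'.2
    simp only [nwt] at hk
    simp only [LL]
    rw [nil_sf_zero (by omega) ha, zs_zero_left]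
    have h1 : ∀ e, ep e * (st 0 (a (.x (c, j, e))) (mat (c, j, e) b) n' + gg e / 6 *
        kap (tb 0 (a (.x (c, j, e))) (mat (c, j, e) b)) (mat (c, j, e) a) n') = 0 := by
      intro e
      rw [ha (.x (c, j, e)) (by simp only [nwt]; omega), one_apply, tb_zero_left, st_zero_left]
      have h2 : kap (mat (c, j, e) b) (mat (c, j, e) a) n' = kap (mat (c, j, e) b) 0 n' := by
        refine nil_kap _ (fun i k hi => rfl) fun i k hi => ?_
        refine nil_mat_zero ha _ i k ?_
        have h2 := k.2
        unfold nrow at hi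
        split_ifs at hi <;> omega
      rw [h2, kap_zero_right]
      simp
    rw [Finset.sum_eq_zero fun e _ => h1 e, add_zero]

/-- multiplication by an element of the `n`-th term is addition up to weight `n` (right) -/
theorem nil_right {n : ℕ} {a b : SRG} (ha : NAg n a 1) (k : Idx) (hk : nwt k < n + 1) :
    (b * a) k = b k + a k := by
  rw [mul_apply]
  congr 1
  cases k with
  | q i => rfl
  | x β => rfl
  | t => rfl
  | lq i =>
    simp only [nwt] at hk
    simp only [LL]
    rw [ha .t (by simp only [nwt]; omega), one_apply]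
    ring
  | sq c =>
    simp only [nwt] at hk
    simp only [LL]
    have h1 : qm c a 1 = 0 :=
      nil_mat_zero ha (c, 0, 0) 1 0 (by simp; omega)
    rw [ha .t (by simp only [nwt]; omega), one_apply, h1]
    ring
  | m β i k =>
    simp only [nwt] at hk
    simp only [LL]
    rw [nil_tb_lead]
    · simp [mat]
    · intro i' k' hi hk' hlt
      refine nil_mat_zero ha β i' k' ?_
      have h1 : k.succ.1 = k.1 + 1 := Fin.val_succ k
      omega
  | z c j n' =>
    have hn' := n'.2
    simp only [nwt] at hk
    simp only [LL]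
    rw [nil_zs_lead]
    · have h1 : ∀ e, ep e * (st (sf c b) (b (.x (c, j, e))) (mat (c, j, e) a) n' + gg e / 6 *
          kap (tb (sf c b) (b (.x (c, j, e))) (mat (c, j, e) a)) (mat (c, j, e) b) n') = 0 := by
        intro e
        have h2 : st (sf c b) (b (.x (c, j, e))) (mat (c, j, e) a) n' = 0 := by
          rw [nil_st (N := 0) _ _ _ fun i k hi => nil_mat_zero ha _ i k (by have := k.2; omega),
            st_zero_right]
          rfl
        have h3 : kap (tb (sf c b) (b (.x (c, j, e))) (mat (c, j, e) a)) (mat (c, j, e) b) n' =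
            kap 0 (mat (c, j, e) b) n' := by
          refine nil_kap _ (fun i k hi => ?_) fun i k hi => rfl
          rw [nil_tb (N := 0) _ _ _ _ fun i' k' hi' hk' => nil_mat_zero ha _ i' k' ?_, tb_zero]
          have h1 := Fin.le_def.1 hi'
          have h2 := k'.2
          unfold nrow at hi
          split_ifs at hi <;> omega
        rw [h2, h3, kap_zero_left]
        simp
      rw [Finset.sum_eq_zero fun e _ => h1 e, add_zero]
    · intro m hm
      refine ha _ ?_
      have := Fin.lt_def.1 hm
      simp only [nwt]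
      omega

theorem NAg.refl (n : ℕ) (a : SRG) : NAg n a a := fun _ _ => rfl

theorem NAg.symm {n : ℕ} {a b : SRG} (h : NAg n a b) : NAg n b a := fun k hk => (h k hk).symm

/-- the terms of the series -/
def nilH (n : ℕ) : Subgroup SRG where
  carrier := {a | NAg n a 1}
  one_mem' := NAg.refl n 1
  mul_mem' := fun {a b} ha hb => by
    have := nil_mul ha hb
    rwa [mul_one] at this
  inv_mem' := fun {a} ha => by
    have := nil_mul (NAg.refl n a⁻¹) ha
    rw [inv_mul_cancel, mul_one] at this
    exact this.symm

theorem mem_nilH {n : ℕ} {a : SRG} : a ∈ nilH n ↔ NAg n a 1 := Iff.rfl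

instance isNilpotent_SRG : Group.IsNilpotent SRG := by
  rw [Subgroup.nilpotent_iff_finite_descending_central_series]
  refine ⟨16, nilH, ⟨?_, ?_⟩, ?_⟩
  · refine eq_top_iff.2 fun a _ => ?_
    exact fun k hk => absurd hk (Nat.not_lt_zero _)
  · intro x n hx g
    have h1 : NAg (n + 1) (x * g) (g * x) := fun k hk => by
      rw [nil_left hx k hk, nil_right hx k hk, add_comm]
    have h2 := nil_mul h1 (NAg.refl (n + 1) (x⁻¹ * g⁻¹))
    have e1 : x * g * (x⁻¹ * g⁻¹) = x * g * x⁻¹ * g⁻¹ := by group
    have e2 : g * x * (x⁻¹ * g⁻¹) = 1 := by group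
    rw [e1, e2] at h2
    exact h2
  · refine (Subgroup.eq_bot_iff_forall _).2 fun a ha => ?_
    ext k
    refine ha k ?_
    cases k with
    | m β i k =>
      have h1 := i.2
      have h2 := k.2
      simp only [nwt]
      omega
    | z c j n =>
      simp only [nwt]
      omega
    | _ => simp only [nwt]; omega

end

end H8SR
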