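import Pool.Agent.Lib.H8SR.CPG

/-!
# H8SR: the constraint sets, nodes and states (definitions)
-/

namespace H8SR

open MeasureTheory Set Filter Topology
open scoped Manifold ContDiff

noncomputable section

/-- block potential `x^4/4 + γ/3 (x^3 M₀ - 3 x^2 M₁ + 3 x M₂ - M₃)` from a row of moments -/
def fb (γ : ℝ) (M : Fin 4 → ℝ) (x : ℝ) : ℝ :=
  x ^ 4 / 4 + γ / 3 * (x ^ 3 * M 0 - 3 * x ^ 2 * M 1 + 3 * x * M 2 - M 3)

/-- potential of the sector `j` of the family `a` at the positions `x` -/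
def Fp (a : Fin 6) (j : Fin 4) (g : SRG) (x : Fin 4 → ℝ) : ℝ :=
  ∑ e, ep e * fb (gg e) (mat (a, j, e) g 2) (x e)

/-- positions of the sector `(a, j)` -/
def xs (a : Fin 6) (j : Fin 4) (g : SRG) : Fin 4 → ℝ := fun e => g (.x (a, j, e))

/-- momentum of a block -/
def chi (β : Blk) (g : SRG) : ℝ :=
  mat β g 2 3 + gg β.2.2 * (mat β g 2 0 * mat β g 2 2 - mat β g 2 1 ^ 2)

/-- momentum in the direction of the modulator -/
def psi (a : Fin 6) (j : Fin 4) (g : SRG) : ℝ :=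
  g (.z a j 1) + ∑ e, ep e * (gg e / 3 * kr (mat (a, j, e) g 1) (mat (a, j, e) g 2))

/-- The constraint set of the covector `∑ j, α j z_{a j 0}^*`. -/
def Zs (a : Fin 6) (α : Fin 4 → ℝ) : Set SRG :=
  {g | sf a g * ∑ j, α j * Fp a j g (xs a j g) = 0 ∧ (∀ j e, chi (a, j, e) g = 0) ∧
    ∑ j, α j * psi a j g = 0}

/-- The functional `∑ j, α j z_{a j 0}`. -/
def lamS (a : Fin 6) (α : Fin 4 → ℝ) (g : SRG) : ℝ := ∑ j, α j * g (.z a j 0)

/-- The constraint set of the covector `l(q)^2`. -/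
def Zq (l : Fin 3 → ℝ) : Set SRG := {g | ∑ i, l i * g (.q i) = 0 ∧ ∑ i, l i * g (.lq i) = 0}

/-- coefficients of `l(q)^2` in the basis `s_a^2` -/
def cq (l : Fin 3 → ℝ) : Fin 6 → ℝ :=
  ![l 0 ^ 2 - l 0 * l 1 - l 0 * l 2, l 1 ^ 2 - l 0 * l 1 - l 1 * l 2,
    l 2 ^ 2 - l 0 * l 2 - l 1 * l 2, l 0 * l 1, l 0 * l 2, l 1 * l 2]

/-- The functional `L(l(q)^2)`. -/
def lamQ (l : Fin 3 → ℝ) (g : SRG) : ℝ := ∑ c, cq l c * g (.sq c)

/-! ## node points -/

/-- The row of effective moments of a node with position `A`, total charge `T`, parameter `p`. -/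
def nd (γ A T p : ℝ) : Fin 4 → ℝ :=
  ![T, (3 * A ^ 2 + 2 * γ * T * A - p) / (2 * γ), (2 * A ^ 3 + γ * T * A ^ 2 - p * A) / γ,
    - γ * (T * ((2 * A ^ 3 + γ * T * A ^ 2 - p * A) / γ)
      - ((3 * A ^ 2 + 2 * γ * T * A - p) / (2 * γ)) ^ 2)]

/-- value of `z_{a j 0}` at a node, from the rows of effective moments -/
def ndz (M : Fin 4 → Fin 4 → ℝ) : ℝ :=
  - (1 / 10) * ∑ e, ep e * (gg e * (M e 0 * M e 3 - M e 1 * M e 2))

/-- the parameters are balanced -/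
def Bal (p : Fin 4 → Fin 4 → ℝ) : Prop := ∀ j, ∑ e, ep e * p j e ^ 2 = 0

/-- The effective coordinates (without the positions) are those of a node. -/
structure IsNd (a : Fin 6) (α : Fin 4 → ℝ) (A : Fin 4 → Fin 4 → ℝ) (T : ℝ)
    (p : Fin 4 → Fin 4 → ℝ) (g : SRG) : Prop where
  mom : ∀ j e, mat (a, j, e) g 2 = nd (gg e) (A j e) T (p j e)
  zz : ∀ j, g (.z a j 0) = ndz (fun e => nd (gg e) (A j e) T (p j e))
  ps : ∑ j, α j * psi a j g = 0

/-- State: node coordinates, the positions of the family `a` are `A`, all the others are `0`. -/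
structure IsSt (a : Fin 6) (α : Fin 4 → ℝ) (A : Fin 4 → Fin 4 → ℝ) (T : ℝ)
    (p : Fin 4 → Fin 4 → ℝ) (g : SRG) : Prop extends IsNd a α A T p g where
  q0 : ∀ i, g (.q i) = 0
  xa : ∀ j e, g (.x (a, j, e)) = A j e
  xo : ∀ β : Blk, β.1 ≠ a → g (.x β) = 0

/-- Every element with state `(A, T, p)` is joined inside `Zs a α`, by a curve of length `≤ ℓ`, to some
element with state `(A', T', p')`. -/
def NR (a : Fin 6) (α : Fin 4 → ℝ) (ℓ : ℝ) (A : Fin 4 → Fin 4 → ℝ) (T : ℝ)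
    (p : Fin 4 → Fin 4 → ℝ) (A' : Fin 4 → Fin 4 → ℝ) (T' : ℝ) (p' : Fin 4 → Fin 4 → ℝ) : Prop :=
  ∀ g, IsSt a α A T p g → ∃ g', IsSt a α A' T' p' g' ∧ SRP.Reach (Zs a α) ℓ g g'

/-- joined to the identity -/
def Jn (Z : Set SRG) (g : SRG) : Prop := ∃ ℓ, SRP.Reach Z ℓ 1 g

/-! ## elements of the subgroup `G₀` of elements with position zero -/

/-- position zero -/
def P0 (g : SRG) : Prop := (∀ i, g (.q i) = 0) ∧ ∀ β, g (.x β) = 0

/-- the bracket of `G₀`: only the coordinates `z` -/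
def kz (g h : SRG) : SRG := fun k => match k with
  | .z c j n => ∑ e, ep e * (gg e / 6 * kap (mat (c, j, e) h) (mat (c, j, e) g) n)
  | _ => 0

/-- The subspace `K(a, α)`. -/
def Ks (a : Fin 6) (α : Fin 4 → ℝ) : Set SRG :=
  {g | P0 g ∧ g (.sq a) = 0 ∧ (∀ j e k, g (.m (a, j, e) 2 k) = 0) ∧ (∀ j, g (.z a j 0) = 0) ∧
    ∑ j, α j * g (.z a j 1) = 0}

/-- The subspace for `Zq l`. -/
def Kq (l : Fin 3 → ℝ) : Set SRG := {g | P0 g ∧ ∑ i, l i * g (.lq i) = 0}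

/-- coordinate vectors -/
def ev (k : Idx) : SRG := (Pi.single k 1 : Idx → ℝ)

end

end H8SR
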